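import Mathlib

/-!
# There is an analytic subset of the Baire space which is not Borel (classical)
-/

open MeasureTheory Set Filter Topology

namespace CPE48

/-- a sequence of open sets such that every open set is the union of a subfamily -/
theorem ins6_basis (Y : Type*) [TopologicalSpace Y] [SecondCountableTopology Y] :
    ∃ V : ℕ → Set Y, (∀ n, IsOpen (V n)) ∧
      ∀ W : Set Y, IsOpen W → ∃ c : ℕ → ℕ, W = ⋃ n, V (c n) := by
  obtain ⟨B, hBc, -, hB⟩ := TopologicalSpace.exists_countable_basis Y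
  have h1 : (insert ∅ B).Countable := hBc.insert ∅
  obtain ⟨V, hV⟩ := h1.exists_eq_range ⟨∅, mem_insert _ _⟩
  refine ⟨V, ?_, ?_⟩
  · intro n
    have : V n ∈ insert ∅ B := by
      rw [hV]
      exact mem_range_self n
    rcases this with h | h
    · rw [h]
      exact isOpen_empty
    · exact hB.isOpen h
  · intro W hW
    have h2 : ({s ∈ insert ∅ B | s ⊆ W} : Set (Set Y)).Countable := h1.mono (fun s hs => hs.1)
    obtain ⟨f, hf⟩ := h2.exists_eq_range ⟨∅, mem_insert _ _, empty_subset _⟩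
    have h3 : ∀ n, ∃ m, V m = f n := by
      intro n
      have h5 : f n ∈ {s ∈ insert ∅ B | s ⊆ W} := by
        rw [hf]
        exact mem_range_self n
      have h4 := h5.1
      rw [hV] at h4
      exact h4
    choose c hc using h3
    refine ⟨c, ?_⟩
    ext y
    simp only [mem_iUnion, hc]
    constructor
    · intro hy
      obtain ⟨s, hs, hys, hsW⟩ := hB.exists_subset_of_mem_open hy hW
      have h5 : s ∈ {s ∈ insert ∅ B | s ⊆ W} := ⟨mem_insert_of_mem _ hs, hsW⟩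
      rw [hf] at h5
      obtain ⟨n, rfl⟩ := h5
      exact ⟨n, hys⟩
    · rintro ⟨n, hn⟩
      have h5 : f n ∈ {s ∈ insert ∅ B | s ⊆ W} := by
        rw [hf]
        exact mem_range_self n
      exact h5.2 hn

/-- task INS6: an analytic set which is not Borel -/
theorem exists_analytic_not_borel :
    ∃ A : Set (ℕ → ℕ), AnalyticSet A ∧ ¬ MeasurableSet A := by
  obtain ⟨V, hV, hV'⟩ := ins6_basis ((ℕ → ℕ) × (ℕ → ℕ))
  set D : Set (ℕ → ℕ) := {c | ∃ x : ℕ → ℕ, ∀ n, (c, x) ∉ V (c n)} with hD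
  have hDa : AnalyticSet D := by
    have hcl : IsClosed {p : (ℕ → ℕ) × (ℕ → ℕ) | ∀ n, p ∉ V (p.1 n)} := by
      have e1 : {p : (ℕ → ℕ) × (ℕ → ℕ) | ∀ n, p ∉ V (p.1 n)} =
          ⋂ n, {p : (ℕ → ℕ) × (ℕ → ℕ) | p ∉ V (p.1 n)} := by
        ext p
        simp
      rw [e1]
      refine isClosed_iInter fun n => ?_
      rw [← isOpen_compl_iff]
      have e2 : {p : (ℕ → ℕ) × (ℕ → ℕ) | p ∉ V (p.1 n)}ᶜ =
          ⋃ m, ({p : (ℕ → ℕ) × (ℕ → ℕ) | p.1 n = m} ∩ V m) := by
        ext p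
        simp
      rw [e2]
      refine isOpen_iUnion fun m => IsOpen.inter ?_ (hV m)
      have hcont : Continuous fun p : (ℕ → ℕ) × (ℕ → ℕ) => p.1 n :=
        (continuous_apply n).comp continuous_fst
      exact (isOpen_discrete ({m} : Set ℕ)).preimage hcont
    have h1 := (hcl.analyticSet).image_of_continuous continuous_fst
    have e3 : Prod.fst '' {p : (ℕ → ℕ) × (ℕ → ℕ) | ∀ n, p ∉ V (p.1 n)} = D := by
      ext c
      constructor
      · rintro ⟨⟨c', x⟩, hp, rfl⟩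
        exact ⟨x, hp⟩
      · rintro ⟨x, hx⟩
        exact ⟨(c, x), hx, rfl⟩
    rwa [e3] at h1
  refine ⟨D, hDa, fun hm => ?_⟩
  have hc := hm.compl.analyticSet
  rw [AnalyticSet] at hc
  have h2 : ∃ c : ℕ → ℕ, ∀ a, a ∈ Dᶜ ↔ ∃ x : ℕ → ℕ, ∀ n, (a, x) ∉ V (c n) := by
    rcases hc with h | ⟨φ, hφ, h⟩
    · obtain ⟨c, hc⟩ := hV' univ isOpen_univ
      refine ⟨c, fun a => ?_⟩
      rw [h]
      constructor
      · intro h
        exact absurd h (notMem_empty a)
      · rintro ⟨x, hx⟩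
        have h3 : (a, x) ∈ (univ : Set ((ℕ → ℕ) × (ℕ → ℕ))) := mem_univ _
        rw [hc, mem_iUnion] at h3
        obtain ⟨n, hn⟩ := h3
        exact absurd hn (hx n)
    · obtain ⟨c, hc⟩ := hV' {p | p.1 ≠ φ p.2}
        (isOpen_ne_fun continuous_fst (hφ.comp continuous_snd))
      refine ⟨c, fun a => ?_⟩
      rw [← h]
      constructor
      · rintro ⟨x, rfl⟩
        refine ⟨x, fun n hn => ?_⟩
        have h3 : (φ x, x) ∈ {p : (ℕ → ℕ) × (ℕ → ℕ) | p.1 ≠ φ p.2} := by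
          rw [hc]
          exact mem_iUnion.2 ⟨n, hn⟩
        exact h3 rfl
      · rintro ⟨x, hx⟩
        by_contra hcon
        have h3 : (a, x) ∈ {p : (ℕ → ℕ) × (ℕ → ℕ) | p.1 ≠ φ p.2} := fun h => hcon ⟨x, h.symm⟩
        rw [hc, mem_iUnion] at h3
        obtain ⟨n, hn⟩ := h3
        exact hx n hn
  obtain ⟨c, hc⟩ := h2
  have h1 : c ∈ Dᶜ ↔ c ∈ D := hc c
  rw [mem_compl_iff] at h1
  tauto


end CPE48
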