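import Pool.Agent.LibCPE48.Defs

/-! TASK A01 (~50 lines).  Products and factors of mixing maps, exact maps are mixing.

* `Mixing.prod`: open sets of the product contain open rectangles (`isOpen_prod_iff`);
  `(Prod.map f g)^[m] = Prod.map f^[m] g^[m]` (`Prod.map_iterate`); take the max of the two `M`.
* `Mixing.factor`: pull `U, V` back by `π`; `π (f^[m] x) = g^[m] (π x)`
  (`Function.Semiconj.iterate_right` or induction).
* `mixing_of_exact`: take `m` with `D^[m] '' V = univ`; for `n ≥ m`,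
  `D^[n] '' V = D^[n-m] '' univ = univ` by surjectivity, so `D^[n]` of some point of `V` is a given
  point of `U`.
-/

namespace CPE48

open Set Function Filter Topology

theorem Mixing.prod {X Y : Type*} [TopologicalSpace X] [TopologicalSpace Y] {f : X → X}
    {g : Y → Y} (hf : Mixing f) (hg : Mixing g) : Mixing (Prod.map f g) := by
  intro U V hU hV hUn hVn
  obtain ⟨⟨a, b⟩, hab⟩ := hUn
  obtain ⟨⟨c, d⟩, hcd⟩ := hVn
  obtain ⟨u1, u2, hu1, hu2, ha, hb, hu⟩ := isOpen_prod_iff.mp hU a b hab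
  obtain ⟨v1, v2, hv1, hv2, hc, hd, hv⟩ := isOpen_prod_iff.mp hV c d hcd
  obtain ⟨M1, hM1⟩ := hf u1 v1 hu1 hv1 ⟨a, ha⟩ ⟨c, hc⟩
  obtain ⟨M2, hM2⟩ := hg u2 v2 hu2 hv2 ⟨b, hb⟩ ⟨d, hd⟩
  refine ⟨max M1 M2, fun m hm => ?_⟩
  obtain ⟨x, hx1, hx2⟩ := hM1 m (le_trans (le_max_left _ _) hm)
  obtain ⟨y, hy1, hy2⟩ := hM2 m (le_trans (le_max_right _ _) hm)
  refine ⟨(x, y), ?_, hv ⟨hx2, hy2⟩⟩
  show (Prod.map f g)^[m] (x, y) ∈ U
  rw [Prod.map_iterate]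
  exact hu ⟨hx1, hy1⟩

theorem Mixing.factor {X Y : Type*} [TopologicalSpace X] [TopologicalSpace Y] {f : X → X}
    {g : Y → Y} {π : X → Y} (hπ : Continuous π) (hs : Surjective π)
    (h : ∀ x, π (f x) = g (π x)) (hf : Mixing f) : Mixing g := by
  intro U V hU hV hUn hVn
  have hsemi : Semiconj π f g := h
  obtain ⟨a, ha⟩ := hUn
  obtain ⟨b, hb⟩ := hVn
  obtain ⟨x, rfl⟩ := hs a
  obtain ⟨y, rfl⟩ := hs b
  obtain ⟨M, hM⟩ := hf (π ⁻¹' U) (π ⁻¹' V) (hU.preimage hπ) (hV.preimage hπ) ⟨x, ha⟩ ⟨y, hb⟩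
  refine ⟨M, fun m hm => ?_⟩
  obtain ⟨z, hz1, hz2⟩ := hM m hm
  refine ⟨π z, ?_, hz2⟩
  show g^[m] (π z) ∈ U
  rw [← (hsemi.iterate_right m) z]
  exact hz1

theorem mixing_of_exact {Y : Type*} [TopologicalSpace Y] {D : Y → Y} (hs : Surjective D)
    (h : ∀ U : Set Y, IsOpen U → U.Nonempty → ∃ m : ℕ, D^[m] '' U = univ) : Mixing D := by
  intro U V _ hV hUn hVn
  obtain ⟨m, hm⟩ := h V hV hVn
  obtain ⟨u, hu⟩ := hUn
  refine ⟨m, fun n hn => ?_⟩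
  obtain ⟨w, hw⟩ := hs.iterate (n - m) u
  have hw' : w ∈ D^[m] '' V := by rw [hm]; exact mem_univ w
  obtain ⟨v, hv, hvw⟩ := hw'
  refine ⟨v, ?_, hv⟩
  show D^[n] v ∈ U
  have hn' : n = (n - m) + m := by omega
  rw [hn', Function.iterate_add_apply, hvw, hw]
  exact hu

end CPE48
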