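import Pool.Agent.LibCPE48.Defs

/-! TASK A02 (~40 lines).  Invariance of mixing and of CPE under conjugation by a homeomorphism.

`Mixing`: one direction applied to `h` and to `h.symm` (or use open sets `h '' U`).
`CPE`: a factor `π` of `h ∘ f ∘ h⁻¹` gives the factor `π ∘ h` of `f`, and conversely a factor `π`
of `f` gives the factor `π ∘ h.symm`.
-/

namespace CPE48

open Set Function Filter Topology

theorem a02_iter {X Y : Type*} [TopologicalSpace X] [TopologicalSpace Y] (h : X ≃ₜ Y)
    (f : X → X) (m : ℕ) (x : X) : (fun y => h (f (h.symm y)))^[m] (h x) = h (f^[m] x) := by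
  induction m generalizing x with
  | zero => rfl
  | succ m ih =>
    rw [iterate_succ_apply, iterate_succ_apply]
    simp only [Homeomorph.symm_apply_apply]
    exact ih (f x)

theorem a02_mix {X Y : Type*} [TopologicalSpace X] [TopologicalSpace Y] (h : X ≃ₜ Y)
    (f : X → X) (hf : Mixing f) : Mixing (fun y => h (f (h.symm y))) := by
  intro U V hU hV hU0 hV0
  obtain ⟨u, hu⟩ := hU0
  obtain ⟨v, hv⟩ := hV0
  obtain ⟨M, hM⟩ := hf (h ⁻¹' U) (h ⁻¹' V) (hU.preimage h.continuous) (hV.preimage h.continuous)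
    ⟨h.symm u, by simpa using hu⟩ ⟨h.symm v, by simpa using hv⟩
  refine ⟨M, fun m hm => ?_⟩
  obtain ⟨x, hx1, hx2⟩ := hM m hm
  refine ⟨h x, ?_, hx2⟩
  show (fun y => h (f (h.symm y)))^[m] (h x) ∈ U
  rw [a02_iter]
  exact hx1

theorem a02_cpe {X Y : Type*} [TopologicalSpace X] [TopologicalSpace Y] (h : X ≃ₜ Y)
    (f : X → X) (hf : CPE f) : CPE (fun y => h (f (h.symm y))) := by
  intro Z _ _ g π hg hπ hs hc hn
  refine hf Z g (fun x => π (h x)) hg (hπ.comp h.continuous) (hs.comp h.surjective) ?_ hn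
  intro x
  have h1 := hc (h x)
  simp only [Homeomorph.symm_apply_apply] at h1
  exact h1

theorem a02_back {X Y : Type*} [TopologicalSpace X] [TopologicalSpace Y] (h : X ≃ₜ Y)
    (f : X → X) :
    (fun x => h.symm ((fun y => h (f (h.symm y))) (h.symm.symm x))) = f := by
  funext x
  simp

theorem mixing_conj {X Y : Type*} [TopologicalSpace X] [TopologicalSpace Y] (h : X ≃ₜ Y)
    (f : X → X) : Mixing (fun y => h (f (h.symm y))) ↔ Mixing f := by
  refine ⟨fun hf => ?_, a02_mix h f⟩
  have h1 := a02_mix h.symm _ hf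
  rwa [a02_back h f] at h1

theorem cpe_conj {X Y : Type*} [TopologicalSpace X] [TopologicalSpace Y] (h : X ≃ₜ Y)
    (f : X → X) : CPE (fun y => h (f (h.symm y))) ↔ CPE f := by
  refine ⟨fun hf => ?_, a02_cpe h f⟩
  have h1 := a02_cpe h.symm _ hf
  rwa [a02_back h f] at h1

end CPE48
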