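import Pool.Agent.LibCPE48.Defs

/-! TASK A03.  `ZE` is stable under products and factors.
-/

namespace CPE48

open Set Function Filter Topology

theorem ZE.prod {X Y : Type*} [PseudoMetricSpace X] [PseudoMetricSpace Y] {f : X → X}
    {g : Y → Y} (hf : ZE f) (hg : ZE g) : ZE (Prod.map f g) := by
  intro ε hε η hη
  obtain ⟨K₁, h₁⟩ := hf ε hε (η / 2) (half_pos hη)
  obtain ⟨K₂, h₂⟩ := hg ε hε (η / 2) (half_pos hη)
  refine ⟨K₁ * K₂, fun n => ?_⟩
  obtain ⟨κ₁, i₁, d₁, hc₁, hd₁⟩ := h₁ n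
  obtain ⟨κ₂, i₂, d₂, hc₂, hd₂⟩ := h₂ n
  refine ⟨κ₁ × κ₂, inferInstance, fun p => (d₁ p.1, d₂ p.2), ?_, ?_⟩
  · rw [Fintype.card_prod, Nat.cast_mul]
    have h3 : (Fintype.card κ₁ : ℝ) * (Fintype.card κ₂ : ℝ)
        ≤ (K₁ * Real.exp (η / 2 * n)) * (K₂ * Real.exp (η / 2 * n)) :=
      mul_le_mul hc₁ hc₂ (Nat.cast_nonneg _) ((Nat.cast_nonneg _).trans hc₁)
    refine h3.trans (le_of_eq ?_)
    have h4 : Real.exp (η * n) = Real.exp (η / 2 * n) * Real.exp (η / 2 * n) := by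
      rw [← Real.exp_add]
      congr 1
      ring
    rw [h4]
    ring
  · intro x y hxy j hj
    rw [Prod.mk.injEq] at hxy
    rw [Prod.map_iterate, Prod.dist_eq]
    exact max_lt (hd₁ _ _ hxy.1 j hj) (hd₂ _ _ hxy.2 j hj)

theorem ZE.factor {X Y : Type*} [PseudoMetricSpace X] [CompactSpace X] [PseudoMetricSpace Y]
    {f : X → X} {g : Y → Y} {π : X → Y} (hπ : Continuous π) (hs : Surjective π)
    (h : ∀ x, π (f x) = g (π x)) (hf : ZE f) : ZE g := by
  intro ε hε η hη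
  have huc := CompactSpace.uniformContinuous_of_continuous hπ
  rw [Metric.uniformContinuous_iff] at huc
  obtain ⟨δ, hδ, hd⟩ := huc ε hε
  obtain ⟨K, hK⟩ := hf δ hδ η hη
  refine ⟨K, fun n => ?_⟩
  obtain ⟨κ, i, d, hc, hdd⟩ := hK n
  have hiter : ∀ (j : ℕ) (x : X), π (f^[j] x) = g^[j] (π x) := by
    intro j
    induction j with
    | zero => intro x; rfl
    | succ j ih =>
      intro x
      rw [Function.iterate_succ_apply, Function.iterate_succ_apply, ih, h]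
  refine ⟨κ, i, fun y => d (surjInv hs y), hc, ?_⟩
  intro x y hxy j hj
  have h1 := hd (hdd _ _ hxy j hj)
  rw [hiter, hiter, surjInv_eq hs, surjInv_eq hs] at h1
  exact h1

end CPE48
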