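import Pool.Agent.LibCPE48.Defs

/-! TASK A04 (~70 lines).  `ZE g` implies that the topological entropy of `g` is not positive.

`Dynamics.coverEntropy g univ = ⨆ U ∈ 𝓤 Y, coverEntropyEntourage g univ U`; it suffices that
`coverEntropyEntourage g univ U ≤ η` for every real `η > 0` and every entourage
`U ⊇ {p | dist p.1 p.2 < ε}` (use `coverEntropyEntourage_antitone` or work with `U` directly:
`Metric.mem_uniformity_dist`).  For each `n` pick one point in every nonempty description class
(at most `card κ` points): this is a dynamical cover (`Dynamics.IsDynCoverOf`), hence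
`coverMincard g univ U n ≤ card κ ≤ K exp(η n)` (see `Dynamics.coverMincard_le_card`).
`coverEntropyEntourage` is the `limsup` of `log (coverMincard) / n` (file
Mathlib/Dynamics/TopologicalEntropy/CoverEntropy.lean: `coverEntropyEntourage`,
`ENNReal.log`, and `expGrowthSup` if it is phrased that way in this Mathlib version);
`log K / n + η → η`.  One may take `K ≥ 1` first. `Y` may be empty.
-/

namespace CPE48

open Set Function Filter Topology

theorem a04_mincard {Y : Type*} [PseudoMetricSpace Y] {g : Y → Y} {U : SetRel Y Y} {ε : ℝ}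
    (hU : ∀ x y : Y, dist x y < ε → (x, y) ∈ U) (n : ℕ) {κ : Type} [Fintype κ] (d : Y → κ)
    (hd : ∀ x y, d x = d y → ∀ j < n, dist (g^[j] x) (g^[j] y) < ε) :
    Dynamics.coverMincard g Set.univ U n ≤ (Fintype.card κ : ℕ∞) := by
  classical
  let s : Finset Y := (Finset.univ : Finset (Set.range d)).image (fun c => c.2.choose)
  have hs : Dynamics.IsDynCoverOf g Set.univ U n (s : Set Y) := by
    intro x _
    have hx : d x ∈ Set.range d := ⟨x, rfl⟩
    refine ⟨hx.choose, ?_, ?_⟩
    · rw [Finset.mem_coe]
      exact Finset.mem_image.mpr ⟨⟨d x, hx⟩, Finset.mem_univ _, rfl⟩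
    · show (x, hx.choose) ∈ Dynamics.dynEntourage g U n
      rw [Dynamics.mem_dynEntourage]
      intro k hk
      exact hU _ _ (hd _ _ hx.choose_spec.symm k hk)
  refine hs.coverMincard_le_card.trans ?_
  have h1 : s.card ≤ Fintype.card (Set.range d) := by
    refine Finset.card_image_le.trans ?_
    rw [Finset.card_univ]
  have h2 : Fintype.card (Set.range d) ≤ Fintype.card κ :=
    Fintype.card_le_of_injective (fun c => (c : κ)) Subtype.val_injective
  exact_mod_cast h1.trans h2

theorem a04_entourage {Y : Type*} [PseudoMetricSpace Y] {g : Y → Y} (h : ZE g) {U : SetRel Y Y}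
    {ε : ℝ} (hε : 0 < ε) (hU : ∀ x y : Y, dist x y < ε → (x, y) ∈ U) {η : ℝ} (hη : 0 < η) :
    Dynamics.coverEntropyEntourage g Set.univ U ≤ ((η : ℝ) : EReal) := by
  obtain ⟨K, hK⟩ := h ε hε (η / 2) (half_pos hη)
  unfold Dynamics.coverEntropyEntourage
  apply Eventually.expGrowthSup_le
  have h1 : ∀ᶠ n : ℕ in atTop, K ≤ Real.exp (η / 2 * n) := by
    have h2 : Tendsto (fun n : ℕ => Real.exp (η / 2 * n)) atTop atTop :=
      Real.tendsto_exp_atTop.comp
        (tendsto_natCast_atTop_atTop.const_mul_atTop (half_pos hη))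
    exact h2.eventually_ge_atTop K
  filter_upwards [h1] with n hn
  obtain ⟨κ, hκ, d, hcard, hd⟩ := hK n
  have h3 := a04_mincard hU n d hd
  have h4 : ((Dynamics.coverMincard g Set.univ U n : ℕ∞) : ENNReal) ≤
      ((Fintype.card κ : ℕ) : ENNReal) := by
    have := ENat.toENNReal_mono h3
    simpa using this
  refine h4.trans ?_
  have h5 : (Fintype.card κ : ℝ) ≤ Real.exp (η * n) := by
    refine hcard.trans ?_
    calc K * Real.exp (η / 2 * n) ≤ Real.exp (η / 2 * n) * Real.exp (η / 2 * n) :=
          mul_le_mul_of_nonneg_right hn (Real.exp_pos _).le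
      _ = Real.exp (η * n) := by
          rw [← Real.exp_add]
          congr 1
          ring
  have h6 : ((η : ℝ) : EReal) * (n : EReal) = ((η * n : ℝ) : EReal) := by
    push_cast
    rfl
  rw [h6, EReal.exp_coe]
  rw [← ENNReal.ofReal_natCast]
  exact ENNReal.ofReal_le_ofReal h5

theorem ZE.not_pos_entropy {Y : Type*} [PseudoMetricSpace Y] {g : Y → Y} (h : ZE g) :
    ¬ (0 < Dynamics.coverEntropy g Set.univ) := by
  intro hpos
  obtain ⟨η, hη0, hη1⟩ := EReal.lt_iff_exists_real_btwn.mp hpos
  have hη : 0 < η := by exact_mod_cast hη0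
  refine absurd hη1 (not_lt.mpr ?_)
  unfold Dynamics.coverEntropy
  refine iSup₂_le fun U hU => ?_
  obtain ⟨ε, hε, hεU⟩ := Metric.mem_uniformity_dist.mp hU
  exact a04_entourage h hε (fun x y hxy => hεU hxy) hη

end CPE48
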