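import Pool.Agent.LibCPE48.Defs

/-! TASK A05 (~70 lines).  Exponentially many separated orbit segments give positive entropy.

Files Mathlib/Dynamics/TopologicalEntropy/{NetEntropy,CoverEntropy}.lean:
`Dynamics.coverEntropy_eq_iSup_netEntropyEntourage` (or `netEntropySupEntourage`...),
`Dynamics.IsDynNetIn`, `Dynamics.netMaxcard`.  Take the entourage
`U = {p | dist p.1 p.2 < δ / 2}`: if `x, y` satisfy `δ ≤ dist (k^[j] x) (k^[j] y)` for some
`j < n` then the balls of `x` and `y` for `dynEntourage k U n` are disjoint.  So `E` is a dynamical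
net, `E.card ≤ netMaxcard k univ U n`, and for infinitely many `n`,
`log (netMaxcard ..) / n ≥ c` (`n > 0` eventually), so that the `limsup` is `≥ c > 0`
(`Filter.le_limsup_of_frequently_le`).
Or use directly `coverMincard k univ U n ≥ card E` (each set of the cover contains at most one point
of `E`) and the definition of `coverEntropy`.
-/

namespace CPE48

open Set Function Filter Topology

theorem pos_entropy_of_separated {Z : Type*} [PseudoMetricSpace Z] (k : Z → Z) (δ c : ℝ)
    (hδ : 0 < δ) (hc : 0 < c)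
    (h : ∃ᶠ n : ℕ in atTop, ∃ E : Finset Z, Real.exp (c * n) ≤ E.card ∧
      ∀ x ∈ E, ∀ y ∈ E, x ≠ y → ∃ j < n, δ ≤ dist (k^[j] x) (k^[j] y)) :
    0 < Dynamics.coverEntropy k Set.univ := by
  have hU : {p : Z × Z | dist p.1 p.2 < δ / 2} ∈ uniformity Z :=
    Metric.dist_mem_uniformity (by positivity)
  have h1 := Dynamics.netEntropyEntourage_le_coverEntropy (T := k) (F := Set.univ) hU
  refine lt_of_lt_of_le ?_ h1
  have h2 : (c : EReal) ≤ Dynamics.netEntropyEntourage k Set.univ
      {p : Z × Z | dist p.1 p.2 < δ / 2} := by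
    unfold Dynamics.netEntropyEntourage ExpGrowth.expGrowthSup
    refine le_limsup_of_frequently_le ?_
    refine (h.and_eventually (eventually_gt_atTop 0)).mono ?_
    rintro n ⟨⟨E, hE, hEs⟩, hn⟩
    have hn0 : (0 : EReal) < ((n : ℕ) : EReal) := by exact_mod_cast hn
    have hnt : ((n : ℕ) : EReal) ≠ ⊤ := EReal.natCast_ne_top n
    rw [EReal.le_div_iff_mul_le hn0 hnt]
    have hnet : Dynamics.IsDynNetIn k Set.univ {p : Z × Z | dist p.1 p.2 < δ / 2} n
        (E : Set Z) := by
      refine ⟨Set.subset_univ _, ?_⟩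
      intro x hx y hy hxy
      obtain ⟨j, hj, hd⟩ := hEs x hx y hy hxy
      rw [Function.onFun, Set.disjoint_left]
      intro z hz hz'
      rw [UniformSpace.ball, Set.mem_preimage, Dynamics.mem_dynEntourage] at hz hz'
      have h3 : dist (k^[j] x) (k^[j] z) < δ / 2 := hz j hj
      have h4 : dist (k^[j] y) (k^[j] z) < δ / 2 := hz' j hj
      have h5 := dist_triangle_right (k^[j] x) (k^[j] y) (k^[j] z)
      linarith
    have hcard := hnet.card_le_netMaxcard
    have h3 : ENNReal.ofReal (Real.exp (c * n)) ≤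
        ((Dynamics.netMaxcard k Set.univ {p : Z × Z | dist p.1 p.2 < δ / 2} n : ℕ∞) : ENNReal) := by
      refine le_trans (ENNReal.ofReal_le_ofReal hE) ?_
      rw [ENNReal.ofReal_natCast]
      have h4 : (((E.card : ℕ) : ℕ∞) : ENNReal) ≤
        ((Dynamics.netMaxcard k Set.univ {p : Z × Z | dist p.1 p.2 < δ / 2} n : ℕ∞) : ENNReal) := by
        exact_mod_cast hcard
      exact_mod_cast h4
    have h4 := ENNReal.log_le_log h3
    rw [ENNReal.log_ofReal_of_pos (Real.exp_pos _), Real.log_exp] at h4
    have h5 : ((c * n : ℝ) : EReal) = (c : EReal) * ((n : ℕ) : EReal) := by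
      rw [EReal.coe_mul]
      norm_cast
    rw [h5] at h4
    exact h4
  refine lt_of_lt_of_le ?_ h2
  exact_mod_cast hc

end CPE48
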