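import Pool.Agent.LibCPE48.Defs

/-! TASK A06 (~40 lines).  Itineraries of an exact map.

Prove by induction on `r`: for every `y'` there is `y` with `D^[i j] y ∈ O (s j)` for all `j < r`
and `D^[i r] y = y'`.  Base: `D^[i 0]` is surjective (`hs.iterate`).  Step: given `y'`, write
`D^[i (r+1)] = D^[i (r+1) - i r - m] ∘ D^[m] ∘ D^[i r]` (`Function.iterate_add_apply`); choose `u`
with `D^[i (r+1) - i r - m] u = y'`, then `v ∈ O (s r)` with `D^[m] v = u`, then `y` for `v`.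
-/

namespace CPE48

open Set Function Filter Topology

theorem a06_aux {Y : Type*} {D : Y → Y} (hs : Surjective D)
    (O : Bool → Set Y) (m : ℕ) (hm : ∀ b, D^[m] '' (O b) = univ) (i : ℕ → ℕ)
    (hi : ∀ j, i j + m ≤ i (j + 1)) (s : ℕ → Bool) (r : ℕ) :
    ∀ y', ∃ y, (∀ j < r, D^[i j] y ∈ O (s j)) ∧ D^[i r] y = y' := by
  induction r with
  | zero =>
    intro y'
    obtain ⟨y, hy⟩ := (hs.iterate (i 0)) y'
    exact ⟨y, fun j hj => absurd hj (Nat.not_lt_zero j), hy⟩
  | succ r ih =>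
    intro y'
    obtain ⟨u, hu⟩ := (hs.iterate (i (r + 1) - i r - m)) y'
    have h1 : u ∈ D^[m] '' (O (s r)) := by rw [hm]; exact mem_univ u
    obtain ⟨v, hv, hvu⟩ := h1
    obtain ⟨y, hy, hyv⟩ := ih v
    refine ⟨y, fun j hj => ?_, ?_⟩
    · rcases Nat.lt_succ_iff_lt_or_eq.mp hj with h2 | h2
      · exact hy j h2
      · subst h2
        rw [hyv]
        exact hv
    · have h3 : i (r + 1) = (i (r + 1) - i r - m) + (m + i r) := by
        have := hi r
        omega
      rw [h3, iterate_add_apply, iterate_add_apply, hyv, hvu, hu]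

theorem exact_itinerary {Y : Type*} [Nonempty Y] {D : Y → Y} (hs : Surjective D)
    (O : Bool → Set Y) (m : ℕ) (hm : ∀ b, D^[m] '' (O b) = univ) (r : ℕ) (i : ℕ → ℕ)
    (hi : ∀ j, i j + m ≤ i (j + 1)) (s : ℕ → Bool) :
    ∃ y, ∀ j < r, D^[i j] y ∈ O (s j) := by
  obtain ⟨y, hy, -⟩ := a06_aux hs O m hm i hi s r (Classical.arbitrary Y)
  exact ⟨y, hy⟩

end CPE48
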