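import Pool.Agent.LibCPE48.Defs

/-! TASK A07.  Combinatorics: a set of `≥ θ n` visit times below `n` contains
`≥ θ n / (m+1)` visit times which are pairwise at distance `≥ m`. -/

namespace CPE48

open Set Function Filter Topology

theorem a07_enum (F : Finset ℕ) (m n : ℕ) (hn : ∀ i ∈ F, i < n)
    (hc : ∀ i ∈ F, ∀ j ∈ F, i % (m + 1) = j % (m + 1)) :
    ∃ i : ℕ → ℕ, (∀ j < F.card, i j ∈ F) ∧ ∀ j, i j + m ≤ i (j + 1) := by
  classical
  let f := F.orderEmbOfFin rfl
  refine ⟨fun j => if h : j < F.card then f ⟨j, h⟩ else n + (m + 1) * j, ?_, ?_⟩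
  · intro j hj
    simp only [hj, dif_pos]
    exact Finset.orderEmbOfFin_mem F rfl _
  · intro j
    by_cases h1 : j + 1 < F.card
    · have h0 : j < F.card := by omega
      simp only [h0, h1, dif_pos]
      have hlt : f ⟨j, h0⟩ < f ⟨j + 1, h1⟩ := by
        apply (F.orderEmbOfFin rfl).strictMono
        simp [Fin.lt_def]
      have hmod := hc _ (Finset.orderEmbOfFin_mem F rfl ⟨j, h0⟩) _
        (Finset.orderEmbOfFin_mem F rfl ⟨j + 1, h1⟩)
      change f ⟨j, h0⟩ % (m + 1) = f ⟨j + 1, h1⟩ % (m + 1) at hmod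
      have hd : (m + 1) ∣ f ⟨j + 1, h1⟩ - f ⟨j, h0⟩ :=
        (Nat.modEq_iff_dvd' hlt.le).1 hmod
      have := Nat.le_of_dvd (by omega) hd
      omega
    · by_cases h0 : j < F.card
      · simp only [h0, h1, dif_pos, dif_neg, not_false_eq_true]
        have := hn _ (Finset.orderEmbOfFin_mem F rfl ⟨j, h0⟩)
        change f ⟨j, h0⟩ < n at this
        have h2 : m ≤ (m + 1) * (j + 1) := by nlinarith
        omega
      · simp only [h0, h1, dif_neg, not_false_eq_true]
        have : (m + 1) * (j + 1) = (m + 1) * j + (m + 1) := by ring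
        omega

theorem sparse_visits (S : Set ℕ) (m n : ℕ) (θ : ℝ)
    (h : θ * n ≤ ({i | i < n ∧ i ∈ S} : Set ℕ).ncard) :
    ∃ (r : ℕ) (i : ℕ → ℕ), θ * n / (m + 1) ≤ r ∧ (∀ j < r, i j < n ∧ i j ∈ S) ∧
      ∀ j, i j + m ≤ i (j + 1) := by
  classical
  let V : Finset ℕ := (Finset.range n).filter (fun i => i ∈ S)
  have hV : ({i | i < n ∧ i ∈ S} : Set ℕ) = (V : Set ℕ) := by
    ext i; simp [V]
  rw [hV, Set.ncard_coe_finset] at h
  have hmaps : ∀ i ∈ V, i % (m + 1) ∈ Finset.range (m + 1) := by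
    intro i _
    exact Finset.mem_range.2 (Nat.mod_lt _ (by omega))
  obtain ⟨c, -, hc⟩ := Finset.exists_le_card_fiber_of_nsmul_le_card_of_maps_to
    (s := V) (t := Finset.range (m + 1)) (f := fun i => i % (m + 1))
    (b := (V.card : ℝ) / (m + 1)) hmaps ⟨0, by simp⟩ (by
      rw [Finset.card_range, nsmul_eq_mul]
      push_cast
      field_simp
      exact le_refl _)
  obtain ⟨i, hi1, hi2⟩ := a07_enum (V.filter (fun i => i % (m + 1) = c)) m n
    (by
      intro i hi
      have := (Finset.mem_filter.1 hi).1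
      exact Finset.mem_range.1 (Finset.mem_filter.1 this).1)
    (by
      intro i hi j hj
      rw [(Finset.mem_filter.1 hi).2, (Finset.mem_filter.1 hj).2])
  refine ⟨(V.filter (fun i => i % (m + 1) = c)).card, i, ?_, ?_, hi2⟩
  · refine le_trans ?_ hc
    gcongr
  · intro j hj
    have := (Finset.mem_filter.1 (hi1 j hj)).1
    exact ⟨Finset.mem_range.1 (Finset.mem_filter.1 this).1, (Finset.mem_filter.1 this).2⟩

end CPE48
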