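import Pool.Agent.LibCPE48.A05
import Pool.Agent.LibCPE48.A06
import Pool.Agent.LibCPE48.A07

/-! TASK A08 (~110 lines).  If `D` is exact, if every open set of `C` is visited with positive
upper density by some orbit of `g`, and if `π : C × Y → Z` intertwines `g × D` with a map `k`
whose entropy is not positive, then `π (c, y)` does not depend on `y`.
-/

namespace CPE48

open Set Function Filter Topology

theorem a08_iter {C Y Z : Type*} {g : C → C} {D : Y → Y} (k : Z → Z) (π : C × Y → Z)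
    (hk : ∀ c y, π (g c, D y) = k (π (c, y))) (n : ℕ) (c : C) (y : Y) :
    k^[n] (π (c, y)) = π (g^[n] c, D^[n] y) := by
  induction n generalizing c y with
  | zero => rfl
  | succ n ih =>
    rw [Function.iterate_succ_apply, ← hk, ih]
    simp only [Function.iterate_succ_apply]

theorem a08_nbhd {C Y Z : Type*} [MetricSpace C] [MetricSpace Y] [MetricSpace Z]
    (π : C × Y → Z) (hπ : Continuous π) (c : C) (y y' : Y) (hne : π (c, y) ≠ π (c, y')) :
    ∃ (δ : ℝ) (N : Set C) (O₁ O₂ : Set Y), 0 < δ ∧ IsOpen N ∧ c ∈ N ∧ IsOpen O₁ ∧ y ∈ O₁ ∧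
      IsOpen O₂ ∧ y' ∈ O₂ ∧ ∀ c₁ ∈ N, ∀ u ∈ O₁, ∀ c₂ ∈ N, ∀ v ∈ O₂,
        δ ≤ dist (π (c₁, u)) (π (c₂, v)) := by
  set d := dist (π (c, y)) (π (c, y')) with hd
  have hdpos : 0 < d := dist_pos.2 hne
  obtain ⟨r₁, hr₁, h₁⟩ := Metric.continuous_iff.1 hπ (c, y) (d / 3) (by positivity)
  obtain ⟨r₂, hr₂, h₂⟩ := Metric.continuous_iff.1 hπ (c, y') (d / 3) (by positivity)
  refine ⟨d / 3, Metric.ball c (min r₁ r₂), Metric.ball y r₁, Metric.ball y' r₂, by positivity,
    Metric.isOpen_ball, Metric.mem_ball_self (lt_min hr₁ hr₂), Metric.isOpen_ball,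
    Metric.mem_ball_self hr₁, Metric.isOpen_ball, Metric.mem_ball_self hr₂, ?_⟩
  intro c₁ hc₁ u hu c₂ hc₂ v hv
  have e₁ : dist (π (c₁, u)) (π (c, y)) < d / 3 := by
    apply h₁
    rw [Prod.dist_eq]
    exact max_lt (lt_of_lt_of_le (Metric.mem_ball.1 hc₁) (min_le_left _ _)) (Metric.mem_ball.1 hu)
  have e₂ : dist (π (c₂, v)) (π (c, y')) < d / 3 := by
    apply h₂
    rw [Prod.dist_eq]
    exact max_lt (lt_of_lt_of_le (Metric.mem_ball.1 hc₂) (min_le_right _ _)) (Metric.mem_ball.1 hv)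
  have t1 : d ≤ dist (π (c, y)) (π (c₁, u)) + dist (π (c₁, u)) (π (c₂, v)) +
      dist (π (c₂, v)) (π (c, y')) := by
    rw [hd]
    exact dist_triangle4 _ _ _ _
  rw [dist_comm (π (c, y)) (π (c₁, u))] at t1
  linarith

theorem indep_of_base {C Y Z : Type*} [MetricSpace C] [MetricSpace Y] [MetricSpace Z]
    {g : C → C} {D : Y → Y} (hs : Surjective D)
    (hD : ∀ U : Set Y, IsOpen U → U.Nonempty → ∃ m : ℕ, D^[m] '' U = univ)
    (hvis : ∀ N : Set C, IsOpen N → N.Nonempty → ∃ (c : C) (θ : ℝ), 0 < θ ∧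
      ∃ᶠ n : ℕ in atTop, θ * n ≤ ({i | i < n ∧ g^[i] c ∈ N} : Set ℕ).ncard)
    (k : Z → Z) (π : C × Y → Z) (hπ : Continuous π) (hk : ∀ c y, π (g c, D y) = k (π (c, y)))
    (hz : ¬ (0 < Dynamics.coverEntropy k Set.univ)) (c : C) (y y' : Y) :
    π (c, y) = π (c, y') := by
  classical
  by_contra hne
  apply hz
  have : Nonempty Y := ⟨y⟩
  obtain ⟨δ, N, O₁, O₂, hδ, hN, hcN, hO₁, hy₁, hO₂, hy₂, hsep⟩ := a08_nbhd π hπ c y y' hne
  obtain ⟨m₁, hm₁⟩ := hD O₁ hO₁ ⟨y, hy₁⟩
  obtain ⟨m₂, hm₂⟩ := hD O₂ hO₂ ⟨y', hy₂⟩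
  -- a common exactness time
  have hcomm : ∀ (U : Set Y) (a b : ℕ), D^[a] '' U = univ → D^[a + b] '' U = univ := by
    intro U a b h
    rw [show a + b = b + a from add_comm a b, Function.iterate_add, Set.image_comp, h,
      Set.image_univ]
    exact (hs.iterate b).range_eq
  have hM₁ : D^[m₁ + m₂] '' O₁ = univ := hcomm _ _ _ hm₁
  have hM₂ : D^[m₁ + m₂] '' O₂ = univ := by rw [add_comm]; exact hcomm _ _ _ hm₂
  set m := m₁ + m₂ with hm
  let O : Bool → Set Y := fun b => if b = true then O₁ else O₂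
  have hO : ∀ b, D^[m] '' (O b) = univ := by
    intro b
    cases b
    · simpa [O] using hM₂
    · simpa [O] using hM₁
  obtain ⟨c', θ, hθ, hfreq⟩ := hvis N hN ⟨c, hcN⟩
  have hlog : 0 < Real.log 2 := Real.log_pos (by norm_num)
  have hmpos : (0:ℝ) < m + 1 := by positivity
  refine pos_entropy_of_separated k δ (θ * Real.log 2 / (m + 1)) hδ (by positivity) ?_
  refine hfreq.mono ?_
  intro n hn
  obtain ⟨r, i, hr, hi, hgap⟩ := sparse_visits {i | g^[i] c' ∈ N} m n θ hn
  -- the points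
  have hpt : ∀ s : Fin r → Bool, ∃ w : Y, ∀ j (hj : j < r), D^[i j] w ∈ O (s ⟨j, hj⟩) := by
    intro s
    obtain ⟨w, hw⟩ := exact_itinerary hs O m hO r i hgap
      (fun j => if hj : j < r then s ⟨j, hj⟩ else false)
    refine ⟨w, fun j hj => ?_⟩
    have := hw j hj
    simpa [hj] using this
  choose w hw using hpt
  -- separation
  have hsepw : ∀ s s' : Fin r → Bool, s ≠ s' →
      ∃ j < n, δ ≤ dist (k^[j] (π (c', w s))) (k^[j] (π (c', w s'))) := by
    intro s s' hss
    obtain ⟨j, hj⟩ := Function.ne_iff.1 hss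
    refine ⟨i j, (hi j j.2).1, ?_⟩
    rw [a08_iter k π hk, a08_iter k π hk]
    have hNj : g^[i j] c' ∈ N := (hi j j.2).2
    have h1 := hw s j j.2
    have h2 := hw s' j j.2
    rcases hb : s j with _ | _ <;> rcases hb' : s' j with _ | _
    · exact absurd (hb.trans hb'.symm) hj
    · have h1' : D^[i j] (w s) ∈ O₂ := by simpa [O, hb] using h1
      have h2' : D^[i j] (w s') ∈ O₁ := by simpa [O, hb'] using h2
      rw [dist_comm]
      exact hsep _ hNj _ h2' _ hNj _ h1'
    · have h1' : D^[i j] (w s) ∈ O₁ := by simpa [O, hb] using h1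
      have h2' : D^[i j] (w s') ∈ O₂ := by simpa [O, hb'] using h2
      exact hsep _ hNj _ h1' _ hNj _ h2'
    · exact absurd (hb.trans hb'.symm) hj
  have hinj : Function.Injective (fun s : Fin r → Bool => π (c', w s)) := by
    intro s s' h
    by_contra hss
    obtain ⟨j, -, hj⟩ := hsepw s s' hss
    have h' : π (c', w s) = π (c', w s') := h
    rw [h', dist_self] at hj
    linarith
  refine ⟨(Finset.univ : Finset (Fin r → Bool)).image (fun s => π (c', w s)), ?_, ?_⟩
  · rw [Finset.card_image_of_injective _ hinj, Finset.card_univ, Fintype.card_fun,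
      Fintype.card_bool, Fintype.card_fin]
    push_cast
    have h2 : (2:ℝ) ^ r = Real.exp (Real.log 2 * r) := by
      rw [Real.exp_mul, Real.exp_log (by norm_num), Real.rpow_natCast]
    rw [h2]
    apply Real.exp_le_exp.2
    have : θ * Real.log 2 / (m + 1) * n = Real.log 2 * (θ * n / (m + 1)) := by ring
    rw [this]
    exact mul_le_mul_of_nonneg_left hr hlog.le
  · intro x hx x' hx' hxx
    obtain ⟨s, -, rfl⟩ := Finset.mem_image.1 hx
    obtain ⟨s', -, rfl⟩ := Finset.mem_image.1 hx'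
    exact hsepw s s' (fun h => hxx (by rw [h]))

end CPE48
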