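import Pool.Agent.LibCPE48.Defs

/-! TASK A09.  Visits with positive upper density for `φ¹ × φ¹`. -/

namespace CPE48

open Set Function Filter Topology

theorem a09_iter {B : Type*} [TopologicalSpace B] {φ : ℝ → B → B} (h : IsFlow φ) (i : ℕ) (x : B) :
    (φ 1)^[i] x = φ i x := by
  induction i with
  | zero => simp [h.zero]
  | succ n ih =>
    rw [Function.iterate_succ_apply', ih, ← h.add]
    congr 1
    push_cast
    ring

theorem a09_comm {B : Type*} [TopologicalSpace B] {φ : ℝ → B → B} (h : IsFlow φ) (s t : ℝ) (x : B) :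
    φ s (φ t x) = φ t (φ s x) := by
  rw [← h.add, ← h.add, add_comm]

theorem a09_cover {B : Type*} [MetricSpace B] [CompactSpace B]
    {φ : ℝ → B → B} (h : GoodFlow B φ) (N : Set B) (hN : IsOpen N) (hne : N.Nonempty) :
    ∃ S : Finset ℝ, ∀ x, ∃ s ∈ S, φ s x ∈ N := by
  obtain ⟨S, hS⟩ := isCompact_univ.elim_finite_subcover (fun s : ℝ => {x : B | φ s x ∈ N})
    (fun s => hN.preimage (h.cont.comp (Continuous.prodMk_right s)))
    (by
      intro x _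
      obtain ⟨t, -, ht⟩ := h.dense x N hN hne
      exact mem_iUnion.2 ⟨t, ht⟩)
  refine ⟨S, fun x => ?_⟩
  have := hS (mem_univ x)
  simpa using this

theorem GoodFlow.vis {B : Type*} [MetricSpace B] [CompactSpace B] [Nonempty B]
    {φ : ℝ → B → B} (h : GoodFlow B φ) (N : Set (B × B)) (hN : IsOpen N) (hne : N.Nonempty) :
    ∃ (c : B × B) (θ : ℝ), 0 < θ ∧
      ∃ᶠ n : ℕ in atTop,
        θ * n ≤ ({i | i < n ∧ (Prod.map (φ 1) (φ 1))^[i] c ∈ N} : Set ℕ).ncard := by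
  classical
  obtain ⟨⟨x0, y0⟩, hxy⟩ := hne
  obtain ⟨N1, N2, hN1, hN2, hx0, hy0, hsub⟩ := isOpen_prod_iff.1 hN x0 y0 hxy
  obtain ⟨S1, hS1⟩ := a09_cover h N1 hN1 ⟨x0, hx0⟩
  obtain ⟨S2, hS2⟩ := a09_cover h N2 hN2 ⟨y0, hy0⟩
  obtain ⟨z⟩ := ‹Nonempty B›
  choose f hf hfN using fun i : ℕ => hS1 (φ i z)
  choose g hg hgN using fun i : ℕ => hS2 (φ i z)
  have hKpos : 0 < ((S1 ×ˢ S2).card : ℝ) := by
    exact_mod_cast Finset.card_pos.2 ⟨(f 0, g 0), Finset.mem_product.2 ⟨hf 0, hg 0⟩⟩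
  have key : ∀ n : ℕ, ∃ p ∈ S1 ×ˢ S2, (1 / ((S1 ×ˢ S2).card : ℝ)) * n ≤
      ({i | i < n ∧ (Prod.map (φ 1) (φ 1))^[i] (φ p.1 z, φ p.2 z) ∈ N} : Set ℕ).ncard := by
    intro n
    obtain ⟨p, hp, hpc⟩ := Finset.exists_le_card_fiber_of_nsmul_le_card_of_maps_to
      (s := Finset.range n) (t := S1 ×ˢ S2) (f := fun i => (f i, g i))
      (b := (n : ℝ) / ((S1 ×ˢ S2).card : ℝ))
      (fun i _ => Finset.mem_product.2 ⟨hf i, hg i⟩)
      ⟨(f 0, g 0), Finset.mem_product.2 ⟨hf 0, hg 0⟩⟩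
      (by
        rw [Finset.card_range, nsmul_eq_mul]
        have := hKpos.ne'
        field_simp
        exact le_refl _)
    refine ⟨p, hp, ?_⟩
    have h1 : (1 / ((S1 ×ˢ S2).card : ℝ)) * n = (n : ℝ) / ((S1 ×ˢ S2).card : ℝ) := by ring
    rw [h1]
    refine le_trans hpc ?_
    have hfin : ({i | i < n ∧ (Prod.map (φ 1) (φ 1))^[i] (φ p.1 z, φ p.2 z) ∈ N} : Set ℕ).Finite :=
      (Set.finite_lt_nat n).subset (fun i hi => hi.1)
    have hsub2 : (((Finset.range n).filter (fun x => (f x, g x) = p) : Finset ℕ) : Set ℕ) ⊆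
        ({i | i < n ∧ (Prod.map (φ 1) (φ 1))^[i] (φ p.1 z, φ p.2 z) ∈ N} : Set ℕ) := by
      intro i hi
      have hi' := Finset.mem_filter.1 (Finset.mem_coe.1 hi)
      refine ⟨Finset.mem_range.1 hi'.1, ?_⟩
      rw [Prod.map_iterate, Prod.map_apply]
      apply hsub
      have e1 : f i = p.1 := congrArg Prod.fst hi'.2
      have e2 : g i = p.2 := congrArg Prod.snd hi'.2
      refine ⟨?_, ?_⟩
      · change (φ 1)^[i] (φ p.1 z) ∈ N1
        rw [a09_iter h.toIsFlow, a09_comm h.toIsFlow, ← e1]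
        exact hfN i
      · change (φ 1)^[i] (φ p.2 z) ∈ N2
        rw [a09_iter h.toIsFlow, a09_comm h.toIsFlow, ← e2]
        exact hgN i
    have h2 := Set.ncard_le_ncard hsub2 hfin
    rw [Set.ncard_coe_finset] at h2
    exact_mod_cast h2
  have hfreq : ∃ p ∈ S1 ×ˢ S2, ∃ᶠ n : ℕ in atTop, (1 / ((S1 ×ˢ S2).card : ℝ)) * n ≤
      ({i | i < n ∧ (Prod.map (φ 1) (φ 1))^[i] (φ p.1 z, φ p.2 z) ∈ N} : Set ℕ).ncard := by
    by_contra hcon
    push Not at hcon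
    have hall : ∀ p ∈ S1 ×ˢ S2, ∀ᶠ n : ℕ in atTop, ¬ ((1 / ((S1 ×ˢ S2).card : ℝ)) * n ≤
      ({i | i < n ∧ (Prod.map (φ 1) (φ 1))^[i] (φ p.1 z, φ p.2 z) ∈ N} : Set ℕ).ncard) := by
      intro p hp
      exact not_frequently.1 (by simpa using hcon p hp)
    have hall' := (Filter.eventually_all_finset (S1 ×ˢ S2)).2 hall
    obtain ⟨n, hn⟩ := hall'.exists
    obtain ⟨p, hp, hpn⟩ := key n
    exact hn p hp hpn
  obtain ⟨p, hp, hpf⟩ := hfreq
  exact ⟨(φ p.1 z, φ p.2 z), 1 / ((S1 ×ˢ S2).card : ℝ), by positivity, hpf⟩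

end CPE48
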