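import Pool.Agent.LibCPE48.Defs

/-! TASK A10 (~60 lines).  A sum of continuous functions with disjoint supports and sup norms
tending to zero is continuous; and the value of such a sum.

* `disj_sum_eq`: if only the index `k` can contribute then the sum is `f k` (`tsum_eq_single`).
* `disj_sum_continuous`: the partial sums `∑ k ∈ range n, f k t` converge uniformly to `∑' k, f k t`:
  at each `t` at most one term is nonzero, so the difference is `0` or `f k t` for one `k ≥ n`,
  of absolute value `≤ sup_{k ≥ n} b k`, small for `n` large.  `TendstoUniformly.continuous`, or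
  prove continuity at `t₀` by hand with `Metric.continuous_iff`/`Metric.tendstoUniformly_iff`.
-/

namespace CPE48

open Set Function Filter Topology

theorem disj_sum_continuous {T : Type*} [TopologicalSpace T] (f : ℕ → T → ℝ)
    (hf : ∀ k, Continuous (f k)) (hd : ∀ t k l, f k t ≠ 0 → f l t ≠ 0 → k = l) (b : ℕ → ℝ)
    (hb : Tendsto b atTop (𝓝 0)) (hfb : ∀ k t, |f k t| ≤ b k) :
    Continuous (fun t => ∑' k, f k t) := by
  have h1 : TendstoUniformly (fun (n : ℕ) (t : T) => ∑ k ∈ Finset.range n, f k t)
      (fun t => ∑' k, f k t) atTop := by
    rw [Metric.tendstoUniformly_iff]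
    intro ε hε
    obtain ⟨N, hN⟩ := Filter.eventually_atTop.mp (hb.eventually_lt_const hε)
    filter_upwards [Filter.eventually_ge_atTop N] with n hn t
    by_cases h : ∃ k, f k t ≠ 0
    · obtain ⟨k, hk⟩ := h
      have h0 : ∀ l, l ≠ k → f l t = 0 := by
        intro l hl
        by_contra hl'
        exact hl (hd t l k hl' hk)
      rw [tsum_eq_single k h0]
      by_cases hkn : k < n
      · rw [Finset.sum_eq_single k (fun l _ hl => h0 l hl)
          (fun h => absurd (Finset.mem_range.mpr hkn) h), dist_self]
        exact hε
      · rw [Finset.sum_eq_zero, Real.dist_eq, sub_zero]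
        · exact lt_of_le_of_lt (hfb k t) (hN k (hn.trans (not_lt.mp hkn)))
        · intro l hl
          refine h0 l fun h => hkn ?_
          rw [← h]
          exact Finset.mem_range.mp hl
    · push Not at h
      have e1 : ∑' k, f k t = 0 := by
        simp [h]
      have e2 : ∑ k ∈ Finset.range n, f k t = 0 := Finset.sum_eq_zero fun k _ => h k
      rw [e1, e2, dist_self]
      exact hε
  refine h1.continuous (Filter.Eventually.frequently (Filter.Eventually.of_forall fun n => ?_))
  exact continuous_finsetSum _ fun k _ => hf k

end CPE48
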