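import Pool.Agent.LibCPE48.Defs

/-! TASK B01 (~70 lines).  Arcs are compact, disjoint for disjoint times, and a Urysohn function.

* `isCompact_arc`: `Arc φ a b` is the image of the compact set `Icc a b ×ˢ univ` under the
  continuous map `(t, z) ↦ (z, φ t z)`.
* `arc_disjoint`: if `φ t z = φ t' z` then `φ (t - t') z' = z'` with `z' = φ t' z`, so `t = t'`.
* `exists_lam`: with `K₁ = Arc φ a b`, `K₀ = Arc φ (a - 2 * (b - a)) (a - (b - a))` (closed,
  disjoint, nonempty), take `lam c = infDist c K₀ / (infDist c K₀ + infDist c K₁)`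
  (`IsClosed.mem_iff_infDist_zero`).
-/

namespace CPE48

open Set Function Filter Topology

variable {B : Type*} [MetricSpace B] [CompactSpace B] [Nonempty B] {φ : ℝ → B → B}

theorem isCompact_arc (h : GoodFlow B φ) (a b : ℝ) : IsCompact (Arc φ a b) := by
  have hc : Continuous (fun q : ℝ × B => (q.2, φ q.1 q.2)) := continuous_snd.prodMk h.cont
  have he : Arc φ a b = (fun q : ℝ × B => (q.2, φ q.1 q.2)) '' (Icc a b ×ˢ univ) := by
    ext ⟨z, w⟩
    simp only [Arc, mem_setOf_eq, mem_image, mem_prod, mem_univ, and_true, Prod.exists,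
      Prod.mk.injEq]
    constructor
    · rintro ⟨t, ht, rfl⟩
      exact ⟨t, z, ht, rfl, rfl⟩
    · rintro ⟨t, z', ht, rfl, hw⟩
      exact ⟨t, ht, hw.symm⟩
  rw [he]
  exact (isCompact_Icc.prod isCompact_univ).image hc

theorem flow_inj (h : GoodFlow B φ) {s t : ℝ} {z : B} (e : φ s z = φ t z) : s = t := by
  have h1 : φ (s - t) (φ t z) = φ t z := by
    rw [← h.add, sub_add_cancel, e]
  have h2 := h.free _ _ h1
  linarith

theorem arc_disjoint (h : GoodFlow B φ) {a b a' b' : ℝ} (hb : b < a') :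
    Disjoint (Arc φ a b) (Arc φ a' b') := by
  rw [Set.disjoint_left]
  rintro ⟨z, w⟩ ⟨t, ht, h1⟩ ⟨t', ht', h2⟩
  simp only at h1 h2
  have h3 : t = t' := flow_inj h (h1.symm.trans h2)
  have := ht.2
  have := ht'.1
  linarith

theorem exists_lam (h : GoodFlow B φ) (a b : ℝ) (hab : a < b) :
    ∃ lam : B × B → ℝ, Continuous lam ∧ (∀ c, 0 ≤ lam c) ∧ (∀ c, lam c ≤ 1) ∧
      (∀ c, lam c = 1 → c ∈ Arc φ a b) ∧ (∀ c ∈ Arc φ a b, lam c = 1) ∧
      (∀ c ∈ Arc φ (a - 2 * (b - a)) (a - (b - a)), lam c = 0) := by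
  set K1 := Arc φ a b with hK1
  set K0 := Arc φ (a - 2 * (b - a)) (a - (b - a)) with hK0
  have c1 : IsClosed K1 := (isCompact_arc h _ _).isClosed
  have c0 : IsClosed K0 := (isCompact_arc h _ _).isClosed
  obtain ⟨z⟩ := ‹Nonempty B›
  have n1 : K1.Nonempty := ⟨(z, φ a z), a, ⟨le_refl _, hab.le⟩, rfl⟩
  have n0 : K0.Nonempty :=
    ⟨(z, φ (a - (b - a)) z), a - (b - a), ⟨by linarith, le_refl _⟩, rfl⟩
  have hd : Disjoint K0 K1 := arc_disjoint h (by linarith)
  have hpos : ∀ c, 0 < Metric.infDist c K0 + Metric.infDist c K1 := by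
    intro c
    have p0 : 0 ≤ Metric.infDist c K0 := Metric.infDist_nonneg
    have p1 : 0 ≤ Metric.infDist c K1 := Metric.infDist_nonneg
    rcases lt_or_eq_of_le (add_nonneg p0 p1) with hlt | heq
    · exact hlt
    · exfalso
      have e0 : Metric.infDist c K0 = 0 := by linarith
      have e1 : Metric.infDist c K1 = 0 := by linarith
      exact Set.disjoint_left.1 hd ((c0.mem_iff_infDist_zero n0).2 e0)
        ((c1.mem_iff_infDist_zero n1).2 e1)
  refine ⟨fun c => Metric.infDist c K0 / (Metric.infDist c K0 + Metric.infDist c K1),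
    ?_, ?_, ?_, ?_, ?_, ?_⟩
  · exact (Metric.continuous_infDist_pt K0).div
      ((Metric.continuous_infDist_pt K0).add (Metric.continuous_infDist_pt K1))
      (fun c => (hpos c).ne')
  · intro c
    exact div_nonneg Metric.infDist_nonneg (hpos c).le
  · intro c
    rw [div_le_one (hpos c)]
    have p1 : 0 ≤ Metric.infDist c K1 := Metric.infDist_nonneg
    linarith
  · intro c hc
    have hc' := (div_eq_one_iff_eq (hpos c).ne').1 hc
    exact (c1.mem_iff_infDist_zero n1).2 (by linarith)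
  · intro c hc
    have e1 := (c1.mem_iff_infDist_zero n1).1 hc
    rw [div_eq_one_iff_eq (hpos c).ne', e1, add_zero]
  · intro c hc
    have e0 := (c0.mem_iff_infDist_zero n0).1 hc
    simp only [e0, zero_div]

end CPE48
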