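import Pool.Agent.LibCPE48.Defs

/-! TASK B02 (~80 lines).  The first properties of `sig`.

* `sig_continuous`: parametric interval integral of a jointly continuous function
  (`intervalIntegral.continuous_parametric_intervalIntegral_of_continuous'` or
  `continuous_parametric_intervalIntegral_of_continuous`).
* `sig_off`: for `r ≥ 1 ≥ lam`, the integrand is `0`.
* `sig_bound`: for `r ≥ 0` the integrand is in `[0, 1]`
  (`intervalIntegral.norm_integral_le_of_norm_le_const`).
* `sig_shift`: substitution `v = u - s` (`intervalIntegral.integral_comp_sub_left`) and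
  `φ (-s) (φ u w) = φ (u - s) w` from `h.add`.
-/

namespace CPE48

open Set Function Filter Topology

variable {B : Type*} [MetricSpace B] {φ : ℝ → B → B}

theorem sig_continuous (h : IsFlow φ) {lam : B × B → ℝ} (hl : Continuous lam) (a b : ℝ) :
    Continuous (fun q : (B × B) × ℝ => sig φ lam a b q.1 q.2) := by
  unfold sig
  apply Continuous.neg
  apply intervalIntegral.continuous_parametric_intervalIntegral_of_continuous'
  apply Continuous.max continuous_const
  apply Continuous.sub _ (continuous_snd.comp continuous_fst)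
  apply hl.comp
  have h1 : Continuous (fun p : ((B × B) × ℝ) × ℝ => p.1.1.1) :=
    continuous_fst.comp (continuous_fst.comp continuous_fst)
  have h2 : Continuous (fun p : ((B × B) × ℝ) × ℝ => ((-p.2, p.1.1.2) : ℝ × B)) :=
    (continuous_snd.neg).prodMk (continuous_snd.comp (continuous_fst.comp continuous_fst))
  exact h1.prodMk (h.cont.comp h2)

theorem sig_off {lam : B × B → ℝ} (h1 : ∀ c, lam c ≤ 1) (a b : ℝ) (c : B × B) (r : ℝ)
    (hr : 1 ≤ r) : sig φ lam a b c r = 0 := by
  unfold sig
  have : ∀ s : ℝ, max 0 (lam (c.1, φ (-s) c.2) - r) = 0 := by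
    intro s
    apply max_eq_left
    have := h1 (c.1, φ (-s) c.2)
    linarith
  simp [this]

theorem sig_bound {lam : B × B → ℝ} (h1 : ∀ c, lam c ≤ 1) {a b : ℝ} (hab : a < b)
    (c : B × B) (r : ℝ) (hr : 0 ≤ r) : |sig φ lam a b c r| ≤ 2 * (b - a) := by
  unfold sig
  rw [abs_neg]
  have h2 : ‖∫ s in (0:ℝ)..(2 * (b - a)), max 0 (lam (c.1, φ (-s) c.2) - r)‖
      ≤ 1 * |2 * (b - a) - 0| := by
    apply intervalIntegral.norm_integral_le_of_norm_le_const
    intro x _
    rw [Real.norm_eq_abs, abs_of_nonneg (le_max_left _ _)]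
    apply max_le (by norm_num)
    have := h1 (c.1, φ (-x) c.2)
    linarith
  rw [Real.norm_eq_abs] at h2
  have h3 : |2 * (b - a) - 0| = 2 * (b - a) := by
    rw [sub_zero, abs_of_pos (by linarith)]
  rw [h3] at h2
  linarith

theorem sig_shift (h : IsFlow φ) (lam : B × B → ℝ) (a b : ℝ) (z w : B) (u r : ℝ) :
    u + sig φ lam a b (z, φ u w) r =
      u - ∫ v in (u - 2 * (b - a))..u, max 0 (lam (z, φ v w) - r) := by
  unfold sig
  have h1 : ∀ s : ℝ, φ (-s) (φ u w) = φ (u - s) w := by
    intro s
    rw [← h.add]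
    congr 1
    ring
  simp only [h1]
  have h2 := intervalIntegral.integral_comp_sub_left (a := (0:ℝ)) (b := 2 * (b - a))
    (fun v => max 0 (lam (z, φ v w) - r)) u
  rw [h2, sub_zero]
  ring

end CPE48
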