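import Pool.Agent.LibCPE48.Defs

/-! TASK B03 (~80 lines).  Pure real analysis: let `m : ℝ → ℝ` be continuous with values in
`[0, 1]`, `ℓ ≥ 0` and `f u = u - ∫ v in (u - ℓ)..u, m v`.

* `win_mono`: for `u ≤ v`, `f v - f u = (v - u) - ∫_u^v m + ∫_{u-ℓ}^{v-ℓ} m ≥ 0`
  (`intervalIntegral.integral_interval_sub_interval_comm` or `integral_add_adjacent_intervals`).
* `win_eq`: if `u < v` and `f u = f v` then `∫_u^v (1 - m) = 0` (both terms are `≥ 0`), so by
  continuity `m = 1` on `[u, v]`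
  (`intervalIntegral.integral_pos` / `MeasureTheory.integral_eq_zero_iff_of_nonneg`, or
  `intervalIntegral.integral_pos_iff_support_of_nonneg_ae`, or by hand).
* `win_const`: if `m = 1` on `[a, a + ℓ']`, `m = 0` on `[a - 2ℓ', a - ℓ']`, then for
  `t ∈ [a, a + ℓ']`, `∫_{t - 2ℓ'}^t m = (t - a) + ∫_{a - ℓ'}^a m`.
-/

namespace CPE48

open Set Function Filter Topology

theorem b03_prim {m : ℝ → ℝ} (hm : Continuous m) (x y : ℝ) :
    ∫ v in x..y, m v = (∫ v in (0:ℝ)..y, m v) - ∫ v in (0:ℝ)..x, m v :=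
  (intervalIntegral.integral_interval_sub_left (hm.intervalIntegrable _ _)
    (hm.intervalIntegrable _ _)).symm

theorem b03_nonneg {m : ℝ → ℝ} (h0 : ∀ v, 0 ≤ m v) {x y : ℝ} (h : x ≤ y) :
    0 ≤ ∫ v in x..y, m v := intervalIntegral.integral_nonneg h fun v _ => h0 v

theorem b03_le {m : ℝ → ℝ} (hm : Continuous m) (h1 : ∀ v, m v ≤ 1) {x y : ℝ} (h : x ≤ y) :
    ∫ v in x..y, m v ≤ y - x := by
  have h2 := intervalIntegral.integral_mono (μ := MeasureTheory.volume) h (hm.intervalIntegrable _ _)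
    (intervalIntegrable_const (c := (1:ℝ))) (fun v => h1 v)
  simpa using h2

theorem win_mono {m : ℝ → ℝ} (hm : Continuous m) (h0 : ∀ v, 0 ≤ m v) (h1 : ∀ v, m v ≤ 1)
    {l : ℝ} : Monotone (fun u => u - ∫ v in (u - l)..u, m v) := by
  intro u v huv
  show (u - ∫ x in (u - l)..u, m x) ≤ v - ∫ x in (v - l)..v, m x
  have a1 := b03_prim hm (u - l) u
  have a2 := b03_prim hm (v - l) v
  have a3 := b03_prim hm u v
  have a4 := b03_prim hm (u - l) (v - l)
  have a5 := b03_nonneg h0 (show u - l ≤ v - l by linarith)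
  have a6 := b03_le hm h1 huv
  linarith

theorem win_eq {m : ℝ → ℝ} (hm : Continuous m) (h0 : ∀ v, 0 ≤ m v) (h1 : ∀ v, m v ≤ 1)
    {l u v : ℝ} (huv : u < v)
    (he : (u - ∫ x in (u - l)..u, m x) = v - ∫ x in (v - l)..v, m x) :
    ∀ x ∈ Icc u v, m x = 1 := by
  have a1 := b03_prim hm (u - l) u
  have a2 := b03_prim hm (v - l) v
  have a3 := b03_prim hm u v
  have a4 := b03_prim hm (u - l) (v - l)
  have a5 := b03_nonneg h0 (show u - l ≤ v - l by linarith)
  have a6 := b03_le hm h1 huv.le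
  have a7 : ∫ x in u..v, m x = v - u := by linarith
  have a8 : ∫ x in u..v, (1 - m x) = 0 := by
    rw [intervalIntegral.integral_sub (intervalIntegrable_const (c := (1:ℝ)))
      (hm.intervalIntegrable _ _), a7]
    simp
  intro x hx
  by_contra hne
  have hlt : m x < 1 := lt_of_le_of_ne (h1 x) hne
  have := intervalIntegral.integral_pos (f := fun x => 1 - m x) huv
    (continuous_const.sub hm).continuousOn (fun y _ => sub_nonneg.mpr (h1 y))
    ⟨x, hx, by
      show 0 < 1 - m x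
      linarith⟩
  rw [a8] at this
  exact lt_irrefl _ this

theorem win_const {m : ℝ → ℝ} (hm : Continuous m) {a l t : ℝ} (hl : 0 < l)
    (h1 : ∀ x ∈ Icc a (a + l), m x = 1) (h0 : ∀ x ∈ Icc (a - 2 * l) (a - l), m x = 0)
    (ht : t ∈ Icc a (a + l)) :
    t - ∫ x in (t - 2 * l)..t, m x = a - ∫ x in (a - l)..a, m x := by
  have a1 := b03_prim hm (t - 2 * l) t
  have a2 := b03_prim hm (a - l) a
  have a3 := b03_prim hm (t - 2 * l) (a - l)
  have a4 := b03_prim hm a t
  have a5 : ∫ x in (t - 2 * l)..(a - l), m x = 0 := by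
    have : ∫ x in (t - 2 * l)..(a - l), m x = ∫ x in (t - 2 * l)..(a - l), (0:ℝ) := by
      apply intervalIntegral.integral_congr
      intro x hx
      rw [uIcc_of_le (by linarith [ht.2])] at hx
      exact h0 x ⟨by linarith [hx.1, ht.1], hx.2⟩
    rw [this]
    simp
  have a6 : ∫ x in a..t, m x = t - a := by
    have : ∫ x in a..t, m x = ∫ x in a..t, (1:ℝ) := by
      apply intervalIntegral.integral_congr
      intro x hx
      rw [uIcc_of_le ht.1] at hx
      exact h1 x ⟨hx.1, by linarith [hx.2, ht.2]⟩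
    rw [this]
    simp
  linarith

end CPE48
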