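import Pool.Agent.LibCPE48.B01
import Pool.Agent.LibCPE48.B02
import Pool.Agent.LibCPE48.B03

/-! TASK B04 (~60 lines).  Existence of tubes.  Use B01, B02, B03 (already stated).

Take `lam` from `exists_lam` and `σ = sig φ lam a b`.  `cont`, `off`, `bound` are B02.
With `m v = max 0 (lam (z, φ v w) - r)` (continuous, in `[0, 1]` for `r ≥ 0`), `sig_shift` rewrites
`u + σ (z, φ u w) r` as `u - ∫ v in (u - 2(b-a))..u, m v`: `mono` is `win_mono`; for `eq`, `win_eq`
gives `m = 1` at `u` and at `v`, so `lam (z, φ u w) - r = 1`, hence `r = 0` and `lam = 1`.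
`const`: with `w = z`, `r = 0`: `m v = lam (z, φ v z)` is `1` for `v ∈ [a, b]` and `0` for
`v ∈ [a - 2(b-a), a - (b-a)]`; use `win_const` with `l = b - a` for `t` and `t'`.
-/

namespace CPE48

open Set Function Filter Topology

theorem b04_cont {B : Type*} [MetricSpace B] {φ : ℝ → B → B} (h : IsFlow φ)
    {lam : B × B → ℝ} (hl : Continuous lam) (z w : B) (r : ℝ) :
    Continuous (fun v : ℝ => max 0 (lam (z, φ v w) - r)) := by
  apply Continuous.max continuous_const
  apply Continuous.sub _ continuous_const
  apply hl.comp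
  have h2 : Continuous (fun v : ℝ => ((v, w) : ℝ × B)) :=
    continuous_id.prodMk continuous_const
  exact continuous_const.prodMk (h.cont.comp h2)

theorem exists_tube {B : Type*} [MetricSpace B] [CompactSpace B] [Nonempty B] {φ : ℝ → B → B}
    (h : GoodFlow B φ) (a b : ℝ) (hab : a < b) : ∃ σ : B × B → ℝ → ℝ, Tube φ a b σ := by
  obtain ⟨lam, lc, l0, l1, lm, lmi, lz⟩ := exists_lam h a b hab
  have hF : IsFlow φ := h.toIsFlow
  have m1 : ∀ z w r, 0 ≤ r → ∀ v : ℝ, max 0 (lam (z, φ v w) - r) ≤ 1 := by
    intro z w r hr v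
    apply max_le (by norm_num)
    have := l1 (z, φ v w)
    linarith
  refine ⟨sig φ lam a b, ?_, ?_, ?_, ?_, ?_, ?_⟩
  · exact sig_continuous hF lc a b
  · intro c r hr
    exact sig_off l1 a b c r hr
  · intro c r hr
    exact sig_bound l1 hab c r hr
  · intro z w r hr
    have := win_mono (l := 2 * (b - a)) (b04_cont hF lc z w r)
      (fun v => le_max_left _ _) (m1 z w r hr)
    intro u v huv
    simp only [sig_shift hF]
    exact this huv
  · intro z w r u v hr huv he
    rw [sig_shift hF, sig_shift hF] at he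
    have key := win_eq (b04_cont hF lc z w r) (fun v => le_max_left _ _) (m1 z w r hr) huv he
    have hu := key u ⟨le_refl _, huv.le⟩
    have hv := key v ⟨huv.le, le_refl _⟩
    have aux : ∀ x : ℝ, max 0 (lam (z, φ x w) - r) = 1 →
        r = 0 ∧ (z, φ x w) ∈ Arc φ a b := by
      intro x hx
      have h3 : lam (z, φ x w) - r = 1 := by
        rcases max_choice 0 (lam (z, φ x w) - r) with h4 | h4
        · rw [h4] at hx
          norm_num at hx
        · rw [h4] at hx
          exact hx
      have h5 := l1 (z, φ x w)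
      have h6 : r = 0 := by linarith
      exact ⟨h6, lm _ (by linarith)⟩
    exact ⟨(aux u hu).1, (aux u hu).2, (aux v hv).2⟩
  · have key : ∀ z t, t ∈ Icc a b → t + sig φ lam a b (z, φ t z) 0 =
        a - ∫ x in (a - (b - a))..a, max 0 (lam (z, φ x z) - 0) := by
      intro z t ht
      rw [sig_shift hF]
      apply win_const (b04_cont hF lc z z 0) (by linarith : 0 < b - a)
      · intro x hx
        have : lam (z, φ x z) = 1 := lmi _ ⟨x, ⟨hx.1, by linarith [hx.2]⟩, rfl⟩
        rw [this]
        norm_num
      · intro x hx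
        have : lam (z, φ x z) = 0 := lz _ ⟨x, hx, rfl⟩
        rw [this]
        norm_num
      · exact ⟨ht.1, by linarith [ht.2]⟩
    intro z t t' ht ht'
    rw [key z t ht, key z t' ht']

end CPE48
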