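import Pool.Agent.LibCPE48.Defs

/-! TASK B05 (~80 lines).  Injectivity, surjectivity and collapsing property of a tube.

* `Tube.inj`: put `u = σ (z,w) r`, `u' = σ (z,w') r`.  From `φ u w = φ u' w'`,
  `w' = φ v w` with `v = u - u'`.  Since `φ u w = φ u' (φ v w) = φ (v + u') w`... precisely we get
  `0 + σ (z, φ 0 w) r = v + σ (z, φ v w) r`.  If `v = 0`, `w = w'`.  If `v > 0` use `T.eq` with
  `(u, v) := (0, v)`, if `v < 0` with `(v, 0)`.
* `Tube.surj`: `u ↦ u + σ (z, φ u w) r` is continuous and unbounded in both directions by `T.bound`,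
  so it vanishes at some `u` (IVT: `mem_range_of_exists_le_of_exists_ge` or
  `Continuous.surjective`); then `w' = φ u w` works: `φ (σ (z, φ u w) r) (φ u w) = φ 0 w = w`.
* `Tube.collapse`: `w = φ t z`, `w' = φ t' z`; `φ σ (φ t z) = φ (t + σ) z` and `T.const`.
-/

namespace CPE48

open Set Function Filter Topology

variable {B : Type*} [MetricSpace B] {φ : ℝ → B → B}

theorem Tube.inj (h : GoodFlow B φ) {a b : ℝ} {σ : B × B → ℝ → ℝ} (T : Tube φ a b σ)
    {z w w' : B} {r : ℝ} (hr : 0 ≤ r) (he : φ (σ (z, w) r) w = φ (σ (z, w') r) w') :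
    w = w' ∨ (r = 0 ∧ (z, w) ∈ Arc φ a b ∧ (z, w') ∈ Arc φ a b) := by
  set u := σ (z, w) r with hu
  set u' := σ (z, w') r with hu'
  have hv : w' = φ (u - u') w := by
    have h1 : φ (-u') (φ u' w') = w' := by
      rw [← h.add, neg_add_cancel, h.zero]
    rw [← h1, ← he, ← h.add]
    congr 1
    ring
  have hw0 : φ 0 w = w := h.zero w
  have e : 0 + σ (z, φ 0 w) r = (u - u') + σ (z, φ (u - u') w) r := by
    rw [hw0, ← hv, ← hu, ← hu']
    ring
  rcases lt_trichotomy (u - u') 0 with hlt | heq | hgt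
  · right
    obtain ⟨h1, h2, h3⟩ := T.eq z w r _ _ hr hlt e.symm
    rw [hw0] at h3
    rw [← hv] at h2
    exact ⟨h1, h3, h2⟩
  · left
    rw [hv, heq, hw0]
  · right
    obtain ⟨h1, h2, h3⟩ := T.eq z w r _ _ hr hgt e
    rw [hw0] at h2
    rw [← hv] at h3
    exact ⟨h1, h2, h3⟩

theorem Tube.surj (h : GoodFlow B φ) {a b : ℝ} {σ : B × B → ℝ → ℝ} (T : Tube φ a b σ)
    (z w : B) {r : ℝ} (hr : 0 ≤ r) : ∃ w', φ (σ (z, w') r) w' = w := by
  have hc : Continuous (fun u : ℝ => u + σ (z, φ u w) r) := by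
    have h1 : Continuous (fun u : ℝ => φ u w) := by
      have := h.cont.comp (continuous_id.prodMk (continuous_const (y := w)) :
        Continuous (fun u : ℝ => (u, w)))
      exact this
    have h2 : Continuous (fun u : ℝ => (((z, φ u w) : B × B), r)) :=
      ((continuous_const.prodMk h1).prodMk continuous_const)
    exact continuous_id.add (T.cont.comp h2)
  have hr1 : (0:ℝ) ∈ Set.range (fun u : ℝ => u + σ (z, φ u w) r) := by
    apply mem_range_of_exists_le_of_exists_ge hc
    · refine ⟨-(2 * (b - a)), ?_⟩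
      have := T.bound (z, φ (-(2 * (b - a))) w) r hr
      have := (abs_le.1 this).2
      linarith
    · refine ⟨2 * (b - a), ?_⟩
      have := T.bound (z, φ (2 * (b - a)) w) r hr
      have := (abs_le.1 this).1
      linarith
  obtain ⟨u, hu⟩ := hr1
  refine ⟨φ u w, ?_⟩
  rw [← h.add]
  have : σ (z, φ u w) r + u = 0 := by
    simp only at hu
    linarith
  rw [this, h.zero]

theorem Tube.collapse (h : GoodFlow B φ) {a b : ℝ} {σ : B × B → ℝ → ℝ} (T : Tube φ a b σ)
    {z w w' : B} (hw : (z, w) ∈ Arc φ a b) (hw' : (z, w') ∈ Arc φ a b) :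
    φ (σ (z, w) 0) w = φ (σ (z, w') 0) w' := by
  obtain ⟨t, ht, h1⟩ := hw
  obtain ⟨t', ht', h2⟩ := hw'
  simp only at h1 h2
  subst h1 h2
  rw [← h.add, ← h.add, add_comm, T.const z t t' ht ht', add_comm]

end CPE48
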