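import Pool.Agent.LibCPE48.A10

/-! TASK C01 (~80 lines).  Joint continuity of `s1`, `s2` and of `PP`.  Use
`disj_sum_continuous` (A10, already stated).

The summand `f k (e, c, y) = if e k then σ k c (rr O ε (2k) y) else 0` is continuous: `e ↦ e k` is
continuous into the discrete space `Bool` (e.g. `continuous_if`-free way: the product is a
composition of a continuous map to `Bool × ℝ` with `(b, x) ↦ if b then x else 0`, which is
continuous because `Bool` is discrete: `continuous_prod_of_discrete_left`?, or use
`Continuous.if_const`-like arguments; another way: `(if e k then 1 else 0) * ...` where the first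
factor is `g ∘ (fun e => e k)` with `g : Bool → ℝ`, `continuous_of_discreteTopology`).
`rr O ε l` is continuous (`Metric.continuous_infDist_pt`, division by a constant).
Disjoint supports: if `f k ≠ 0` then `rr O ε (2k) y < 1` by `(S.tube k).off`, so
`infDist y (O (2k)) < ε (2k)` and `S.base.disj` applies.  Bound: `b k - a k → 0` and `rr ≥ 0`
(`Metric.infDist_nonneg`, `S.base.pos`): `|f k| ≤ 2 * (b k - a k)`.
`PP_continuous`: compose with `S.flow.cont`.
-/

namespace CPE48

open Set Function Filter Topology

variable {B Y : Type*} [MetricSpace B] [MetricSpace Y] {φ : ℝ → B → B} {D : Y → Y}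
  {O : ℕ → Set Y} {ε : ℕ → ℝ} {a b : ℕ → ℝ} {σ : ℕ → B × B → ℝ → ℝ}

private theorem c01_f_cont (S : Setup φ D O ε a b σ) (l : ℕ → ℕ) (w : B × B → B × B)
    (hw : Continuous w) (k : ℕ) :
    Continuous (fun q : (ℕ → Bool) × ((B × B) × Y) =>
      if q.1 k = true then σ k (w q.2.1) (rr O ε (l k) q.2.2) else 0) := by
  have h1 : Continuous (fun q : (ℕ → Bool) × ((B × B) × Y) =>
      (fun x : Bool => if x = true then (1 : ℝ) else 0) (q.1 k)) := by
    have h0 : Continuous (fun x : Bool => if x = true then (1 : ℝ) else 0) :=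
      continuous_of_discreteTopology
    exact h0.comp ((continuous_apply k).comp continuous_fst)
  have h2 : Continuous (fun q : (ℕ → Bool) × ((B × B) × Y) =>
      σ k (w q.2.1) (rr O ε (l k) q.2.2)) := by
    have h3 : Continuous (fun q : (ℕ → Bool) × ((B × B) × Y) => rr O ε (l k) q.2.2) := by
      unfold rr
      exact ((Metric.continuous_infDist_pt _).comp
        (continuous_snd.comp continuous_snd)).div_const _
    exact (S.tube k).cont.comp ((hw.comp (continuous_fst.comp continuous_snd)).prodMk h3)
  have h4 := h1.mul h2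
  refine h4.congr ?_
  intro q
  by_cases h : q.1 k = true
  · simp [h]
  · simp [h]

private theorem c01_sum (S : Setup φ D O ε a b σ) (l : ℕ → ℕ) (hl : Injective l)
    (w : B × B → B × B) (hw : Continuous w) :
    Continuous (fun q : (ℕ → Bool) × ((B × B) × Y) =>
      ∑' k, if q.1 k = true then σ k (w q.2.1) (rr O ε (l k) q.2.2) else 0) := by
  refine disj_sum_continuous (fun k (q : (ℕ → Bool) × ((B × B) × Y)) =>
      if q.1 k = true then σ k (w q.2.1) (rr O ε (l k) q.2.2) else 0)
    (c01_f_cont S l w hw) ?_ (fun k => 2 * (b k - a k)) ?_ ?_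
  · have key : ∀ (q : (ℕ → Bool) × ((B × B) × Y)) (k : ℕ),
        (if q.1 k = true then σ k (w q.2.1) (rr O ε (l k) q.2.2) else 0) ≠ 0 →
        Metric.infDist q.2.2 (O (l k)) < ε (l k) := by
      intro q k h
      by_contra hc
      push Not at hc
      apply h
      have h1 : 1 ≤ rr O ε (l k) q.2.2 := by
        unfold rr
        rw [le_div_iff₀ (S.base.pos _), one_mul]
        exact hc
      rw [(S.tube k).off _ _ h1]
      simp
    intro q k k' h h'
    exact hl (S.base.disj q.2.2 (l k) (l k') (key q k h) (key q k' h'))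
  · have h1 := S.len.const_mul 2
    rw [mul_zero] at h1
    exact h1
  · intro k q
    have h1 : 0 ≤ 2 * (b k - a k) := by
      have := S.lt k
      linarith
    by_cases h : q.1 k = true
    · rw [if_pos h]
      refine (S.tube k).bound _ _ ?_
      unfold rr
      exact div_nonneg Metric.infDist_nonneg (S.base.pos _).le
    · rw [if_neg h, abs_zero]
      exact h1

theorem s1_continuous (S : Setup φ D O ε a b σ) :
    Continuous (fun q : (ℕ → Bool) × ((B × B) × Y) => s1 σ O ε q.1 q.2.1 q.2.2) := by
  refine c01_sum S (fun k => 2 * k) ?_ id continuous_id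
  intro x y h
  have h' : 2 * x = 2 * y := h
  omega

theorem s2_continuous (S : Setup φ D O ε a b σ) :
    Continuous (fun q : (ℕ → Bool) × ((B × B) × Y) => s2 σ O ε q.1 q.2.1 q.2.2) := by
  refine c01_sum S (fun k => 2 * k + 1) ?_ Prod.swap continuous_swap
  intro x y h
  have h' : 2 * x + 1 = 2 * y + 1 := h
  omega

theorem PP_continuous (S : Setup φ D O ε a b σ) :
    Continuous (fun q : (ℕ → Bool) × ((B × B) × Y) => PP φ σ O ε q.1 q.2) := by
  have h1 := s1_continuous S
  have h2 := s2_continuous S
  have h3 : Continuous (fun q : (ℕ → Bool) × ((B × B) × Y) =>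
      φ (s2 σ O ε q.1 q.2.1 q.2.2) q.2.1.1) :=
    S.flow.cont.comp (h2.prodMk (continuous_fst.comp (continuous_fst.comp continuous_snd)))
  have h4 : Continuous (fun q : (ℕ → Bool) × ((B × B) × Y) =>
      φ (s1 σ O ε q.1 q.2.1 q.2.2) q.2.1.2) :=
    S.flow.cont.comp (h1.prodMk (continuous_snd.comp (continuous_fst.comp continuous_snd)))
  exact (h3.prodMk h4).prodMk (continuous_snd.comp continuous_snd)

end CPE48
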