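import Pool.Agent.LibCPE48.Defs

/-! TASK C02 (~80 lines).  For each `y` at most one level is active.

If `infDist y (O l) < ε l` for some (unique, `S.base.disj`) level `l` then `l = 2k` or `l = 2k+1`;
all the terms of the other levels vanish by `(S.tube k).off` because `rr ≥ 1`
(`rr O ε l y < 1 ↔ infDist y (O l) < ε l`, `div_lt_one`); the sums are evaluated by
`tsum_eq_single` (or are `0` if `e k = false`).  If no level is active all terms vanish
(`tsum_zero` after `funext`/`tsum_congr`).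
`active_even`: if `y ∈ O (2k)` then `infDist = 0 < ε`, so level `2k` is active and `rr = 0`.
-/

namespace CPE48

open Set Function Filter Topology

variable {B Y : Type*} [MetricSpace B] [MetricSpace Y] {φ : ℝ → B → B} {D : Y → Y}
  {O : ℕ → Set Y} {ε : ℕ → ℝ} {a b : ℕ → ℝ} {σ : ℕ → B × B → ℝ → ℝ}

theorem rr_nonneg (S : Setup φ D O ε a b σ) (l : ℕ) (y : Y) : 0 ≤ rr O ε l y :=
  div_nonneg Metric.infDist_nonneg (S.base.pos l).le

theorem rr_eq_zero (S : Setup φ D O ε a b σ) (l : ℕ) (y : Y) (h : rr O ε l y = 0) :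
    y ∈ O l := by
  unfold rr at h
  rw [div_eq_zero_iff] at h
  rcases h with h | h
  · exact ((S.base.closed l).mem_iff_infDist_zero (S.base.nonempty l)).mpr h
  · exact absurd h (S.base.pos l).ne'

theorem c02_off (S : Setup φ D O ε a b σ) (l : ℕ) (y : Y)
    (h : ¬ Metric.infDist y (O l) < ε l) : 1 ≤ rr O ε l y := by
  unfold rr
  rw [one_le_div (S.base.pos l)]
  exact not_lt.mp h

theorem c02_s1_zero (S : Setup φ D O ε a b σ) (e : ℕ → Bool) (y : Y) (c : B × B)
    (h : ∀ k, e k = true → ¬ Metric.infDist y (O (2 * k)) < ε (2 * k)) :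
    s1 σ O ε e c y = 0 := by
  unfold s1
  have : ∀ k, (if e k = true then σ k c (rr O ε (2 * k) y) else 0) = 0 := by
    intro k
    split_ifs with hk
    · exact (S.tube k).off _ _ (c02_off S _ y (h k hk))
    · rfl
  simp_rw [this]
  exact tsum_zero

theorem c02_s2_zero (S : Setup φ D O ε a b σ) (e : ℕ → Bool) (y : Y) (c : B × B)
    (h : ∀ k, e k = true → ¬ Metric.infDist y (O (2 * k + 1)) < ε (2 * k + 1)) :
    s2 σ O ε e c y = 0 := by
  unfold s2
  have : ∀ k, (if e k = true then σ k c.swap (rr O ε (2 * k + 1) y) else 0) = 0 := by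
    intro k
    split_ifs with hk
    · exact (S.tube k).off _ _ (c02_off S _ y (h k hk))
    · rfl
  simp_rw [this]
  exact tsum_zero

theorem c02_s1_single (S : Setup φ D O ε a b σ) (e : ℕ → Bool) (y : Y) (c : B × B) (k : ℕ)
    (hk : e k = true) (h : Metric.infDist y (O (2 * k)) < ε (2 * k)) :
    s1 σ O ε e c y = σ k c (rr O ε (2 * k) y) ∧ s2 σ O ε e c y = 0 := by
  constructor
  · unfold s1
    rw [tsum_eq_single k]
    · rw [if_pos hk]
    · intro j hj
      split_ifs with hj'
      · refine (S.tube j).off _ _ (c02_off S _ y ?_)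
        intro h'
        have := S.base.disj y _ _ h h'
        omega
      · rfl
  · apply c02_s2_zero S
    intro j _ h'
    have := S.base.disj y _ _ h h'
    omega

theorem c02_s2_single (S : Setup φ D O ε a b σ) (e : ℕ → Bool) (y : Y) (c : B × B) (k : ℕ)
    (hk : e k = true) (h : Metric.infDist y (O (2 * k + 1)) < ε (2 * k + 1)) :
    s1 σ O ε e c y = 0 ∧ s2 σ O ε e c y = σ k c.swap (rr O ε (2 * k + 1) y) := by
  constructor
  · apply c02_s1_zero S
    intro j _ h'
    have := S.base.disj y _ _ h h'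
    omega
  · unfold s2
    rw [tsum_eq_single k]
    · rw [if_pos hk]
    · intro j hj
      split_ifs with hj'
      · refine (S.tube j).off _ _ (c02_off S _ y ?_)
        intro h'
        have := S.base.disj y _ _ h h'
        omega
      · rfl

theorem active_cases (S : Setup φ D O ε a b σ) (e : ℕ → Bool) (y : Y) :
    (∀ c, s1 σ O ε e c y = 0 ∧ s2 σ O ε e c y = 0) ∨
    (∃ k, e k = true ∧ ∀ c, s1 σ O ε e c y = σ k c (rr O ε (2 * k) y) ∧
      s2 σ O ε e c y = 0) ∨
    (∃ k, e k = true ∧ ∀ c, s1 σ O ε e c y = 0 ∧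
      s2 σ O ε e c y = σ k c.swap (rr O ε (2 * k + 1) y)) := by
  by_cases h1 : ∃ k, e k = true ∧ Metric.infDist y (O (2 * k)) < ε (2 * k)
  · obtain ⟨k, hk, h⟩ := h1
    exact Or.inr (Or.inl ⟨k, hk, fun c => c02_s1_single S e y c k hk h⟩)
  by_cases h2 : ∃ k, e k = true ∧ Metric.infDist y (O (2 * k + 1)) < ε (2 * k + 1)
  · obtain ⟨k, hk, h⟩ := h2
    exact Or.inr (Or.inr ⟨k, hk, fun c => c02_s2_single S e y c k hk h⟩)
  · exact Or.inl fun c => ⟨c02_s1_zero S e y c fun k hk h => h1 ⟨k, hk, h⟩,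
      c02_s2_zero S e y c fun k hk h => h2 ⟨k, hk, h⟩⟩

theorem c02_rr_mem (l : ℕ) (y : Y) (hy : y ∈ O l) : rr O ε l y = 0 := by
  unfold rr
  rw [Metric.infDist_zero_of_mem hy, zero_div]

theorem active_even (S : Setup φ D O ε a b σ) (e : ℕ → Bool) (y : Y) (k : ℕ) (hk : e k = true)
    (hy : y ∈ O (2 * k)) (c : B × B) :
    s1 σ O ε e c y = σ k c 0 ∧ s2 σ O ε e c y = 0 := by
  have h := c02_s1_single S e y c k hk (by
    rw [Metric.infDist_zero_of_mem hy]
    exact S.base.pos _)
  rw [c02_rr_mem _ y hy] at h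
  exact h

theorem active_odd (S : Setup φ D O ε a b σ) (e : ℕ → Bool) (y : Y) (k : ℕ) (hk : e k = true)
    (hy : y ∈ O (2 * k + 1)) (c : B × B) :
    s1 σ O ε e c y = 0 ∧ s2 σ O ε e c y = σ k c.swap 0 := by
  have h := c02_s2_single S e y c k hk (by
    rw [Metric.infDist_zero_of_mem hy]
    exact S.base.pos _)
  rw [c02_rr_mem _ y hy] at h
  exact h

end CPE48
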