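import Pool.Agent.LibCPE48.C02
import Pool.Agent.LibCPE48.B05

/-! TASK C03 (~100 lines).  The collapsing map: surjective, with kernel `Rel`; `Rel` is preserved
by `GG`.  Use `active_cases`, `active_even`, `active_odd`, `rr_nonneg`, `rr_eq_zero` (C02) and
`Tube.inj`, `Tube.surj`, `Tube.collapse` (B05), already stated.

* `PP_surjective`: given `((z, w), y)`, in the three cases of `active_cases`: the point itself
  (`φ 0 = id`); `((z, w'), y)` with `w'` from `Tube.surj`; `((z', w), y)` with `z'` from `Tube.surj`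
  applied with base `w`.
* `PP_ker`: `PP e x = PP e x'` gives `x.2 = x'.2`; again three cases.
* `PP_rel`: by `active_even`/`active_odd` and `Tube.collapse`.
* `Rel_GG`: `(φ 1 z, φ 1 (φ t z)) = (φ 1 z, φ t (φ 1 z))` and `S.base.maps`.
-/

namespace CPE48

open Set Function Filter Topology

variable {B Y : Type*} [MetricSpace B] [MetricSpace Y] {φ : ℝ → B → B} {D : Y → Y}
  {O : ℕ → Set Y} {ε : ℕ → ℝ} {a b : ℕ → ℝ} {σ : ℕ → B × B → ℝ → ℝ}

theorem PP_surjective (S : Setup φ D O ε a b σ) (e : ℕ → Bool) :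
    Surjective (PP φ σ O ε e) := by
  rintro ⟨⟨z, w⟩, y⟩
  have h0 : ∀ z, φ 0 z = z := S.flow.zero
  rcases active_cases S e y with h | ⟨k, hk, h⟩ | ⟨k, hk, h⟩
  · refine ⟨((z, w), y), ?_⟩
    simp only [PP, (h (z, w)).1, (h (z, w)).2, h0]
  · obtain ⟨w', hw'⟩ := Tube.surj S.flow (S.tube k) z w (rr_nonneg S (2 * k) y)
    refine ⟨((z, w'), y), ?_⟩
    simp only [PP, (h (z, w')).1, (h (z, w')).2, h0, hw']
  · obtain ⟨z', hz'⟩ := Tube.surj S.flow (S.tube k) w z (rr_nonneg S (2 * k + 1) y)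
    refine ⟨((z', w), y), ?_⟩
    simp only [PP, (h (z', w)).1, (h (z', w)).2, h0, Prod.swap_prod_mk, hz']

theorem PP_ker (S : Setup φ D O ε a b σ) (e : ℕ → Bool) (x x' : (B × B) × Y)
    (h : PP φ σ O ε e x = PP φ σ O ε e x') : Rel φ a b O e x x' := by
  obtain ⟨⟨z, w⟩, y⟩ := x
  obtain ⟨⟨z', w'⟩, y'⟩ := x'
  have h0 : ∀ z, φ 0 z = z := S.flow.zero
  simp only [PP, Prod.mk.injEq] at h
  obtain ⟨⟨h1, h2⟩, rfl⟩ := h
  rcases active_cases S e y with hc | ⟨k, hk, hc⟩ | ⟨k, hk, hc⟩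
  · rw [(hc (z, w)).2, (hc (z', w')).2, h0, h0] at h1
    rw [(hc (z, w)).1, (hc (z', w')).1, h0, h0] at h2
    subst h1 h2
    exact Or.inl rfl
  · rw [(hc (z, w)).2, (hc (z', w')).2, h0, h0] at h1
    subst h1
    rw [(hc (z, w)).1, (hc (z, w')).1] at h2
    rcases Tube.inj S.flow (S.tube k) (rr_nonneg S (2 * k) y) h2 with h3 | ⟨h3, h4, h5⟩
    · subst h3
      exact Or.inl rfl
    · exact Or.inr ⟨rfl, k, hk, Or.inl ⟨rr_eq_zero S _ _ h3, rfl, h4, h5⟩⟩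
  · rw [(hc (z, w)).1, (hc (z', w')).1, h0, h0] at h2
    subst h2
    rw [(hc (z, w)).2, (hc (z', w)).2] at h1
    rcases Tube.inj S.flow (S.tube k) (rr_nonneg S (2 * k + 1) y) h1 with h3 | ⟨h3, h4, h5⟩
    · subst h3
      exact Or.inl rfl
    · exact Or.inr ⟨rfl, k, hk, Or.inr ⟨rr_eq_zero S _ _ h3, rfl, h4, h5⟩⟩

theorem PP_rel (S : Setup φ D O ε a b σ) (e : ℕ → Bool) (x x' : (B × B) × Y)
    (h : Rel φ a b O e x x') : PP φ σ O ε e x = PP φ σ O ε e x' := by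
  rcases h with rfl | ⟨h2, k, hk, h⟩
  · rfl
  obtain ⟨⟨z, w⟩, y⟩ := x
  obtain ⟨⟨z', w'⟩, y'⟩ := x'
  have h0 : ∀ z, φ 0 z = z := S.flow.zero
  simp only at h2
  subst h2
  rcases h with ⟨hy, hz, h4, h5⟩ | ⟨hy, hz, h4, h5⟩
  · simp only at hy hz
    subst hz
    have e1 := active_even S e y k hk hy (z, w)
    have e2 := active_even S e y k hk hy (z, w')
    simp only [PP, e1.1, e1.2, e2.1, e2.2, h0]
    rw [Tube.collapse S.flow (S.tube k) h4 h5]
  · simp only at hy hz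
    subst hz
    have e1 := active_odd S e y k hk hy (z, w)
    have e2 := active_odd S e y k hk hy (z', w)
    simp only [PP, e1.1, e1.2, e2.1, e2.2, h0, Prod.swap_prod_mk]
    rw [Tube.collapse S.flow (S.tube k) h4 h5]

theorem c03_arc (S : Setup φ D O ε a b σ) {α β : ℝ} {c : B × B} (h : c ∈ Arc φ α β) :
    ((φ 1 c.1, φ 1 c.2) : B × B) ∈ Arc φ α β := by
  obtain ⟨t, ht, h1⟩ := h
  refine ⟨t, ht, ?_⟩
  have hadd := S.flow.add
  show φ 1 c.2 = φ t (φ 1 c.1)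
  rw [h1, ← hadd, ← hadd, add_comm]

theorem Rel_GG (S : Setup φ D O ε a b σ) (e : ℕ → Bool) (x x' : (B × B) × Y)
    (h : Rel φ a b O e x x') : Rel φ a b O e (GG φ D x) (GG φ D x') := by
  rcases h with rfl | ⟨h2, k, hk, h⟩
  · exact Or.inl rfl
  obtain ⟨⟨z, w⟩, y⟩ := x
  obtain ⟨⟨z', w'⟩, y'⟩ := x'
  simp only at h2
  subst h2
  refine Or.inr ⟨rfl, k, hk, ?_⟩
  rcases h with ⟨hy, hz, h4, h5⟩ | ⟨hy, hz, h4, h5⟩
  · simp only at hy hz
    subst hz
    exact Or.inl ⟨S.base.maps _ hy, rfl, c03_arc S h4, c03_arc S h5⟩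
  · simp only at hy hz
    subst hz
    exact Or.inr ⟨S.base.maps _ hy, rfl, c03_arc S h4, c03_arc S h5⟩

end CPE48
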