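import Pool.Agent.LibCPE48.Defs

/-! TASK D01 (~70 lines).  Two lifting lemmas.

* `lift_of_ker`: `p` is a closed map (`Continuous.isClosedMap`, compact to Hausdorff), so a quotient
  map (`IsClosedMap.isQuotientMap` or `Topology.IsQuotientMap.of_...`); define
  `g w' = f (surjInv hs w')`; then `g ∘ p = f` by `hker`, and continuity by
  `IsQuotientMap.continuous_iff`.
* `exists_lift`: apply `lift_of_ker` to `P : E × W → E × W`, `(e, x) ↦ (e, p e x)`, which is
  continuous and surjective, and to `(e, x) ↦ q e x`; curry the resulting continuous map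
  `E × W → W` by `ContinuousMap.curry`.
-/

namespace CPE48

open Set Function Filter Topology

theorem lift_of_ker {W W' Z : Type*} [TopologicalSpace W] [CompactSpace W]
    [TopologicalSpace W'] [T2Space W'] [TopologicalSpace Z] {p : W → W'} (hp : Continuous p)
    (hs : Surjective p) {f : W → Z} (hf : Continuous f) (hker : ∀ x x', p x = p x' → f x = f x') :
    ∃ g : W' → Z, Continuous g ∧ ∀ x, g (p x) = f x := by
  have hq : Topology.IsQuotientMap p := hp.isClosedMap.isQuotientMap hp hs
  have hg : ∀ x, f (surjInv hs (p x)) = f x := fun x => hker _ _ (surjInv_eq hs (p x))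
  refine ⟨fun w => f (surjInv hs w), ?_, hg⟩
  rw [hq.continuous_iff]
  have h1 : (fun w => f (surjInv hs w)) ∘ p = f := funext hg
  rw [h1]
  exact hf

theorem exists_lift {E W : Type*} [TopologicalSpace E] [CompactSpace E] [T2Space E]
    [TopologicalSpace W] [CompactSpace W] [T2Space W] (p q : E → W → W)
    (hp : Continuous (fun x : E × W => p x.1 x.2)) (hq : Continuous (fun x : E × W => q x.1 x.2))
    (hs : ∀ e, Surjective (p e)) (hker : ∀ e x x', p e x = p e x' → q e x = q e x') :
    ∃ F : C(E, C(W, W)), ∀ e x, F e (p e x) = q e x := by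
  obtain ⟨g, hg, hg2⟩ := lift_of_ker (p := fun x : E × W => (x.1, p x.1 x.2))
    (f := fun x : E × W => q x.1 x.2) (continuous_fst.prodMk hp)
    (by
      rintro ⟨e, w⟩
      obtain ⟨x, hx⟩ := hs e w
      exact ⟨(e, x), by simp only [hx]⟩) hq
    (by
      rintro ⟨e, x⟩ ⟨e', x'⟩ hxx
      simp only [Prod.mk.injEq] at hxx
      obtain ⟨h1, h2⟩ := hxx
      subst h1
      exact hker e x x' h2)
  exact ⟨ContinuousMap.curry ⟨g, hg⟩, fun e x => hg2 (e, x)⟩

end CPE48
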