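import Mathlib

/-!
# CPE48: mixing maps with completely positive entropy are not Borel on tori (n ≥ 5)

Definitions.  The tasks import only this file (and the files named in their headers).
-/

namespace CPE48

open Set Function Filter Topology

/-- Topologically mixing: for all nonempty open `U, V` there is `M` such that
`f^{-m}(U) ∩ V ≠ ∅` for all `m ≥ M`. -/
def Mixing {X : Type*} [TopologicalSpace X] (f : X → X) : Prop :=
  ∀ U V : Set X, IsOpen U → IsOpen V → U.Nonempty → V.Nonempty →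
    ∃ M : ℕ, ∀ m : ℕ, M ≤ m → ((f^[m]) ⁻¹' U ∩ V).Nonempty

/-- Completely positive topological entropy: every factor on a compact metric space with more
than one point has positive topological entropy. -/
def CPE {X : Type*} [TopologicalSpace X] (f : X → X) : Prop :=
  ∀ (Y : Type) [MetricSpace Y] [CompactSpace Y] (g : Y → Y) (π : X → Y),
    Continuous g → Continuous π → Surjective π → (∀ x, π (f x) = g (π x)) →
    Nontrivial Y → 0 < Dynamics.coverEntropy g Set.univ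

/-- Zero entropy, in the form of economical descriptions of orbit segments: for all `ε, η > 0`
the orbit segments of length `n` can be described up to `ε` by at most `K exp(η n)` words. -/
def ZE {X : Type*} [PseudoMetricSpace X] (f : X → X) : Prop :=
  ∀ ε : ℝ, 0 < ε → ∀ η : ℝ, 0 < η → ∃ K : ℝ, ∀ n : ℕ,
    ∃ (κ : Type) (_ : Fintype κ) (d : X → κ),
      (Fintype.card κ : ℝ) ≤ K * Real.exp (η * n) ∧
      ∀ x y, d x = d y → ∀ j < n, dist (f^[j] x) (f^[j] y) < ε

/-- a (jointly continuous) flow -/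
structure IsFlow {B : Type*} [TopologicalSpace B] (φ : ℝ → B → B) : Prop where
  cont : Continuous (fun q : ℝ × B => φ q.1 q.2)
  zero : ∀ z, φ 0 z = z
  add : ∀ s t z, φ (s + t) z = φ s (φ t z)

/-- the flows we need: free, with dense forward orbits, with a mixing time-one map, and with a
time-one map of entropy zero -/
structure GoodFlow (B : Type*) [MetricSpace B] (φ : ℝ → B → B) : Prop extends IsFlow φ where
  free : ∀ t z, φ t z = z → t = 0
  dense : ∀ z, ∀ V : Set B, IsOpen V → V.Nonempty → ∃ t : ℝ, 0 ≤ t ∧ φ t z ∈ V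
  mix : Mixing (φ 1)
  ze : ZE (φ 1)

/-- the base map `D` with infinitely many disjoint closed invariant sets `O l` -/
structure GoodBase (Y : Type*) [MetricSpace Y] (D : Y → Y) (O : ℕ → Set Y) (ε : ℕ → ℝ) :
    Prop where
  cont : Continuous D
  surj : Surjective D
  exact : ∀ U : Set Y, IsOpen U → U.Nonempty → ∃ m : ℕ, D^[m] '' U = univ
  closed : ∀ l, IsClosed (O l)
  nonempty : ∀ l, (O l).Nonempty
  maps : ∀ l, MapsTo D (O l) (O l)
  pos : ∀ l, 0 < ε l
  disj : ∀ y l l', Metric.infDist y (O l) < ε l → Metric.infDist y (O l') < ε l' → l = l'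

/-- the arcs `(z, φ^t z)`, `t ∈ [a, b]` -/
def Arc {B : Type*} (φ : ℝ → B → B) (a b : ℝ) : Set (B × B) :=
  {c | ∃ t ∈ Icc a b, c.2 = φ t c.1}

/-- A function `σ` as in the tube lemma: `(z, w) ↦ (z, φ^{σ((z,w), r)} w)` is the identity for
`r ≥ 1`, is injective for `r > 0`, and collapses exactly the arcs `{(z, φ^t z) : t ∈ [a, b]}` for
`r = 0`. -/
structure Tube {B : Type*} [TopologicalSpace B] (φ : ℝ → B → B) (a b : ℝ)
    (σ : B × B → ℝ → ℝ) : Prop where
  cont : Continuous (fun q : (B × B) × ℝ => σ q.1 q.2)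
  off : ∀ c r, 1 ≤ r → σ c r = 0
  bound : ∀ c r, 0 ≤ r → |σ c r| ≤ 2 * (b - a)
  mono : ∀ z w r, 0 ≤ r → Monotone (fun u => u + σ (z, φ u w) r)
  eq : ∀ z w r u v, 0 ≤ r → u < v → u + σ (z, φ u w) r = v + σ (z, φ v w) r →
    r = 0 ∧ (z, φ u w) ∈ Arc φ a b ∧ (z, φ v w) ∈ Arc φ a b
  const : ∀ z t t', t ∈ Icc a b → t' ∈ Icc a b →
    t + σ (z, φ t z) 0 = t' + σ (z, φ t' z) 0

/-- the function `σ` built from `lam : B × B → [0, 1]` (see task B2) -/
noncomputable def sig {B : Type*} (φ : ℝ → B → B) (lam : B × B → ℝ) (a b : ℝ)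
    (c : B × B) (r : ℝ) : ℝ :=
  -∫ s in (0:ℝ)..(2 * (b - a)), max 0 (lam (c.1, φ (-s) c.2) - r)

/-- the radius parameter at level `l` -/
noncomputable def rr {Y : Type*} [MetricSpace Y] (O : ℕ → Set Y) (ε : ℕ → ℝ) (l : ℕ) (y : Y) :
    ℝ := Metric.infDist y (O l) / ε l

/-- the displacement of the second coordinate (even levels) -/
noncomputable def s1 {B Y : Type*} [MetricSpace Y] (σ : ℕ → B × B → ℝ → ℝ) (O : ℕ → Set Y)
    (ε : ℕ → ℝ) (e : ℕ → Bool) (c : B × B) (y : Y) : ℝ :=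
  ∑' k, if e k = true then σ k c (rr O ε (2 * k) y) else 0

/-- the displacement of the first coordinate (odd levels) -/
noncomputable def s2 {B Y : Type*} [MetricSpace Y] (σ : ℕ → B × B → ℝ → ℝ) (O : ℕ → Set Y)
    (ε : ℕ → ℝ) (e : ℕ → Bool) (c : B × B) (y : Y) : ℝ :=
  ∑' k, if e k = true then σ k c.swap (rr O ε (2 * k + 1) y) else 0

/-- the collapsing map `p_e` on `(B × B) × Y` -/
noncomputable def PP {B Y : Type*} [MetricSpace Y] (φ : ℝ → B → B) (σ : ℕ → B × B → ℝ → ℝ)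
    (O : ℕ → Set Y) (ε : ℕ → ℝ) (e : ℕ → Bool) (x : (B × B) × Y) : (B × B) × Y :=
  ((φ (s2 σ O ε e x.1 x.2) x.1.1, φ (s1 σ O ε e x.1 x.2) x.1.2), x.2)

/-- the uncollapsed map `G = (φ¹ × φ¹) × D` -/
def GG {B Y : Type*} (φ : ℝ → B → B) (D : Y → Y) (x : (B × B) × Y) : (B × B) × Y :=
  ((φ 1 x.1.1, φ 1 x.1.2), D x.2)

/-- the kernel of `p_e` -/
def Rel {B Y : Type*} (φ : ℝ → B → B) (a b : ℕ → ℝ) (O : ℕ → Set Y) (e : ℕ → Bool)
    (x x' : (B × B) × Y) : Prop :=
  x = x' ∨ (x.2 = x'.2 ∧ ∃ k, e k = true ∧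
    ((x.2 ∈ O (2 * k) ∧ x.1.1 = x'.1.1 ∧
        x.1 ∈ Arc φ (a k) (b k) ∧ x'.1 ∈ Arc φ (a k) (b k)) ∨
     (x.2 ∈ O (2 * k + 1) ∧ x.1.2 = x'.1.2 ∧
        x.1.swap ∈ Arc φ (a k) (b k) ∧ x'.1.swap ∈ Arc φ (a k) (b k))))

/-- all the data of the construction -/
structure Setup {B Y : Type*} [MetricSpace B] [MetricSpace Y] (φ : ℝ → B → B) (D : Y → Y)
    (O : ℕ → Set Y) (ε : ℕ → ℝ) (a b : ℕ → ℝ) (σ : ℕ → B × B → ℝ → ℝ) : Prop where
  flow : GoodFlow B φ
  base : GoodBase Y D O ε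
  nonneg : ∀ k, 0 ≤ a k
  lt : ∀ k, a k < b k
  len : Tendsto (fun k => b k - a k) atTop (𝓝 0)
  tube : ∀ k, Tube φ (a k) (b k) (σ k)

/-- a function `H` on the line collapsing all the arcs which are switched on -/
structure Collapse (a b : ℕ → ℝ) (e : ℕ → Bool) (H : ℝ → ℝ) : Prop where
  cont : Continuous H
  const : ∀ k, e k = true → ∀ t ∈ Icc (a k) (b k), ∀ t' ∈ Icc (a k) (b k),
    H t = H t' ∧ H (-t) = H (-t')
  fib : ∀ δ : ℝ, 0 < δ → ∃ T : ℝ, ∀ t t', H t = H t' → T ≤ |t| → |t - t'| < δ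
  nontriv : ∃ t, H t ≠ H 0

/-- the parametrization of the pairs on a common orbit -/
def Th {B : Type*} (φ : ℝ → B → B) (z : B) (t : ℝ) : B × B :=
  (φ (max (-t) 0) z, φ (max t 0) z)

/-- the equivalence relation on `B × B` collapsing the arcs according to `H` -/
def RH {B : Type*} (φ : ℝ → B → B) (H : ℝ → ℝ) (c c' : B × B) : Prop :=
  c = c' ∨ ∃ z t t', c = Th φ z t ∧ c' = Th φ z t' ∧ H t = H t'

end CPE48
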