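import Pool.Agent.LibCPE48.Defs

/-! TASK E01 (~90 lines).  The quotient of a compact metric space by a closed equivalence relation
is compact metrizable.

Let `s : Setoid C`, `Z = Quotient s` with the quotient topology, `q = Quotient.mk`.
`Z` is compact.  `q` is a closed map: for `K` closed, the saturation
`q ⁻¹' (q '' K) = Prod.snd '' ({p | R p.1 p.2} ∩ Prod.fst ⁻¹' K)` is compact, hence closed
(`isQuotientMap.isClosed_preimage`).  `Z` is Hausdorff: (search Mathlib for e.g.
`t2Space_quotient...`/`IsClosedMap ... T2`/`T4`: for a closed surjective continuous map `q` from a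
compact Hausdorff (normal) space: separate the disjoint closed fibres `q⁻¹{z}`, `q⁻¹{z'}` by open
sets `U, U'` and take the complements of `q '' Uᶜ`, `q '' U'ᶜ`).  `Z` is second countable: for a
countable basis `𝓑` of `C`, the sets `(q '' (⋃₀ F)ᶜ)ᶜ`, `F ⊂ 𝓑` finite, form a countable basis of
`Z` (`TopologicalSpace.isTopologicalBasis_of_isOpen_of_nhds`; compactness of the fibres).
Then `TopologicalSpace.metrizableSpace_of_t3_secondCountable` and
`letI := TopologicalSpace.metrizableSpaceMetric Z`.  [If Mathlib already has second countability or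
metrizability of the continuous Hausdorff image of a compact metrizable space, use it.]
-/

namespace CPE48

open Set Function Filter Topology

private lemma e01_mem {C Z : Type*} (q : C → Z) (U : Set C) (z : Z) :
    z ∈ (q '' Uᶜ)ᶜ ↔ q ⁻¹' {z} ⊆ U := by
  constructor
  · intro hz c hc
    by_contra hcU
    exact hz ⟨c, hcU, hc⟩
  · rintro h ⟨c, hc, hcz⟩
    exact hc (h hcz)

private lemma e01_t2 {C Z : Type*} [TopologicalSpace C] [CompactSpace C] [T2Space C]
    [TopologicalSpace Z] (q : C → Z) (hq : IsClosedMap q) (hs : Surjective q)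
    (hf : ∀ z, IsClosed (q ⁻¹' {z})) : T2Space Z := by
  refine ⟨fun z z' hzz => ?_⟩
  have hd : Disjoint (q ⁻¹' {z}) (q ⁻¹' {z'}) := by
    rw [Set.disjoint_left]
    intro c hc hc'
    exact hzz (Eq.trans (Eq.symm hc) hc')
  obtain ⟨U, U', hU, hU', h1, h2, h3⟩ :=
    SeparatedNhds.of_isCompact_isCompact (hf z).isCompact (hf z').isCompact hd
  refine ⟨(q '' Uᶜ)ᶜ, (q '' U'ᶜ)ᶜ, (hq _ hU.isClosed_compl).isOpen_compl,
    (hq _ hU'.isClosed_compl).isOpen_compl, (e01_mem q U z).2 h1, (e01_mem q U' z').2 h2, ?_⟩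
  rw [Set.disjoint_left]
  intro w hw hw'
  obtain ⟨c, rfl⟩ := hs w
  exact Set.disjoint_left.1 h3 ((e01_mem q U _).1 hw rfl) ((e01_mem q U' _).1 hw' rfl)

private lemma e01_cover {C : Type*} [TopologicalSpace C] (B : Set (Set C))
    (hB : TopologicalSpace.IsTopologicalBasis B) (K O : Set C) (hK : IsCompact K) (hO : IsOpen O)
    (hKO : K ⊆ O) : ∃ F : Set (Set C), F ⊆ B ∧ F.Finite ∧ K ⊆ ⋃₀ F ∧ ⋃₀ F ⊆ O := by
  have h1 : ∀ x ∈ K, ∃ b ∈ B, x ∈ b ∧ b ⊆ O := fun x hx =>
    hB.exists_subset_of_mem_open (hKO hx) hO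
  choose! b hb1 hb2 hb3 using h1
  obtain ⟨t, ht1, ht2⟩ := hK.elim_nhds_subcover b
    (fun x hx => (hB.isOpen (hb1 x hx)).mem_nhds (hb2 x hx))
  refine ⟨b '' (t : Set C), ?_, t.finite_toSet.image b, ?_, ?_⟩
  · rintro _ ⟨x, hx, rfl⟩
    exact hb1 x (ht1 x hx)
  · intro x hx
    obtain ⟨y, hy, hxy⟩ := Set.mem_iUnion₂.1 (ht2 hx)
    exact ⟨b y, ⟨y, hy, rfl⟩, hxy⟩
  · rintro x ⟨_, ⟨y, hy, rfl⟩, hxy⟩
    exact hb3 y (ht1 y hy) hxy

private lemma e01_sc {C Z : Type*} [TopologicalSpace C] [CompactSpace C]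
    [SecondCountableTopology C] [TopologicalSpace Z] (q : C → Z) (hqc : Continuous q)
    (hq : IsClosedMap q) (hs : Surjective q)
    (hf : ∀ z, IsClosed (q ⁻¹' {z})) : SecondCountableTopology Z := by
  obtain ⟨B, hBc, -, hB⟩ := TopologicalSpace.exists_countable_basis C
  have hcount : (Set.image (fun F : Set (Set C) => (q '' (⋃₀ F)ᶜ)ᶜ)
      {F : Set (Set C) | F.Finite ∧ F ⊆ B}).Countable :=
    (Set.countable_setOf_finite_subset hBc).image _
  have hbasis : TopologicalSpace.IsTopologicalBasis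
      (Set.image (fun F : Set (Set C) => (q '' (⋃₀ F)ᶜ)ᶜ)
        {F : Set (Set C) | F.Finite ∧ F ⊆ B}) := by
    refine TopologicalSpace.isTopologicalBasis_of_isOpen_of_nhds ?_ ?_
    · rintro _ ⟨F, ⟨-, hF⟩, rfl⟩
      have h1 : IsOpen (⋃₀ F) := isOpen_sUnion fun s hs' => hB.isOpen (hF hs')
      exact (hq _ h1.isClosed_compl).isOpen_compl
    · intro z O hzO hO
      obtain ⟨F, hF1, hF2, hF3, hF4⟩ := e01_cover B hB (q ⁻¹' {z}) (q ⁻¹' O)
        (hf z).isCompact (hO.preimage hqc) (by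
          intro c hc
          rw [Set.mem_preimage, hc]
          exact hzO)
      refine ⟨_, ⟨F, ⟨hF2, hF1⟩, rfl⟩, (e01_mem q _ z).2 hF3, ?_⟩
      intro w hw
      obtain ⟨c, rfl⟩ := hs w
      exact hF4 ((e01_mem q _ _).1 hw rfl)
  exact hbasis.secondCountableTopology hcount

theorem exists_quotient_metric {C : Type} [MetricSpace C] [CompactSpace C] (R : C → C → Prop)
    (hR : Equivalence R) (hc : IsClosed {p : C × C | R p.1 p.2}) :
    ∃ (Z : Type) (_ : MetricSpace Z) (_ : CompactSpace Z) (q : C → Z), Continuous q ∧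
      Surjective q ∧ ∀ c c', q c = q c' ↔ R c c' := by
  let s : Setoid C := ⟨R, hR⟩
  let q : C → Quotient s := Quotient.mk s
  have hq0 : ∀ c c', q c = q c' ↔ R c c' := fun c c' => Quotient.eq
  have hqc : Continuous q := continuous_quotient_mk'
  have hqm : IsQuotientMap q := isQuotientMap_quotient_mk'
  have hs : Surjective q := Quotient.mk_surjective
  have hcl : IsClosedMap q := by
    intro K hK
    rw [← hqm.isClosed_preimage]
    have h1 : q ⁻¹' (q '' K) = Prod.snd '' ({p : C × C | R p.1 p.2} ∩ Prod.fst ⁻¹' K) := by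
      ext c
      constructor
      · rintro ⟨d, hd, hdc⟩
        exact ⟨(d, c), ⟨(hq0 d c).1 hdc, hd⟩, rfl⟩
      · rintro ⟨⟨d, c'⟩, ⟨h1, h2⟩, rfl⟩
        exact ⟨d, h2, (hq0 d c').2 h1⟩
    rw [h1]
    exact ((hc.inter (hK.preimage continuous_fst)).isCompact.image continuous_snd).isClosed
  have hf : ∀ z, IsClosed (q ⁻¹' {z}) := by
    intro z
    obtain ⟨c, rfl⟩ := hs z
    have h1 : q ⁻¹' {q c} = {d | R d c} := by
      ext d
      exact hq0 d c
    rw [h1]
    exact hc.preimage (continuous_id.prodMk continuous_const)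
  haveI : T2Space (Quotient s) := e01_t2 q hcl hs hf
  haveI : SecondCountableTopology (Quotient s) := e01_sc q hqc hcl hs hf
  haveI : CompactSpace (Quotient s) := Quotient.compactSpace
  haveI : TopologicalSpace.MetrizableSpace (Quotient s) :=
    TopologicalSpace.metrizableSpace_of_t3_secondCountable (Quotient s)
  letI m : MetricSpace (Quotient s) := TopologicalSpace.metrizableSpaceMetric (Quotient s)
  exact ⟨Quotient s, m, inferInstance, q, hqc, hs, hq0⟩

end CPE48
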