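import Pool.Agent.LibCPE48.Defs

/-! TASK E02.  Part 1 of (no branch ⇒ CPE). -/

namespace CPE48

open Set Function Filter Topology

theorem const_of_cover {Z : Type*} [MetricSpace Z] (f : ℝ → Z) (hf : Continuous f)
    (a b : ℕ → ℝ) (e : ℕ → Bool)
    (hc : ∀ k, e k = true → ∀ t ∈ Icc (a k) (b k), ∀ t' ∈ Icc (a k) (b k), f t = f t')
    (hcov : ∀ t : ℝ, 0 < t → ∃ k, e k = true ∧ t ∈ Icc (a k) (b k)) (t : ℝ) (ht : 0 ≤ t) :
    f t = f 0 := by
  by_contra hne
  have hg : Continuous fun s : ℝ => dist (f s) (f 0) := hf.dist continuous_const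
  set S : Set ℝ := (fun s : ℝ => dist (f s) (f 0)) '' Ici 0 with hS
  have hpre : IsPreconnected S := isPreconnected_Ici.image _ hg.continuousOn
  have hcount : S.Countable := by
    have hsub : S ⊆ {0} ∪ range fun k : ℕ => dist (f (a k)) (f 0) := by
      rintro _ ⟨s, hs, rfl⟩
      rcases (show (0 : ℝ) ≤ s from hs).eq_or_lt with h0 | h0
      · left
        subst h0
        simp
      · right
        obtain ⟨k, hk, hsk⟩ := hcov s h0
        refine ⟨k, ?_⟩
        show dist (f (a k)) (f 0) = dist (f s) (f 0)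
        rw [hc k hk (a k) ⟨le_rfl, hsk.1.trans hsk.2⟩ s hsk]
    exact ((countable_singleton 0).union (countable_range _)).mono hsub
  have h0S : (0 : ℝ) ∈ S := ⟨0, mem_Ici.2 le_rfl, dist_self _⟩
  have htS : dist (f t) (f 0) ∈ S := ⟨t, ht, rfl⟩
  have hpos : 0 < dist (f t) (f 0) := dist_pos.2 hne
  have hIcc : Icc 0 (dist (f t) (f 0)) ⊆ S := hpre.Icc_subset h0S htS
  exact absurd (hcount.mono hIcc) (fun hh => absurd (Cardinal.Real.Icc_countable_iff.1 hh) (not_le.2 hpos))

theorem kappa_const {B Z : Type*} [MetricSpace B] [MetricSpace Z] {φ : ℝ → B → B}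
    (h : GoodFlow B φ) (κ : B × B → Z) (hκ : Continuous κ) (a b : ℕ → ℝ) (e : ℕ → Bool)
    (h1 : ∀ k, e k = true → ∀ z, ∀ t ∈ Icc (a k) (b k), ∀ t' ∈ Icc (a k) (b k),
      κ (z, φ t z) = κ (z, φ t' z))
    (h2 : ∀ k, e k = true → ∀ z, ∀ t ∈ Icc (a k) (b k), ∀ t' ∈ Icc (a k) (b k),
      κ (φ t z, z) = κ (φ t' z, z))
    (hcov : ∀ t : ℝ, 0 < t → ∃ k, e k = true ∧ t ∈ Icc (a k) (b k)) (c c' : B × B) :
    κ c = κ c' := by
  have hφ : ∀ z : B, Continuous fun t : ℝ => φ t z := fun z =>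
    h.cont.comp (continuous_id.prodMk continuous_const)
  have k1 : ∀ z w : B, κ (z, w) = κ (z, z) := by
    intro z w
    by_contra hne
    have hop : IsOpen {w : B | κ (z, w) ≠ κ (z, z)} :=
      isOpen_ne_fun (hκ.comp (continuous_const.prodMk continuous_id)) continuous_const
    obtain ⟨t, ht, htV⟩ := h.dense z _ hop ⟨w, hne⟩
    apply htV
    have := const_of_cover (fun t => κ (z, φ t z))
      (hκ.comp (continuous_const.prodMk (hφ z))) a b e (fun k hk => h1 k hk z) hcov t ht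
    simpa [h.zero] using this
  have k2 : ∀ z w : B, κ (w, z) = κ (z, z) := by
    intro z w
    by_contra hne
    have hop : IsOpen {w : B | κ (w, z) ≠ κ (z, z)} :=
      isOpen_ne_fun (hκ.comp (continuous_id.prodMk continuous_const)) continuous_const
    obtain ⟨t, ht, htV⟩ := h.dense z _ hop ⟨w, hne⟩
    apply htV
    have := const_of_cover (fun t => κ (φ t z, z))
      (hκ.comp ((hφ z).prodMk continuous_const)) a b e (fun k hk => h2 k hk z) hcov t ht
    simpa [h.zero] using this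
  obtain ⟨z, w⟩ := c
  obtain ⟨z', w'⟩ := c'
  calc κ (z, w) = κ (z, z) := k1 z w
    _ = κ (z, z') := (k1 z z').symm
    _ = κ (z', z') := k2 z' z
    _ = κ (z', w') := (k1 z' w').symm

end CPE48
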