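import Pool.Agent.LibCPE48.A08
import Pool.Agent.LibCPE48.A09
import Pool.Agent.LibCPE48.E02

/-! TASK E03.  (No branch ⇒ CPE.) -/

namespace CPE48

open Set Function Filter Topology

theorem cpe_of_cover {B Y : Type} [MetricSpace B] [CompactSpace B] [Nonempty B] [MetricSpace Y]
    {φ : ℝ → B → B} {D : Y → Y} {O : ℕ → Set Y} {ε : ℕ → ℝ}
    (h : GoodFlow B φ) (hY : GoodBase Y D O ε) (a b : ℕ → ℝ) (e : ℕ → Bool)
    (p Fe : (B × B) × Y → (B × B) × Y) (hpc : Continuous p) (hps : Surjective p)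
    (hF : ∀ x, Fe (p x) = p (GG φ D x))
    (hcol : ∀ x x', Rel φ a b O e x x' → p x = p x')
    (hcov : ∀ t : ℝ, 0 < t → ∃ k, e k = true ∧ t ∈ Icc (a k) (b k)) : CPE Fe := by
  intro Z _ _ k π hk hπ hπs hπF hnt
  by_contra hz
  obtain ⟨y₀, -⟩ := hY.nonempty 0
  have hind : ∀ c y y', π (p (c, y)) = π (p (c, y')) := by
    intro c y y'
    refine indep_of_base (g := Prod.map (φ 1) (φ 1)) (D := D) hY.surj hY.exact
      (fun N hN hne => h.vis N hN hne) k (fun x => π (p x)) (hπ.comp hpc) ?_ hz c y y'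
    intro c y
    have h1 : π (Fe (p (c, y))) = k (π (p (c, y))) := hπF _
    rw [hF] at h1
    exact h1
  have hcolπ : ∀ x x', Rel φ a b O e x x' → π (p x) = π (p x') := by
    intro x x' hx
    rw [hcol x x' hx]
  have hκ : ∀ c c', π (p (c, y₀)) = π (p (c', y₀)) := by
    intro c c'
    refine kappa_const h (fun c => π (p (c, y₀))) ?_ a b e ?_ ?_ hcov c c'
    · exact (hπ.comp hpc).comp (continuous_id.prodMk continuous_const)
    · intro m hm z t ht t' ht'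
      obtain ⟨y, hy⟩ := hY.nonempty (2 * m)
      show π (p ((z, φ t z), y₀)) = π (p ((z, φ t' z), y₀))
      rw [hind (z, φ t z) y₀ y, hind (z, φ t' z) y₀ y]
      refine hcolπ _ _ (Or.inr ⟨rfl, m, hm, Or.inl ⟨hy, rfl, ?_, ?_⟩⟩)
      · exact ⟨t, ht, rfl⟩
      · exact ⟨t', ht', rfl⟩
    · intro m hm z t ht t' ht'
      obtain ⟨y, hy⟩ := hY.nonempty (2 * m + 1)
      show π (p ((φ t z, z), y₀)) = π (p ((φ t' z, z), y₀))
      rw [hind (φ t z, z) y₀ y, hind (φ t' z, z) y₀ y]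
      refine hcolπ _ _ (Or.inr ⟨rfl, m, hm, Or.inr ⟨hy, rfl, ?_, ?_⟩⟩)
      · exact ⟨t, ht, rfl⟩
      · exact ⟨t', ht', rfl⟩
  obtain ⟨u, v, huv⟩ := hnt
  apply huv
  obtain ⟨x, rfl⟩ := hπs u
  obtain ⟨x', rfl⟩ := hπs v
  obtain ⟨⟨c, y⟩, rfl⟩ := hps x
  obtain ⟨⟨c', y'⟩, rfl⟩ := hps x'
  calc π (p (c, y)) = π (p (c, y₀)) := hind _ _ _
    _ = π (p (c', y₀)) := hκ _ _
    _ = π (p (c', y')) := hind _ _ _

end CPE48
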