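import Pool.Agent.LibCPE48.Defs

/-! TASK E04.  The relation `RH` is an equivalence relation. -/

namespace CPE48

open Set Function Filter Topology

variable {B : Type*} [MetricSpace B] {φ : ℝ → B → B}

theorem e04_pos {z : B} {t : ℝ} (h : GoodFlow B φ) (ht : 0 ≤ t) : Th φ z t = (z, φ t z) := by
  unfold Th
  rw [max_eq_right (by linarith), max_eq_left ht, h.zero]

theorem e04_neg {z : B} {t : ℝ} (h : GoodFlow B φ) (ht : t ≤ 0) : Th φ z t = (φ (-t) z, z) := by
  unfold Th
  rw [max_eq_left (by linarith), max_eq_right ht, h.zero]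

theorem Th_injective (h : GoodFlow B φ) {z z' : B} {t t' : ℝ} (he : Th φ z t = Th φ z' t') :
    z = z' ∧ t = t' := by
  have hfree : ∀ (s s' : ℝ) (x : B), φ s x = φ s' x → s = s' := by
    intro s s' x hs
    have h1 : φ (s - s') (φ s' x) = φ s' x := by
      rw [← h.add, sub_add_cancel]
      exact hs
    have := h.free _ _ h1
    linarith
  have hinj : ∀ (s : ℝ) (x x' : B), φ s x = φ s x' → x = x' := by
    intro s x x' hs
    have h1 : φ (-s) (φ s x) = φ (-s) (φ s x') := by rw [hs]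
    rw [← h.add, ← h.add, neg_add_cancel, h.zero, h.zero] at h1
    exact h1
  rcases le_total 0 t with ht | ht <;> rcases le_total 0 t' with ht' | ht'
  · rw [e04_pos h ht, e04_pos h ht', Prod.mk.injEq] at he
    obtain ⟨h1, h2⟩ := he
    subst h1
    exact ⟨rfl, hfree _ _ _ h2⟩
  · rw [e04_pos h ht, e04_neg h ht', Prod.mk.injEq] at he
    obtain ⟨h1, h2⟩ := he
    have h3 : φ (t + -t') z' = φ 0 z' := by
      rw [h.add, ← h1, h2, h.zero]
    have h4 := hfree _ _ _ h3
    have h5 : t = 0 := by linarith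
    have h6 : t' = 0 := by linarith
    subst h5 h6
    rw [neg_zero, h.zero] at h1
    exact ⟨h1, rfl⟩
  · rw [e04_neg h ht, e04_pos h ht', Prod.mk.injEq] at he
    obtain ⟨h1, h2⟩ := he
    have h3 : φ (t' + -t) z = φ 0 z := by
      rw [h.add, h1, ← h2, h.zero]
    have h4 := hfree _ _ _ h3
    have h5 : t = 0 := by linarith
    have h6 : t' = 0 := by linarith
    subst h5 h6
    rw [neg_zero, h.zero] at h1
    exact ⟨h1, rfl⟩
  · rw [e04_neg h ht, e04_neg h ht', Prod.mk.injEq] at he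
    obtain ⟨h1, h2⟩ := he
    subst h2
    have := hfree _ _ _ h1
    exact ⟨rfl, by linarith⟩

theorem Th_map (h : GoodFlow B φ) (z : B) (t : ℝ) :
    Prod.map (φ 1) (φ 1) (Th φ z t) = Th φ (φ 1 z) t := by
  unfold Th
  rw [Prod.map_apply, ← h.add, ← h.add, ← h.add, ← h.add, add_comm 1, add_comm 1]

theorem RH_equivalence (h : GoodFlow B φ) (H : ℝ → ℝ) : Equivalence (RH φ H) := by
  refine ⟨fun c => Or.inl rfl, ?_, ?_⟩
  · rintro c c' (h1 | ⟨z, t, t', h1, h2, h3⟩)
    · exact Or.inl h1.symm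
    · exact Or.inr ⟨z, t', t, h2, h1, h3.symm⟩
  · rintro c c' c'' (h1 | ⟨z, t, t', h1, h2, h3⟩) (g1 | ⟨w, s, s', g1, g2, g3⟩)
    · exact Or.inl (h1.trans g1)
    · subst h1
      exact Or.inr ⟨w, s, s', g1, g2, g3⟩
    · subst g1
      exact Or.inr ⟨z, t, t', h1, h2, h3⟩
    · obtain ⟨e1, e2⟩ := Th_injective h (h2.symm.trans g1)
      subst e1 e2
      exact Or.inr ⟨z, t, s', h1, g2, h3.trans g3⟩

end CPE48
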