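import Pool.Agent.LibCPE48.Defs

/-! TASK E05.  The relation `RH` is closed. -/

namespace CPE48

open Set Function Filter Topology

theorem e05_small {B : Type*} [MetricSpace B] [CompactSpace B] {φ : ℝ → B → B} (h : IsFlow φ)
    (η : ℝ) (hη : 0 < η) : ∃ δ : ℝ, 0 < δ ∧ ∀ s x, |s| < δ → dist (φ s x) x < η := by
  have hK : IsCompact ((Icc (-1 : ℝ) 1) ×ˢ (univ : Set B)) := isCompact_Icc.prod isCompact_univ
  have hu := hK.uniformContinuousOn_of_continuous (f := fun q : ℝ × B => φ q.1 q.2)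
    h.cont.continuousOn
  rw [Metric.uniformContinuousOn_iff] at hu
  obtain ⟨δ, hδ, hd⟩ := hu η hη
  refine ⟨min δ 1, lt_min hδ one_pos, ?_⟩
  intro s x hs
  have h1 : |s| < δ := lt_of_lt_of_le hs (min_le_left _ _)
  have h2 : |s| ≤ 1 := (lt_of_lt_of_le hs (min_le_right _ _)).le
  have h3 := hd (s, x) ⟨abs_le.1 h2, mem_univ _⟩ (0, x) ⟨by simp, mem_univ _⟩ (by
    rw [Prod.dist_eq, dist_self, Real.dist_eq, sub_zero]
    exact max_lt h1 hδ)
  simpa [h.zero] using h3

theorem Th_unif {B : Type*} [MetricSpace B] [CompactSpace B] {φ : ℝ → B → B} (h : IsFlow φ)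
    (η : ℝ) (hη : 0 < η) : ∃ δ : ℝ, 0 < δ ∧ ∀ z t t', |t - t'| < δ →
      dist (Th φ z t) (Th φ z t') < η := by
  obtain ⟨δ, hδ, hd⟩ := e05_small h η hη
  refine ⟨δ, hδ, ?_⟩
  intro z t t' htt
  have key : ∀ u v : ℝ, |u - v| < δ → dist (φ u z) (φ v z) < η := by
    intro u v huv
    have h1 : φ u z = φ (u - v) (φ v z) := by
      rw [← h.add, sub_add_cancel]
    rw [h1]
    exact hd _ _ huv
  have h1 : |max (-t) 0 - max (-t') 0| < δ := by
    refine lt_of_le_of_lt (abs_max_sub_max_le_abs _ _ _) ?_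
    have : -t - -t' = -(t - t') := by ring
    rw [this, abs_neg]
    exact htt
  have h2 : |max t 0 - max t' 0| < δ := lt_of_le_of_lt (abs_max_sub_max_le_abs _ _ _) htt
  unfold Th
  rw [Prod.dist_eq]
  exact max_lt (key _ _ h1) (key _ _ h2)

theorem RH_closed {B : Type*} [MetricSpace B] [CompactSpace B] {φ : ℝ → B → B}
    (h : IsFlow φ) {H : ℝ → ℝ} (hH : Continuous H)
    (hfib : ∀ δ : ℝ, 0 < δ → ∃ T : ℝ, ∀ t t', H t = H t' → T ≤ |t| → |t - t'| < δ) :
    IsClosed {p : (B × B) × (B × B) | RH φ H p.1 p.2} := by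
  set S : Set ((B × B) × (B × B)) := {p | RH φ H p.1 p.2} with hS
  refine isClosed_of_closure_subset ?_
  intro p hp
  by_cases hpe : p.1 = p.2
  · exact Or.inl hpe
  have hdpos : 0 < dist p.1 p.2 := dist_pos.2 hpe
  set η : ℝ := dist p.1 p.2 / 2 with hη
  have hη0 : 0 < η := by
    rw [hη]
    linarith
  set U : Set ((B × B) × (B × B)) := {q | η < dist q.1 q.2} with hU
  have hUo : IsOpen U := isOpen_lt continuous_const (continuous_fst.dist continuous_snd)
  have hpU : p ∈ U := by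
    show η < dist p.1 p.2
    rw [hη]
    linarith
  have hpc : p ∈ closure (U ∩ S) := hUo.inter_closure ⟨hpU, hp⟩
  obtain ⟨δ, hδ, hd⟩ := Th_unif h η hη0
  obtain ⟨T, hT⟩ := hfib δ hδ
  set C : Set (B × (ℝ × ℝ)) := ((univ : Set B) ×ˢ ((Icc (-T) T) ×ˢ (Icc (-T) T))) ∩
    {q | H q.2.1 = H q.2.2} with hC
  have hCc : IsCompact C := by
    refine (isCompact_univ.prod (isCompact_Icc.prod isCompact_Icc)).inter_right ?_
    exact isClosed_eq (by fun_prop) (by fun_prop)
  have hTh : Continuous fun q : B × ℝ => Th φ q.1 q.2 := by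
    unfold Th
    have h1 : Continuous fun q : B × ℝ => φ (max (-q.2) 0) q.1 :=
      h.cont.comp ((by fun_prop : Continuous fun q : B × ℝ => (max (-q.2) 0, q.1)))
    have h2 : Continuous fun q : B × ℝ => φ (max q.2 0) q.1 :=
      h.cont.comp ((by fun_prop : Continuous fun q : B × ℝ => (max q.2 0, q.1)))
    exact h1.prodMk h2
  set K : Set ((B × B) × (B × B)) :=
    (fun q : B × (ℝ × ℝ) => (Th φ q.1 q.2.1, Th φ q.1 q.2.2)) '' C with hK
  have hKc : IsCompact K := by
    refine hCc.image ?_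
    have h1 : Continuous fun q : B × (ℝ × ℝ) => Th φ q.1 q.2.1 :=
      hTh.comp (by fun_prop : Continuous fun q : B × (ℝ × ℝ) => (q.1, q.2.1))
    have h2 : Continuous fun q : B × (ℝ × ℝ) => Th φ q.1 q.2.2 :=
      hTh.comp (by fun_prop : Continuous fun q : B × (ℝ × ℝ) => (q.1, q.2.2))
    exact h1.prodMk h2
  have hsub : U ∩ S ⊆ K := by
    rintro q ⟨hq1, hq2⟩
    have hq1' : η < dist q.1 q.2 := hq1
    rcases hq2 with hq2 | ⟨z, t, t', e1, e2, e3⟩
    · exfalso
      rw [hq2, dist_self] at hq1'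
      linarith
    · have ht : |t| < T := by
        by_contra hcon
        push Not at hcon
        have := hd z t t' (hT t t' e3 hcon)
        rw [← e1, ← e2] at this
        linarith
      have ht' : |t'| < T := by
        by_contra hcon
        push Not at hcon
        have := hd z t' t (hT t' t e3.symm hcon)
        rw [← e1, ← e2, dist_comm] at this
        linarith
      refine ⟨(z, (t, t')), ⟨⟨mem_univ _, abs_le.1 ht.le, abs_le.1 ht'.le⟩, e3⟩, ?_⟩
      show (Th φ z t, Th φ z t') = q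
      rw [← e1, ← e2]
  have hpK : p ∈ K := closure_minimal hsub hKc.isClosed hpc
  obtain ⟨q, hq, rfl⟩ := hpK
  exact Or.inr ⟨q.1, q.2.1, q.2.2, rfl, rfl, hq.2⟩

end CPE48
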