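import Pool.Agent.LibCPE48.A03
import Pool.Agent.LibCPE48.A04
import Pool.Agent.LibCPE48.D01
import Pool.Agent.LibCPE48.E01
import Pool.Agent.LibCPE48.E04
import Pool.Agent.LibCPE48.E05

/-! TASK E06.  (Branch ⇒ not CPE.) -/

namespace CPE48

open Set Function Filter Topology

theorem e06_pos {B : Type*} [MetricSpace B] {φ : ℝ → B → B} (h : GoodFlow B φ) {z : B} {t : ℝ}
    (ht : 0 ≤ t) : Th φ z t = (z, φ t z) := by
  unfold Th
  rw [max_eq_right (by linarith), max_eq_left ht, h.zero]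

theorem e06_neg {B : Type*} [MetricSpace B] {φ : ℝ → B → B} (h : GoodFlow B φ) {z : B} {t : ℝ}
    (ht : 0 ≤ t) : Th φ z (-t) = (φ t z, z) := by
  unfold Th
  rw [neg_neg, max_eq_left ht, max_eq_right (by linarith), h.zero]

theorem e06_rel {B Y : Type*} [MetricSpace B] [MetricSpace Y] {φ : ℝ → B → B} {O : ℕ → Set Y}
    (h : GoodFlow B φ) (a b : ℕ → ℝ) (ha : ∀ k, 0 ≤ a k) (e : ℕ → Bool) (H : ℝ → ℝ)
    (hH : Collapse a b e H) (x x' : (B × B) × Y) (hr : Rel φ a b O e x x') :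
    RH φ H x.1 x'.1 := by
  rcases hr with rfl | ⟨-, k, hk, ⟨-, h1, h2, h3⟩ | ⟨-, h1, h2, h3⟩⟩
  · exact Or.inl rfl
  · obtain ⟨t, ht, e1⟩ := h2
    obtain ⟨t', ht', e2⟩ := h3
    refine Or.inr ⟨x.1.1, t, t', ?_, ?_, (hH.const k hk t ht t' ht').1⟩
    · rw [e06_pos h ((ha k).trans ht.1), ← e1]
    · rw [e06_pos h ((ha k).trans ht'.1), h1, ← e2]
  · obtain ⟨t, ht, e1⟩ := h2
    obtain ⟨t', ht', e2⟩ := h3
    have e1' : x.1.1 = φ t x.1.2 := e1
    have e2' : x'.1.1 = φ t' x'.1.2 := e2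
    refine Or.inr ⟨x.1.2, -t, -t', ?_, ?_, (hH.const k hk t ht t' ht').2⟩
    · rw [e06_neg h ((ha k).trans ht.1), ← e1']
    · rw [e06_neg h ((ha k).trans ht'.1), h1, ← e2']

theorem not_cpe_of_collapse {B Y : Type} [MetricSpace B] [CompactSpace B] [Nonempty B]
    [MetricSpace Y] [CompactSpace Y] [Nonempty Y]
    {φ : ℝ → B → B} {D : Y → Y} {O : ℕ → Set Y}
    (h : GoodFlow B φ) (a b : ℕ → ℝ) (ha : ∀ k, 0 ≤ a k) (e : ℕ → Bool)
    (p Fe : (B × B) × Y → (B × B) × Y) (hpc : Continuous p) (hps : Surjective p)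
    (hF : ∀ x, Fe (p x) = p (GG φ D x))
    (hker : ∀ x x', p x = p x' → Rel φ a b O e x x')
    (H : ℝ → ℝ) (hH : Collapse a b e H) : ¬ CPE Fe := by
  intro hcpe
  obtain ⟨Z, mZ, cZ, q, hq, hqs, hqR⟩ := exists_quotient_metric (RH φ H) (RH_equivalence h H)
    (RH_closed h.toIsFlow hH.cont hH.fib)
  have hφ1 : Continuous (φ 1) := h.cont.comp (continuous_const.prodMk continuous_id)
  have hg : Continuous (Prod.map (φ 1) (φ 1)) := hφ1.prodMap hφ1
  have hRg : ∀ c c', RH φ H c c' →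
      RH φ H (Prod.map (φ 1) (φ 1) c) (Prod.map (φ 1) (φ 1) c') := by
    rintro c c' (rfl | ⟨z, t, t', e1, e2, e3⟩)
    · exact Or.inl rfl
    · refine Or.inr ⟨φ 1 z, t, t', ?_, ?_, e3⟩
      · rw [e1, Th_map h]
      · rw [e2, Th_map h]
  obtain ⟨g', hg', hg'q⟩ := lift_of_ker hq hqs (hq.comp hg)
    (fun x x' hx => (hqR _ _).2 (hRg _ _ ((hqR _ _).1 hx)))
  have hze : ZE g' := ZE.factor hq hqs (fun x => (hg'q x).symm) (ZE.prod h.ze h.ze)
  have hnt : Nontrivial Z := by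
    obtain ⟨t, ht⟩ := hH.nontriv
    obtain ⟨z⟩ := (inferInstance : Nonempty B)
    refine ⟨q (Th φ z t), q (Th φ z 0), ?_⟩
    intro hqe
    rcases (hqR _ _).1 hqe with h1 | ⟨w, s, s', e1, e2, e3⟩
    · have := (Th_injective h h1).2
      subst this
      exact ht rfl
    · have f1 := (Th_injective h e1).2
      have f2 := (Th_injective h e2).2
      subst f1 f2
      exact ht e3
  obtain ⟨π, hπ, hπp⟩ := lift_of_ker hpc hps (f := fun x : (B × B) × Y => q x.1)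
    (hq.comp continuous_fst)
    (fun x x' hx => (hqR _ _).2 (e06_rel h a b ha e H hH x x' (hker x x' hx)))
  have hπs : Surjective π := by
    intro w
    obtain ⟨c, rfl⟩ := hqs w
    obtain ⟨y⟩ := (inferInstance : Nonempty Y)
    exact ⟨p (c, y), hπp (c, y)⟩
  refine ZE.not_pos_entropy hze (hcpe Z g' π hg' hπ hπs ?_ hnt)
  intro w
  obtain ⟨x, rfl⟩ := hps w
  rw [hF, hπp, hπp]
  exact (hg'q x.1).symm

end CPE48
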