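import Pool.Agent.LibCPE48.TC

/-! TASK F01 (~90 lines).  Basic properties of `tm` and of its inverse `iv`.

* `tm_diff`: additivity of interval integrals
  (`u ↦ f (ρ u p)` is continuous: `h.fc.comp (h.flow.cont.comp ..)`, so interval integrable).
* `tm_le`, `tm_ge`: `intervalIntegral.integral_mono_on` with constants `1/2`, `3/2`.
* `tm_cocycle`: `ρ (r + u) p = ρ u (ρ r p)` and the substitution `v = r + u`
  (`intervalIntegral.integral_comp_add_left`).
* `tm_iv`: surjectivity of `tm p` from continuity in `r` and the linear bounds (IVT).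
* `iv_tm`: injectivity of `tm p` (from `tm_ge`, strict monotonicity) and `tm_iv`.
* `tm_abs`: `|s - r| ≤ 2 |tm p s - tm p r|`.
-/

namespace CPE48

open Set Function Filter Topology

variable {X : Type*} [MetricSpace X] {ρ : ℝ → X → X} {f : X → ℝ}

theorem f01_cont (h : TData ρ f) (p : X) : Continuous (fun u => f (ρ u p)) :=
  h.fc.comp (h.flow.cont.comp (continuous_id.prodMk continuous_const))

theorem tm_diff (h : TData ρ f) (p : X) (r s : ℝ) :
    tm ρ f p s - tm ρ f p r = ∫ u in r..s, f (ρ u p) :=
  intervalIntegral.integral_interval_sub_left ((f01_cont h p).intervalIntegrable _ _)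
    ((f01_cont h p).intervalIntegrable _ _)

theorem tm_ge (h : TData ρ f) (p : X) {r s : ℝ} (hrs : r ≤ s) :
    (s - r) / 2 ≤ tm ρ f p s - tm ρ f p r := by
  rw [tm_diff h]
  have h2 := intervalIntegral.integral_mono (μ := MeasureTheory.volume) hrs (intervalIntegrable_const (c := (1 / 2 : ℝ)))
    ((f01_cont h p).intervalIntegrable _ _) (fun u => h.lo (ρ u p))
  rw [intervalIntegral.integral_const, smul_eq_mul] at h2
  linarith

theorem tm_le (h : TData ρ f) (p : X) {r s : ℝ} (hrs : r ≤ s) :
    tm ρ f p s - tm ρ f p r ≤ 3 / 2 * (s - r) := by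
  rw [tm_diff h]
  have h2 := intervalIntegral.integral_mono (μ := MeasureTheory.volume) hrs ((f01_cont h p).intervalIntegrable _ _)
    (intervalIntegrable_const (c := (3 / 2 : ℝ))) (fun u => h.hi (ρ u p))
  rw [intervalIntegral.integral_const, smul_eq_mul] at h2
  linarith

theorem tm_abs (h : TData ρ f) (p : X) (r s : ℝ) :
    |s - r| ≤ 2 * |tm ρ f p s - tm ρ f p r| := by
  rcases le_total r s with hrs | hrs
  · have h1 := tm_ge h p hrs
    rw [abs_of_nonneg (by linarith), abs_of_nonneg (by linarith)]
    linarith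
  · have h1 := tm_ge h p hrs
    rw [abs_of_nonpos (by linarith), abs_of_nonpos (by linarith)]
    linarith

theorem tm_cocycle (h : TData ρ f) (p : X) (r s : ℝ) :
    tm ρ f p (r + s) = tm ρ f p r + tm ρ f (ρ r p) s := by
  have h1 := tm_diff h p r (r + s)
  have h2 : tm ρ f (ρ r p) s = ∫ u in r..(r + s), f (ρ u p) := by
    unfold tm
    have h3 := intervalIntegral.integral_comp_add_left (a := 0) (b := s)
      (fun u => f (ρ u p)) r
    rw [add_zero] at h3
    rw [← h3]
    apply intervalIntegral.integral_congr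
    intro u _
    show f (ρ u (ρ r p)) = f (ρ (r + u) p)
    rw [add_comm r u, h.flow.add]
  linarith

theorem tm_zero (p : X) : tm ρ f p 0 = 0 := by
  unfold tm
  exact intervalIntegral.integral_same

theorem f01_continuous (h : TData ρ f) (p : X) : Continuous (tm ρ f p) :=
  intervalIntegral.continuous_primitive (fun _ _ => (f01_cont h p).intervalIntegrable _ _) 0

theorem f01_surj (h : TData ρ f) (p : X) (T : ℝ) : ∃ r, tm ρ f p r = T := by
  have h1 : ∃ a, tm ρ f p a ≤ T := by
    refine ⟨-(2 * |T|), ?_⟩
    have := tm_ge h p (r := -(2 * |T|)) (s := 0) (by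
      have := abs_nonneg T
      linarith)
    rw [tm_zero] at this
    have h2 := neg_abs_le T
    linarith
  have h2 : ∃ a, T ≤ tm ρ f p a := by
    refine ⟨2 * |T|, ?_⟩
    have := tm_ge h p (r := 0) (s := 2 * |T|) (by
      have := abs_nonneg T
      linarith)
    rw [tm_zero] at this
    have h2 := le_abs_self T
    linarith
  exact mem_range_of_exists_le_of_exists_ge (f01_continuous h p) h1 h2

theorem tm_iv (h : TData ρ f) (p : X) (T : ℝ) : tm ρ f p (iv ρ f p T) = T := by
  unfold iv
  rw [dif_pos (f01_surj h p T)]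
  exact (f01_surj h p T).choose_spec

theorem iv_tm (h : TData ρ f) (p : X) (r : ℝ) : iv ρ f p (tm ρ f p r) = r := by
  have h1 := tm_abs h p r (iv ρ f p (tm ρ f p r))
  rw [tm_iv h, sub_self, abs_zero, mul_zero] at h1
  have h2 := abs_nonpos_iff.mp h1
  linarith

end CPE48
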