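import Pool.Agent.LibCPE48.F01

/-! TASK F02 (~90 lines).  Continuity, and the time-changed flow is a flow.  Use F01 (already
stated).

* `tm_continuous`: `intervalIntegral.continuous_parametric_intervalIntegral_of_continuous` (the
  version with a variable upper limit).
* `iv_continuous`: at `(p₀, T₀)`, `r₀ = iv p₀ T₀`:
  `|iv p T - r₀| ≤ 2 |tm p (iv p T) - tm p r₀| = 2 |T - tm p r₀|` (`tm_abs`, `tm_iv`), which is
  continuous in `(p, T)` and is `0` at `(p₀, T₀)`.
* `tc_flow`: `zero`: `iv p 0 = 0` as `tm p 0 = 0`.  `add`: with `q = tc t p = ρ (iv p t) p`,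
  `tm p (iv p t + iv q s) = t + s` by `tm_cocycle`, so `iv p (s + t) = iv p t + iv q s` by `iv_tm`;
  then `ρ (iv p t + iv q s) p = ρ (iv q s) (ρ (iv p t) p)` by `h.flow.add` (commute the sum).
* `tc_free`: `ρ (iv p t) p = p` gives `iv p t = 0`, so `t = tm p 0 = 0`.
* `tc_dense`: `ρ r p ∈ V`, `r ≥ 0`: take `t = tm p r ≥ 0`, `tc t p = ρ r p`.
-/

namespace CPE48

open Set Function Filter Topology

variable {X : Type*} [MetricSpace X] {ρ : ℝ → X → X} {f : X → ℝ}

theorem tm_continuous (h : TData ρ f) : Continuous (fun q : X × ℝ => tm ρ f q.1 q.2) := by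
  unfold tm
  apply intervalIntegral.continuous_parametric_primitive_of_continuous (f := fun p u => f (ρ u p))
  exact h.fc.comp (h.flow.cont.comp (continuous_snd.prodMk continuous_fst))

theorem iv_continuous (h : TData ρ f) : Continuous (fun q : X × ℝ => iv ρ f q.1 q.2) := by
  rw [continuous_iff_continuousAt]
  rintro ⟨p₀, T₀⟩
  set r₀ := iv ρ f p₀ T₀ with hr₀
  have h1 : Continuous (fun q : X × ℝ => 2 * |q.2 - tm ρ f q.1 r₀|) :=
    continuous_const.mul (continuous_snd.sub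
      ((tm_continuous h).comp (continuous_fst.prodMk continuous_const))).abs
  have h2 : Tendsto (fun q : X × ℝ => 2 * |q.2 - tm ρ f q.1 r₀|) (𝓝 (p₀, T₀)) (𝓝 0) := by
    have := h1.tendsto (p₀, T₀)
    simpa [hr₀, tm_iv h] using this
  rw [ContinuousAt, tendsto_iff_dist_tendsto_zero]
  refine squeeze_zero (fun _ => dist_nonneg) (fun q => ?_) h2
  rw [Real.dist_eq]
  have h3 := tm_abs h q.1 r₀ (iv ρ f q.1 q.2)
  rw [tm_iv h] at h3
  exact h3

theorem f02_iv_zero (h : TData ρ f) (p : X) : iv ρ f p 0 = 0 := by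
  have := iv_tm h p 0
  rwa [tm_zero] at this

theorem tc_flow (h : TData ρ f) : IsFlow (tc ρ f) where
  cont := by
    unfold tc
    exact h.flow.cont.comp (((iv_continuous h).comp
      (continuous_snd.prodMk continuous_fst)).prodMk continuous_snd)
  zero z := by
    unfold tc
    rw [f02_iv_zero h, h.flow.zero]
  add s t z := by
    have h1 : iv ρ f z (s + t) = iv ρ f z t + iv ρ f (tc ρ f t z) s := by
      have h2 : tm ρ f z (iv ρ f z t + iv ρ f (tc ρ f t z) s) = s + t := by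
        rw [tm_cocycle h, tm_iv h]
        have h3 : tm ρ f (ρ (iv ρ f z t) z) (iv ρ f (tc ρ f t z) s) = s := tm_iv h _ s
        rw [h3, add_comm]
      rw [← h2, iv_tm h]
    show ρ (iv ρ f z (s + t)) z = ρ (iv ρ f (tc ρ f t z) s) (ρ (iv ρ f z t) z)
    rw [h1, add_comm, h.flow.add]

theorem tc_free (h : TData ρ f) (hfree : ∀ t p, ρ t p = p → t = 0) (t : ℝ) (p : X)
    (he : tc ρ f t p = p) : t = 0 := by
  have h1 := hfree _ _ he
  have h2 := tm_iv h p t
  rw [h1, tm_zero] at h2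
  exact h2.symm

theorem tc_dense (h : TData ρ f)
    (hd : ∀ p, ∀ V : Set X, IsOpen V → V.Nonempty → ∃ r : ℝ, 0 ≤ r ∧ ρ r p ∈ V) (p : X)
    (V : Set X) (hV : IsOpen V) (hne : V.Nonempty) : ∃ t : ℝ, 0 ≤ t ∧ tc ρ f t p ∈ V := by
  obtain ⟨r, hr, hrV⟩ := hd p V hV hne
  refine ⟨tm ρ f p r, ?_, ?_⟩
  · have := tm_ge h p hr
    rw [tm_zero] at this
    linarith
  · unfold tc
    rw [iv_tm h]
    exact hrV

end CPE48
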