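import Pool.Agent.LibCPE48.F01

/-! TASK F03 (~90 lines).  Comparison of the inverse times of two nearby points over a window.
Use F01 (already stated).

* `rho_unif`: for `ε > 0` there is `δ > 0` with `dist (ρ r p) (ρ r' p) < ε` for `|r - r'| < δ`,
  all `p` (compactness of `X`: `(s, p) ↦ ρ s p` is uniformly continuous on `Icc (-1) 1 ×ˢ univ`, and
  `ρ r p = ρ (r - r') (ρ r' p)`).
* `window`: suppose `|f p₁ - f p₂| ≤ w` whenever `dist p₁ p₂ < δ`, and `dist p p' < δ`.  Let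
  `T₀ ≤ T ≤ T₀ + L`, `r₀ = iv p T₀`, `r = iv p T`, `r₀' = iv p' T₀`, `r' = iv p' T`.  Then
  `0 ≤ r - r₀ ≤ 2L` and by `tm_diff`, `T - T₀ = ∫_{r₀}^r f (ρ u p) = ∫_{r₀'}^{r'} f (ρ u p')`.
  Replace `p` by `p'` in the first integral: error `≤ w (r - r₀) ≤ 2 L w` (isometry: `h.iso`).  So
  `|∫_{r'}^{r} f (ρ u p')| ≤ 2 L w + |∫_{r₀'}^{r₀} f (ρ u p')| ≤ 2 L w + 3/2 |r₀ - r₀'|`, and
  `|r - r'| ≤ 2 |tm p' r - tm p' r'|` gives the claim.
-/

namespace CPE48

open Set Function Filter Topology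

variable {X : Type*} [MetricSpace X] {ρ : ℝ → X → X} {f : X → ℝ}

theorem rho_unif [CompactSpace X] (h : IsFlow ρ) (ε : ℝ) (hε : 0 < ε) :
    ∃ δ : ℝ, 0 < δ ∧ ∀ p r r', |r - r'| < δ → dist (ρ r p) (ρ r' p) < ε := by
  have hK : IsCompact (Icc (-1 : ℝ) 1 ×ˢ (univ : Set X)) := isCompact_Icc.prod isCompact_univ
  have hU := hK.uniformContinuousOn_of_continuous (f := fun q : ℝ × X => ρ q.1 q.2)
    h.cont.continuousOn
  rw [Metric.uniformContinuousOn_iff] at hU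
  obtain ⟨δ, hδ, hU⟩ := hU ε hε
  refine ⟨min δ 1, lt_min hδ one_pos, fun p r r' hr => ?_⟩
  have hr1 : |r - r'| < δ := lt_of_lt_of_le hr (min_le_left _ _)
  have hr2 : |r - r'| < 1 := lt_of_lt_of_le hr (min_le_right _ _)
  have hmem : (r - r', ρ r' p) ∈ Icc (-1 : ℝ) 1 ×ˢ (univ : Set X) :=
    ⟨⟨(abs_lt.1 hr2).1.le, (abs_lt.1 hr2).2.le⟩, mem_univ _⟩
  have hmem0 : ((0 : ℝ), ρ r' p) ∈ Icc (-1 : ℝ) 1 ×ˢ (univ : Set X) :=
    ⟨⟨by norm_num, by norm_num⟩, mem_univ _⟩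
  have := hU _ hmem _ hmem0 (by
    rw [Prod.dist_eq]
    simp only [dist_self, Real.dist_eq, sub_zero]
    exact max_lt hr1 hδ)
  simp only [← h.add, sub_add_cancel, zero_add] at this
  exact this

theorem f03_cont (h : TData ρ f) (p : X) : Continuous (fun u : ℝ => f (ρ u p)) :=
  h.fc.comp (h.flow.cont.comp (continuous_id.prodMk continuous_const))

theorem f03_lip (h : TData ρ f) (p : X) (r s : ℝ) :
    |tm ρ f p s - tm ρ f p r| ≤ 3 / 2 * |s - r| := by
  rcases le_total r s with hrs | hrs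
  · rw [abs_of_nonneg (by linarith [tm_ge h p hrs, sub_nonneg.2 hrs]),
      abs_of_nonneg (sub_nonneg.2 hrs)]
    exact tm_le h p hrs
  · rw [abs_sub_comm, abs_sub_comm s r,
      abs_of_nonneg (by linarith [tm_ge h p hrs, sub_nonneg.2 hrs]),
      abs_of_nonneg (sub_nonneg.2 hrs)]
    exact tm_le h p hrs

theorem window (h : TData ρ f) {δ w : ℝ} (hw : 0 ≤ w)
    (hf : ∀ p₁ p₂, dist p₁ p₂ < δ → |f p₁ - f p₂| ≤ w) {p p' : X} (hp : dist p p' < δ)
    {L T₀ T : ℝ} (h1 : T₀ ≤ T) (h2 : T ≤ T₀ + L) :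
    |iv ρ f p T - iv ρ f p' T| ≤ 4 * L * w + 3 * |iv ρ f p T₀ - iv ρ f p' T₀| := by
  set a := iv ρ f p T₀ with ha
  set b := iv ρ f p T with hb
  set a' := iv ρ f p' T₀ with ha'
  set b' := iv ρ f p' T with hb'
  have ea : tm ρ f p a = T₀ := tm_iv h p T₀
  have eb : tm ρ f p b = T := tm_iv h p T
  have ea' : tm ρ f p' a' = T₀ := tm_iv h p' T₀
  have eb' : tm ρ f p' b' = T := tm_iv h p' T
  have hab : a ≤ b := by
    by_contra hc
    push Not at hc
    have := tm_ge h p hc.le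
    rw [ea, eb] at this
    linarith
  have hab2 : b - a ≤ 2 * L := by
    have := tm_ge h p hab
    rw [ea, eb] at this
    linarith
  have hI : |(T - T₀) - (tm ρ f p' b - tm ρ f p' a)| ≤ 2 * L * w := by
    have e1 : T - T₀ = ∫ u in a..b, f (ρ u p) := by rw [← tm_diff h, ea, eb]
    have e2 : tm ρ f p' b - tm ρ f p' a = ∫ u in a..b, f (ρ u p') := tm_diff h p' a b
    rw [e1, e2, ← intervalIntegral.integral_sub ((f03_cont h p).intervalIntegrable _ _)
      ((f03_cont h p').intervalIntegrable _ _)]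
    have := intervalIntegral.norm_integral_le_of_norm_le_const (a := a) (b := b) (C := w)
      (f := fun u => f (ρ u p) - f (ρ u p')) (fun u _ => by
        rw [Real.norm_eq_abs]
        exact hf _ _ (by rw [h.iso]; exact hp))
    rw [Real.norm_eq_abs, abs_of_nonneg (sub_nonneg.2 hab)] at this
    calc _ ≤ w * (b - a) := this
      _ ≤ w * (2 * L) := by gcongr
      _ = 2 * L * w := by ring
  have hL := f03_lip h p' a' a
  rw [ea'] at hL
  have hB := tm_abs h p' b' b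
  rw [eb'] at hB
  have h3 : |tm ρ f p' b - T| ≤ 2 * L * w + 3 / 2 * |a - a'| := by
    have : tm ρ f p' b - T = (tm ρ f p' a - T₀) - ((T - T₀) - (tm ρ f p' b - tm ρ f p' a)) := by
      ring
    rw [this]
    calc _ ≤ |tm ρ f p' a - T₀| + |(T - T₀) - (tm ρ f p' b - tm ρ f p' a)| := abs_sub _ _
      _ ≤ _ := by linarith
  linarith

end CPE48
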