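import Pool.Agent.LibCPE48.F02
import Pool.Agent.LibCPE48.F03

/-! TASK F04 (~150 lines).  The time-one map of a time change of an isometric flow has zero
entropy, in the sense of `ZE`.  Use F01, F02, F03 (already stated).

Given `ε, η > 0`.  Get `δ₁` from `rho_unif` with `ε/2`.  Put `e₂ = δ₁ / 8`.  Choose an integer
`L ≥ 1` such that, with `M = ⌈2 L / e₂⌉₊ + 2`, `M ≤ exp(η L)` (exists since `M` is linear in `L`:
`tendsto_..exp..`).  Let `w = δ₁ / (16 L)`; by uniform continuity of `f` (X compact) get `δ` with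
`|f p - f p'| ≤ w` for `dist p p' < δ`; let `δ' = min δ (ε/2)`.  By total boundedness there is a map
`cell : X → Fin N₀` with `cell p = cell p' → dist p p' < δ'`
(finite cover of `X` by balls of radius `δ'/2`: `finite_cover_balls_of_compact`; choose a ball
containing `p`).  For `n`, put `Q = n / L + 1` and describe `p` by
`(cell p, fun i : Fin Q => c_i)` where `c_i = ⌊iv p ((i+1) L) / e₂⌋ - ⌊iv p (i L) / e₂⌋`, an integer in
`[0, M)` because `0 ≤ iv p ((i+1)L) - iv p (iL) ≤ 2L` (`tm_abs`/`tm_ge`): type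
`Fin N₀ × (Fin Q → Fin M)` (take `Int.toNat` and the proof of `< M`), of cardinality
`N₀ * M^Q ≤ N₀ * exp(η L Q) ≤ N₀ * exp(η (n + L))`: `K = N₀ * exp(η L)`.
If `p, p'` have the same description then `⌊iv p (iL)/e₂⌋ = ⌊iv p' (iL)/e₂⌋` for all `i ≤ Q`
(induction, `iv p 0 = 0`), so `|iv p (iL) - iv p' (iL)| < e₂`.  For `j < n` let `i = j / L ≤ Q`; `window`
with `T₀ = i L ≤ j = T ≤ T₀ + L` gives
`|iv p j - iv p' j| ≤ 4 L w + 3 e₂ < δ₁`, so
`dist (ρ (iv p j) p) (ρ (iv p' j) p') ≤ dist (ρ (iv p j) p) (ρ (iv p j) p') + dist (ρ (iv p j) p') (ρ (iv p' j) p')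
 < ε/2 + ε/2`.  Finally `(tc 1)^[j] p = tc j p = ρ (iv p j) p` (induction with `(tc_flow h).add`).
-/

namespace CPE48

open Set Function Filter Topology

theorem f04_code {X : Type*} (g : X → ℕ → ℤ) (M Q : ℕ) (h0 : ∀ p p', g p 0 = g p' 0)
    (h1 : ∀ p i, g p i ≤ g p (i + 1)) (h2 : ∀ p i, g p (i + 1) < g p i + M) :
    ∃ d : X → (Fin Q → Fin M), ∀ p p', d p = d p' → ∀ i ≤ Q, g p i = g p' i := by
  refine ⟨fun p i => ⟨(g p (i + 1) - g p i).toNat, by
    have := h1 p i; have := h2 p i; omega⟩, fun p p' hd i => ?_⟩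
  induction i with
  | zero => intro _; exact h0 p p'
  | succ i ih =>
    intro hi
    have ih := ih (by omega)
    have e := congrArg Fin.val (congrFun hd ⟨i, by omega⟩)
    simp only at e
    have a1 := h1 p i
    have a2 := h1 p' i
    omega

theorem f04_cells {X : Type*} [MetricSpace X] [CompactSpace X] (δ : ℝ) (hδ : 0 < δ) :
    ∃ (N : ℕ) (cell : X → Fin N), ∀ p p', cell p = cell p' → dist p p' < δ := by
  obtain ⟨t, -, ht, hcov⟩ := finite_cover_balls_of_compact (isCompact_univ : IsCompact (univ : Set X))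
    (half_pos hδ)
  have : ∀ p : X, ∃ x : t, dist p x < δ / 2 := by
    intro p
    have := hcov (mem_univ p)
    simp only [mem_iUnion, Metric.mem_ball, exists_prop] at this
    obtain ⟨x, hx, hp⟩ := this
    exact ⟨⟨x, hx⟩, hp⟩
  choose c hc using this
  haveI : Finite t := ht
  obtain ⟨N, ⟨e⟩⟩ := Finite.exists_equiv_fin t
  refine ⟨N, fun p => e (c p), fun p p' hpp => ?_⟩
  have h1 : c p = c p' := e.injective hpp
  have h2 := hc p
  have h3 := hc p'
  rw [← h1] at h3
  calc dist p p' ≤ dist p (c p) + dist p' (c p) := dist_triangle_right _ _ _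
    _ < δ := by linarith

theorem f04_choose (e η : ℝ) (he : 0 < e) (hη : 0 < η) :
    ∃ L : ℕ, 1 ≤ L ∧ ((⌈2 * (L : ℝ) / e⌉₊ + 2 : ℕ) : ℝ) ≤ Real.exp (η * L) := by
  obtain ⟨L, hL⟩ := exists_nat_ge (2 * (2 / e + 3) / η ^ 2 + 1)
  have hpos : 0 < 2 * (2 / e + 3) / η ^ 2 := by positivity
  have hL1 : (1 : ℝ) ≤ L := by linarith
  refine ⟨L, by exact_mod_cast hL1, ?_⟩
  have h1 := Real.quadratic_le_exp_of_nonneg (x := η * L) (by positivity)
  have h2 : (2 / e + 3) * L ≤ (η * L) ^ 2 / 2 := by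
    have : 2 * (2 / e + 3) / η ^ 2 ≤ L := by linarith
    rw [div_le_iff₀ (by positivity)] at this
    have h4 : (2 / e + 3) ≤ L * η ^ 2 / 2 := by linarith
    calc (2 / e + 3) * L ≤ (L * η ^ 2 / 2) * L := by gcongr
      _ = (η * L) ^ 2 / 2 := by ring
  have h3 : (⌈2 * (L : ℝ) / e⌉₊ : ℝ) < 2 * (L : ℝ) / e + 1 :=
    Nat.ceil_lt_add_one (by positivity)
  push_cast
  have h5 : 2 * (L : ℝ) / e + 3 ≤ (2 / e + 3) * L := by
    have : (2 / e + 3) * L = 2 * (L : ℝ) / e + 3 * L := by ring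
    linarith
  have h6 : 0 ≤ η * L := by positivity
  linarith

theorem tc_ze {X : Type*} [MetricSpace X] [CompactSpace X] {ρ : ℝ → X → X} {f : X → ℝ}
    (h : TData ρ f) : ZE (tc ρ f 1) := by
  intro ε hε η hη
  obtain ⟨δ₁, hδ₁, hρ⟩ := rho_unif h.flow (ε / 2) (half_pos hε)
  set e₂ := δ₁ / 8 with he₂
  have he₂pos : 0 < e₂ := by positivity
  obtain ⟨L, hL1, hLM⟩ := f04_choose e₂ η he₂pos hη
  set M : ℕ := ⌈2 * (L : ℝ) / e₂⌉₊ + 2 with hM
  have hL1' : (1 : ℝ) ≤ L := by exact_mod_cast hL1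
  have hLpos : (0 : ℝ) < L := by linarith
  set w : ℝ := δ₁ / (16 * L) with hw
  have hwpos : 0 < w := by positivity
  obtain ⟨δ, hδ, hfδ⟩ := Metric.uniformContinuous_iff.1
    (CompactSpace.uniformContinuous_of_continuous h.fc) w hwpos
  obtain ⟨N, cell, hcell⟩ := f04_cells (X := X) (min δ (ε / 2)) (lt_min hδ (half_pos hε))
  -- the code
  let g : X → ℕ → ℤ := fun p i => ⌊iv ρ f p ((i : ℝ) * L) / e₂⌋
  have g0 : ∀ p, g p 0 = 0 := by
    intro p
    have : iv ρ f p 0 = 0 := by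
      have := iv_tm h p 0
      rwa [tm_zero] at this
    simp [g, this]
  have hstep : ∀ p (i : ℕ), 0 ≤ iv ρ f p (((i + 1 : ℕ) : ℝ) * L) - iv ρ f p ((i : ℝ) * L) ∧
      iv ρ f p (((i + 1 : ℕ) : ℝ) * L) - iv ρ f p ((i : ℝ) * L) ≤ 2 * L := by
    intro p i
    have e1 := tm_iv h p (((i + 1 : ℕ) : ℝ) * L)
    have e2 := tm_iv h p ((i : ℝ) * L)
    have hdiff : (((i + 1 : ℕ) : ℝ) * L) - ((i : ℝ) * L) = L := by push_cast; ring
    have hle : iv ρ f p ((i : ℝ) * L) ≤ iv ρ f p (((i + 1 : ℕ) : ℝ) * L) := by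
      by_contra hc
      push Not at hc
      have := tm_ge h p hc.le
      rw [e1, e2] at this
      linarith
    refine ⟨sub_nonneg.2 hle, ?_⟩
    have := tm_ge h p hle
    rw [e1, e2] at this
    linarith
  have g1 : ∀ p i, g p i ≤ g p (i + 1) := by
    intro p i
    apply Int.floor_le_floor
    have := (hstep p i).1
    gcongr
    linarith
  have g2 : ∀ p i, g p (i + 1) < g p i + M := by
    intro p i
    have a1 := Int.floor_le (iv ρ f p (((i + 1 : ℕ) : ℝ) * L) / e₂)
    have a2 := Int.lt_floor_add_one (iv ρ f p ((i : ℝ) * L) / e₂)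
    have a3 : iv ρ f p (((i + 1 : ℕ) : ℝ) * L) / e₂ ≤ iv ρ f p ((i : ℝ) * L) / e₂ + 2 * L / e₂ := by
      rw [← add_div]
      have := (hstep p i).2
      gcongr
      linarith
    have a4 : 2 * (L : ℝ) / e₂ ≤ (⌈2 * (L : ℝ) / e₂⌉₊ : ℝ) := Nat.le_ceil _
    have : ((g p (i + 1) : ℤ) : ℝ) < ((g p i + M : ℤ) : ℝ) := by
      simp only [g, hM]
      push_cast at a1 a2 a3 a4 ⊢
      linarith
    exact_mod_cast this
  refine ⟨N * Real.exp (η * L), fun n => ?_⟩
  set Q := n / L + 1 with hQ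
  obtain ⟨d, hd⟩ := f04_code g M Q (fun p p' => by rw [g0, g0]) g1 g2
  refine ⟨Fin N × (Fin Q → Fin M), inferInstance, fun p => (cell p, d p), ?_, ?_⟩
  · have hcard : (Fintype.card (Fin N × (Fin Q → Fin M)) : ℝ) = N * (M : ℝ) ^ Q := by
      simp
    rw [hcard]
    have h1 : (M : ℝ) ^ Q ≤ Real.exp (η * L) ^ Q := by gcongr
    have h2 : Real.exp (η * L) ^ Q ≤ Real.exp (η * L) * Real.exp (η * n) := by
      rw [← Real.exp_nat_mul, ← Real.exp_add]
      apply Real.exp_le_exp.2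
      have : (Q : ℝ) * L ≤ n + L := by
        have h3 : n / L * L ≤ n := Nat.div_mul_le_self n L
        have h4 : Q * L ≤ n + L := by rw [hQ]; nlinarith
        exact_mod_cast h4
      calc (Q : ℝ) * (η * L) = η * (Q * L) := by ring
        _ ≤ η * (n + L) := by gcongr
        _ = η * L + η * n := by ring
    calc (N : ℝ) * (M : ℝ) ^ Q ≤ N * (Real.exp (η * L) * Real.exp (η * n)) := by
          gcongr
          exact h1.trans h2
      _ = N * Real.exp (η * L) * Real.exp (η * n) := by ring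
  · intro p p' hpp j hj
    have hc := hcell p p' (congrArg Prod.fst hpp)
    have hdd := hd p p' (congrArg Prod.snd hpp)
    have hit : ∀ (j : ℕ) (p : X), (tc ρ f 1)^[j] p = tc ρ f j p := by
      intro j p
      induction j with
      | zero => simp [(tc_flow h).zero]
      | succ j ih =>
        rw [iterate_succ_apply', ih, ← (tc_flow h).add]
        congr 1
        push_cast
        ring
    rw [hit, hit]
    set i := j / L with hi
    have hiQ : i ≤ Q := by
      have : j / L ≤ n / L := Nat.div_le_div_right hj.le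
      omega
    have hg := hdd i hiQ
    have h0 : |iv ρ f p ((i : ℝ) * L) - iv ρ f p' ((i : ℝ) * L)| < e₂ := by
      have := Int.abs_sub_lt_one_of_floor_eq_floor hg
      rw [← sub_div, abs_div, abs_of_pos he₂pos, div_lt_one he₂pos] at this
      exact this
    have hT1 : (i : ℝ) * L ≤ j := by
      have : j / L * L ≤ j := Nat.div_mul_le_self j L
      exact_mod_cast this
    have hT2 : (j : ℝ) ≤ (i : ℝ) * L + L := by
      have : j < (j / L) * L + L := by
        have := Nat.lt_div_mul_add (a := j) (b := L) (by omega)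
        exact this
      have h5 : j ≤ i * L + L := this.le
      exact_mod_cast h5
    have hwin := window h (δ := δ) (w := w) hwpos.le
      (fun p₁ p₂ h12 => by
        have := hfδ h12
        rw [Real.dist_eq] at this
        exact this.le) (lt_of_lt_of_le hc (min_le_left _ _)) hT1 hT2
    have hclose : |iv ρ f p j - iv ρ f p' j| < δ₁ := by
      have : 4 * L * w = δ₁ / 4 := by
        rw [hw]; field_simp; norm_num
      rw [this] at hwin
      have : 3 * |iv ρ f p ((i : ℝ) * L) - iv ρ f p' ((i : ℝ) * L)| < 3 * (δ₁ / 8) := by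
        linarith
      linarith
    have d1 : dist (ρ (iv ρ f p j) p) (ρ (iv ρ f p j) p') < ε / 2 := by
      rw [h.iso]; exact lt_of_lt_of_le hc (min_le_right _ _)
    have d2 : dist (ρ (iv ρ f p j) p') (ρ (iv ρ f p' j) p') < ε / 2 := hρ _ _ _ hclose
    calc dist (tc ρ f j p) (tc ρ f j p')
        ≤ dist (ρ (iv ρ f p j) p) (ρ (iv ρ f p j) p') +
          dist (ρ (iv ρ f p j) p') (ρ (iv ρ f p' j) p') := dist_triangle _ _ _
      _ < ε := by linarith

end CPE48
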