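import Pool.Agent.LibCPE48.F02

/-! TASK F05 (~90 lines).  The mixing criterion for time changes of isometric flows.  Use F01, F02
(already stated).

Let `U, V` be open and nonempty.  Pick `p₀ ∈ V`... CAREFUL with the roles: `Mixing (tc 1)` asks, for
all large `m : ℕ`, for a point `x ∈ V` with `(tc 1)^[m] x ∈ U`, and `(tc 1)^[m] x = tc m x`.
Choose `p₀ ∈ V` and `η > 0` with `ball p₀ η ⊆ V`, `v₀ ∈ U` and (smaller `η`) `ball v₀ (2η) ⊆ U`.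
By `hd` with the ball `ball v₀ η` there is `M ≥ 0` such that every `p` has `r ∈ [0, M]` with
`ρ r p ∈ ball v₀ η`.  By `hpath` with `p₀, η, M` get `T₀`; let `m ≥ T₀`, `T = m`, and `γ`.
Let `r₊ = iv (γ 1) T`; apply `hd` to the point `ρ r₊ (γ 0)`: there is `s ∈ [0, M]` such that with
`r = r₊ + s`, `ρ r (γ 0) ∈ ball v₀ η`.  By `hγ`, `tm (γ 0) r ≤ T`; and
`tm (γ 1) r ≥ tm (γ 1) r₊ = T`.  By the IVT on `[0, 1]` for the continuous function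
`λ ↦ tm (γ λ) r` there is `λ ∈ [0, 1]` with `tm (γ λ) r = T`; then `iv (γ λ) T = r`,
`tc T (γ λ) = ρ r (γ λ)` and `dist (ρ r (γ λ)) (ρ r (γ 0)) = dist (γ λ) (γ 0) < η`, so
`tc T (γ λ) ∈ U`; and `γ λ ∈ ball p₀ η ⊆ V`.
-/

namespace CPE48

open Set Function Filter Topology

theorem f05_iter {X : Type*} [MetricSpace X] {ρ : ℝ → X → X} {f : X → ℝ} (h : TData ρ f) (m : ℕ)
    (x : X) : (tc ρ f 1)^[m] x = tc ρ f m x := by
  induction m with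
  | zero =>
    rw [Function.iterate_zero_apply, Nat.cast_zero, (tc_flow h).zero]
  | succ m ih =>
    rw [Function.iterate_succ_apply', ih, ← (tc_flow h).add, Nat.cast_succ, add_comm]

theorem tc_mixing {X : Type*} [MetricSpace X] [CompactSpace X] {ρ : ℝ → X → X} {f : X → ℝ}
    (h : TData ρ f)
    (hd : ∀ v : X, ∀ η : ℝ, 0 < η → ∃ M : ℝ, 0 ≤ M ∧ ∀ p, ∃ r ∈ Icc 0 M, dist (ρ r p) v < η)
    (hpath : ∀ p₀ : X, ∀ η : ℝ, 0 < η → ∀ M : ℝ, 0 ≤ M → ∃ T₀ : ℝ, ∀ T : ℝ, T₀ ≤ T →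
      ∃ γ : ℝ → X, Continuous γ ∧ (∀ l ∈ Icc (0:ℝ) 1, dist (γ l) p₀ < η) ∧
        (∀ l ∈ Icc (0:ℝ) 1, dist (γ l) (γ 0) < η) ∧
        ∀ r ∈ Icc (iv ρ f (γ 1) T) (iv ρ f (γ 1) T + M), tm ρ f (γ 0) r ≤ T) :
    Mixing (tc ρ f 1) := by
  intro U V hU hV hUne hVne
  obtain ⟨p₀, hp₀⟩ := hVne
  obtain ⟨v₀, hv₀⟩ := hUne
  obtain ⟨η1, hη1, hb1⟩ := Metric.isOpen_iff.1 hV p₀ hp₀
  obtain ⟨η2, hη2, hb2⟩ := Metric.isOpen_iff.1 hU v₀ hv₀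
  have hη : 0 < min η1 (η2 / 2) := lt_min hη1 (by linarith)
  obtain ⟨M, hM, hMp⟩ := hd v₀ _ hη
  obtain ⟨T₀, hT₀⟩ := hpath p₀ _ hη M hM
  refine ⟨⌈T₀⌉₊, fun m hm => ?_⟩
  have hmT : T₀ ≤ (m : ℝ) := (Nat.le_ceil T₀).trans (by exact_mod_cast hm)
  obtain ⟨γ, hγc, hγp, hγ0, hγr⟩ := hT₀ m hmT
  obtain ⟨s, hs, hsd⟩ := hMp (ρ (iv ρ f (γ 1) m) (γ 0))
  have h0 : tm ρ f (γ 0) (s + iv ρ f (γ 1) m) ≤ m := by
    apply hγr
    constructor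
    · linarith [hs.1]
    · linarith [hs.2]
  have h1 : (m : ℝ) ≤ tm ρ f (γ 1) (s + iv ρ f (γ 1) m) := by
    have h2 : iv ρ f (γ 1) m ≤ s + iv ρ f (γ 1) m := by linarith [hs.1]
    have h3 := tm_ge h (γ 1) h2
    rw [tm_iv h (γ 1) m] at h3
    linarith
  have hcont : ContinuousOn (fun l => tm ρ f (γ l) (s + iv ρ f (γ 1) m)) (Icc 0 1) :=
    ((tm_continuous h).comp (hγc.prodMk continuous_const)).continuousOn
  obtain ⟨l, hl, hlr⟩ := intermediate_value_Icc (zero_le_one) hcont ⟨h0, h1⟩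
  have hlr' : tm ρ f (γ l) (s + iv ρ f (γ 1) m) = m := hlr
  have hiv : iv ρ f (γ l) m = s + iv ρ f (γ 1) m := by
    have h2 := iv_tm h (γ l) (s + iv ρ f (γ 1) m)
    rwa [hlr'] at h2
  refine ⟨γ l, ?_, ?_⟩
  · rw [mem_preimage, f05_iter h]
    apply hb2
    rw [Metric.mem_ball]
    unfold tc
    rw [hiv]
    have h4 : dist (ρ (s + iv ρ f (γ 1) m) (γ l)) (ρ (s + iv ρ f (γ 1) m) (γ 0)) <
        min η1 (η2 / 2) := by
      rw [h.iso]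
      exact hγ0 l hl
    rw [← h.flow.add] at hsd
    have h5 := dist_triangle (ρ (s + iv ρ f (γ 1) m) (γ l)) (ρ (s + iv ρ f (γ 1) m) (γ 0)) v₀
    have h6 := min_le_right η1 (η2 / 2)
    linarith
  · apply hb1
    rw [Metric.mem_ball]
    exact (hγp l hl).trans_le (min_le_left _ _)

end CPE48
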