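import Pool.Agent.LibCPE48.YT

/-! TASK G01 (~70 lines).  The doubling map of the torus is continuous, surjective, exact.

* `dbl_iter`: `dbl^[n] y = 2^n • y` (induction).
* `dbl_surj`: on the circle, `x = ↑(t : ℝ)`, take `↑(t/2)`; coordinatewise (`choose`).
* `dbl_exact`: `U` open nonempty contains `ball y₀ η` (sup metric); choose `n` with
  `(1/2)^n < η`.  Given any `y₁`, for each coordinate let `t i ∈ [0, 1)` be a real representative of
  `y₁ i - 2^n • y₀ i`; `y i = y₀ i + ↑(t i / 2^n)` satisfies `2^n • y i = y₁ i` and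
  `dist (y i) (y₀ i) ≤ |t i / 2^n| ≤ (1/2)^n < η` (`dist_pi_lt_iff`).
-/

namespace CPE48

open Set Function Filter Topology

theorem dbl_continuous (m : ℕ) : Continuous (dbl m) := by
  unfold dbl
  fun_prop

theorem dbl_surj (m : ℕ) : Surjective (dbl m) := by
  intro y
  have h1 : ∀ i, ∃ x : UnitAddCircle, x + x = y i := by
    intro i
    obtain ⟨t, ht⟩ := QuotientAddGroup.mk_surjective (y i)
    refine ⟨((t / 2 : ℝ) : UnitAddCircle), ?_⟩
    rw [← AddCircle.coe_add, add_halves]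
    exact ht
  choose x hx using h1
  exact ⟨x, funext hx⟩

theorem g01_iter (m n : ℕ) (y : Fin (m + 1) → UnitAddCircle) : (dbl m)^[n] y = (2 ^ n) • y := by
  induction n with
  | zero => simp
  | succ n ih =>
    rw [Function.iterate_succ_apply', ih]
    unfold dbl
    rw [← two_nsmul, smul_smul, pow_succ, mul_comm]

theorem dbl_exact (m : ℕ) (U : Set (Fin (m + 1) → UnitAddCircle)) (hU : IsOpen U)
    (hne : U.Nonempty) : ∃ n : ℕ, (dbl m)^[n] '' U = univ := by
  obtain ⟨y₀, hy₀⟩ := hne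
  obtain ⟨η, hη, hball⟩ := Metric.isOpen_iff.1 hU y₀ hy₀
  obtain ⟨n, hn⟩ := exists_pow_lt_of_lt_one hη (show (1 / 2 : ℝ) < 1 by norm_num)
  refine ⟨n, ?_⟩
  rw [Set.eq_univ_iff_forall]
  intro y₁
  have h1 : ∀ i, ∃ t : ℝ, t ∈ Set.Ico (0 : ℝ) 1 ∧
      ((t : ℝ) : UnitAddCircle) = y₁ i - (2 ^ n) • y₀ i := by
    intro i
    obtain ⟨t, ht, ht2⟩ := (AddCircle.coe_image_Ico_eq (1 : ℝ) 0).symm ▸
      Set.mem_univ (y₁ i - (2 ^ n) • y₀ i)
    refine ⟨t, ?_, ht2⟩
    simpa using ht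
  choose t ht ht2 using h1
  refine ⟨fun i => y₀ i + ((t i / 2 ^ n : ℝ) : UnitAddCircle), hball ?_, ?_⟩
  · rw [Metric.mem_ball, dist_pi_lt_iff hη]
    intro i
    rw [dist_eq_norm, add_sub_cancel_left]
    have h2 : ‖((t i / 2 ^ n : ℝ) : UnitAddCircle)‖ ≤ ‖(t i / 2 ^ n : ℝ)‖ :=
      QuotientAddGroup.norm_mk_le_norm
    refine h2.trans_lt (lt_of_le_of_lt ?_ hn)
    rw [Real.norm_eq_abs, abs_of_nonneg (div_nonneg (ht i).1 (by positivity)), one_div, inv_pow,
      div_eq_mul_inv]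
    have h3 : (0 : ℝ) ≤ (2 ^ n)⁻¹ := by positivity
    nlinarith [(ht i).2]
  · rw [g01_iter]
    funext i
    simp only [Pi.smul_apply, smul_add]
    rw [← AddCircle.coe_nsmul, nsmul_eq_mul]
    have h4 : ((2 ^ n : ℕ) : ℝ) * (t i / 2 ^ n) = t i := by
      push_cast
      field_simp
    rw [h4, ht2]
    abel

end CPE48
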