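import Pool.Agent.LibCPE48.YT

/-! TASK G02 (~90 lines).  The separation of the periodic orbits (real numbers). -/

namespace CPE48

open Set Function Filter Topology

theorem g02_pow_pos (k : ℕ) : (0 : ℝ) < 2 ^ (k + 2) - 1 := by
  have : (4 : ℝ) ≤ 2 ^ (k + 2) := by
    calc (4 : ℝ) = 2 ^ 2 := by norm_num
      _ ≤ 2 ^ (k + 2) := pow_le_pow_right₀ (by norm_num) (by omega)
  linarith

theorem g02_ob_pos (k j : ℕ) : 0 < ob k j := by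
  unfold ob
  exact div_pos (by positivity) (g02_pow_pos k)

theorem g02_ob_le (k j : ℕ) (hj : j < k + 2) : ob k j ≤ 2 / 3 := by
  unfold ob
  rw [div_le_div_iff₀ (g02_pow_pos k) (by norm_num)]
  have h1 : (2 : ℝ) ^ j ≤ 2 ^ (k + 1) := pow_le_pow_right₀ (by norm_num) (by omega)
  have h2 : (2 : ℝ) ^ (k + 2) = 2 * 2 ^ (k + 1) := by ring
  have h3 : (2 : ℝ) ≤ 2 ^ (k + 1) := by
    calc (2 : ℝ) = 2 ^ 1 := by norm_num
      _ ≤ 2 ^ (k + 1) := pow_le_pow_right₀ (by norm_num) (by omega)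
  rw [h2]
  linarith

/-- integers: the numerator of the difference is large -/
theorem g02_num {A B i j : ℕ} (hA : 2 ≤ A) (hAB : A < B) :
    (2 : ℝ) ^ B * 2 ≤ 4 * 2 ^ A * |(2 : ℝ) ^ i * (2 ^ B - 1) - 2 ^ j * (2 ^ A - 1)| := by
  have hB1 : (1 : ℝ) ≤ 2 ^ B := one_le_pow₀ (by norm_num)
  have hA4 : (4 : ℝ) ≤ 2 ^ A := by
    calc (4 : ℝ) = 2 ^ 2 := by norm_num
      _ ≤ 2 ^ A := pow_le_pow_right₀ (by norm_num) hA
  have hB8 : (8 : ℝ) ≤ 2 ^ B := by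
    calc (8 : ℝ) = 2 ^ 3 := by norm_num
      _ ≤ 2 ^ B := pow_le_pow_right₀ (by norm_num) (by omega)
  have h2AB : (2 : ℝ) * 2 ^ A ≤ 2 ^ B := by
    calc (2 : ℝ) * 2 ^ A = 2 ^ (A + 1) := by ring
      _ ≤ 2 ^ B := pow_le_pow_right₀ (by norm_num) (by omega)
  have hi1 : (1 : ℝ) ≤ 2 ^ i := one_le_pow₀ (by norm_num)
  have hj0 : (0 : ℝ) < 2 ^ j := by positivity
  have hi0 : (0 : ℝ) < 2 ^ i := by positivity
  rcases lt_trichotomy (i + B) (j + A) with h | h | h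
  · -- 2^(j+A) ≥ 2 * 2^(i+B)
    have h1 : (2 : ℝ) * (2 ^ i * 2 ^ B) ≤ 2 ^ j * 2 ^ A := by
      calc (2 : ℝ) * (2 ^ i * 2 ^ B) = 2 ^ (i + B + 1) := by ring
        _ ≤ 2 ^ (j + A) := pow_le_pow_right₀ (by norm_num) (by omega)
        _ = _ := by ring
    have h2 : (2 : ℝ) ^ j * (2 ^ A - 1) - 2 ^ i * (2 ^ B - 1) ≥ (1 / 2) * (2 ^ i * 2 ^ B) := by
      nlinarith
    have h3 := neg_le_abs ((2 : ℝ) ^ i * (2 ^ B - 1) - 2 ^ j * (2 ^ A - 1))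
    have h4 : (1 / 2 : ℝ) * 2 ^ B ≤ |(2 : ℝ) ^ i * (2 ^ B - 1) - 2 ^ j * (2 ^ A - 1)| := by
      nlinarith
    nlinarith
  · -- equality
    have h1 : (2 : ℝ) ^ i * 2 ^ B = 2 ^ j * 2 ^ A := by
      rw [← pow_add, ← pow_add, h]
    have h2 : (2 : ℝ) ^ i * (2 ^ B - 1) - 2 ^ j * (2 ^ A - 1) = 2 ^ j - 2 ^ i := by
      linear_combination h1
    rw [h2]
    have h5 : (2 : ℝ) ^ j = 2 ^ i * 2 ^ (B - A) := by
      rw [← pow_add]; congr 1; omega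
    have h6 : (2 : ℝ) ^ B = 2 ^ A * 2 ^ (B - A) := by
      rw [← pow_add]; congr 1; omega
    have h7 : (2 : ℝ) ≤ 2 ^ (B - A) := by
      calc (2 : ℝ) = 2 ^ 1 := by norm_num
        _ ≤ 2 ^ (B - A) := pow_le_pow_right₀ (by norm_num) (by omega)
    have h8 := le_abs_self ((2 : ℝ) ^ j - 2 ^ i)
    have h9 : (1 / 2 : ℝ) * 2 ^ (B - A) ≤ 2 ^ j - 2 ^ i := by
      rw [h5]; nlinarith
    have h10 : (1 / 2 : ℝ) * 2 ^ (B - A) ≤ |(2 : ℝ) ^ j - 2 ^ i| := h9.trans h8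
    rw [h6]
    nlinarith [show (0 : ℝ) < 2 ^ A by positivity]
  · -- 2^(i+B) ≥ 2 * 2^(j+A)
    have h1 : (2 : ℝ) * (2 ^ j * 2 ^ A) ≤ 2 ^ i * 2 ^ B := by
      calc (2 : ℝ) * (2 ^ j * 2 ^ A) = 2 ^ (j + A + 1) := by ring
        _ ≤ 2 ^ (i + B) := pow_le_pow_right₀ (by norm_num) (by omega)
        _ = _ := by ring
    have h2 : (2 : ℝ) ^ i * (2 ^ B - 1) - 2 ^ j * (2 ^ A - 1) ≥ (3 / 8) * (2 ^ i * 2 ^ B) := by
      nlinarith
    have h3 := le_abs_self ((2 : ℝ) ^ i * (2 ^ B - 1) - 2 ^ j * (2 ^ A - 1))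
    have h4 : (3 / 8 : ℝ) * 2 ^ B ≤ |(2 : ℝ) ^ i * (2 ^ B - 1) - 2 ^ j * (2 ^ A - 1)| := by
      nlinarith
    nlinarith

theorem ob_sep {k l i j : ℕ} (hkl : k < l) (hi : i < k + 2) (hj : j < l + 2) :
    1 / 2 ^ (2 * (k + 2) + 1) ≤ |ob k i - ob l j| := by
  have hA := g02_pow_pos k
  have hB := g02_pow_pos l
  have h := g02_num (A := k + 2) (B := l + 2) (by omega) (by omega) (i := i) (j := j)
  have h1 : ob k i - ob l j =
      ((2 : ℝ) ^ i * (2 ^ (l + 2) - 1) - 2 ^ j * (2 ^ (k + 2) - 1)) /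
        ((2 ^ (k + 2) - 1) * (2 ^ (l + 2) - 1)) := by
    unfold ob
    field_simp
  rw [h1, abs_div, abs_of_pos (mul_pos hA hB), div_le_div_iff₀ (by positivity) (mul_pos hA hB)]
  have h2 : (2 : ℝ) ^ (2 * (k + 2) + 1) = 2 * (2 ^ (k + 2) * 2 ^ (k + 2)) := by
    rw [← pow_add, ← pow_succ']; congr 1; omega
  rw [h2]
  have hA' : (0 : ℝ) < 2 ^ (k + 2) := by positivity
  have hB' : (0 : ℝ) < 2 ^ (l + 2) := by positivity
  have h3 : ((2 : ℝ) ^ (k + 2) - 1) * (2 ^ (l + 2) - 1) ≤ 2 ^ (k + 2) * 2 ^ (l + 2) := by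
    nlinarith
  have h4 := mul_le_mul_of_nonneg_left h hA'.le
  nlinarith

theorem ob_dist {k l i j : ℕ} (hkl : k < l) (hi : i < k + 2) (hj : j < l + 2) :
    1 / 2 ^ (2 * (k + 2) + 1) ≤ dist ((ob k i : ℝ) : UnitAddCircle) ((ob l j : ℝ) : UnitAddCircle) := by
  rw [dist_eq_norm, ← AddCircle.coe_sub, UnitAddCircle.norm_eq]
  set r := round (ob k i - ob l j) with hr
  have h1 := g02_ob_pos k i
  have h2 := g02_ob_pos l j
  have h3 := g02_ob_le k i hi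
  have h4 := g02_ob_le l j hj
  have h5 : (1 : ℝ) / 2 ^ (2 * (k + 2) + 1) ≤ 1 / 3 := by
    refine one_div_le_one_div_of_le (by norm_num) ?_
    calc (3 : ℝ) ≤ 2 ^ 2 := by norm_num
      _ ≤ 2 ^ (2 * (k + 2) + 1) := pow_le_pow_right₀ (by norm_num) (by omega)
  by_cases h0 : r = 0
  · rw [h0]
    simpa using ob_sep hkl hi hj
  · have h6 : (1 : ℝ) ≤ |(r : ℝ)| := by
      have : (1 : ℤ) ≤ |r| := Int.one_le_abs h0
      exact_mod_cast this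
    have h7 : |(r : ℝ)| - |ob k i - ob l j| ≤ |ob k i - ob l j - r| := by
      have := abs_sub_abs_le_abs_sub (r : ℝ) (ob k i - ob l j)
      rwa [abs_sub_comm (r : ℝ)] at this
    have h8 : |ob k i - ob l j| ≤ 2 / 3 := by
      rw [abs_le]; constructor <;> linarith
    linarith

end CPE48
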