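import Pool.Agent.LibCPE48.G01
import Pool.Agent.LibCPE48.G02

/-! TASK G03 (~90 lines).  The torus with the doubling map is a good base.  Use G01, G02 (already
stated).
-/

namespace CPE48

open Set Function Filter Topology

theorem g03_orb_finite (k : ℕ) : (orb k).Finite := by
  have h : orb k = (fun j : ℕ => ((ob k j : ℝ) : UnitAddCircle)) '' (Set.Iio (k + 2)) := by
    ext x
    simp only [orb, Set.mem_ofPred_eq, mem_image, mem_Iio]
    constructor
    · rintro ⟨j, hj, rfl⟩
      exact ⟨j, hj, rfl⟩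
    · rintro ⟨j, hj, rfl⟩
      exact ⟨j, hj, rfl⟩
  rw [h]
  exact (Set.finite_Iio _).image _

theorem g03_closed (m k : ℕ) : IsClosed (OO m k) := by
  have h : OO m k = (fun y : Fin (m + 1) → UnitAddCircle => y 0) ⁻¹' (orb k) ∩
      ⋂ (i : Fin (m + 1)) (_ : i ≠ 0), {y | y i = 0} := by
    ext y
    simp [OO]
  rw [h]
  apply IsClosed.inter
  · exact (g03_orb_finite k).isClosed.preimage (continuous_apply 0)
  · exact isClosed_iInter fun i => isClosed_iInter fun _ =>
      isClosed_eq (continuous_apply i) continuous_const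

theorem g03_nonempty (m k : ℕ) : (OO m k).Nonempty := by
  refine ⟨fun i => if i = 0 then ((ob k 0 : ℝ) : UnitAddCircle) else 0, ?_, ?_⟩
  · simp only [if_true]
    exact ⟨0, by omega, rfl⟩
  · intro i hi
    simp [hi]

theorem g03_double (k j : ℕ) (hj : j < k + 2) :
    ((ob k j : ℝ) : UnitAddCircle) + ((ob k j : ℝ) : UnitAddCircle) ∈ orb k := by
  rw [← AddCircle.coe_add]
  by_cases h : j + 1 < k + 2
  · refine ⟨j + 1, h, ?_⟩
    congr 1
    unfold ob
    rw [pow_succ]
    ring
  · have hj' : j = k + 1 := by omega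
    refine ⟨0, by omega, ?_⟩
    have h2 : (1:ℝ) < 2 ^ (k + 2) := one_lt_pow₀ (by norm_num) (by omega)
    have h3 : ob k j + ob k j = ob k 0 + 1 := by
      unfold ob
      subst hj'
      have h4 : (2:ℝ) ^ (k + 2) - 1 ≠ 0 := by linarith
      field_simp
      rw [show k + 2 = (k + 1) + 1 from rfl, pow_succ]
      ring
    rw [h3]
    have := AddCircle.coe_add_period (1:ℝ) (ob k 0)
    exact this

theorem g03_maps (m k : ℕ) : MapsTo (dbl m) (OO m k) (OO m k) := by
  rintro y ⟨⟨j, hj, hy⟩, h2⟩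
  refine ⟨?_, ?_⟩
  · show y 0 + y 0 ∈ orb k
    rw [hy]
    exact g03_double k j hj
  · intro i hi
    show y i + y i = 0
    rw [h2 i hi, add_zero]

theorem g03_ee_pos (k : ℕ) : 0 < ee k := by
  unfold ee
  positivity

theorem g03_ee_anti {k l : ℕ} (h : k ≤ l) : ee l ≤ ee k := by
  unfold ee
  apply one_div_le_one_div_of_le (by positivity)
  exact pow_le_pow_right₀ (by norm_num) (by omega)

theorem g03_disj_lt (m : ℕ) (y : Fin (m + 1) → UnitAddCircle) (k l : ℕ) (hkl : k < l)
    (h1 : Metric.infDist y (OO m k) < ee k) (h2 : Metric.infDist y (OO m l) < ee l) : False := by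
  obtain ⟨u, hu, hu'⟩ := (Metric.infDist_lt_iff (g03_nonempty m k)).1 h1
  obtain ⟨v, hv, hv'⟩ := (Metric.infDist_lt_iff (g03_nonempty m l)).1 h2
  obtain ⟨⟨i, hi, hui⟩, -⟩ := hu
  obtain ⟨⟨j, hj, hvj⟩, -⟩ := hv
  have h3 : dist (u 0) (v 0) ≤ dist u v := dist_le_pi_dist u v 0
  have h4 : dist u v ≤ dist y u + dist y v := by
    have := dist_triangle_left u v y
    exact this
  have h5 := ob_dist hkl hi hj
  rw [← hui, ← hvj] at h5
  have h6 := g03_ee_anti hkl.le
  have h7 : 2 * ee k = 1 / 2 ^ (2 * (k + 2) + 1) := by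
    unfold ee
    rw [pow_succ (2:ℝ) (2 * (k + 2) + 1)]
    field_simp
  linarith

theorem goodBase_torus (m : ℕ) :
    GoodBase (Fin (m + 1) → UnitAddCircle) (dbl m) (OO m) ee where
  cont := dbl_continuous m
  surj := dbl_surj m
  exact := dbl_exact m
  closed := g03_closed m
  nonempty := g03_nonempty m
  maps := g03_maps m
  pos := g03_ee_pos
  disj := by
    intro y l l' h h'
    rcases lt_trichotomy l l' with hl | hl | hl
    · exact (g03_disj_lt m y l l' hl h h').elim
    · exact hl
    · exact (g03_disj_lt m y l' l hl h' h).elim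

end CPE48
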