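import Pool.Agent.LibCPE48.HT

/-! TASK H01 (~100 lines).  The intervals.

* `LL_nonneg`, `WW_pos`, `LL_add_WW_le`: `0 ≤ L s`, `0 < W s`, `L s + W s ≤ 1` by induction on `s`
  (`(1/2)^(n+1) (1 + L + W) ≤ (1/2)^(n+1) · 2 = (1/2)^n ≤ 1`).
* `ar_nonneg`, `ar_lt_br`: `Real.sqrt_nonneg`, `Real.sqrt_lt_sqrt`.
* `arc_len`: `br k - ar k → 0`.  For `δ > 0` only finitely many `k` have `br k - ar k ≥ δ`
  (`Filter.Tendsto` along `atTop = cofinite` on `ℕ`: `Nat.cofinite_eq_atTop`; `ix` is injective,
  so it suffices that finitely many pairs `(j, s)` are bad).  With `x = j + L s`,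
  `√(x + W) - √x ≤ √W` and, for `x > 0`, `≤ W / √x ≤ 1/√j`-type bound (multiply by the
  conjugate: `(√(x+W) - √x)(√(x+W) + √x) = W ≤ 1`, so for `j ≥ 1` it is `≤ 1/√j`).  So a bad pair has
  `W s ≥ δ²` and `j ≤ 1/δ²`.  `W s = ∏ (1/2)^(n+1) = (1/2)^(length s + sum s)`
  (induction), so `length s + sum s ≤ N`; the set of such lists is finite
  (e.g. contained in the image of lists over `Fin (N+1)` of length `≤ N`: `List.finite_length_le`,
  or induction on `N`, or the map to `Fintype`...).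
-/

namespace CPE48

open Set Function Filter Topology

theorem LL_nonneg (s : List ℕ) : 0 ≤ LL s := by
  induction s with
  | nil => simp [LL]
  | cons n s ih =>
    unfold LL
    positivity

theorem WW_pos (s : List ℕ) : 0 < WW s := by
  induction s with
  | nil => simp [WW]
  | cons n s ih =>
    unfold WW
    positivity

theorem LL_add_WW_le (s : List ℕ) : LL s + WW s ≤ 1 := by
  induction s with
  | nil => simp [LL, WW]
  | cons n s ih =>
    have h1 : LL (n :: s) + WW (n :: s) = (1 / 2) ^ (n + 1) * (1 + (LL s + WW s)) := by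
      simp only [LL, WW]
      ring
    have h2 : (0 : ℝ) ≤ (1 / 2) ^ (n + 1) := by positivity
    have h3 : ((1 : ℝ) / 2) ^ n ≤ 1 := pow_le_one₀ (by norm_num) (by norm_num)
    calc LL (n :: s) + WW (n :: s) = (1 / 2) ^ (n + 1) * (1 + (LL s + WW s)) := h1
      _ ≤ (1 / 2) ^ (n + 1) * (1 + 1) := by gcongr
      _ = (1 / 2) ^ n := by rw [pow_succ]; ring
      _ ≤ 1 := h3

theorem ar_nonneg (k : ℕ) : 0 ≤ ar k := Real.sqrt_nonneg _

theorem ar_lt_br (k : ℕ) : ar k < br k := by
  have h1 := LL_nonneg (ix k).2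
  have h2 := WW_pos (ix k).2
  refine Real.sqrt_lt_sqrt (by positivity) ?_
  linarith

theorem h01_WW (s : List ℕ) : WW s = (1 / 2) ^ (s.length + s.sum) := by
  induction s with
  | nil => simp [WW]
  | cons n s ih =>
    simp only [WW, List.length_cons, List.sum_cons, ih]
    rw [← pow_add]
    congr 1
    ring

theorem h01_fin (N : ℕ) : {s : List ℕ | s.length + s.sum ≤ N}.Finite := by
  induction N with
  | zero =>
    refine (Set.finite_singleton ([] : List ℕ)).subset ?_
    intro s hs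
    cases s with
    | nil => rfl
    | cons n s =>
      exfalso
      have : (n :: s).length + (n :: s).sum ≤ 0 := hs
      simp only [List.length_cons] at this
      omega
  | succ N ih =>
    have h1 : (Set.image2 (fun (n : ℕ) (s : List ℕ) => n :: s) (Set.Iic (N + 1))
        {s : List ℕ | s.length + s.sum ≤ N}).Finite :=
      Set.Finite.image2 _ (Set.finite_Iic _) ih
    refine (h1.insert []).subset ?_
    intro s hs
    cases s with
    | nil => exact Set.mem_insert _ _
    | cons n s =>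
      have h2 : (n :: s).length + (n :: s).sum ≤ N + 1 := hs
      simp only [List.length_cons, List.sum_cons] at h2
      refine Set.mem_insert_of_mem _ ⟨n, ?_, s, ?_, rfl⟩
      · show n ≤ N + 1
        omega
      · show s.length + s.sum ≤ N
        omega

theorem h01_tendsto : Tendsto (fun p : ℕ × List ℕ =>
    √((p.1 : ℝ) + LL p.2 + WW p.2) - √((p.1 : ℝ) + LL p.2)) cofinite (𝓝 0) := by
  rw [Metric.tendsto_nhds]
  intro δ hδ
  rw [Filter.eventually_cofinite]
  obtain ⟨N, hN⟩ := exists_pow_lt_of_lt_one (show (0 : ℝ) < δ ^ 2 by positivity)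
    (show (1 / 2 : ℝ) < 1 by norm_num)
  have hfin : ((Set.Iic ⌊(1 / δ) ^ 2⌋₊) ×ˢ {s : List ℕ | s.length + s.sum ≤ N}).Finite :=
    (Set.finite_Iic _).prod (h01_fin N)
  refine hfin.subset ?_
  rintro ⟨j, s⟩ hp
  simp only [not_lt, Set.mem_setOf_eq, dist_zero_right] at hp
  have hL := LL_nonneg s
  have hW := WW_pos s
  have hLW := LL_add_WW_le s
  have hj : (0 : ℝ) ≤ j := Nat.cast_nonneg j
  set A := √((j : ℝ) + LL s + WW s) with hA
  set B := √((j : ℝ) + LL s) with hB
  have hA2 : A ^ 2 = j + LL s + WW s := Real.sq_sqrt (by positivity)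
  have hB2 : B ^ 2 = j + LL s := Real.sq_sqrt (by positivity)
  have hB0 : 0 ≤ B := Real.sqrt_nonneg _
  have hAB : B ≤ A := Real.sqrt_le_sqrt (by linarith)
  have hJ : √(j : ℝ) ≤ A := Real.sqrt_le_sqrt (by linarith)
  have hG : δ ≤ A - B := by
    rwa [Real.norm_eq_abs, abs_of_nonneg (by linarith)] at hp
  have h1 : (A - B) * (A + B) = WW s := by
    have : (A - B) * (A + B) = A ^ 2 - B ^ 2 := by ring
    rw [this, hA2, hB2]
    ring
  have h2 : δ ^ 2 ≤ WW s := by
    rw [← h1]
    nlinarith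
  have h3 : δ * √(j : ℝ) ≤ 1 := by
    have h4 : δ * √(j : ℝ) ≤ (A - B) * (A + B) := by
      have h5 : 0 ≤ √(j : ℝ) := Real.sqrt_nonneg _
      exact mul_le_mul hG (by linarith) h5 (by linarith)
    linarith
  refine ⟨?_, ?_⟩
  · show j ≤ ⌊(1 / δ) ^ 2⌋₊
    refine Nat.le_floor ?_
    have h4 : √(j : ℝ) ≤ 1 / δ := by
      rw [le_div_iff₀ hδ]
      linarith
    calc (j : ℝ) = √(j : ℝ) ^ 2 := (Real.sq_sqrt hj).symm
      _ ≤ (1 / δ) ^ 2 := by
        have := Real.sqrt_nonneg (j : ℝ)
        gcongr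
  · show s.length + s.sum ≤ N
    by_contra hcon
    rw [not_le] at hcon
    have h4 : WW s ≤ (1 / 2) ^ N := by
      rw [h01_WW]
      exact pow_le_pow_of_le_one (by norm_num) (by norm_num) hcon.le
    linarith

theorem arc_len : Tendsto (fun k => br k - ar k) atTop (𝓝 0) := by
  have h1 : Function.Injective ix := (Denumerable.eqv (ℕ × List ℕ)).symm.injective
  have h2 := h01_tendsto.comp h1.tendsto_cofinite
  rw [Nat.cofinite_eq_atTop] at h2
  exact h2

end CPE48
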