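import Pool.Agent.LibCPE48.HT

/-! TASK H02 (~100 lines).  If `T` has no branch then the arcs which are on cover `(0, ∞)`. -/

namespace CPE48

open Set Function Filter Topology

theorem h02_digit (x : ℝ) (h0 : 0 < x) (h1 : x ≤ 1) :
    ∃ (n : ℕ) (x' : ℝ), 0 < x' ∧ x' ≤ 1 ∧ x = (1 / 2) ^ (n + 1) * (1 + x') := by
  obtain ⟨n, hn1, hn2⟩ := exists_nat_pow_near_of_lt_one h0 h1
    (show (0 : ℝ) < 1 / 2 by norm_num) (show (1 / 2 : ℝ) < 1 by norm_num)
  have hp : (0 : ℝ) < (1 / 2) ^ (n + 1) := by positivity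
  refine ⟨n, x / (1 / 2) ^ (n + 1) - 1, ?_, ?_, ?_⟩
  · have : 1 < x / (1 / 2) ^ (n + 1) := by rwa [lt_div_iff₀ hp, one_mul]
    linarith
  · have : x / (1 / 2) ^ (n + 1) ≤ 2 := by
      rw [div_le_iff₀ hp]
      have : (1 / 2 : ℝ) ^ n = 2 * (1 / 2) ^ (n + 1) := by ring
      linarith
    linarith
  · rw [add_sub_cancel, mul_div_cancel₀ _ hp.ne']

theorem h02_WW_pos (s : List ℕ) : 0 < WW s := by
  induction s with
  | nil => simp [WW]
  | cons n s ih => simp only [WW]; positivity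

theorem h02_rep (dg : ℝ → ℕ) (nx : ℝ → ℝ)
    (hd : ∀ x, 0 < x → x ≤ 1 → 0 < nx x ∧ nx x ≤ 1 ∧ x = (1 / 2) ^ (dg x + 1) * (1 + nx x))
    (m : ℕ) : ∀ x, 0 < x → x ≤ 1 → 0 < nx^[m] x ∧ nx^[m] x ≤ 1 ∧
      x = LL ((List.range m).map (fun i => dg (nx^[i] x))) +
        WW ((List.range m).map (fun i => dg (nx^[i] x))) * nx^[m] x := by
  induction m with
  | zero => intro x h0 h1; simp [LL, WW, h0, h1]
  | succ m ih =>
    intro x h0 h1
    obtain ⟨a, b, c⟩ := hd x h0 h1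
    obtain ⟨a', b', c'⟩ := ih (nx x) a b
    have hs : (List.range (m + 1)).map (fun i => dg (nx^[i] x)) =
        dg x :: (List.range m).map (fun i => dg (nx^[i] (nx x))) := by
      rw [List.range_succ_eq_map, List.map_cons, List.map_map]
      rfl
    rw [hs, Function.iterate_succ_apply]
    refine ⟨a', b', ?_⟩
    simp only [LL, WW]
    rw [c]
    rw [← c]
    calc x = (1 / 2) ^ (dg x + 1) * (1 + nx x) := c
      _ = (1 / 2) ^ (dg x + 1) * (1 + (LL ((List.range m).map (fun i => dg (nx^[i] (nx x)))) +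
        WW ((List.range m).map (fun i => dg (nx^[i] (nx x)))) * nx^[m] (nx x))) := by rw [← c']
      _ = _ := by ring

theorem h02_unit (T : Set (List ℕ)) (hT : ¬ ∃ β : ℕ → ℕ, ∀ m, (List.range m).map β ∈ T)
    (x : ℝ) (h0 : 0 < x) (h1 : x ≤ 1) : ∃ s : List ℕ, hf s ∉ T ∧ LL s ≤ x ∧ x ≤ LL s + WW s := by
  have hex : ∀ x : ℝ, ∃ (n : ℕ) (x' : ℝ), 0 < x → x ≤ 1 →
      0 < x' ∧ x' ≤ 1 ∧ x = (1 / 2) ^ (n + 1) * (1 + x') := by
    intro x
    by_cases h : 0 < x ∧ x ≤ 1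
    · obtain ⟨n, x', h'⟩ := h02_digit x h.1 h.2
      exact ⟨n, x', fun _ _ => h'⟩
    · exact ⟨0, 0, fun a b => absurd ⟨a, b⟩ h⟩
  choose dg nx hd using hex
  by_contra hcon
  push Not at hcon
  refine hT ⟨fun i => dg (nx^[i] x) / 2, fun m => ?_⟩
  by_contra hm
  obtain ⟨a, b, c⟩ := h02_rep dg nx hd m x h0 h1
  set s := (List.range m).map (fun i => dg (nx^[i] x)) with hs
  have hfs : hf s = (List.range m).map (fun i => dg (nx^[i] x) / 2) := by
    rw [hs]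
    unfold hf
    rw [List.map_map]
    rfl
  have hW := h02_WW_pos s
  have h3 := hcon s (by rw [hfs]; exact hm) (by nlinarith)
  nlinarith

theorem cover (T : Set (List ℕ)) (hT : ¬ ∃ β : ℕ → ℕ, ∀ m, (List.range m).map β ∈ T)
    (t : ℝ) (ht : 0 < t) : ∃ k, sw T k = true ∧ t ∈ Icc (ar k) (br k) := by
  have hτ : 0 < t ^ 2 := by positivity
  have hc : 0 < ⌈t ^ 2⌉₊ := Nat.ceil_pos.2 hτ
  obtain ⟨j, hj⟩ : ∃ j, ⌈t ^ 2⌉₊ = j + 1 := ⟨⌈t ^ 2⌉₊ - 1, by omega⟩
  have h1 : t ^ 2 ≤ j + 1 := by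
    have := Nat.le_ceil (t ^ 2)
    rw [hj] at this
    exact_mod_cast this
  have h2 : (j : ℝ) < t ^ 2 := by
    have := Nat.ceil_lt_add_one hτ.le
    rw [hj] at this
    push_cast at this
    linarith
  obtain ⟨s, hs, hs1, hs2⟩ := h02_unit T hT (t ^ 2 - j) (by linarith) (by linarith)
  have hix : ix (Encodable.encode (j, s)) = (j, s) := by
    unfold ix
    exact Denumerable.ofNat_encode (j, s)
  refine ⟨Encodable.encode (j, s), ?_, ?_, ?_⟩
  · unfold sw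
    rw [hix]
    simpa using hs
  · unfold ar
    rw [hix]
    simp only
    rw [Real.sqrt_le_left ht.le]
    linarith
  · unfold br
    rw [hix]
    simp only
    apply Real.le_sqrt_of_sq_le
    linarith

end CPE48
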