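import Pool.Agent.LibCPE48.HT

namespace CPE48

open Set Function Filter Topology

/-- approximations of the Cantor function -/
private noncomputable def h03_Fn : ℕ → (ℕ → ℕ) → ℝ → ℝ
  | 0, _, t => max 0 (min 1 t)
  | n + 1, β, t => (h03_Fn n (fun i => β (i + 1)) (2 ^ (2 * β 0 + 2) * t - 1) +
      h03_Fn n (fun i => β (i + 1)) (2 ^ (2 * β 0 + 1) * t - 1)) / 2

private theorem h03_cont (n : ℕ) : ∀ β, Continuous (h03_Fn n β) := by
  induction n with
  | zero =>
    intro β
    change Continuous fun t : ℝ => max 0 (min 1 t)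
    fun_prop
  | succ n ih =>
    intro β
    have := ih (fun i => β (i + 1))
    change Continuous fun t : ℝ => (h03_Fn n (fun i => β (i + 1)) (2 ^ (2 * β 0 + 2) * t - 1) +
      h03_Fn n (fun i => β (i + 1)) (2 ^ (2 * β 0 + 1) * t - 1)) / 2
    fun_prop

private theorem h03_mono (n : ℕ) : ∀ β, Monotone (h03_Fn n β) := by
  induction n with
  | zero =>
    intro β x y hxy
    unfold h03_Fn
    exact max_le_max le_rfl (min_le_min le_rfl hxy)
  | succ n ih =>
    intro β x y hxy
    unfold h03_Fn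
    have h1 := ih (fun i => β (i + 1)) (a := 2 ^ (2 * β 0 + 2) * x - 1)
      (b := 2 ^ (2 * β 0 + 2) * y - 1)
      (sub_le_sub_right (mul_le_mul_of_nonneg_left hxy (by positivity)) 1)
    have h2 := ih (fun i => β (i + 1)) (a := 2 ^ (2 * β 0 + 1) * x - 1)
      (b := 2 ^ (2 * β 0 + 1) * y - 1)
      (sub_le_sub_right (mul_le_mul_of_nonneg_left hxy (by positivity)) 1)
    linarith

private theorem h03_zero (n : ℕ) : ∀ β, ∀ t ≤ 0, h03_Fn n β t = 0 := by
  induction n with
  | zero =>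
    intro β t ht
    unfold h03_Fn
    rw [min_eq_right (by linarith), max_eq_left ht]
  | succ n ih =>
    intro β t ht
    unfold h03_Fn
    rw [ih _ _ (by nlinarith [pow_pos (two_pos : (0:ℝ) < 2) (2 * β 0 + 2)]),
      ih _ _ (by nlinarith [pow_pos (two_pos : (0:ℝ) < 2) (2 * β 0 + 1)])]
    norm_num

private theorem h03_pow (n : ℕ) : (1 : ℝ) ≤ 2 ^ n := one_le_pow₀ (by norm_num)

private theorem h03_one (n : ℕ) : ∀ β, ∀ t, 1 ≤ t → h03_Fn n β t = 1 := by
  induction n with
  | zero =>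
    intro β t ht
    unfold h03_Fn
    rw [min_eq_left ht, max_eq_right (by norm_num)]
  | succ n ih =>
    intro β t ht
    unfold h03_Fn
    have h1 := h03_pow (2 * β 0)
    rw [ih _ _ (by rw [pow_add]; nlinarith), ih _ _ (by rw [pow_add]; nlinarith)]
    norm_num

private theorem h03_nonneg (n : ℕ) (β : ℕ → ℕ) (t : ℝ) : 0 ≤ h03_Fn n β t := by
  rw [← h03_zero n β (min t 0) (min_le_right _ _)]
  exact h03_mono n β (min_le_left _ _)

private theorem h03_le (n : ℕ) (β : ℕ → ℕ) (t : ℝ) : h03_Fn n β t ≤ 1 := by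
  rw [← h03_one n β (max t 1) (le_max_right _ _)]
  exact h03_mono n β (le_max_left _ _)

private theorem h03_diff (n : ℕ) : ∀ β t, |h03_Fn (n + 1) β t - h03_Fn n β t| ≤ (1 / 2) ^ n := by
  induction n with
  | zero =>
    intro β t
    have h1 := h03_nonneg 0 β t
    have h2 := h03_nonneg 1 β t
    have h3 := h03_le 0 β t
    have h4 := h03_le 1 β t
    rw [pow_zero, abs_le]
    constructor <;> linarith
  | succ n ih =>
    intro β t
    set x := (2 : ℝ) ^ (2 * β 0 + 2) * t - 1 with hx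
    set x' := (2 : ℝ) ^ (2 * β 0 + 1) * t - 1 with hx'
    have hxx : x = 2 * x' + 1 := by rw [hx, hx', pow_succ _ (2 * β 0 + 1)]; ring
    have h1 : h03_Fn (n + 1 + 1) β t - h03_Fn (n + 1) β t =
        ((h03_Fn (n + 1) (fun i => β (i + 1)) x - h03_Fn n (fun i => β (i + 1)) x) +
        (h03_Fn (n + 1) (fun i => β (i + 1)) x' - h03_Fn n (fun i => β (i + 1)) x')) / 2 := by
      have e1 : ∀ l, h03_Fn (l + 1) β t = (h03_Fn l (fun i => β (i + 1)) x +
          h03_Fn l (fun i => β (i + 1)) x') / 2 := fun l => rfl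
      rw [e1, e1]
      ring
    rw [h1, abs_div, abs_two, pow_succ]
    by_cases hc : x < 1
    · have h2 : x' ≤ 0 := by linarith
      rw [h03_zero _ _ x' h2, h03_zero _ _ x' h2, sub_zero, add_zero]
      have := ih (fun i => β (i + 1)) x
      linarith
    · push Not at hc
      rw [h03_one _ _ x hc, h03_one _ _ x hc, sub_self, zero_add]
      have := ih (fun i => β (i + 1)) x'
      linarith

private theorem h03_LL (s : List ℕ) : 0 ≤ LL s ∧ 0 ≤ WW s ∧ LL s + WW s ≤ 1 := by
  induction s with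
  | nil => simp [LL, WW]
  | cons n s ih =>
    obtain ⟨h1, h2, h3⟩ := ih
    have h4 : (1 / 2 : ℝ) ^ (n + 1) ≤ 1 / 2 := by
      rw [pow_succ]
      have : (1 / 2 : ℝ) ^ n ≤ 1 := pow_le_one₀ (by norm_num) (by norm_num)
      linarith
    have h5 : (0 : ℝ) < (1 / 2) ^ (n + 1) := by positivity
    simp only [LL, WW]
    refine ⟨by positivity, by positivity, ?_⟩
    nlinarith

theorem exists_cantor (β : ℕ → ℕ) : ∃ F : ℝ → ℝ, Continuous F ∧ (∀ t ≤ 0, F t = 0) ∧
    (∀ t, 1 ≤ t → F t = 1) ∧ Monotone F ∧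
    ∀ s : List ℕ, hf s ≠ (List.range s.length).map β → F (LL s) = F (LL s + WW s) := by
  have hd : ∀ β t n, dist (h03_Fn n β t) (h03_Fn (n + 1) β t) ≤ 1 * (1 / 2) ^ n := by
    intro β t n
    rw [dist_comm, Real.dist_eq, one_mul]
    exact h03_diff n β t
  have hlim : ∀ β t, ∃ y, Tendsto (fun n => h03_Fn n β t) atTop (𝓝 y) := fun β t =>
    cauchySeq_tendsto_of_complete (cauchySeq_of_le_geometric (1 / 2) 1 (by norm_num) (hd β t))
  choose F hF using hlim
  have hu : ∀ β, TendstoUniformly (fun n => h03_Fn n β) (F β) atTop := by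
    intro β
    rw [Metric.tendstoUniformly_iff]
    intro ε hε
    have h1 : Tendsto (fun n : ℕ => (1 : ℝ) * (1 / 2) ^ n / (1 - 1 / 2)) atTop (𝓝 0) := by
      have := (tendsto_pow_atTop_nhds_zero_of_lt_one (r := (1 / 2 : ℝ)) (by norm_num)
        (by norm_num)).const_mul (1 : ℝ)
      have := this.div_const (1 - 1 / 2 : ℝ)
      simpa using this
    filter_upwards [h1.eventually (gt_mem_nhds hε)] with n hn t
    rw [dist_comm]
    exact (dist_le_of_le_geometric_of_tendsto (1 / 2) 1 (by norm_num) (hd β t) (hF β t) n).trans_lt hn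
  have hc : ∀ β, Continuous (F β) := fun β =>
    (hu β).continuous (Frequently.of_forall fun n => h03_cont n β)
  have h0 : ∀ β, ∀ t ≤ 0, F β t = 0 := by
    intro β t ht
    refine tendsto_nhds_unique (hF β t) ?_
    simp only [h03_zero _ β t ht]
    exact tendsto_const_nhds
  have h1 : ∀ β, ∀ t, 1 ≤ t → F β t = 1 := by
    intro β t ht
    refine tendsto_nhds_unique (hF β t) ?_
    simp only [h03_one _ β t ht]
    exact tendsto_const_nhds
  have hm : ∀ β, Monotone (F β) := fun β x y hxy =>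
    le_of_tendsto_of_tendsto' (hF β x) (hF β y) fun n => h03_mono n β hxy
  have hfe : ∀ β t, F β t = (F (fun i => β (i + 1)) (2 ^ (2 * β 0 + 2) * t - 1) +
      F (fun i => β (i + 1)) (2 ^ (2 * β 0 + 1) * t - 1)) / 2 := by
    intro β t
    refine tendsto_nhds_unique ((tendsto_add_atTop_iff_nat 1).2 (hF β t)) ?_
    simp only [h03_Fn]
    exact ((hF _ _).add (hF _ _)).div_const 2
  refine ⟨F β, hc β, h0 β, h1 β, hm β, fun s => ?_⟩
  induction s generalizing β with
  | nil => intro h; exact absurd rfl h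
  | cons n s ih =>
    intro h
    obtain ⟨hL, hW, hLW⟩ := h03_LL s
    have hp : ∀ a b : ℕ, (2 : ℝ) ^ (a + b) * (1 / 2) ^ a = 2 ^ b := by
      intro a b
      rw [one_div, pow_add, inv_pow]
      field_simp
    have hp' : ∀ a b : ℕ, (2 : ℝ) ^ a * (1 / 2) ^ (a + b) = (1 / 2) ^ b := by
      intro a b
      rw [one_div, pow_add, inv_pow, inv_pow]
      field_simp
    simp only [LL, WW]
    rw [hfe β, hfe β ((1 / 2) ^ (n + 1) * (1 + LL s) + (1 / 2) ^ (n + 1) * WW s)]
    by_cases hn : n / 2 = β 0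
    · have h2 : hf s ≠ (List.range s.length).map (fun i => β (i + 1)) := by
        intro h2
        apply h
        rw [List.length_cons, List.range_succ_eq_map, List.map_cons, List.map_map]
        change (n / 2) :: hf s = _
        rw [hn, h2]
        rfl
      have h3 := ih (fun i => β (i + 1)) h2
      rcases Nat.even_or_odd' n with ⟨b, hb | hb⟩
      · -- `n = 2 β 0`
        have hb' : b = β 0 := by omega
        subst hb
        have e1 : (2 : ℝ) ^ (2 * β 0 + 1) * ((1 / 2) ^ (2 * b + 1) * (1 + LL s)) - 1 = LL s := by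
          have := hp (2 * b + 1) 0
          rw [hb'] at this ⊢
          rw [← mul_assoc]
          rw [add_zero, pow_zero] at this
          rw [this]; ring
        have e2 : (2 : ℝ) ^ (2 * β 0 + 1) * ((1 / 2) ^ (2 * b + 1) * (1 + LL s) +
            (1 / 2) ^ (2 * b + 1) * WW s) - 1 = LL s + WW s := by
          have := hp (2 * b + 1) 0
          rw [hb'] at this ⊢
          rw [← mul_add, ← mul_assoc]
          rw [add_zero, pow_zero] at this
          rw [this]; ring
        have e3 : (2 : ℝ) ^ (2 * β 0 + 2) * ((1 / 2) ^ (2 * b + 1) * (1 + LL s)) - 1 =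
            1 + 2 * LL s := by
          have := hp (2 * b + 1) 1
          rw [hb'] at this ⊢
          rw [← mul_assoc, show 2 * β 0 + 2 = 2 * β 0 + 1 + 1 from rfl, this]; ring
        have e4 : (2 : ℝ) ^ (2 * β 0 + 2) * ((1 / 2) ^ (2 * b + 1) * (1 + LL s) +
            (1 / 2) ^ (2 * b + 1) * WW s) - 1 = 1 + 2 * (LL s + WW s) := by
          have := hp (2 * b + 1) 1
          rw [hb'] at this ⊢
          rw [← mul_add, ← mul_assoc, show 2 * β 0 + 2 = 2 * β 0 + 1 + 1 from rfl, this]; ring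
        rw [e1, e2, e3, e4, h1 _ (1 + 2 * LL s) (by linarith),
          h1 _ (1 + 2 * (LL s + WW s)) (by linarith), h3]
      · -- `n = 2 β 0 + 1`
        have hb' : b = β 0 := by omega
        subst hb
        have e1 : (2 : ℝ) ^ (2 * β 0 + 2) * ((1 / 2) ^ (2 * b + 1 + 1) * (1 + LL s)) - 1 = LL s := by
          have := hp (2 * b + 1 + 1) 0
          rw [hb'] at this ⊢
          rw [← mul_assoc]
          rw [add_zero, pow_zero] at this
          rw [show 2 * β 0 + 2 = 2 * β 0 + 1 + 1 from rfl, this]; ring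
        have e2 : (2 : ℝ) ^ (2 * β 0 + 2) * ((1 / 2) ^ (2 * b + 1 + 1) * (1 + LL s) +
            (1 / 2) ^ (2 * b + 1 + 1) * WW s) - 1 = LL s + WW s := by
          have := hp (2 * b + 1 + 1) 0
          rw [hb'] at this ⊢
          rw [← mul_add, ← mul_assoc]
          rw [add_zero, pow_zero] at this
          rw [show 2 * β 0 + 2 = 2 * β 0 + 1 + 1 from rfl, this]; ring
        have e3 : (2 : ℝ) ^ (2 * β 0 + 1) * ((1 / 2) ^ (2 * b + 1 + 1) * (1 + LL s)) - 1 =
            (1 / 2) * (LL s - 1) := by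
          have := hp' (2 * b + 1) 1
          rw [hb'] at this ⊢
          rw [← mul_assoc, this]; ring
        have e4 : (2 : ℝ) ^ (2 * β 0 + 1) * ((1 / 2) ^ (2 * b + 1 + 1) * (1 + LL s) +
            (1 / 2) ^ (2 * b + 1 + 1) * WW s) - 1 = (1 / 2) * (LL s + WW s - 1) := by
          have := hp' (2 * b + 1) 1
          rw [hb'] at this ⊢
          rw [← mul_add, ← mul_assoc, this]; ring
        rw [e1, e2, e3, e4, h0 _ ((1 / 2) * (LL s - 1)) (by linarith),
          h0 _ ((1 / 2) * (LL s + WW s - 1)) (by linarith), h3]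
    · have hlo : (1 / 2 : ℝ) ^ (n + 1) ≤ (1 / 2) ^ (n + 1) * (1 + LL s) := by
        have : (0 : ℝ) < (1 / 2) ^ (n + 1) := by positivity
        nlinarith
      have hhi : (1 / 2 : ℝ) ^ (n + 1) * (1 + LL s) + (1 / 2) ^ (n + 1) * WW s ≤ (1 / 2) ^ n := by
        have h5 : (0 : ℝ) < (1 / 2) ^ (n + 1) := by positivity
        have h6 : (1 / 2 : ℝ) ^ n = (1 / 2) ^ (n + 1) * 2 := by rw [pow_succ]; ring
        rw [h6]
        nlinarith
      have hmid : (1 / 2 : ℝ) ^ (n + 1) * (1 + LL s) ≤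
          (1 / 2) ^ (n + 1) * (1 + LL s) + (1 / 2) ^ (n + 1) * WW s := by
        have : (0 : ℝ) < (1 / 2) ^ (n + 1) := by positivity
        nlinarith
      set u := (1 / 2 : ℝ) ^ (n + 1) * (1 + LL s) with hu'
      set v := u + (1 / 2) ^ (n + 1) * WW s with hv'
      rcases Nat.lt_or_gt_of_ne hn with hlt | hgt
      · -- `n + 1 ≤ 2 β 0`: both arguments `≥ 1`
        obtain ⟨c, hc'⟩ : ∃ c, 2 * β 0 = n + 1 + c := ⟨2 * β 0 - (n + 1), by omega⟩
        have h7 : ∀ x, (1 / 2 : ℝ) ^ (n + 1) ≤ x → ∀ e : ℕ, 1 ≤ 2 ^ (2 * β 0 + (e + 1)) * x - 1 := by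
          intro x hx e
          have h8 := hp (n + 1) (c + (e + 1))
          have h9 : (2 : ℝ) ^ (2 * β 0 + (e + 1)) * (1 / 2) ^ (n + 1) = 2 ^ (c + (e + 1)) := by
            rw [hc', ← h8, add_assoc]
          have h10 : (2 : ℝ) ^ (2 * β 0 + (e + 1)) * (1 / 2) ^ (n + 1) ≤ 2 ^ (2 * β 0 + (e + 1)) * x :=
            mul_le_mul_of_nonneg_left hx (by positivity)
          have h11 := h03_pow (c + e)
          have h12 : (2 : ℝ) ^ (c + (e + 1)) = 2 ^ (c + e) * 2 := by rw [← add_assoc, pow_succ]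
          linarith
        rw [h1 _ _ (h7 u hlo 1), h1 _ _ (h7 u hlo 0), h1 _ _ (h7 v (hlo.trans hmid) 1),
          h1 _ _ (h7 v (hlo.trans hmid) 0)]
      · -- `n ≥ 2 β 0 + 2`
        obtain ⟨c, hc'⟩ : ∃ c, n = 2 * β 0 + 2 + c := ⟨n - (2 * β 0 + 2), by omega⟩
        have h7 : ∀ x, x ≤ (1 / 2 : ℝ) ^ n → ∀ e : ℕ, e ≤ 2 → 2 ^ (2 * β 0 + e) * x - 1 ≤ 0 := by
          intro x hx e he
          have h10 : (2 : ℝ) ^ (2 * β 0 + e) * x ≤ 2 ^ (2 * β 0 + e) * (1 / 2) ^ n :=
            mul_le_mul_of_nonneg_left hx (by positivity)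
          have h11 : n = 2 * β 0 + e + (2 - e + c) := by omega
          have h12 := hp' (2 * β 0 + e) (2 - e + c)
          rw [← h11] at h12
          have h13 : (1 / 2 : ℝ) ^ (2 - e + c) ≤ 1 := pow_le_one₀ (by norm_num) (by norm_num)
          linarith
        rw [h0 _ _ (h7 u (hmid.trans hhi) 2 le_rfl), h0 _ _ (h7 u (hmid.trans hhi) 1 (by norm_num)),
          h0 _ _ (h7 v hhi 2 le_rfl), h0 _ _ (h7 v hhi 1 (by norm_num))]

end CPE48
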