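import Pool.Agent.LibCPE48.HT

/-! TASK H04 (~130 lines).  From a Cantor function to a `Collapse`.

Let `F` be as in H03 and `mono : Monotone F`.  Put `g x = ⌊x⌋ + F (Int.fract x)`,
`h t = g (t^2)` and `H t = h t` for `t ≥ 0`, `H t = - h t` for `t ≤ 0` (`h` is even, `h 0 = 0`).
-/

namespace CPE48

open Set Function Filter Topology

/-- the staircase function of `F` -/
noncomputable def h04_g (F : ℝ → ℝ) (x : ℝ) : ℝ := ⌊x⌋ + F (Int.fract x)

/-- the odd function on the line -/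
noncomputable def h04_H (F : ℝ → ℝ) (t : ℝ) : ℝ :=
  if 0 ≤ t then h04_g F (t ^ 2) else - h04_g F (t ^ 2)

theorem h04_LL_nonneg (s : List ℕ) : 0 ≤ LL s := by
  induction s with
  | nil => simp [LL]
  | cons n s ih => rw [LL]; positivity

theorem h04_WW_nonneg (s : List ℕ) : 0 ≤ WW s := by
  induction s with
  | nil => simp [WW]
  | cons n s ih => rw [WW]; positivity

theorem h04_le_one (s : List ℕ) : LL s + WW s ≤ 1 := by
  induction s with
  | nil => simp [LL, WW]
  | cons n s ih =>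
    rw [LL, WW]
    have h1 : ((1:ℝ) / 2) ^ (n + 1) ≤ 1 / 2 := by
      calc ((1:ℝ) / 2) ^ (n + 1) ≤ (1 / 2) ^ 1 :=
            pow_le_pow_of_le_one (by norm_num) (by norm_num) (by omega)
        _ = 1 / 2 := by norm_num
    have h0 : (0:ℝ) < (1 / 2) ^ (n + 1) := by positivity
    calc (1 / 2 : ℝ) ^ (n + 1) * (1 + LL s) + (1 / 2) ^ (n + 1) * WW s
        = (1 / 2) ^ (n + 1) * (1 + (LL s + WW s)) := by ring
      _ ≤ (1 / 2) * (1 + 1) := by
          apply mul_le_mul h1 (by linarith) _ (by norm_num)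
          have := h04_LL_nonneg s
          have := h04_WW_nonneg s
          linarith
      _ = 1 := by norm_num

section

variable {F : ℝ → ℝ}

theorem h04_F_nonneg (mono : Monotone F) (h0 : ∀ t ≤ 0, F t = 0) (t : ℝ) : 0 ≤ F t := by
  rcases le_total t 0 with h | h
  · rw [h0 t h]
  · rw [← h0 0 le_rfl]; exact mono h

theorem h04_F_le (mono : Monotone F) (h1 : ∀ t, 1 ≤ t → F t = 1) (t : ℝ) : F t ≤ 1 := by
  rcases le_total 1 t with h | h
  · rw [h1 t h]
  · rw [← h1 1 le_rfl]; exact mono h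

theorem h04_g_cont (hF : Continuous F) (h0 : ∀ t ≤ 0, F t = 0) (h1 : ∀ t, 1 ≤ t → F t = 1) :
    Continuous (h04_g F) := by
  have hc : Continuous ((fun u : ℝ => F u - u) ∘ Int.fract) := by
    apply ContinuousOn.comp_fract''
    · exact (hF.sub continuous_id).continuousOn
    · rw [h0 0 le_rfl, h1 1 le_rfl]; norm_num
  have he : h04_g F = fun x => x + ((fun u : ℝ => F u - u) ∘ Int.fract) x := by
    funext x
    simp only [h04_g, Function.comp_apply]
    have := Int.floor_add_fract x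
    linarith
  rw [he]
  exact continuous_id.add hc

theorem h04_g_zero (h0 : ∀ t ≤ 0, F t = 0) : h04_g F 0 = 0 := by
  simp [h04_g, h0 0 le_rfl]

theorem h04_g_one (h0 : ∀ t ≤ 0, F t = 0) : h04_g F 1 = 1 := by
  simp [h04_g, h0 0 le_rfl]

theorem h04_g_lower (mono : Monotone F) (h0 : ∀ t ≤ 0, F t = 0) (x : ℝ) :
    (⌊x⌋ : ℝ) ≤ h04_g F x := by
  have := h04_F_nonneg mono h0 (Int.fract x)
  simp only [h04_g]; linarith

theorem h04_g_upper (mono : Monotone F) (h1 : ∀ t, 1 ≤ t → F t = 1) (x : ℝ) :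
    h04_g F x ≤ ⌊x⌋ + 1 := by
  have := h04_F_le mono h1 (Int.fract x)
  simp only [h04_g]; linarith

theorem h04_g_close (mono : Monotone F) (h0 : ∀ t ≤ 0, F t = 0) (h1 : ∀ t, 1 ≤ t → F t = 1)
    (x y : ℝ) (h : h04_g F x = h04_g F y) : x - y ≤ 2 := by
  have a := h04_g_lower mono h0 x
  have b := h04_g_upper mono h1 y
  have c := Int.lt_floor_add_one x
  have d := Int.floor_le y
  linarith

theorem h04_g_nonneg (mono : Monotone F) (h0 : ∀ t ≤ 0, F t = 0) (x : ℝ) (hx : 0 ≤ x) :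
    0 ≤ h04_g F x := by
  have a := h04_g_lower mono h0 x
  have b : (0:ℝ) ≤ ⌊x⌋ := by exact_mod_cast Int.floor_nonneg.2 hx
  linarith

theorem h04_g_on (h0 : ∀ t ≤ 0, F t = 0) (h1 : ∀ t, 1 ≤ t → F t = 1) (j : ℕ) (x : ℝ)
    (hx : (j:ℝ) ≤ x) (hx' : x ≤ j + 1) : h04_g F x = j + F (x - j) := by
  rcases lt_or_eq_of_le hx' with h | h
  · have hfl : ⌊x⌋ = (j : ℤ) := by
      rw [Int.floor_eq_iff]
      exact ⟨by exact_mod_cast hx, by exact_mod_cast h⟩
    simp only [h04_g, Int.fract, hfl]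
    push_cast
    rfl
  · have hfl : ⌊x⌋ = (j : ℤ) + 1 := by
      rw [Int.floor_eq_iff]
      push_cast
      exact ⟨h.symm.le, by rw [h]; linarith⟩
    have e1 : x - ((⌊x⌋ : ℤ) : ℝ) = 0 := by rw [hfl, h]; push_cast; ring
    simp only [h04_g, Int.fract, e1]
    rw [h0 0 le_rfl, hfl, h1 (x - j) (by rw [h]; linarith)]
    push_cast
    ring

theorem h04_H_cont (hF : Continuous F) (h0 : ∀ t ≤ 0, F t = 0) (h1 : ∀ t, 1 ≤ t → F t = 1) :
    Continuous (h04_H F) := by
  have hg := h04_g_cont hF h0 h1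
  have hg2 : Continuous (fun t : ℝ => h04_g F (t ^ 2)) := hg.comp (continuous_pow 2)
  refine Continuous.if_le hg2 hg2.neg continuous_const continuous_id ?_
  intro x hx
  have : x = 0 := by simpa using hx.symm
  subst this
  simp [h04_g_zero h0]

theorem h04_H_pos (t : ℝ) (ht : 0 ≤ t) : h04_H F t = h04_g F (t ^ 2) := by
  simp [h04_H, ht]

theorem h04_H_neg (h0 : ∀ t ≤ 0, F t = 0) (t : ℝ) (ht : 0 ≤ t) :
    h04_H F (-t) = - h04_g F (t ^ 2) := by
  rcases eq_or_lt_of_le ht with h | h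
  · subst h
    simp [h04_H, h04_g_zero h0]
  · have : ¬ (0 ≤ -t) := by linarith
    simp [h04_H, this]

/-- the fibre estimate for positive parameters -/
theorem h04_fib (mono : Monotone F) (h0 : ∀ t ≤ 0, F t = 0) (h1 : ∀ t, 1 ≤ t → F t = 1)
    (δ T : ℝ) (hT1 : 0 < T) (hT2 : 2 < δ * T) (t t' : ℝ) (ht : T ≤ t)
    (ht' : 0 ≤ t') (h : h04_g F (t ^ 2) = h04_g F (t' ^ 2)) : |t - t'| < δ := by
  have a := h04_g_close mono h0 h1 _ _ h
  have b := h04_g_close mono h0 h1 _ _ h.symm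
  have hpos : 0 < t + t' := by linarith
  have key : |t - t'| * (t + t') ≤ 2 := by
    rw [← abs_of_pos hpos, ← abs_mul, abs_le]
    constructor <;> nlinarith
  by_contra hcon
  have hcon' : δ ≤ |t - t'| := not_lt.1 hcon
  have : δ * T ≤ |t - t'| * (t + t') :=
    mul_le_mul hcon' (by linarith) hT1.le (abs_nonneg _)
  linarith

end

theorem collapse_of_cantor (T : Set (List ℕ)) (β : ℕ → ℕ)
    (hβ : ∀ m, (List.range m).map β ∈ T) (F : ℝ → ℝ) (hF : Continuous F) (mono : Monotone F)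
    (h0 : ∀ t ≤ 0, F t = 0) (h1 : ∀ t, 1 ≤ t → F t = 1)
    (hc : ∀ s : List ℕ, hf s ≠ (List.range s.length).map β → F (LL s) = F (LL s + WW s)) :
    ∃ H : ℝ → ℝ, Collapse ar br (sw T) H := by
  refine ⟨h04_H F, h04_H_cont hF h0 h1, ?_, ?_, ?_⟩
  · intro k hk t ht t' ht'
    have hsw : hf (ix k).2 ∉ T := by simpa [sw] using hk
    have hne : hf (ix k).2 ≠ (List.range (ix k).2.length).map β :=
      fun h => hsw (h ▸ hβ _)
    have hFe := hc _ hne
    set s := (ix k).2 with hs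
    set j := (ix k).1 with hj
    have hL := h04_LL_nonneg s
    have hW := h04_WW_nonneg s
    have hLW := h04_le_one s
    -- values on the arc
    have hval : ∀ u ∈ Icc (ar k) (br k), 0 ≤ u ∧ h04_g F (u ^ 2) = j + F (LL s) := by
      intro u hu
      have ha : ar k = √((j:ℝ) + LL s) := rfl
      have hb : br k = √((j:ℝ) + LL s + WW s) := rfl
      have hj0 : (0:ℝ) ≤ j := Nat.cast_nonneg j
      have hu0 : 0 ≤ u := le_trans (by rw [ha]; exact Real.sqrt_nonneg _) hu.1
      have h2 : (j:ℝ) + LL s ≤ u ^ 2 := by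
        have := hu.1
        rw [ha] at this
        rwa [Real.sqrt_le_left hu0] at this
      have h3 : u ^ 2 ≤ (j:ℝ) + LL s + WW s := by
        have := hu.2
        rw [hb] at this
        rwa [Real.le_sqrt hu0 (by positivity)] at this
      refine ⟨hu0, ?_⟩
      rw [h04_g_on h0 h1 j (u ^ 2) (by linarith) (by linarith)]
      have hlow : F (LL s) ≤ F (u ^ 2 - j) := mono (by linarith)
      have hup : F (u ^ 2 - j) ≤ F (LL s + WW s) := mono (by linarith)
      rw [← hFe] at hup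
      rw [le_antisymm hup hlow]
    obtain ⟨ht0, hgt⟩ := hval t ht
    obtain ⟨ht0', hgt'⟩ := hval t' ht'
    refine ⟨?_, ?_⟩
    · rw [h04_H_pos t ht0, h04_H_pos t' ht0', hgt, hgt']
    · rw [h04_H_neg h0 t ht0, h04_H_neg h0 t' ht0', hgt, hgt']
  · intro δ hδ
    set M := max 2 (2 / δ + 1) with hM
    have hM2 : 2 ≤ M := le_max_left _ _
    have hMδ : 2 < δ * M := by
      have : 2 / δ + 1 ≤ M := le_max_right _ _
      have h2 : δ * (2 / δ + 1) ≤ δ * M := mul_le_mul_of_nonneg_left this hδ.le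
      have h3 : δ * (2 / δ + 1) = 2 + δ := by field_simp
      linarith
    refine ⟨M, ?_⟩
    intro t t' hH hT
    have hgpos : ∀ u : ℝ, M ≤ |u| → 0 < h04_g F (u ^ 2) := by
      intro u hu
      have a := h04_g_lower mono h0 (u ^ 2)
      have hu2 : (4:ℝ) ≤ u ^ 2 := by
        rw [← sq_abs]; nlinarith
      have b : (4:ℤ) ≤ ⌊u ^ 2⌋ := Int.le_floor.2 (by exact_mod_cast hu2)
      have b' : (4:ℝ) ≤ ⌊u ^ 2⌋ := by exact_mod_cast b
      linarith
    have hp := hgpos t hT
    have hn' := h04_g_nonneg mono h0 (t' ^ 2) (sq_nonneg _)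
    by_cases h : 0 ≤ t
    · have e1 : h04_H F t = h04_g F (t ^ 2) := h04_H_pos t h
      have ht' : 0 ≤ t' := by
        by_contra hneg
        have e2 : h04_H F t' = - h04_g F (t' ^ 2) := by simp [h04_H, hneg]
        rw [e1, e2] at hH
        linarith
      have e2 : h04_H F t' = h04_g F (t' ^ 2) := h04_H_pos t' ht'
      rw [e1, e2] at hH
      rw [abs_of_nonneg h] at hT
      exact h04_fib mono h0 h1 δ M (by linarith) hMδ t t' hT ht' hH
    · have e1 : h04_H F t = - h04_g F (t ^ 2) := by simp [h04_H, h]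
      have ht' : t' < 0 := by
        by_contra hneg
        rw [e1, h04_H_pos t' (not_lt.1 hneg)] at hH
        linarith
      have hnt' : ¬ (0 ≤ t') := not_le.2 ht'
      have e2 : h04_H F t' = - h04_g F (t' ^ 2) := by simp [h04_H, hnt']
      rw [e1, e2, neg_inj] at hH
      rw [abs_of_neg (not_le.1 h)] at hT
      have := h04_fib mono h0 h1 δ M (by linarith) hMδ (-t) (-t') hT (by linarith)
        (by rw [neg_sq, neg_sq]; exact hH)
      rwa [show -t - -t' = -(t - t') by ring, abs_neg] at this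
  · refine ⟨1, ?_⟩
    rw [h04_H_pos 1 zero_le_one, h04_H_pos 0 le_rfl]
    norm_num
    rw [h04_g_one h0, h04_g_zero h0]
    norm_num

end CPE48
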