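import Pool.Agent.LibCPE48.Defs

/-!
# The intervals: definitions
-/

namespace CPE48

open Set Function Filter Topology

/-- left end points: `D_n = [2^{-n-1}, 2^{-n}]` and its images -/
noncomputable def LL : List ℕ → ℝ
  | [] => 0
  | n :: s => (1 / 2) ^ (n + 1) * (1 + LL s)

/-- lengths -/
noncomputable def WW : List ℕ → ℝ
  | [] => 1
  | n :: s => (1 / 2) ^ (n + 1) * WW s

/-- the index set `ℕ × List ℕ` is denumerable -/
def ix (k : ℕ) : ℕ × List ℕ := Denumerable.ofNat (ℕ × List ℕ) k

/-- left end points of the arcs -/
noncomputable def ar (k : ℕ) : ℝ := √((ix k).1 + LL (ix k).2)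

/-- right end points of the arcs -/
noncomputable def br (k : ℕ) : ℝ := √((ix k).1 + LL (ix k).2 + WW (ix k).2)

/-- halve all entries -/
def hf (s : List ℕ) : List ℕ := s.map (· / 2)

open Classical in
/-- the switches defined by a set of lists: an arc is on if its halved code is not in `T` -/
noncomputable def sw (T : Set (List ℕ)) (k : ℕ) : Bool := decide (hf (ix k).2 ∉ T)

end CPE48
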