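import Pool.Agent.LibCPE48.HT

/-! TASK I01 (~80 lines).  The tree of an analytic set.

`AnalyticSet A` means `A = ∅` or `A = range ψ` with `ψ : (ℕ → ℕ) → α` continuous
(`MeasureTheory.AnalyticSet`).  If `A = ∅` take `T a = ∅`.  If `A = range ψ` take
`T a = {l | a ∈ closure (ψ '' {y | ∀ i (h : i < l.length), y i = l[i]})}`.
* measurability of `a ↦ sw (T a) k`: it is `decide` of (the complement of) a closed set
  (`measurable_to_bool`, `IsClosed.measurableSet`); then `measurable_pi_iff`.
* branch ⇒ `a ∈ A`: if `β` is a branch then for every neighbourhood `U` of `ψ β`, closed wlog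
  (`T2`/regular or metric), there is `m` such that `ψ y ∈ U` whenever `y` agrees with `β` on
  `[0, m)` (continuity for the product topology: `PiNat` cylinders or `mem_nhds_pi`-style; e.g. use
  `PiNat.cylinder`, `PiNat.isTopologicalBasis_cylinders`); so `a ∈ closure U = U` for
  all closed neighbourhoods `U` of `ψ β`: `a = ψ β`.
* `a = ψ y₀` ⇒ `β = y₀` is a branch (`subset_closure`).
-/

namespace CPE48

open Set Function Filter Topology MeasureTheory

/-- the sequences which begin with `l` -/
def i01_cyl (l : List ℕ) : Set (ℕ → ℕ) := {y | (List.range l.length).map y = l}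

theorem i01_mem (y : ℕ → ℕ) (m : ℕ) : y ∈ i01_cyl ((List.range m).map y) := by
  simp [i01_cyl]

theorem i01_eq {y β : ℕ → ℕ} {m : ℕ} (h : y ∈ i01_cyl ((List.range m).map β)) :
    ∀ i < m, y i = β i := by
  have h1 : (List.range ((List.range m).map β).length).map y = (List.range m).map β := h
  rw [List.length_map, List.length_range, List.map_inj_left] at h1
  intro i hi
  exact h1 i (List.mem_range.2 hi)

theorem i01_meas {α : Type*} [TopologicalSpace α] [MeasurableSpace α] [BorelSpace α]
    (T : α → Set (List ℕ)) (hT : ∀ l, IsClosed {a | l ∈ T a}) :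
    Measurable (fun a => sw (T a)) := by
  rw [measurable_pi_iff]
  intro k
  refine measurable_to_bool ?_
  have h1 : (fun a => sw (T a) k) ⁻¹' {true} = {a | hf (ix k).2 ∈ T a}ᶜ := by
    ext a
    simp [sw]
  rw [h1]
  exact (hT _).measurableSet.compl

theorem exists_tree {α : Type*} [TopologicalSpace α] [PolishSpace α] [MeasurableSpace α]
    [BorelSpace α] (A : Set α) (hA : AnalyticSet A) :
    ∃ T : α → Set (List ℕ), Measurable (fun a => sw (T a)) ∧
      ∀ a, (∃ β : ℕ → ℕ, ∀ m, (List.range m).map β ∈ T a) ↔ a ∈ A := by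
  rw [AnalyticSet] at hA
  rcases hA with hA | ⟨ψ, hψ, hA⟩
  · refine ⟨fun _ => ∅, i01_meas _ (fun l => by simp), fun a => ?_⟩
    rw [hA]
    constructor
    · rintro ⟨β, hβ⟩
      exact absurd (hβ 0) (Set.notMem_empty _)
    · intro h
      exact absurd h (Set.notMem_empty _)
  · refine ⟨fun a => {l | a ∈ closure (ψ '' i01_cyl l)}, i01_meas _ (fun l => ?_), fun a => ?_⟩
    · exact isClosed_closure
    · rw [← hA]
      constructor
      · rintro ⟨β, hβ⟩
        refine ⟨β, ?_⟩
        by_contra hne
        obtain ⟨u, v, hu, hv, hβu, hav, huv⟩ := t2_separation hne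
        obtain ⟨I, w, hw, hI⟩ := isOpen_pi_iff.1 (hu.preimage hψ) β hβu
        have h1 : ψ '' i01_cyl ((List.range (I.sup id + 1)).map β) ⊆ u := by
          rintro _ ⟨y, hy, rfl⟩
          refine hI ?_
          intro i hi
          have h2 : i ≤ I.sup id := Finset.le_sup (f := id) hi
          rw [i01_eq hy i (by omega)]
          exact (hw i hi).2
        obtain ⟨x, hx1, hx2⟩ := mem_closure_iff.1 (hβ (I.sup id + 1)) v hv hav
        exact Set.disjoint_left.1 huv (h1 hx2) hx1
      · rintro ⟨y, rfl⟩
        exact ⟨y, fun m => subset_closure ⟨y, i01_mem y m, rfl⟩⟩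

end CPE48
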