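import Pool.Agent.LibCPE48.Defs

/-! TASK I02 (~60 lines).  Transport to the standard torus.

* `torus_homeo`: `((T × T) × (T × T)) × (Fin (m+1) → T) ≃ₜ (Fin (m + 5) → T)`.  Use
  `Homeomorph.finTwoArrow : (Fin 2 → X) ≃ₜ X × X` (symm), `Fin.appendHomeomorph` /
  `Homeomorph.piFinAppend`-like or `Homeomorph.sumArrowHomeomorphProdArrow` with
  `Homeomorph.piCongrLeft` along `finSumFinEquiv`, and `Homeomorph.prodCongr`; or build it by hand
  with `Fin.cons` (continuity by cases).  It is enough to give a `Nonempty`.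
* `conj_cont`: for a homeomorphism `h`, the map `F ↦ h ∘ F ∘ h⁻¹`,
  `C(W, W) → C(W', W')`, is continuous (`ContinuousMap.continuous_postcomp`,
  `ContinuousMap.continuous_precomp`).
-/

namespace CPE48

open Set Function Filter Topology

theorem torus_homeo (m : ℕ) :
    Nonempty (((UnitAddCircle × UnitAddCircle) × (UnitAddCircle × UnitAddCircle)) ×
      (Fin (m + 1) → UnitAddCircle) ≃ₜ (Fin (m + 5) → UnitAddCircle)) := by
  let e1 : UnitAddCircle × UnitAddCircle ≃ₜ (Fin 2 → UnitAddCircle) :=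
    Homeomorph.finTwoArrow.symm
  let e2 : (UnitAddCircle × UnitAddCircle) × (UnitAddCircle × UnitAddCircle) ≃ₜ
      (Fin (2 + 2) → UnitAddCircle) := (e1.prodCongr e1).trans (Fin.appendHomeomorph 2 2)
  let e3 : ((UnitAddCircle × UnitAddCircle) × (UnitAddCircle × UnitAddCircle)) ×
      (Fin (m + 1) → UnitAddCircle) ≃ₜ (Fin (2 + 2 + (m + 1)) → UnitAddCircle) :=
    (e2.prodCongr (Homeomorph.refl _)).trans (Fin.appendHomeomorph (2 + 2) (m + 1))
  have h : 2 + 2 + (m + 1) = m + 5 := by omega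
  exact ⟨e3.trans (Homeomorph.piCongrLeft (Y := fun _ => UnitAddCircle) (finCongr h))⟩

theorem exists_conj {W W' : Type*} [TopologicalSpace W] [TopologicalSpace W'] (h : W ≃ₜ W') :
    ∃ Φ : C(W, W) → C(W', W'), Continuous Φ ∧ ∀ F y, Φ F y = h (F (h.symm y)) := by
  let a : C(W, W') := ⟨h, h.continuous⟩
  let b : C(W', W) := ⟨h.symm, h.symm.continuous⟩
  refine ⟨fun F => a.comp (F.comp b), ?_, fun F y => rfl⟩
  exact (ContinuousMap.continuous_postcomp a).comp (ContinuousMap.continuous_precomp b)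

end CPE48
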