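import Pool.Agent.LibCPE48.A01
import Pool.Agent.LibCPE48.B04
import Pool.Agent.LibCPE48.C01
import Pool.Agent.LibCPE48.C03
import Pool.Agent.LibCPE48.D01
import Pool.Agent.LibCPE48.E03
import Pool.Agent.LibCPE48.E06

/-! TASK M01.  The main theorem on the family of maps. -/

namespace CPE48

open Set Function Filter Topology

theorem main_dyn {B Y : Type} [MetricSpace B] [CompactSpace B] [Nonempty B]
    [MetricSpace Y] [CompactSpace Y] [Nonempty Y]
    {φ : ℝ → B → B} {D : Y → Y} {O : ℕ → Set Y} {ε : ℕ → ℝ}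
    (h : GoodFlow B φ) (hY : GoodBase Y D O ε) (a b : ℕ → ℝ) (ha : ∀ k, 0 ≤ a k)
    (hab : ∀ k, a k < b k) (hlen : Tendsto (fun k => b k - a k) atTop (𝓝 0)) :
    ∃ F : C(ℕ → Bool, C((B × B) × Y, (B × B) × Y)),
      (∀ e, Mixing (F e)) ∧
      (∀ e, (∀ t : ℝ, 0 < t → ∃ k, e k = true ∧ t ∈ Icc (a k) (b k)) → CPE (F e)) ∧
      (∀ e, (∃ H : ℝ → ℝ, Collapse a b e H) → ¬ CPE (F e)) := by
  choose σ hσ using fun k => exists_tube h (a k) (b k) (hab k)
  have S : Setup φ D O ε a b σ := ⟨h, hY, ha, hab, hlen, hσ⟩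
  have hPP := PP_continuous S
  have hφ1 : Continuous (φ 1) := h.cont.comp (continuous_const.prodMk continuous_id)
  have hGG : Continuous (GG φ D) := by
    unfold GG
    exact ((hφ1.comp (continuous_fst.comp continuous_fst)).prodMk
      (hφ1.comp (continuous_snd.comp continuous_fst))).prodMk (hY.cont.comp continuous_snd)
  have hpe : ∀ e, Continuous (PP φ σ O ε e) := fun e =>
    hPP.comp (continuous_const.prodMk continuous_id)
  obtain ⟨F, hF⟩ := exists_lift (E := ℕ → Bool) (fun e x => PP φ σ O ε e x)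
    (fun e x => PP φ σ O ε e (GG φ D x)) hPP
    (hPP.comp (continuous_fst.prodMk (hGG.comp continuous_snd)))
    (fun e => PP_surjective S e)
    (fun e x x' hx => PP_rel S e _ _ (Rel_GG S e x x' (PP_ker S e x x' hx)))
  have hmixG : Mixing (GG φ D) := by
    have h1 : Mixing (Prod.map (Prod.map (φ 1) (φ 1)) D) :=
      Mixing.prod (Mixing.prod h.mix h.mix) (mixing_of_exact hY.surj hY.exact)
    exact h1
  refine ⟨F, ?_, ?_, ?_⟩
  · intro e
    exact Mixing.factor (hpe e) (PP_surjective S e) (fun x => (hF e x).symm) hmixG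
  · intro e hcov
    exact cpe_of_cover h hY a b e (PP φ σ O ε e) (F e) (hpe e) (PP_surjective S e)
      (fun x => hF e x) (fun x x' hx => PP_rel S e x x' hx) hcov
  · rintro e ⟨H, hH⟩
    exact not_cpe_of_collapse h a b ha e (PP φ σ O ε e) (F e) (hpe e) (PP_surjective S e)
      (fun x => hF e x) (fun x x' hx => PP_ker S e x x' hx) H hH

end CPE48
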