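import Pool.Agent.LibCPE48.N07
import Pool.Agent.LibCPE48.F04
import Pool.Agent.LibCPE48.F05

/-! TASK N08 (~30 lines).  Assembly: the time-changed flow on the two-torus is a good flow.
`tc_flow`, `tc_free` (with `rot_free`), `tc_dense` (with `rot_dense`: an open nonempty `V` contains a
ball), `tc_mixing` (with `rot_dense`, `rot_path`), `tc_ze`.
-/

namespace CPE48

open Set Function Filter Topology

theorem goodFlow_torus : GoodFlow (UnitAddCircle × UnitAddCircle) (tc rot fn) where
  toIsFlow := tc_flow tdata
  free := fun t z h => tc_free tdata rot_free t z h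
  dense := fun z V hV hne => by
    refine tc_dense tdata (fun p W hW hWne => ?_) z V hV hne
    obtain ⟨v, hv⟩ := hWne
    obtain ⟨η, hη, hball⟩ := Metric.isOpen_iff.mp hW v hv
    obtain ⟨M, _, hM⟩ := rot_dense v η hη
    obtain ⟨r, hr, hrv⟩ := hM p
    exact ⟨r, hr.1, hball (Metric.mem_ball.mpr hrv)⟩
  mix := tc_mixing tdata rot_dense rot_path
  ze := tc_ze tdata

end CPE48
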