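import Pool.Agent.LibCPE48.A02
import Pool.Agent.LibCPE48.M01
import Pool.Agent.LibCPE48.N08
import Pool.Agent.LibCPE48.G03
import Pool.Agent.LibCPE48.H01
import Pool.Agent.LibCPE48.H02
import Pool.Agent.LibCPE48.H03
import Pool.Agent.LibCPE48.H04
import Pool.Agent.LibCPE48.I01
import Pool.Agent.LibCPE48.I02

/-! TASK I03 (~60 lines).  Assembly: reduction of every analytic set.

`n = m + 5`.  `main_dyn` with `goodFlow_torus`, `goodBase_torus m`, `ar`, `br` gives
`F : C(ℕ → Bool, C(W, W))`; `torus_homeo` gives `h`, `exists_conj` gives `Φ`; `exists_tree` gives `T`.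
Take `G a = Φ (F (sw (T a)))`: Borel measurable as the composition of a continuous map (so
`Continuous.borel_measurable`) with `a ↦ sw (T a)` (the product σ-algebra of `ℕ → Bool` is its Borel
σ-algebra: instance `Pi.borelSpace`, `Pi.opensMeasurableSpace`).
`Mixing`, `CPE`: `mixing_conj`, `cpe_conj` (rewrite `⇑(Φ F) = fun y => h (F (h.symm y))`).
If `a ∉ A`, no branch, `cover` gives `CPE`.  If `a ∈ A`, a branch `β`, `exists_cantor β` and
`collapse_of_cantor` give `¬ CPE`.
-/

namespace CPE48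

open Set Function Filter Topology MeasureTheory

theorem reduction (m : ℕ) {α : Type*} [TopologicalSpace α] [PolishSpace α] [MeasurableSpace α]
    [BorelSpace α] (A : Set α) (hA : AnalyticSet A) :
    ∃ G : α → C(Fin (m + 5) → UnitAddCircle, Fin (m + 5) → UnitAddCircle),
      Measurable[_, borel _] G ∧ (∀ a, Mixing (G a)) ∧ ∀ a, CPE (G a) ↔ a ∉ A := by
  obtain ⟨F, hFm, hFc, hFn⟩ :=
    main_dyn goodFlow_torus (goodBase_torus m) ar br ar_nonneg ar_lt_br arc_len
  obtain ⟨h⟩ := torus_homeo m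
  obtain ⟨Φ, hΦc, hΦ⟩ := exists_conj h
  obtain ⟨T, hTm, hT⟩ := exists_tree A hA
  have hcoe : ∀ e, ⇑(Φ (F e)) = fun y => h (F e (h.symm y)) := fun e => funext (hΦ (F e))
  refine ⟨fun a => Φ (F (sw (T a))), ?_, ?_, ?_⟩
  · have h2 := (hΦc.comp F.continuous).borel_measurable
    rw [← BorelSpace.measurable_eq (α := ℕ → Bool)] at h2
    exact @Measurable.comp α (ℕ → Bool) _ _ MeasurableSpace.pi (borel _) _ _ h2 hTm
  · intro a
    rw [hcoe]
    exact (mixing_conj h _).2 (hFm _)
  · intro a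
    rw [hcoe, cpe_conj h]
    constructor
    · intro hC ha
      obtain ⟨β, hβ⟩ := (hT a).2 ha
      obtain ⟨F', h1, h2, h3, h4, h5⟩ := exists_cantor β
      exact hFn _ (collapse_of_cantor (T a) β hβ F' h1 h4 h2 h3 h5) hC
    · intro ha
      refine hFc _ fun t ht => ?_
      exact cover (T a) (fun hb => ha ((hT a).1 hb)) t ht

end CPE48
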