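import Pool.Agent.LibCPE48.NT

/-! TASK N01.  Number facts. -/

namespace CPE48

open Set Function Filter Topology

theorem qq_pos (k : ℕ) : 0 < qq k := by
  unfold qq; positivity

theorem qq_succ (k : ℕ) : qq (k + 1) = qq k ^ 4 := by
  unfold qq; rw [← pow_mul, pow_succ]

theorem n01_lt_four_pow (k : ℕ) : k + 1 ≤ 4 ^ k := by
  induction k with
  | zero => simp
  | succ n ih => rw [pow_succ]; omega

theorem two_pow_le_qq (k : ℕ) : 2 ^ (k + 1) ≤ qq k := by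
  unfold qq
  exact Nat.pow_le_pow_right (by norm_num) (n01_lt_four_pow k)

theorem n01_two_pow_le (k : ℕ) : (2:ℝ) ^ (k + 1) ≤ (qq k : ℝ) := by
  exact_mod_cast two_pow_le_qq k

theorem n01_qq_pos' (k : ℕ) : (0:ℝ) < (qq k : ℝ) := by
  exact_mod_cast qq_pos k

theorem n01_le (j : ℕ) : 1 / (qq j : ℝ) ≤ (1 / 2 : ℝ) ^ j := by
  have h1 : (2:ℝ) ^ j ≤ (qq j : ℝ) :=
    le_trans (pow_le_pow_right₀ (by norm_num) (Nat.le_succ j)) (n01_two_pow_le j)
  rw [one_div_pow]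
  exact one_div_le_one_div_of_le (by positivity) h1

theorem al_summable : Summable (fun j => 1 / (qq j : ℝ)) := by
  refine Summable.of_nonneg_of_le (fun j => by positivity) n01_le ?_
  exact summable_geometric_of_lt_one (by norm_num) (by norm_num)

theorem n01_pp (k : ℕ) : (pp k : ℝ) = (qq k : ℝ) * ∑ j ∈ Finset.range (k + 1), 1 / (qq j : ℝ) := by
  unfold pp
  rw [Finset.mul_sum]
  push_cast
  refine Finset.sum_congr rfl ?_
  intro j hj
  have hjk : j ≤ k := by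
    have := Finset.mem_range.1 hj; omega
  have h4 : 4 ^ j ≤ 4 ^ k := Nat.pow_le_pow_right (by norm_num) hjk
  have hq : (qq k : ℝ) = (2:ℝ) ^ (4 ^ k - 4 ^ j) * (qq j : ℝ) := by
    unfold qq
    push_cast
    rw [← pow_add]
    congr 1
    omega
  rw [hq]
  have := n01_qq_pos' j
  field_simp

theorem dl_eq (k : ℕ) : dl k = (qq k : ℝ) * ∑' j, 1 / (qq (j + (k + 1)) : ℝ) := by
  unfold dl
  rw [n01_pp, al, ← al_summable.sum_add_tsum_nat_add (k + 1)]
  ring

theorem n01_tail_lo (k : ℕ) :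
    1 / (qq (k + 1) : ℝ) ≤ ∑' j, 1 / (qq (j + (k + 1)) : ℝ) := by
  have hs : Summable (fun j => 1 / (qq (j + (k + 1)) : ℝ)) :=
    (summable_nat_add_iff (f := fun j => 1 / (qq j : ℝ)) (k + 1)).2 al_summable
  have h := hs.le_tsum 0 (fun j _ => by positivity)
  simpa using h

theorem n01_growth (k i : ℕ) : 2 ^ i * qq (k + 1) ≤ qq (i + (k + 1)) := by
  unfold qq
  rw [← pow_add]
  refine Nat.pow_le_pow_right (by norm_num) ?_
  rw [pow_add 4 i (k + 1)]
  have h1 := n01_lt_four_pow i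
  have h2 : 1 ≤ 4 ^ (k + 1) := Nat.one_le_pow _ _ (by norm_num)
  nlinarith

theorem n01_tail_hi (k : ℕ) :
    ∑' j, 1 / (qq (j + (k + 1)) : ℝ) ≤ 2 / (qq (k + 1) : ℝ) := by
  have hs : Summable (fun j => 1 / (qq (j + (k + 1)) : ℝ)) :=
    (summable_nat_add_iff (f := fun j => 1 / (qq j : ℝ)) (k + 1)).2 al_summable
  have hg : Summable (fun j : ℕ => (1 / (qq (k + 1) : ℝ)) * (1 / 2 : ℝ) ^ j) :=
    (summable_geometric_of_lt_one (by norm_num) (by norm_num)).mul_left _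
  have hle : ∀ j : ℕ, 1 / (qq (j + (k + 1)) : ℝ) ≤ (1 / (qq (k + 1) : ℝ)) * (1 / 2 : ℝ) ^ j := by
    intro j
    have h1 : (2:ℝ) ^ j * (qq (k + 1) : ℝ) ≤ (qq (j + (k + 1)) : ℝ) := by
      exact_mod_cast n01_growth k j
    have hp := n01_qq_pos' (k + 1)
    have : (1 / (qq (k + 1) : ℝ)) * (1 / 2 : ℝ) ^ j = 1 / ((2:ℝ) ^ j * (qq (k + 1) : ℝ)) := by
      rw [one_div_pow]
      field_simp
    rw [this]
    exact one_div_le_one_div_of_le (by positivity) h1
  have h := hs.tsum_le_tsum hle hg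
  rw [tsum_mul_left, tsum_geometric_two] at h
  calc ∑' j, 1 / (qq (j + (k + 1)) : ℝ) ≤ 1 / (qq (k + 1) : ℝ) * 2 := h
    _ = 2 / (qq (k + 1) : ℝ) := by ring

theorem dl_lo (k : ℕ) : 1 / (qq k : ℝ) ^ 3 ≤ dl k := by
  rw [dl_eq]
  have hp := n01_qq_pos' k
  have h := mul_le_mul_of_nonneg_left (n01_tail_lo k) hp.le
  refine le_trans (le_of_eq ?_) h
  rw [qq_succ]
  push_cast
  field_simp

theorem dl_hi (k : ℕ) : dl k ≤ 2 / (qq k : ℝ) ^ 3 := by
  rw [dl_eq]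
  have hp := n01_qq_pos' k
  have h := mul_le_mul_of_nonneg_left (n01_tail_hi k) hp.le
  refine le_trans h (le_of_eq ?_)
  rw [qq_succ]
  push_cast
  field_simp

/-- if `k < j` then `q_j / (2 q_k)` is an integer -/
theorem qq_dvd {k j : ℕ} (h : k < j) : 2 * qq k ∣ qq j := by
  unfold qq
  rw [← pow_succ']
  refine pow_dvd_pow 2 ?_
  have h1 : 4 ^ k < 4 ^ j := Nat.pow_lt_pow_right (by norm_num) h
  omega

end CPE48
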