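import Pool.Agent.LibCPE48.N01

namespace CPE48

open Set Function Filter Topology

theorem rot_flow : IsFlow rot := by
  refine ⟨?_, ?_, ?_⟩
  · unfold rot
    have h1 : Continuous fun x : ℝ => (x : UnitAddCircle) := AddCircle.continuous_mk' 1
    refine Continuous.prodMk ?_ ?_
    · exact (continuous_fst.comp continuous_snd).add
        (h1.comp (continuous_const.mul continuous_fst))
    · exact (continuous_snd.comp continuous_snd).add (h1.comp continuous_fst)
  · intro z
    unfold rot
    simp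
  · intro s t z
    unfold rot
    refine Prod.ext ?_ ?_
    · simp only
      rw [mul_add, AddCircle.coe_add]
      abel
    · simp only
      rw [AddCircle.coe_add]
      abel

theorem rot_iso (u : ℝ) (p p' : UnitAddCircle × UnitAddCircle) :
    dist (rot u p) (rot u p') = dist p p' := by
  unfold rot
  rw [Prod.dist_eq, Prod.dist_eq]
  simp only [dist_add_right]

private theorem dl_pos_N02 (k : ℕ) : 0 < dl k := by
  have h := qq_pos k
  have h1 : (0 : ℝ) < (qq k : ℝ) := by exact_mod_cast h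
  exact lt_of_lt_of_le (by positivity) (dl_lo k)

private theorem dl_small_N02 (η : ℝ) (hη : 0 < η) : ∃ k, dl k < η := by
  obtain ⟨m, hm⟩ := exists_nat_gt (2 / η)
  refine ⟨m, ?_⟩
  have h1 : (m : ℝ) ≤ qq m := by
    have h2 : m < 2 ^ (m + 1) := lt_trans (Nat.lt_succ_self m) (Nat.lt_two_pow_self)
    exact_mod_cast (h2.le.trans (two_pow_le_qq m))
  have h3 : (1 : ℝ) ≤ qq m := by exact_mod_cast (qq_pos m)
  have h4 : (qq m : ℝ) ≤ (qq m : ℝ) ^ 3 := by nlinarith [sq_nonneg ((qq m : ℝ) - 1)]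
  have h5 : 2 / η < (qq m : ℝ) ^ 3 := by linarith
  have h6 : (0 : ℝ) < (qq m : ℝ) ^ 3 := by positivity
  refine lt_of_le_of_lt (dl_hi m) ?_
  rw [div_lt_iff₀ hη] at h5
  rw [div_lt_iff₀ h6]
  linarith

theorem rot_free (t : ℝ) (p : UnitAddCircle × UnitAddCircle) (h : rot t p = p) : t = 0 := by
  unfold rot at h
  have h1 := congrArg Prod.fst h
  have h2 := congrArg Prod.snd h
  simp only [add_eq_left] at h1 h2
  rw [AddCircle.coe_eq_zero_iff] at h1 h2
  obtain ⟨m, hm⟩ := h1
  obtain ⟨n, hn⟩ := h2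
  simp only [zsmul_eq_mul, mul_one] at hm hn
  by_contra hne
  have hn0 : n ≠ 0 := by
    rintro rfl
    apply hne
    rw [← hn]; simp
  have hnabs : (1 : ℝ) ≤ |(n : ℝ)| := by
    have : (1 : ℤ) ≤ |n| := Int.one_le_abs hn0
    exact_mod_cast this
  obtain ⟨k, hk⟩ := dl_small_N02 (1 / (|(n : ℝ)| + 1)) (by positivity)
  have hpos := dl_pos_N02 k
  -- dl k * n = q m - P n
  have hid : dl k * n = ((qq k * m - pp k * n : ℤ) : ℝ) := by
    unfold dl
    push_cast
    have : al * n = m := by rw [hn]; exact hm.symm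
    linear_combination (qq k : ℝ) * this
  have hint : (1 : ℝ) ≤ |dl k * n| := by
    have hne' : (qq k * m - pp k * n : ℤ) ≠ 0 := by
      intro h0
      rw [h0] at hid
      simp only [Int.cast_zero, mul_eq_zero, Int.cast_eq_zero] at hid
      rcases hid with h | h
      · exact hpos.ne' h
      · exact hn0 h
    rw [hid]
    have : (1 : ℤ) ≤ |(qq k * m - pp k * n : ℤ)| := Int.one_le_abs hne'
    exact_mod_cast this
  rw [abs_mul, abs_of_pos hpos] at hint
  rw [lt_div_iff₀ (by positivity)] at hk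
  nlinarith

theorem rot_dense (v : UnitAddCircle × UnitAddCircle) (η : ℝ) (hη : 0 < η) :
    ∃ M : ℝ, 0 ≤ M ∧ ∀ p, ∃ r ∈ Icc 0 M, dist (rot r p) v < η := by
  obtain ⟨k, hk⟩ := dl_small_N02 η hη
  have hpos := dl_pos_N02 k
  have hq : (0 : ℝ) < qq k := by exact_mod_cast qq_pos k
  have hrep : ∀ x : UnitAddCircle, ∃ u ∈ Ico (0:ℝ) 1, (u : UnitAddCircle) = x := by
    intro x
    refine ⟨(AddCircle.equivIco 1 0 x : ℝ), ?_, ?_⟩
    · have := (AddCircle.equivIco 1 0 x).2
      simpa using this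
    · exact AddCircle.coe_equivIco
  refine ⟨1 + qq k * (1 / dl k + 1), by positivity, ?_⟩
  intro p
  obtain ⟨u, hu, hu'⟩ := hrep (v.2 - p.2)
  obtain ⟨d, hd, hd'⟩ := hrep (v.1 - (rot u p).1)
  set n := ⌊d / dl k⌋₊ with hndef
  have hn1 : (n : ℝ) ≤ d / dl k := Nat.floor_le (div_nonneg hd.1 hpos.le)
  have hn2 : d / dl k < n + 1 := Nat.lt_floor_add_one _
  rw [le_div_iff₀ hpos] at hn1
  rw [div_lt_iff₀ hpos] at hn2
  refine ⟨u + n * qq k, ⟨by have := hu.1; positivity, ?_⟩, ?_⟩
  · have h1 : (n : ℝ) ≤ 1 / dl k + 1 := by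
      have h2 : (n : ℝ) ≤ 1 / dl k := by
        rw [le_div_iff₀ hpos]
        linarith [hd.2]
      linarith
    have h3 : (n : ℝ) * qq k ≤ qq k * (1 / dl k + 1) := by
      rw [mul_comm]
      exact mul_le_mul_of_nonneg_left h1 hq.le
    linarith [hu.2]
  · have hsnd : (rot (u + n * qq k) p).2 = v.2 := by
      unfold rot
      simp only
      rw [AddCircle.coe_add, hu']
      have : ((n * qq k : ℝ) : UnitAddCircle) = 0 := by
        rw [AddCircle.coe_eq_zero_iff]
        refine ⟨(n * qq k : ℕ), ?_⟩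
        push_cast
        simp
      rw [this]
      abel
    have hfst : (rot (u + n * qq k) p).1 = (rot u p).1 + ((n * dl k : ℝ) : UnitAddCircle) := by
      unfold rot
      simp only
      have h1 : al * (u + n * qq k) = al * u + (n * dl k + ((n * pp k : ℕ) : ℝ)) := by
        unfold dl
        push_cast
        ring
      rw [h1, AddCircle.coe_add, AddCircle.coe_add]
      have : ((((n * pp k : ℕ) : ℝ)) : UnitAddCircle) = 0 := by
        rw [AddCircle.coe_eq_zero_iff]
        refine ⟨(n * pp k : ℕ), ?_⟩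
        simp
      rw [this]
      abel
    rw [Prod.dist_eq, hsnd, dist_self, hfst]
    have h2 : v.1 = (rot u p).1 + (d : UnitAddCircle) := by
      rw [hd']; abel
    rw [h2, dist_add_left]
    have h3 : dist ((n * dl k : ℝ) : UnitAddCircle) (d : UnitAddCircle) ≤ |n * dl k - d| := by
      rw [dist_eq_norm, ← AddCircle.coe_sub]
      exact QuotientAddGroup.norm_mk_le_norm (S := AddSubgroup.zmultiples (1:ℝ)) (m := (n * dl k - d : ℝ))
    have h4 : |n * dl k - d| < η := by
      rw [abs_lt]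
      constructor <;> nlinarith
    exact max_lt (lt_of_le_of_lt h3 h4) hη

end CPE48
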