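import Pool.Agent.LibCPE48.N01

/-! TASK N03 (~90 lines).  The speed function. -/

namespace CPE48

open Set Function Filter Topology

theorem am_nonneg (k : ℕ) : 0 ≤ am k := by
  cases k with
  | zero => simp [am]
  | succ k => simp only [am]; positivity

theorem n03_am_le (k : ℕ) : am (k + 1) ≤ (1 / 4 : ℝ) * (1 / 4 : ℝ) ^ k := by
  have h1 : ((2 : ℝ) ^ (k + 1)) ≤ (qq k : ℝ) := by exact_mod_cast two_pow_le_qq k
  have h2 : ((k : ℝ) + 1) ≤ (2 : ℝ) ^ (k + 1) := by
    have : k + 1 ≤ 2 ^ (k + 1) := (Nat.lt_two_pow_self).le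
    exact_mod_cast this
  have h3 : (0 : ℝ) < (2 : ℝ) ^ (k + 1) := by positivity
  have h4 : ((2 : ℝ) ^ (k + 1)) ^ 3 ≤ (qq k : ℝ) ^ 3 := pow_le_pow_left₀ h3.le h1 3
  have h5 : (1 / 4 : ℝ) * (1 / 4 : ℝ) ^ k = (2 : ℝ) ^ (k + 1) / ((2 : ℝ) ^ (k + 1)) ^ 3 := by
    rw [← pow_succ', div_pow, one_pow, eq_div_iff (by positivity)]
    rw [show (4 : ℝ) = 2 ^ 2 by norm_num, ← pow_mul]
    field_simp
    ring
  rw [h5]
  simp only [am]
  have h6 : (0 : ℝ) < (qq k : ℝ) ^ 3 := lt_of_lt_of_le (by positivity) h4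
  exact div_le_div₀ h3.le (by linarith) (by positivity) h4

theorem n03_geo : Summable (fun k : ℕ => (1 / 4 : ℝ) * (1 / 4 : ℝ) ^ k) :=
  (summable_geometric_of_lt_one (by norm_num) (by norm_num)).mul_left _

theorem am_summable : Summable am := by
  rw [← summable_nat_add_iff 1]
  exact Summable.of_nonneg_of_le (fun k => am_nonneg _) n03_am_le n03_geo

theorem am_sum : ∑' k, am k ≤ 1 / 2 := by
  rw [am_summable.tsum_eq_zero_add]
  have h0 : am 0 = 0 := rfl
  rw [h0, zero_add]
  have h1 : Summable (fun k => am (k + 1)) := (summable_nat_add_iff 1).2 am_summable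
  have h2 : ∑' k, am (k + 1) ≤ ∑' k : ℕ, (1 / 4 : ℝ) * (1 / 4 : ℝ) ^ k :=
    h1.tsum_le_tsum n03_am_le n03_geo
  rw [tsum_mul_left, tsum_geometric_of_lt_one (by norm_num) (by norm_num)] at h2
  norm_num at h2
  linarith

theorem cs_continuous : Continuous cs := by
  unfold cs
  exact Complex.continuous_re.comp (fourier 1).continuous

theorem cs_abs (x : UnitAddCircle) : |cs x| ≤ 1 := by
  unfold cs
  refine (Complex.abs_re_le_norm _).trans ?_
  rw [fourier_apply]
  simp

theorem cs_coe (t : ℝ) : cs (t : UnitAddCircle) = Real.cos (2 * Real.pi * t) := by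
  unfold cs
  rw [fourier_coe_apply]
  have h : (2 * (Real.pi : ℂ) * Complex.I * ((1 : ℤ) : ℂ) * (t : ℂ) / ((1 : ℝ) : ℂ)) =
      ((2 * Real.pi * t : ℝ) : ℂ) * Complex.I := by
    push_cast
    ring
  rw [h, Complex.exp_ofReal_mul_I_re]

theorem n03_bd (k : ℕ) (x : UnitAddCircle) : ‖am k * cs x‖ ≤ am k := by
  rw [norm_mul, Real.norm_eq_abs, Real.norm_eq_abs, abs_of_nonneg (am_nonneg k)]
  have := cs_abs x
  nlinarith [am_nonneg k]

theorem fn_summable (p : UnitAddCircle × UnitAddCircle) :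
    Summable (fun k => am k * cs (qq k • p.1 - pp k • p.2)) :=
  Summable.of_norm_bounded am_summable (fun k => n03_bd k _)

theorem fn_continuous : Continuous fn := by
  unfold fn
  refine continuous_const.add ?_
  refine continuous_tsum (fun k => ?_) am_summable (fun k p => n03_bd k _)
  refine continuous_const.mul (cs_continuous.comp ?_)
  exact (continuous_fst.nsmul _).sub (continuous_snd.nsmul _)

theorem n03_abs (p : UnitAddCircle × UnitAddCircle) :
    |∑' k, am k * cs (qq k • p.1 - pp k • p.2)| ≤ 1 / 2 := by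
  have h1 := norm_tsum_le_tsum_norm (fn_summable p).norm
  have h2 : ∑' k, ‖am k * cs (qq k • p.1 - pp k • p.2)‖ ≤ ∑' k, am k :=
    (fn_summable p).norm.tsum_le_tsum (fun k => n03_bd k _) am_summable
  rw [Real.norm_eq_abs] at h1
  exact h1.trans (h2.trans am_sum)

theorem fn_lo (p : UnitAddCircle × UnitAddCircle) : 1 / 2 ≤ fn p := by
  have h := abs_le.1 (n03_abs p)
  unfold fn
  linarith [h.1]

theorem fn_hi (p : UnitAddCircle × UnitAddCircle) : fn p ≤ 3 / 2 := by
  have h := abs_le.1 (n03_abs p)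
  unfold fn
  linarith [h.2]

end CPE48
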