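import Pool.Agent.LibCPE48.N03

/-! TASK N04 (~70 lines).  The speed function along the linear flow, in coordinates. -/

namespace CPE48

open Set Function Filter Topology

theorem n04_arg (x t u : ℝ) (k : ℕ) :
    (qq k • ((x : UnitAddCircle) + ((al * u : ℝ) : UnitAddCircle)) -
      pp k • ((t : UnitAddCircle) + ((u : ℝ) : UnitAddCircle))) =
      ((qq k * x - pp k * t + dl k * u : ℝ) : UnitAddCircle) := by
  rw [← AddCircle.coe_add, ← AddCircle.coe_add, ← AddCircle.coe_nsmul, ← AddCircle.coe_nsmul,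
    ← AddCircle.coe_sub]
  congr 1
  simp only [nsmul_eq_mul, dl]
  ring

theorem fn_rot (x t u : ℝ) :
    fn (rot u ((x : UnitAddCircle), (t : UnitAddCircle))) =
      1 + ∑' k, am k * Real.cos (2 * Real.pi * (qq k * x - pp k * t + dl k * u)) := by
  unfold fn rot
  simp only
  congr 1
  refine tsum_congr (fun k => ?_)
  rw [n04_arg, cs_coe]

theorem n04_am (k : ℕ) : am (k + 1) * qq (k + 1) = (k + 1) * qq k := by
  have h : (0 : ℝ) < (qq k : ℝ) := by exact_mod_cast qq_pos k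
  rw [qq_succ]
  simp only [am]
  push_cast
  field_simp

theorem n04_step (k : ℕ) :
    (1 + 4 * Real.pi) * ((k + 1) * qq k) ≤ ((k : ℝ) + 2) * qq (k + 1) := by
  have hpi : Real.pi < 3.15 := Real.pi_lt_d2
  have h : (0 : ℝ) < (qq k : ℝ) := by exact_mod_cast qq_pos k
  have hk : (0 : ℝ) ≤ k := Nat.cast_nonneg k
  have h1 : (qq (k + 1) : ℝ) = (qq k : ℝ) ^ 3 * qq k := by
    rw [qq_succ]
    push_cast
    ring
  rw [h1]
  have h2 : ((2 : ℝ) ^ (k + 1)) ≤ (qq k : ℝ) := by exact_mod_cast two_pow_le_qq k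
  have h3 : (1 + 4 * Real.pi) * (k + 1) ≤ ((k : ℝ) + 2) * (qq k : ℝ) ^ 3 := by
    rcases Nat.eq_zero_or_pos k with rfl | hk1
    · have h5 : (2 : ℝ) ≤ (qq 0 : ℝ) := by simpa using h2
      have h4 : (8 : ℝ) ≤ (qq 0 : ℝ) ^ 3 := by
        calc (8 : ℝ) = 2 ^ 3 := by norm_num
          _ ≤ _ := pow_le_pow_left₀ (by norm_num) h5 3
      push_cast
      nlinarith
    · have h5 : (4 : ℝ) ≤ (qq k : ℝ) := by
        refine le_trans ?_ h2
        calc (4 : ℝ) = 2 ^ 2 := by norm_num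
          _ ≤ 2 ^ (k + 1) := pow_le_pow_right₀ (by norm_num) (by omega)
      have h4 : (64 : ℝ) ≤ (qq k : ℝ) ^ 3 := by
        calc (64 : ℝ) = 4 ^ 3 := by norm_num
          _ ≤ _ := pow_le_pow_left₀ (by norm_num) h5 3
      nlinarith
  calc (1 + 4 * Real.pi) * ((k + 1) * qq k) = ((1 + 4 * Real.pi) * (k + 1)) * qq k := by ring
    _ ≤ (((k : ℝ) + 2) * (qq k : ℝ) ^ 3) * qq k := mul_le_mul_of_nonneg_right h3 h.le
    _ = _ := by ring

theorem low_sum (k : ℕ) :
    4 * Real.pi * ∑ j ∈ Finset.range (k + 1), am j * qq j ≤ (k + 1) * qq k := by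
  induction k with
  | zero =>
    simp [am]
  | succ k ih =>
    rw [Finset.sum_range_succ, n04_am]
    have h := n04_step k
    push_cast
    nlinarith

end CPE48
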