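import Pool.Agent.LibCPE48.N04

/-! TASK N05 (~110 lines).  The key pointwise estimate.  Use N01, N03, N04 (already stated).

Let `k ≥ 0` and put `K = k + 1`, `q_K x - P_K t = N ∈ ℤ`.  Compare
`p₊ = (x, t)` with `p₋ = (x - 1/(2 q_K), t)` at time `u` with `0 ≤ u`, `8 dl K u ≤ 1`:
`fn (rot u p₊) - fn (rot u p₋) = ∑' j, am j * (cos (2π A_j) - cos (2π (A_j - q_j/(2 q_K))))`, with
`A_j = q_j x - P_j t + dl j u`.
* `j > K`: `q_j / (2 q_K)` is a natural number (`qq_dvd`), so the term is `0`
  (`Real.cos_sub_int_mul_two_pi` or `cos_sub_nat_mul_two_pi`).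
* `j = K`: `A_K = N + dl K u`, `0 ≤ 2π dl K u ≤ π/4`; `cos (2π (A_K - 1/2)) = -cos (2π A_K)`; the term is
  `2 am K cos (2π dl K u) ≥ am K` (`cos ≥ 1/2` on `[0, π/4]`, e.g. `Real.cos_le_cos_of_nonneg_of_le_pi`
  and `Real.cos_pi_div_three`).
* `j < K`: `|cos a - cos b| ≤ |a - b|` (`Real.abs_cos_sub_cos_le`? otherwise from
  `Real.cos_sub_cos` and `|sin x| ≤ |x|`), so the term is `≥ - am j π q_j / q_K`; the sum over
  `j < K` is `≥ - (π / q_K) ∑_{j<K} am j q_j ≥ - (k+1) q_k / (4 q_K) = - am K / 4` by `low_sum`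
  (`am K = (k+1)/q_k^3`, `q_K = q_k^4`).
Total `≥ (3/4) am K ≥ am K / 2`.  Split the `tsum`: `Summable.sum_add_tsum_nat_add (K+1)`.
-/

namespace CPE48

open Set Function Filter Topology

theorem n05_summable (A : ℕ → ℝ) : Summable (fun j => am j * Real.cos (A j)) := by
  apply Summable.of_norm_bounded am_summable
  intro j
  rw [Real.norm_eq_abs, abs_mul, abs_of_nonneg (am_nonneg j)]
  exact mul_le_of_le_one_right (am_nonneg j) (Real.abs_cos_le_one _)

theorem fn_gap (k : ℕ) (x t : ℝ) (N : ℤ) (hN : (qq (k + 1) : ℝ) * x - pp (k + 1) * t = N)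
    (u : ℝ) (hu : 0 ≤ u) (hu' : 8 * dl (k + 1) * u ≤ 1) :
    am (k + 1) / 2 ≤ fn (rot u ((x : UnitAddCircle), (t : UnitAddCircle))) -
      fn (rot u (((x - 1 / (2 * qq (k + 1)) : ℝ) : UnitAddCircle), (t : UnitAddCircle))) := by
  have hq : (0 : ℝ) < qq (k + 1) := by exact_mod_cast qq_pos (k + 1)
  have hq0 : (0 : ℝ) < qq k := by exact_mod_cast qq_pos k
  have hqs : (qq (k + 1) : ℝ) = (qq k : ℝ) ^ 4 := by rw [qq_succ]; push_cast; ring
  have hpi := Real.pi_pos
  have hdl : 0 < dl (k + 1) := lt_of_lt_of_le (by positivity) (dl_lo (k + 1))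
  have hamK : am (k + 1) = (k + 1 : ℝ) / (qq k : ℝ) ^ 3 := rfl
  rw [fn_rot, fn_rot]
  have hs1 := n05_summable (fun j => 2 * Real.pi * (qq j * x - pp j * t + dl j * u))
  have hs2 := n05_summable (fun j => 2 * Real.pi *
    (qq j * (x - 1 / (2 * qq (k + 1))) - pp j * t + dl j * u))
  have e1 : ∀ a b : ℝ, (1 + a) - (1 + b) = a - b := fun a b => by ring
  rw [e1, ← hs1.tsum_sub hs2]
  rw [tsum_eq_sum (s := Finset.range (k + 1 + 1))]
  · rw [Finset.sum_range_succ]
    have hK : am (k + 1) ≤ am (k + 1) * Real.cos (2 * Real.pi *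
        (qq (k + 1) * x - pp (k + 1) * t + dl (k + 1) * u)) -
        am (k + 1) * Real.cos (2 * Real.pi * (qq (k + 1) * (x - 1 / (2 * qq (k + 1))) -
          pp (k + 1) * t + dl (k + 1) * u)) := by
      have h1 : 2 * Real.pi * (qq (k + 1) * x - pp (k + 1) * t + dl (k + 1) * u) =
          2 * Real.pi * (dl (k + 1) * u) + N * (2 * Real.pi) := by
        rw [hN]; ring
      have h2 : 2 * Real.pi * (qq (k + 1) * (x - 1 / (2 * qq (k + 1))) -
          pp (k + 1) * t + dl (k + 1) * u) =
          2 * Real.pi * (dl (k + 1) * u) - Real.pi + N * (2 * Real.pi) := by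
        have : (qq (k + 1) : ℝ) * (x - 1 / (2 * qq (k + 1))) - pp (k + 1) * t =
            (qq (k + 1) : ℝ) * x - pp (k + 1) * t - 1 / 2 := by
          field_simp
          ring
        rw [this, hN]; ring
      rw [h1, h2, Real.cos_add_int_mul_two_pi, Real.cos_add_int_mul_two_pi, Real.cos_sub_pi]
      have hc : 1 / 2 ≤ Real.cos (2 * Real.pi * (dl (k + 1) * u)) := by
        rw [← Real.cos_pi_div_three]
        apply Real.cos_le_cos_of_nonneg_of_le_pi
        · positivity
        · linarith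
        · nlinarith [mul_nonneg hdl.le hu]
      nlinarith [am_nonneg (k + 1)]
    have hlow : -(am (k + 1) / 4) ≤ ∑ j ∈ Finset.range (k + 1),
        (am j * Real.cos (2 * Real.pi * (qq j * x - pp j * t + dl j * u)) -
        am j * Real.cos (2 * Real.pi * (qq j * (x - 1 / (2 * qq (k + 1))) -
          pp j * t + dl j * u))) := by
      have h1 : ∀ j ∈ Finset.range (k + 1), -(Real.pi / qq (k + 1) * (am j * qq j)) ≤
          am j * Real.cos (2 * Real.pi * (qq j * x - pp j * t + dl j * u)) -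
          am j * Real.cos (2 * Real.pi * (qq j * (x - 1 / (2 * qq (k + 1))) -
          pp j * t + dl j * u)) := by
        intro j _
        have h2 := Real.abs_cos_sub_cos_le (2 * Real.pi * (qq j * x - pp j * t + dl j * u))
          (2 * Real.pi * (qq j * (x - 1 / (2 * qq (k + 1))) - pp j * t + dl j * u))
        have h3 : 2 * Real.pi * (qq j * x - pp j * t + dl j * u) -
            2 * Real.pi * (qq j * (x - 1 / (2 * qq (k + 1))) - pp j * t + dl j * u) =
            Real.pi / qq (k + 1) * qq j := by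
          field_simp
          ring
        have h4 : 0 ≤ Real.pi / qq (k + 1) * qq j := by positivity
        rw [h3, abs_of_nonneg h4] at h2
        have h5 := (abs_le.1 h2).1
        rw [← mul_sub]
        calc -(Real.pi / qq (k + 1) * (am j * qq j)) = am j * (-(Real.pi / qq (k + 1) * qq j)) := by
              ring
          _ ≤ _ := mul_le_mul_of_nonneg_left h5 (am_nonneg j)
      refine le_trans ?_ (Finset.sum_le_sum h1)
      rw [Finset.sum_neg_distrib, ← Finset.mul_sum]
      apply neg_le_neg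
      have h6 := low_sum k
      rw [hamK, hqs]
      have h7 : Real.pi / (qq k : ℝ) ^ 4 * ∑ i ∈ Finset.range (k + 1), am i * qq i =
          (4 * Real.pi * ∑ j ∈ Finset.range (k + 1), am j * qq j) / (4 * (qq k : ℝ) ^ 4) := by
        field_simp
      rw [h7, div_le_iff₀ (by positivity)]
      have h8 : ((k : ℝ) + 1) / (qq k : ℝ) ^ 3 / 4 * (4 * (qq k : ℝ) ^ 4) =
          ((k : ℝ) + 1) * qq k := by
        field_simp
      rw [h8]
      exact h6
    have := am_nonneg (k + 1)
    linarith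
  · intro j hj
    rw [Finset.mem_range, not_lt] at hj
    obtain ⟨c, hc⟩ := qq_dvd (show k + 1 < j by omega)
    have h1 : 2 * Real.pi * (qq j * (x - 1 / (2 * qq (k + 1))) - pp j * t + dl j * u) =
        2 * Real.pi * (qq j * x - pp j * t + dl j * u) - c * (2 * Real.pi) := by
      have h2 : (qq j : ℝ) = 2 * qq (k + 1) * c := by exact_mod_cast hc
      have h3 : (qq j : ℝ) * (1 / (2 * qq (k + 1))) = c := by
        rw [h2]
        field_simp
      linear_combination (-(2 * Real.pi)) * h3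
    rw [h1, Real.cos_sub_nat_mul_two_pi, sub_self]

end CPE48
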