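import Pool.Agent.LibCPE48.N02
import Pool.Agent.LibCPE48.N03
import Pool.Agent.LibCPE48.N05
import Pool.Agent.LibCPE48.F02

/-! TASK N06 (~90 lines).  Three lemmas for the path hypothesis of the mixing criterion.  Use the imported
statements.

* `tdata`: `TData rot fn` from N02, N03.
* `tm_gap`: integrate `fn_gap` over `[0, r]` (`intervalIntegral.integral_mono_on`,
  `integral_sub`): `tm p₊ r - tm p₋ r ≥ am K r / 2`.
* `choose_k`: given `M ≥ 0` and `K₀` there is `T₀` such that for all `T ≥ T₀` there is `k ≥ K₀` with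
  `2 T + M ≤ qq (k+1)^3 / 16` and `9/2 * M * qq k ^ 3 ≤ (k+1) * T`.  Proof: let `m` be least with
  `2T + M ≤ qq m ^3 / 16` (exists: `two_pow_le_qq`), `T₀ = max M (qq K₁)^3 + 1` with
  `K₁ ≥ K₀ + 1`, `K₁ ≥ 216 M + 1`; then `m > K₁` as `2T > qq K₁ ^3 / 16` (monotonicity of `qq`),
  `m = k + 1`, and by minimality `qq k ^3 / 16 < 2T + M ≤ 3T`, so `qq k ^3 < 48 T` and
  `9/2 M qq k^3 ≤ 216 M T ≤ (k+1) T`.
-/

namespace CPE48

open Set Function Filter Topology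

theorem tdata : TData rot fn :=
  ⟨rot_flow, rot_iso, fn_continuous, fn_lo, fn_hi⟩

theorem n06_cont (p : UnitAddCircle × UnitAddCircle) : Continuous (fun u : ℝ => fn (rot u p)) :=
  fn_continuous.comp (rot_flow.cont.comp (continuous_id.prodMk continuous_const))

theorem tm_gap (k : ℕ) (x t : ℝ) (N : ℤ) (hN : (qq (k + 1) : ℝ) * x - pp (k + 1) * t = N)
    (r : ℝ) (hr : 0 ≤ r) (hr' : 8 * dl (k + 1) * r ≤ 1) :
    am (k + 1) * r / 2 ≤ tm rot fn ((x : UnitAddCircle), (t : UnitAddCircle)) r -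
      tm rot fn (((x - 1 / (2 * qq (k + 1)) : ℝ) : UnitAddCircle), (t : UnitAddCircle)) r := by
  unfold tm
  rw [← intervalIntegral.integral_sub ((n06_cont _).intervalIntegrable _ _)
    ((n06_cont _).intervalIntegrable _ _)]
  have hd : 0 ≤ dl (k + 1) := by
    have h1 : (0 : ℝ) < qq (k + 1) := by exact_mod_cast qq_pos (k + 1)
    exact le_trans (by positivity) (dl_lo (k + 1))
  have h1 : ∫ _ in (0:ℝ)..r, am (k + 1) / 2 = am (k + 1) * r / 2 := by
    rw [intervalIntegral.integral_const]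
    simp only [sub_zero, smul_eq_mul]
    ring
  rw [← h1]
  refine intervalIntegral.integral_mono_on hr (by simp)
    (((n06_cont _).sub (n06_cont _)).intervalIntegrable _ _) fun u hu => ?_
  refine fn_gap k x t N hN u hu.1 (le_trans ?_ hr')
  have := hu.2
  gcongr

theorem choose_k (M : ℝ) (hM : 0 ≤ M) (K₀ : ℕ) : ∃ T₀ : ℝ, 0 ≤ T₀ ∧ ∀ T : ℝ, T₀ ≤ T →
    ∃ k : ℕ, K₀ ≤ k ∧ 2 * T + M ≤ (qq (k + 1) : ℝ) ^ 3 / 16 ∧
      9 / 2 * M * (qq k : ℝ) ^ 3 ≤ (k + 1) * T := by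
  have hq : ∀ k, (1 : ℝ) ≤ qq k := fun k => by exact_mod_cast qq_pos k
  have hmono : Monotone (fun k => (qq k : ℝ) ^ 3) := by
    apply monotone_nat_of_le_succ
    intro k
    rw [qq_succ]
    push_cast
    have h1 : (qq k : ℝ) ≤ (qq k : ℝ) ^ 4 := by
      calc (qq k : ℝ) = (qq k : ℝ) ^ 1 := (pow_one _).symm
        _ ≤ (qq k : ℝ) ^ 4 := pow_le_pow_right₀ (hq k) (by norm_num)
    have h0 := hq k
    exact pow_le_pow_left₀ (by linarith) h1 3
  obtain ⟨K₁, hK₁⟩ := exists_nat_ge (max ((K₀ : ℝ) + 1) (216 * M + 1))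
  have hK1a : (K₀ : ℝ) + 1 ≤ K₁ := (le_max_left _ _).trans hK₁
  have hK1b : 216 * M + 1 ≤ K₁ := (le_max_right _ _).trans hK₁
  refine ⟨max M ((qq K₁ : ℝ) ^ 3) + 1, by positivity, fun T hT => ?_⟩
  have hTM : M ≤ T := by have := le_max_left M ((qq K₁ : ℝ) ^ 3); linarith
  have hTq : (qq K₁ : ℝ) ^ 3 < T := by have := le_max_right M ((qq K₁ : ℝ) ^ 3); linarith
  have hT0 : 0 ≤ T := hM.trans hTM
  have hex : ∃ m : ℕ, 2 * T + M ≤ (qq m : ℝ) ^ 3 / 16 := by
    obtain ⟨m, hm⟩ := exists_nat_ge (16 * (2 * T + M))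
    refine ⟨m, ?_⟩
    have h1 : (m : ℝ) ≤ qq m := by
      have : m ≤ qq m := by
        have h2 := two_pow_le_qq m
        have h3 : m + 1 < 2 ^ (m + 1) := Nat.lt_two_pow_self
        omega
      exact_mod_cast this
    have h2 : (qq m : ℝ) ≤ (qq m : ℝ) ^ 3 := by
      calc (qq m : ℝ) = (qq m : ℝ) ^ 1 := (pow_one _).symm
        _ ≤ (qq m : ℝ) ^ 3 := pow_le_pow_right₀ (hq m) (by norm_num)
    linarith
  classical
  set m := Nat.find hex with hm
  have hmspec : 2 * T + M ≤ (qq m : ℝ) ^ 3 / 16 := Nat.find_spec hex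
  have hmK : K₁ < m := by
    by_contra hc
    push Not at hc
    have h1 := hmono hc
    simp only at h1
    have h2 : (0 : ℝ) ≤ (qq K₁ : ℝ) ^ 3 := by positivity
    linarith
  obtain ⟨k, hk⟩ : ∃ k, m = k + 1 := ⟨m - 1, by omega⟩
  have hkspec : ¬ (2 * T + M ≤ (qq k : ℝ) ^ 3 / 16) := Nat.find_min hex (by omega)
  push Not at hkspec
  have hkK : (K₁ : ℝ) ≤ k := by
    have : K₁ ≤ k := by omega
    exact_mod_cast this
  refine ⟨k, ?_, ?_, ?_⟩
  · have : (K₀ : ℝ) ≤ k := by linarith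
    exact_mod_cast this
  · rw [← hk]; exact hmspec
  · have h3 : (qq k : ℝ) ^ 3 ≤ 48 * T := by linarith
    calc 9 / 2 * M * (qq k : ℝ) ^ 3 ≤ 9 / 2 * M * (48 * T) := by gcongr
      _ = 216 * M * T := by ring
      _ ≤ (k + 1) * T := by
        gcongr
        linarith

end CPE48
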