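import Pool.Agent.LibCPE48.N06

/-! TASK N07.  The path hypothesis of the mixing criterion. -/

namespace CPE48

open Set Function Filter Topology

theorem n07_dist (a b : ℝ) : dist (a : UnitAddCircle) (b : UnitAddCircle) ≤ |a - b| := by
  rw [dist_eq_norm, ← AddCircle.coe_sub]
  exact QuotientAddGroup.norm_mk_le_norm

theorem rot_path (p₀ : UnitAddCircle × UnitAddCircle) (η : ℝ) (hη : 0 < η) (M : ℝ)
    (hM : 0 ≤ M) : ∃ T₀ : ℝ, ∀ T : ℝ, T₀ ≤ T →
      ∃ γ : ℝ → UnitAddCircle × UnitAddCircle, Continuous γ ∧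
        (∀ l ∈ Icc (0:ℝ) 1, dist (γ l) p₀ < η) ∧
        (∀ l ∈ Icc (0:ℝ) 1, dist (γ l) (γ 0) < η) ∧
        ∀ r ∈ Icc (iv rot fn (γ 1) T) (iv rot fn (γ 1) T + M), tm rot fn (γ 0) r ≤ T := by
  obtain ⟨x₀, hx₀⟩ := QuotientAddGroup.mk_surjective p₀.1
  obtain ⟨t₀, ht₀⟩ := QuotientAddGroup.mk_surjective p₀.2
  have hp₀ : p₀ = ((x₀ : UnitAddCircle), (t₀ : UnitAddCircle)) :=
    Prod.ext hx₀.symm ht₀.symm
  obtain ⟨K₀, hK₀⟩ := exists_pow_lt_of_lt_one hη (show (1 / 2 : ℝ) < 1 by norm_num)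
  obtain ⟨T₀, hT₀, hch⟩ := choose_k M hM K₀
  refine ⟨T₀, fun T hT => ?_⟩
  obtain ⟨k, hk, h1, h2⟩ := hch T hT
  have hTpos : 0 ≤ T := hT₀.trans hT
  have hq : (0:ℝ) < (qq (k + 1) : ℝ) := by exact_mod_cast qq_pos (k + 1)
  have hqk : (0:ℝ) < (qq k : ℝ) := by exact_mod_cast qq_pos k
  have hqη : 1 / (qq (k + 1) : ℝ) < η := by
    refine lt_of_le_of_lt ?_ hK₀
    rw [one_div_pow]
    refine one_div_le_one_div_of_le (by positivity) ?_
    have h3 : (2:ℝ) ^ (k + 1 + 1) ≤ (qq (k + 1) : ℝ) := by exact_mod_cast two_pow_le_qq (k + 1)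
    refine le_trans (pow_le_pow_right₀ (by norm_num) ?_) h3
    omega
  set q : ℝ := (qq (k + 1) : ℝ) with hqdef
  set P : ℝ := (pp (k + 1) : ℝ) with hPdef
  let N : ℤ := ⌈q * x₀ - P * t₀⌉
  let x : ℝ := ((N : ℝ) + P * t₀) / q
  have hxN : q * x - P * t₀ = N := by
    simp only [x]; field_simp; ring
  have hN1 : q * x₀ - P * t₀ ≤ N := Int.le_ceil _
  have hN2 : (N : ℝ) < q * x₀ - P * t₀ + 1 := Int.ceil_lt_add_one _
  have hx1 : x₀ ≤ x := by
    have : q * x₀ ≤ q * x := by linarith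
    exact le_of_mul_le_mul_left this hq
  have hx2 : x ≤ x₀ + 1 / q := by
    have : q * x ≤ q * (x₀ + 1 / q) := by
      have e : q * (x₀ + 1 / q) = q * x₀ + 1 := by field_simp
      rw [e]; linarith
    exact le_of_mul_le_mul_left this hq
  have h2q : 0 < 1 / (2 * q) := by positivity
  have h2q' : 1 / (2 * q) ≤ 1 / q := by
    apply one_div_le_one_div_of_le hq; linarith
  let γ : ℝ → UnitAddCircle × UnitAddCircle :=
    fun l => (((x - (1 - l) * (1 / (2 * q)) : ℝ) : UnitAddCircle), (t₀ : UnitAddCircle))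
  have hγ1 : γ 1 = ((x : UnitAddCircle), (t₀ : UnitAddCircle)) := by
    simp [γ]
  have hγ0 : γ 0 = (((x - 1 / (2 * q) : ℝ) : UnitAddCircle), (t₀ : UnitAddCircle)) := by
    simp only [γ]
    congr 2
    ring
  refine ⟨γ, ?_, ?_, ?_, ?_⟩
  · exact ((AddCircle.continuous_mk' (1:ℝ)).comp (by fun_prop)).prodMk continuous_const
  · intro l hl
    rw [hp₀]
    change dist ((((x - (1 - l) * (1 / (2 * q)) : ℝ) : UnitAddCircle), (t₀ : UnitAddCircle)) :
      UnitAddCircle × UnitAddCircle) ((x₀ : UnitAddCircle), (t₀ : UnitAddCircle)) < η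
    rw [Prod.dist_eq]
    simp only [dist_self]
    refine max_lt ?_ hη
    refine lt_of_le_of_lt (n07_dist _ _) (lt_of_le_of_lt ?_ hqη)
    have h01 : 0 ≤ (1 - l) * (1 / (2 * q)) := mul_nonneg (by linarith [hl.2]) h2q.le
    have h02 : (1 - l) * (1 / (2 * q)) ≤ 1 / (2 * q) := by nlinarith [hl.1]
    rw [abs_le]
    constructor <;> linarith
  · intro l hl
    rw [hγ0]
    change dist ((((x - (1 - l) * (1 / (2 * q)) : ℝ) : UnitAddCircle), (t₀ : UnitAddCircle)) :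
      UnitAddCircle × UnitAddCircle) (((x - 1 / (2 * q) : ℝ) : UnitAddCircle), (t₀ : UnitAddCircle)) < η
    rw [Prod.dist_eq]
    simp only [dist_self]
    refine max_lt ?_ hη
    refine lt_of_le_of_lt (n07_dist _ _) (lt_of_le_of_lt ?_ hqη)
    have h01 : 0 ≤ (1 - l) * (1 / (2 * q)) := mul_nonneg (by linarith [hl.2]) h2q.le
    have h02 : (1 - l) * (1 / (2 * q)) ≤ 1 / (2 * q) := by nlinarith [hl.1]
    rw [abs_le]
    constructor <;> linarith
  · intro r hr
    set rp : ℝ := iv rot fn (γ 1) T with hrp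
    have htm : tm rot fn (γ 1) rp = T := tm_iv tdata (γ 1) T
    have htm0 : tm rot fn (γ 1) 0 = 0 := tm_zero (γ 1)
    have hrp0 : 0 ≤ rp := by
      by_contra hneg
      push Not at hneg
      have := tm_ge tdata (γ 1) hneg.le
      rw [htm, htm0] at this
      linarith
    have hrp1 : rp ≤ 2 * T := by
      have := tm_ge tdata (γ 1) hrp0
      rw [htm, htm0] at this
      linarith
    have hrp2 : T ≤ 3 / 2 * rp := by
      have := tm_le tdata (γ 1) hrp0
      rw [htm, htm0] at this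
      linarith
    have hr0 : 0 ≤ r := hrp0.trans hr.1
    have hrhi : r ≤ q ^ 3 / 16 := by linarith [hr.2]
    have hdl : 8 * dl (k + 1) * r ≤ 1 := by
      have h3 := dl_hi (k + 1)
      have h4 : 8 * dl (k + 1) * r ≤ 8 * (2 / q ^ 3) * r := by
        apply mul_le_mul_of_nonneg_right _ hr0
        linarith
      have h5 : 8 * (2 / q ^ 3) * r ≤ 8 * (2 / q ^ 3) * (q ^ 3 / 16) := by
        apply mul_le_mul_of_nonneg_left hrhi
        positivity
      have h6 : 8 * (2 / q ^ 3) * (q ^ 3 / 16) = 1 := by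
        field_simp
        norm_num
      linarith
    have hgap := tm_gap k x t₀ N hxN r hr0 hdl
    rw [← hqdef, ← hγ1, ← hγ0] at hgap
    have hle := tm_le tdata (γ 1) hr.1
    rw [htm] at hle
    have ham : 3 / 2 * M ≤ am (k + 1) * r / 2 := by
      have e1 : am (k + 1) = (k + 1 : ℝ) / (qq k : ℝ) ^ 3 := rfl
      have h7 : 3 / 2 * M ≤ (k + 1 : ℝ) / (qq k : ℝ) ^ 3 * (2 / 3 * T) / 2 := by
        have e2 : (k + 1 : ℝ) / (qq k : ℝ) ^ 3 * (2 / 3 * T) / 2 =
            ((k + 1 : ℝ) * T) / (3 * (qq k : ℝ) ^ 3) := by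
          field_simp
        rw [e2, le_div_iff₀ (by positivity)]
        linarith
      have h8 : (k + 1 : ℝ) / (qq k : ℝ) ^ 3 * (2 / 3 * T) ≤ (k + 1 : ℝ) / (qq k : ℝ) ^ 3 * r := by
        apply mul_le_mul_of_nonneg_left _ (by positivity)
        linarith [hr.1]
      rw [e1]
      linarith
    linarith [hr.2]

end CPE48
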