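import Pool.Agent.LibCPE48.TC

/-!
# The flow on the two-torus: definitions
-/

namespace CPE48

open Set Function Filter Topology

/-- `q k = 2^(4^k)`, so `q (k+1) = (q k)^4` -/
def qq (k : ℕ) : ℕ := 2 ^ (4 ^ k)

/-- the slope `α = ∑ 1 / q_j` -/
noncomputable def al : ℝ := ∑' j, 1 / (qq j : ℝ)

/-- the integers `P_k = q_k ∑_{j ≤ k} 1 / q_j` -/
def pp (k : ℕ) : ℕ := ∑ j ∈ Finset.range (k + 1), 2 ^ (4 ^ k - 4 ^ j)

/-- `δ_k = q_k α - P_k` -/
noncomputable def dl (k : ℕ) : ℝ := (qq k : ℝ) * al - pp k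

/-- the amplitudes: `a_0 = 0`, `a_{k+1} = (k+1) / q_k^3` -/
noncomputable def am : ℕ → ℝ
  | 0 => 0
  | k + 1 => (k + 1 : ℝ) / (qq k : ℝ) ^ 3

/-- the linear flow of slope `α` -/
noncomputable def rot (r : ℝ) (p : UnitAddCircle × UnitAddCircle) :
    UnitAddCircle × UnitAddCircle :=
  (p.1 + ((al * r : ℝ) : UnitAddCircle), p.2 + ((r : ℝ) : UnitAddCircle))

/-- cosine on the circle: `cs (t mod 1) = cos (2 π t)` -/
noncomputable def cs (x : UnitAddCircle) : ℝ := (fourier 1 x).re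

/-- the speed function -/
noncomputable def fn (p : UnitAddCircle × UnitAddCircle) : ℝ :=
  1 + ∑' k, am k * cs (qq k • p.1 - pp k • p.2)

end CPE48
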