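import Pool.Agent.LibCPE48.Defs

/-!
# Part 2 (dimension `n ≥ 3`): definitions

`X` is a compact metric space with an isometric free flow `ρ` (a linear flow of the two-torus),
`p` is a point and `V ≥ 0` a speed function vanishing only at `p`, Lipschitz along the flow.
The stopped flow `fl` moves the point `c` along its `ρ`-line with speed `V`.
-/

namespace CPE48

open Set Function Filter Topology

/-- an isometric free flow, with a speed function vanishing only at `p` -/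
structure SData {X : Type*} [MetricSpace X] (ρ : ℝ → X → X) (V : X → ℝ) (p : X) : Prop where
  flow : IsFlow ρ
  iso : ∀ u c c', dist (ρ u c) (ρ u c') = dist c c'
  free : ∀ t c, ρ t c = c → t = 0
  speed : ∀ u c, dist (ρ u c) c ≤ |u|
  Vc : Continuous V
  V0 : ∀ c, 0 ≤ V c
  V1 : ∀ c, V c ≤ 1
  zero : ∀ c, V c = 0 ↔ c = p
  lip : ∀ c u u', |V (ρ u c) - V (ρ u' c)| ≤ |u - u'|

/-- `r c t` is the position on the `ρ`-line of `c` at time `t` -/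
structure IsR {X : Type*} [MetricSpace X] (ρ : ℝ → X → X) (V : X → ℝ) (r : X → ℝ → ℝ) :
    Prop where
  cont : Continuous (fun q : X × ℝ => r q.1 q.2)
  zero : ∀ c, r c 0 = 0
  deriv : ∀ c t, HasDerivAt (r c) (V (ρ (r c t) c)) t

/-- the stopped flow -/
def fl {X : Type*} (ρ : ℝ → X → X) (r : X → ℝ → ℝ) (t : ℝ) (c : X) : X := ρ (r c t) c

/-- the position of the ray point number `x` : the ray is `x ↦ ρ (-(ww x)) p` -/
noncomputable def ww {X : Type*} (ρ : ℝ → X → X) (r : X → ℝ → ℝ) (p : X) (x : ℝ) : ℝ :=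
  1 - r (ρ (-1) p) (-x)

/-- positions after `i` steps of the map `c ↦ ρ (s c) c`, starting at position `u` of the line of
`c` -/
def ps {X : Type*} (ρ : ℝ → X → X) (s : X → ℝ) (c : X) : ℕ → ℝ → ℝ
  | 0, u => u
  | i + 1, u => ps ρ s c i u + s (ρ (ps ρ s c i u) c)

/-- a tube for the arc `{ρ t q : t ∈ [a, b]}` supported in `U` -/
structure STube {X : Type*} [TopologicalSpace X] (ρ : ℝ → X → X) (q : X) (a b : ℝ) (U : Set X)
    (σ : X → ℝ → ℝ) : Prop where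
  cont : Continuous (fun x : X × ℝ => σ x.1 x.2)
  off : ∀ c r, 1 ≤ r → σ c r = 0
  supp : ∀ c r, 0 ≤ r → σ c r ≠ 0 → c ∈ U
  bound : ∀ c r, 0 ≤ r → |σ c r| ≤ 2 * (b - a)
  mono : ∀ c r, 0 ≤ r → Monotone (fun u => u + σ (ρ u c) r)
  eq : ∀ c r u v, 0 ≤ r → u < v → u + σ (ρ u c) r = v + σ (ρ v c) r →
    r = 0 ∧ ∀ w ∈ Icc u v, ∃ t ∈ Icc a b, ρ w c = ρ t q
  const : ∀ t t', t ∈ Icc a b → t' ∈ Icc a b → t + σ (ρ t q) 0 = t' + σ (ρ t' q) 0

/-- a tube for a sequence of disjoint arcs `A n` -/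
structure LTube {X : Type*} [TopologicalSpace X] (ρ : ℝ → X → X) (A : ℕ → Set X) (L : ℝ)
    (σ : X → ℝ → ℝ) : Prop where
  cont : Continuous (fun x : X × ℝ => σ x.1 x.2)
  off : ∀ c r, 1 ≤ r → σ c r = 0
  bound : ∀ c r, 0 ≤ r → |σ c r| ≤ L
  mono : ∀ c r, 0 ≤ r → Monotone (fun u => u + σ (ρ u c) r)
  eq : ∀ c r u v, 0 ≤ r → u < v → u + σ (ρ u c) r = v + σ (ρ v c) r →
    r = 0 ∧ ∃ n, ρ u c ∈ A n ∧ ρ v c ∈ A n
  collapse : ∀ n c c', c ∈ A n → c' ∈ A n → ρ (σ c 0) c = ρ (σ c' 0) c'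

/-- displacement function of a single tube -/
noncomputable def sg {X : Type*} (ρ : ℝ → X → X) (lam : X → ℝ) (l : ℝ) (c : X) (r : ℝ) : ℝ :=
  -∫ s in (0:ℝ)..(2 * l), max 0 (lam (ρ (-s) c) - r)

/-- total displacement -/
noncomputable def sS {X Y : Type*} [MetricSpace Y] (σ : ℕ → X → ℝ → ℝ) (O : ℕ → Set Y)
    (ε : ℕ → ℝ) (e : ℕ → Bool) (c : X) (y : Y) : ℝ :=
  ∑' k, if e k = true then σ k c (rr O ε k y) else 0

/-- the collapsing map -/
noncomputable def PQ {X Y : Type*} [MetricSpace Y] (ρ : ℝ → X → X) (σ : ℕ → X → ℝ → ℝ)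
    (O : ℕ → Set Y) (ε : ℕ → ℝ) (e : ℕ → Bool) (x : X × Y) : X × Y :=
  (ρ (sS σ O ε e x.1 x.2) x.1, x.2)

/-- the kernel of the collapsing map -/
def RelQ {X Y : Type*} (A : ℕ → ℕ → Set X) (O : ℕ → Set Y) (e : ℕ → Bool) (x x' : X × Y) :
    Prop :=
  x = x' ∨ (x.2 = x'.2 ∧ ∃ k, e k = true ∧ x.2 ∈ O k ∧ ∃ n, x.1 ∈ A k n ∧ x'.1 ∈ A k n)

/-- the data of the second construction: `g` is a map of `X` which maps the arc `A k n` into the
arc `A k (n + 1)` -/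
structure SetupQ {X Y : Type*} [MetricSpace X] [MetricSpace Y] (ρ : ℝ → X → X) (g : X → X)
    (D : Y → Y) (O : ℕ → Set Y) (ε : ℕ → ℝ) (A : ℕ → ℕ → Set X) (L : ℕ → ℝ)
    (σ : ℕ → X → ℝ → ℝ) : Prop where
  flow : IsFlow ρ
  free : ∀ t c, ρ t c = c → t = 0
  gc : Continuous g
  base : GoodBase Y D O ε
  len : Tendsto L atTop (𝓝 0)
  tube : ∀ k, LTube ρ (A k) (L k) (σ k)
  maps : ∀ k n, MapsTo g (A k n) (A k (n + 1))

/-- every open set is visited with positive frequency by long orbit segments of `g` -/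
def Vis {X : Type*} [TopologicalSpace X] (g : X → X) : Prop :=
  ∀ N : Set X, IsOpen N → N.Nonempty → ∃ θ : ℝ, 0 < θ ∧
    ∃ᶠ n : ℕ in atTop, ∃ c : X, θ * n ≤ ({i | i < n ∧ g^[i] c ∈ N} : Set ℕ).ncard

/-- the relation on `X` defined by a function `H` on the ray `w ↦ R w`, `w ≥ 0` -/
def RR {X : Type*} (R : ℝ → X) (H : ℝ → ℝ) (c c' : X) : Prop :=
  c = c' ∨ ∃ w w', 0 ≤ w ∧ 0 ≤ w' ∧ c = R w ∧ c' = R w' ∧ H w = H w'

/-- the points of the ray and of the map `g` on it, in the variable `w ≥ 0` -/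
structure RayQ {X : Type*} [MetricSpace X] (g : X → X) (R : ℝ → X) (γ : ℝ → ℝ) : Prop where
  cont : Continuous R
  lip : ∀ w w', dist (R w) (R w') ≤ |w - w'|
  inj : ∀ w w', R w = R w' → w = w'
  dense : ∀ T : ℝ, ∀ N : Set X, IsOpen N → N.Nonempty → ∃ w, T ≤ w ∧ R w ∈ N
  map : ∀ w, 0 ≤ w → g (R w) = R (γ w)
  nonneg : ∀ w, 0 ≤ w → 0 ≤ γ w

/-- a function collapsing the arcs `[a k, b k]` which are on, compatible with `γ` -/
structure CollQ (γ : ℝ → ℝ) (a b : ℕ → ℝ) (e : ℕ → Bool) (H : ℝ → ℝ) : Prop where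
  cont : Continuous H
  comp : ∀ w w', 0 ≤ w → 0 ≤ w' → H w = H w' → H (γ w) = H (γ w')
  const : ∀ k, e k = true → ∀ w ∈ Icc (a k) (b k), ∀ w' ∈ Icc (a k) (b k), H w = H w'
  fib : ∀ δ : ℝ, 0 < δ → ∃ T : ℝ, ∀ w w', 0 ≤ w → 0 ≤ w' → H w = H w' → T ≤ w → |w - w'| < δ
  nontriv : ∃ w, 0 ≤ w ∧ H w ≠ H 0

end CPE48
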