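import Pool.Agent.LibCPE48.QD

/-! TASK QB1 (~70 lines).  First properties of `sg` (adapt file B02).

* `sg_continuous`: parametric interval integral of a jointly continuous function.
* `sg_off`: for `r ≥ 1 ≥ lam`, the integrand is `0`.
* `sg_bound`: for `r ≥ 0` the integrand is in `[0, 1]`.
* `sg_shift`: substitution `v = u - s` and `ρ (-s) (ρ u c) = ρ (u - s) c`.
* `sg_supp`: if the integral is not zero then the integrand is not identically zero.
-/

namespace CPE48

open Set Function Filter Topology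

variable {X : Type*} [MetricSpace X] {ρ : ℝ → X → X}

theorem sg_continuous (h : IsFlow ρ) {lam : X → ℝ} (hl : Continuous lam) (l : ℝ) :
    Continuous (fun q : X × ℝ => sg ρ lam l q.1 q.2) := by
  unfold sg
  apply Continuous.neg
  apply intervalIntegral.continuous_parametric_intervalIntegral_of_continuous'
  apply Continuous.max continuous_const
  apply Continuous.sub _ (continuous_snd.comp continuous_fst)
  apply hl.comp
  have h2 : Continuous (fun p : (X × ℝ) × ℝ => ((-p.2, p.1.1) : ℝ × X)) :=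
    (continuous_snd.neg).prodMk (continuous_fst.comp continuous_fst)
  exact h.cont.comp h2

theorem sg_off {lam : X → ℝ} (h1 : ∀ c, lam c ≤ 1) (l : ℝ) (c : X) (r : ℝ)
    (hr : 1 ≤ r) : sg ρ lam l c r = 0 := by
  unfold sg
  have : ∀ s : ℝ, max 0 (lam (ρ (-s) c) - r) = 0 := by
    intro s
    apply max_eq_left
    have := h1 (ρ (-s) c)
    linarith
  simp [this]

theorem sg_bound {lam : X → ℝ} (h1 : ∀ c, lam c ≤ 1) {l : ℝ} (hl : 0 < l)
    (c : X) (r : ℝ) (hr : 0 ≤ r) : |sg ρ lam l c r| ≤ 2 * l := by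
  unfold sg
  rw [abs_neg]
  have h2 : ‖∫ s in (0:ℝ)..(2 * l), max 0 (lam (ρ (-s) c) - r)‖ ≤ 1 * |2 * l - 0| := by
    apply intervalIntegral.norm_integral_le_of_norm_le_const
    intro x _
    rw [Real.norm_eq_abs, abs_of_nonneg (le_max_left _ _)]
    apply max_le (by norm_num)
    have := h1 (ρ (-x) c)
    linarith
  rw [Real.norm_eq_abs] at h2
  have h3 : |2 * l - 0| = 2 * l := by
    rw [sub_zero, abs_of_pos (by linarith)]
  rw [h3] at h2
  linarith

theorem sg_shift (h : IsFlow ρ) (lam : X → ℝ) (l : ℝ) (c : X) (u r : ℝ) :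
    u + sg ρ lam l (ρ u c) r =
      u - ∫ v in (u - 2 * l)..u, max 0 (lam (ρ v c) - r) := by
  unfold sg
  have h1 : ∀ s : ℝ, ρ (-s) (ρ u c) = ρ (u - s) c := by
    intro s
    rw [← h.add]
    congr 1
    ring
  simp only [h1]
  have h2 := intervalIntegral.integral_comp_sub_left (a := (0:ℝ)) (b := 2 * l)
    (fun v => max 0 (lam (ρ v c) - r)) u
  rw [h2, sub_zero]
  ring

theorem sg_supp {lam : X → ℝ} {l : ℝ} (hl : 0 < l) (c : X) (r : ℝ)
    (hr : 0 ≤ r) (h : sg ρ lam l c r ≠ 0) : ∃ s ∈ Icc 0 (2 * l), 0 < lam (ρ (-s) c) := by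
  by_contra hcon
  push Not at hcon
  apply h
  unfold sg
  rw [neg_eq_zero]
  have h2 : ∫ s in (0:ℝ)..(2 * l), max 0 (lam (ρ (-s) c) - r) = ∫ s in (0:ℝ)..(2 * l), (0:ℝ) := by
    apply intervalIntegral.integral_congr
    intro s hs
    rw [uIcc_of_le (by linarith)] at hs
    have := hcon s hs
    apply max_eq_left
    linarith
  rw [h2]
  simp

end CPE48
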