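import Pool.Agent.LibCPE48.QD

/-! TASK QB2 (~70 lines).  A Urysohn function for a single arc (compare file B01).

Let `l = b - a`, `K₁ = {ρ t q : t ∈ [a, b]}` (compact, nonempty),
`B = {c | ∃ s ∈ [0, 2l], ρ s c ∉ U}` (closed: it is the image of the compact set
`{(s, d) : s ∈ [0, 2l], d ∉ U}` under `(s, d) ↦ ρ (-s) d`),
`K₂ = {ρ t q : t ∈ [a - 2l, a - l]}` (compact).  `K₁ ∩ B = ∅` by `hU`, `K₁ ∩ K₂ = ∅` by freeness
(`ρ t q = ρ t' q` implies `t = t'`: apply `ρ (-t')`, `h.add`).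
`K₀ = B ∪ K₂` is closed and nonempty; take
`lam c = infDist c K₀ / (infDist c K₀ + infDist c K₁)`.
If `0 < lam (ρ (-s) c)` with `s ∈ [0, 2l]` then `ρ (-s) c ∉ B`, so `ρ s (ρ (-s) c) = c ∈ U`.
-/

namespace CPE48

open Set Function Filter Topology

theorem line_inj {X : Type*} [TopologicalSpace X] {ρ : ℝ → X → X} (h : IsFlow ρ)
    (hf : ∀ t c, ρ t c = c → t = 0) {s t : ℝ} {c : X} (e : ρ s c = ρ t c) : s = t := by
  have h1 : ρ (s - t) (ρ t c) = ρ t c := by
    rw [← h.add, sub_add_cancel, e]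
  have h2 := hf _ _ h1
  linarith

theorem exists_lamQ {X : Type*} [MetricSpace X] [CompactSpace X] {ρ : ℝ → X → X}
    (h : IsFlow ρ) (hf : ∀ t c, ρ t c = c → t = 0) (q : X) (a b : ℝ) (hab : a < b) (U : Set X)
    (hU : IsOpen U) (hUa : ∀ t ∈ Icc a (b + 2 * (b - a)), ρ t q ∈ U) :
    ∃ lam : X → ℝ, Continuous lam ∧ (∀ c, 0 ≤ lam c) ∧ (∀ c, lam c ≤ 1) ∧
      (∀ c, lam c = 1 → ∃ t ∈ Icc a b, c = ρ t q) ∧ (∀ t ∈ Icc a b, lam (ρ t q) = 1) ∧
      (∀ t ∈ Icc (a - 2 * (b - a)) (a - (b - a)), lam (ρ t q) = 0) ∧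
      (∀ c, ∀ s ∈ Icc 0 (2 * (b - a)), 0 < lam (ρ (-s) c) → c ∈ U) := by
  have hcq : Continuous (fun t : ℝ => ρ t q) :=
    h.cont.comp (continuous_id.prodMk continuous_const)
  set K1 : Set X := (fun t : ℝ => ρ t q) '' Icc a b with hK1
  set K2 : Set X := (fun t : ℝ => ρ t q) '' Icc (a - 2 * (b - a)) (a - (b - a)) with hK2
  set KB : Set X := (fun p : ℝ × X => ρ (-p.1) p.2) '' (Icc 0 (2 * (b - a)) ×ˢ Uᶜ) with hKB
  have c1 : IsClosed K1 := (isCompact_Icc.image hcq).isClosed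
  have c2 : IsClosed K2 := (isCompact_Icc.image hcq).isClosed
  have hcB : Continuous (fun p : ℝ × X => ρ (-p.1) p.2) :=
    h.cont.comp (continuous_fst.neg.prodMk continuous_snd)
  have cB : IsClosed KB :=
    ((isCompact_Icc.prod hU.isClosed_compl.isCompact).image hcB).isClosed
  set K0 : Set X := KB ∪ K2 with hK0
  have c0 : IsClosed K0 := cB.union c2
  have n1 : K1.Nonempty := ⟨ρ a q, a, ⟨le_refl _, hab.le⟩, rfl⟩
  have n0 : K0.Nonempty :=
    ⟨ρ (a - (b - a)) q, Or.inr ⟨a - (b - a), ⟨by linarith, le_refl _⟩, rfl⟩⟩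
  have hd : Disjoint K0 K1 := by
    rw [Set.disjoint_left]
    rintro c (⟨⟨s, d⟩, ⟨hs, hdU⟩, hc⟩ | ⟨t', ht', hc⟩) ⟨t, ht, hc1⟩
    · simp only at hc hc1 hs hdU
      apply hdU
      have e1 : ρ s c = d := by
        rw [← hc, ← h.add, add_neg_cancel, h.zero]
      rw [← e1, ← hc1, ← h.add]
      apply hUa
      exact ⟨by linarith [hs.1, ht.1], by linarith [hs.2, ht.2]⟩
    · simp only at hc hc1
      have h3 : t' = t := line_inj h hf (hc.trans hc1.symm)
      have h4 := ht'.2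
      have h5 := ht.1
      linarith
  have hpos : ∀ c, 0 < Metric.infDist c K0 + Metric.infDist c K1 := by
    intro c
    have p0 : 0 ≤ Metric.infDist c K0 := Metric.infDist_nonneg
    have p1 : 0 ≤ Metric.infDist c K1 := Metric.infDist_nonneg
    rcases lt_or_eq_of_le (add_nonneg p0 p1) with hlt | heq
    · exact hlt
    · exfalso
      have e0 : Metric.infDist c K0 = 0 := by linarith
      have e1 : Metric.infDist c K1 = 0 := by linarith
      exact Set.disjoint_left.1 hd ((c0.mem_iff_infDist_zero n0).2 e0)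
        ((c1.mem_iff_infDist_zero n1).2 e1)
  refine ⟨fun c => Metric.infDist c K0 / (Metric.infDist c K0 + Metric.infDist c K1),
    ?_, ?_, ?_, ?_, ?_, ?_, ?_⟩
  · exact (Metric.continuous_infDist_pt K0).div
      ((Metric.continuous_infDist_pt K0).add (Metric.continuous_infDist_pt K1))
      (fun c => (hpos c).ne')
  · intro c
    exact div_nonneg Metric.infDist_nonneg (hpos c).le
  · intro c
    rw [div_le_one (hpos c)]
    have p1 : 0 ≤ Metric.infDist c K1 := Metric.infDist_nonneg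
    linarith
  · intro c hc
    have hc' := (div_eq_one_iff_eq (hpos c).ne').1 hc
    obtain ⟨t, ht, e⟩ := (c1.mem_iff_infDist_zero n1).2 (by linarith)
    exact ⟨t, ht, e.symm⟩
  · intro t ht
    have e1 := (c1.mem_iff_infDist_zero n1).1 ⟨t, ht, rfl⟩
    simp only at e1
    rw [div_eq_one_iff_eq (hpos _).ne', e1, add_zero]
  · intro t ht
    have e0 := (c0.mem_iff_infDist_zero n0).1 (Or.inr ⟨t, ht, rfl⟩)
    simp only at e0
    simp only [e0, zero_div]
  · intro c s hs hp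
    by_contra hcU
    have hm : ρ (-s) c ∈ K0 := Or.inl ⟨(s, c), ⟨hs, hcU⟩, rfl⟩
    have e0 := (c0.mem_iff_infDist_zero n0).1 hm
    simp only [e0, zero_div, lt_irrefl] at hp

end CPE48
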