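import Pool.Agent.LibCPE48.QB1
import Pool.Agent.LibCPE48.QB2
import Pool.Agent.LibCPE48.B03

/-! TASK QB3 (~60 lines).  Existence of a tube for a single arc (adapt file B04).  Use QB1, QB2
(stated) and B03 (proved: `win_mono`, `win_eq`, `win_const`).

`lam` from `exists_lamQ`, `σ = sg ρ lam (b - a)`.  With `m v = max 0 (lam (ρ v c) - r)`, `sg_shift`
rewrites `u + σ (ρ u c) r` as `u - ∫ v in (u - 2(b-a))..u, m v`: `mono` is `win_mono`; for `eq`,
`win_eq` gives `m = 1` on `[u, v]`, so `r = 0` and `lam = 1`.  `const`: `c = q`, `r = 0` and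
`win_const` (the arcs `[a, b]`, `[a - 2(b-a), a - (b-a)]`).  `supp`: `sg_supp`.
-/

namespace CPE48

open Set Function Filter Topology

theorem exists_stube {X : Type*} [MetricSpace X] [CompactSpace X] {ρ : ℝ → X → X}
    (h : IsFlow ρ) (hf : ∀ t c, ρ t c = c → t = 0) (q : X) (a b : ℝ) (hab : a < b) (U : Set X)
    (hU : IsOpen U) (hUa : ∀ t ∈ Icc a (b + 2 * (b - a)), ρ t q ∈ U) :
    ∃ σ : X → ℝ → ℝ, STube ρ q a b U σ := by
  obtain ⟨lam, lc, l0, l1, lm, lmi, lz, lU⟩ := exists_lamQ h hf q a b hab U hU hUa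
  have hl : 0 < b - a := by linarith
  have m1 : ∀ c r, 0 ≤ r → ∀ v : ℝ, max 0 (lam (ρ v c) - r) ≤ 1 := by
    intro c r hr v
    apply max_le (by norm_num)
    have := l1 (ρ v c)
    linarith
  have mc : ∀ c r, Continuous (fun v : ℝ => max 0 (lam (ρ v c) - r)) := by
    intro c r
    apply Continuous.max continuous_const
    apply Continuous.sub _ continuous_const
    apply lc.comp
    have h2 : Continuous (fun v : ℝ => ((v, c) : ℝ × X)) := continuous_id.prodMk continuous_const
    exact h.cont.comp h2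
  refine ⟨sg ρ lam (b - a), ?_, ?_, ?_, ?_, ?_, ?_, ?_⟩
  · exact sg_continuous h lc (b - a)
  · intro c r hr
    exact sg_off l1 (b - a) c r hr
  · intro c r hr hne
    obtain ⟨s, hs, hpos⟩ := sg_supp hl c r hr hne
    exact lU c s hs hpos
  · intro c r hr
    exact sg_bound l1 hl c r hr
  · intro c r hr
    have := win_mono (l := 2 * (b - a)) (mc c r) (fun v => le_max_left _ _) (m1 c r hr)
    intro u v huv
    simp only [sg_shift h]
    exact this huv
  · intro c r u v hr huv he
    rw [sg_shift h, sg_shift h] at he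
    have key := win_eq (mc c r) (fun v => le_max_left _ _) (m1 c r hr) huv he
    have aux : ∀ x : ℝ, max 0 (lam (ρ x c) - r) = 1 →
        r = 0 ∧ ∃ t ∈ Icc a b, ρ x c = ρ t q := by
      intro x hx
      have h3 : lam (ρ x c) - r = 1 := by
        rcases max_choice 0 (lam (ρ x c) - r) with h4 | h4
        · rw [h4] at hx
          norm_num at hx
        · rw [h4] at hx
          exact hx
      have h5 := l1 (ρ x c)
      have h6 : r = 0 := by linarith
      exact ⟨h6, lm _ (by linarith)⟩
    exact ⟨(aux u (key u ⟨le_rfl, huv.le⟩)).1, fun w hw => (aux w (key w hw)).2⟩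
  · have key : ∀ t, t ∈ Icc a b → t + sg ρ lam (b - a) (ρ t q) 0 =
        a - ∫ x in (a - (b - a))..a, max 0 (lam (ρ x q) - 0) := by
      intro t ht
      rw [sg_shift h]
      apply win_const (mc q 0) hl
      · intro x hx
        have : lam (ρ x q) = 1 := lmi x ⟨hx.1, by linarith [hx.2]⟩
        rw [this]
        norm_num
      · intro x hx
        have : lam (ρ x q) = 0 := lz x hx
        rw [this]
        norm_num
      · exact ⟨ht.1, by linarith [ht.2]⟩
    intro t t' ht ht'
    rw [key t ht, key t' ht']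

end CPE48
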