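import Pool.Agent.LibCPE48.QB2

/-! TASK QB4 (~70 lines).  Disjoint neighbourhoods of a sequence of disjoint arcs of the line of `p`
converging to `p`.  Use `line_inj` (QB2, stated).

`E n = {ρ t p : t ∈ [c n, d n]}`, `c n ≤ d n < c (n+1)`, `d n < 0`.  For each `n` the set
`F n = {ρ t p : t ∈ [c 0, d (n-1)]} ∪ {ρ t p : t ∈ [c (n+1), 0]}` (first part absent for `n = 0`) is
compact, contains all `E m`, `m ≠ n` (monotonicity: `c`, `d` are increasing), and is disjoint from the
compact set `E n` by `line_inj`.  Let `η n > 0` with `2 η n ≤ dist x y` for `x ∈ E n`, `y ∈ F n`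
(`IsCompact.exists_infDist...`, `Metric.infDist`, or `Disjoint.exists_thickenings`), and
`U n = thickening (η n) (E n)` (`{x | infDist x (E n) < η n}`).  If `x ∈ U n ∩ U m`, then there are
`y ∈ E n`, `y' ∈ E m` with `dist x y < η n`, `dist x y' < η m` so `dist y y' < η n + η m ≤ 2 max`,
a contradiction.
-/

namespace CPE48

open Set Function Filter Topology

theorem exists_disjoint_nhds {X : Type*} [MetricSpace X] {ρ : ℝ → X → X}
    (h : IsFlow ρ) (hf : ∀ t c, ρ t c = c → t = 0) (p : X) (c d : ℕ → ℝ)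
    (hcd : ∀ n, c n ≤ d n) (hdc : ∀ n, d n < c (n + 1)) (hd : ∀ n, d n < 0) :
    ∃ U : ℕ → Set X, (∀ n, IsOpen (U n)) ∧ (∀ n, ∀ t ∈ Icc (c n) (d n), ρ t p ∈ U n) ∧
      ∀ n m, n ≠ m → Disjoint (U n) (U m) := by
  have cmono : ∀ n m, n ≤ m → c n ≤ c m := by
    intro n m hnm
    exact monotone_nat_of_le_succ (fun k => (hcd k).trans (hdc k).le) hnm
  have dmono : ∀ n m, n ≤ m → d n ≤ d m := by
    intro n m hnm
    exact monotone_nat_of_le_succ (fun k => (hdc k).le.trans (hcd (k + 1))) hnm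
  obtain ⟨l, hl1, hl2⟩ : ∃ l : ℕ → ℝ, (∀ n, l n < c n) ∧ ∀ m n, m < n → d m ≤ l n := by
    refine ⟨fun n => Nat.casesOn n (c 0 - 1) d, fun n => ?_, fun m n hmn => ?_⟩
    · cases n with
      | zero =>
        change c 0 - 1 < c 0
        linarith
      | succ k => exact hdc k
    · cases n with
      | zero => exact absurd hmn (Nat.not_lt_zero m)
      | succ k => exact dmono m k (Nat.lt_succ_iff.1 hmn)
  have hcont : Continuous (fun t : ℝ => ρ t p) := by
    have h2 : Continuous (fun v : ℝ => ((v, p) : ℝ × X)) := continuous_id.prodMk continuous_const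
    exact h.cont.comp h2
  obtain ⟨E, hE⟩ : ∃ E : ℕ → Set X, E = fun n => (fun t : ℝ => ρ t p) '' Icc (c n) (d n) :=
    ⟨_, rfl⟩
  obtain ⟨F, hF⟩ : ∃ F : ℕ → Set X, F = fun n => (fun t : ℝ => ρ t p) ''
      (Icc (c 0) 0 ∩ (Iic (l n) ∪ Ici (c (n + 1)))) := ⟨_, rfl⟩
  have hEc : ∀ n, IsCompact (E n) := by
    intro n
    rw [hE]
    exact isCompact_Icc.image hcont
  have hFc : ∀ n, IsCompact (F n) := by
    intro n
    rw [hF]
    exact (isCompact_Icc.inter_right (isClosed_Iic.union isClosed_Ici)).image hcont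
  have hEF : ∀ n m, n ≠ m → E m ⊆ F n := by
    intro n m hnm
    rw [hE, hF]
    rintro x ⟨t, ht, rfl⟩
    refine ⟨t, ⟨⟨(cmono 0 m (Nat.zero_le m)).trans ht.1, ht.2.trans (hd m).le⟩, ?_⟩, rfl⟩
    rcases lt_or_gt_of_ne hnm with h1 | h1
    · exact Or.inr ((cmono (n + 1) m h1).trans ht.1)
    · exact Or.inl (ht.2.trans (hl2 m n h1))
  have hdisj : ∀ n, Disjoint (E n) (F n) := by
    intro n
    rw [Set.disjoint_left]
    intro x hx hx'
    rw [hE] at hx
    rw [hF] at hx'
    obtain ⟨t, ht, rfl⟩ := hx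
    obtain ⟨s, ⟨-, hs⟩, hst⟩ := hx'
    have h1 : s = t := line_inj h hf hst
    rcases hs with hs | hs
    · have h2 : s ≤ l n := hs
      have h3 := hl1 n
      have h4 := ht.1
      linarith
    · have h2 : c (n + 1) ≤ s := hs
      have h3 := hdc n
      have h4 := ht.2
      linarith
  have hth : ∀ n, ∃ δ : ℝ, 0 < δ ∧
      Disjoint (Metric.thickening δ (E n)) (Metric.thickening δ (F n)) := by
    intro n
    exact (hdisj n).exists_thickenings (hEc n) (hFc n).isClosed
  choose η hη hη2 using hth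
  have key : ∀ n m, n ≠ m → η m ≤ η n →
      Disjoint (Metric.thickening (η n) (E n)) (Metric.thickening (η m) (E m)) := by
    intro n m hnm hle
    refine (hη2 n).mono_right ?_
    exact (Metric.thickening_mono hle (E m)).trans
      (Metric.thickening_subset_of_subset (η n) (hEF n m hnm))
  refine ⟨fun n => Metric.thickening (η n) (E n), fun n => Metric.isOpen_thickening,
    fun n t ht => ?_, fun n m hnm => ?_⟩
  · refine Metric.self_subset_thickening (hη n) (E n) ?_
    rw [hE]
    exact ⟨t, ht, rfl⟩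
  · rcases le_total (η m) (η n) with h1 | h1
    · exact key n m hnm h1
    · exact (key m n hnm.symm h1).symm

end CPE48
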