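import Pool.Agent.LibCPE48.A10
import Pool.Agent.LibCPE48.QD

/-! TASK QB5 (~120 lines).  The sum of tubes with disjoint supports.  Use `disj_sum_continuous`
(A10, proved).

`σ c r = ∑' n, τ n c (max r 0)`.  For fixed `(c, r)` at most one term is nonzero (`supp`, disjoint
`U n`), so the value is `τ n c (max r 0)` for that `n`, or `0` (`tsum_eq_single`).
* `cont`: `disj_sum_continuous` with bounds `2 (b n - a n) → 0`.  `off`, `bound`: clear.
* `mono` and `eq`: fix `c`, `r ≥ 0` and `u < v`.  If some `w ∈ [u, v]` has `ρ w c ∉ ⋃ U n`, then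
  `σ (ρ w c) r = 0`.  Case A: `ρ u c` and `ρ v c` both see the same tube `n` (i.e. all other terms
  vanish at both points): apply `(T n).mono`/`(T n).eq`.  Case B: otherwise `ρ u c ∈ U n`,
  `ρ v c ∈ U m`, `n ≠ m` (or one of the two in no `U`); the set of `w ∈ [u, v]` with `ρ w c ∈ U n` is
  relatively open, `[u, v]` is connected, the `U`'s are disjoint open, so there is `w ∈ [u, v]` with
  `ρ w c ∉ ⋃ U n` (`isPreconnected_Icc`, or `w = sSup`); then
  `u + σ (ρ u c) r ≤ w + 0 ≤ v + σ (ρ v c) r` by the `mono` of tube `n` and of tube `m` (with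
  `τ n (ρ w c) r = 0`).  Equality in case B: `u + τ n (ρ u c) r = w + τ n (ρ w c) r` and, if
  `u < w`, `(T n).eq` would give `ρ w c = ρ t q ∈ U n` (hypothesis `hU'`), contradiction; same on the
  other side if `w < v`; as `u < v` one of the two is strict.  The conclusion of `eq` needs
  `ρ u c ∈ A n ∧ ρ v c ∈ A n`: from `(T n).eq` at `w = u` and `w = v`.
* `collapse`: `c = ρ t q`, `c' = ρ t' q`, `t, t' ∈ [a n, b n]`; both are in `U n`, so
  `σ c 0 = τ n c 0`; `ρ (σ c 0) (ρ t q) = ρ (t + τ n (ρ t q) 0) q` (up to `add_comm`) and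
  `(T n).const`.
-/

namespace CPE48

open Set Function Filter Topology

theorem qb5_dich {X : Type*} [MetricSpace X] {ρ : ℝ → X → X} (h : IsFlow ρ)
    (U : ℕ → Set X) (hU : ∀ n, IsOpen (U n)) (hd : ∀ n m, n ≠ m → Disjoint (U n) (U m)) (c : X)
    (u v : ℝ) (huv : u ≤ v) :
    (∃ n, ∀ m, m ≠ n → ρ u c ∉ U m ∧ ρ v c ∉ U m) ∨ ∃ w ∈ Icc u v, ∀ n, ρ w c ∉ U n := by
  by_cases h1 : ∀ n, ρ u c ∉ U n
  · exact Or.inr ⟨u, ⟨le_rfl, huv⟩, h1⟩
  push Not at h1
  obtain ⟨n, hn⟩ := h1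
  by_cases h2 : ρ v c ∈ U n
  · refine Or.inl ⟨n, fun m hm => ⟨fun h3 => ?_, fun h3 => ?_⟩⟩
    · exact Set.disjoint_left.1 (hd m n hm) h3 hn
    · exact Set.disjoint_left.1 (hd m n hm) h3 h2
  right
  by_contra hcon
  push Not at hcon
  have hcont : Continuous (fun t : ℝ => ρ t c) := by
    have h3 : Continuous (fun v : ℝ => ((v, c) : ℝ × X)) := continuous_id.prodMk continuous_const
    exact h.cont.comp h3
  have hA : IsOpen {w : ℝ | ρ w c ∈ U n} := (hU n).preimage hcont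
  have hB : IsOpen {w : ℝ | ∃ m, m ≠ n ∧ ρ w c ∈ U m} := by
    have : {w : ℝ | ∃ m, m ≠ n ∧ ρ w c ∈ U m} =
        ⋃ m, ⋃ (_ : m ≠ n), {w : ℝ | ρ w c ∈ U m} := by
      ext w
      simp
    rw [this]
    exact isOpen_iUnion fun m => isOpen_iUnion fun _ => (hU m).preimage hcont
  have hpre : IsPreconnected (Icc u v) := isPreconnected_Icc
  have hcov : Icc u v ⊆ {w : ℝ | ρ w c ∈ U n} ∪ {w : ℝ | ∃ m, m ≠ n ∧ ρ w c ∈ U m} := by
    intro w hw
    obtain ⟨m, hm⟩ := hcon w hw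
    by_cases hmn : m = n
    · left
      rw [← hmn]
      exact hm
    · exact Or.inr ⟨m, hmn, hm⟩
  have h4 : (Icc u v ∩ {w : ℝ | ρ w c ∈ U n}).Nonempty := ⟨u, ⟨le_rfl, huv⟩, hn⟩
  have h5 : (Icc u v ∩ {w : ℝ | ∃ m, m ≠ n ∧ ρ w c ∈ U m}).Nonempty := by
    obtain ⟨m, hm⟩ := hcon v ⟨huv, le_rfl⟩
    refine ⟨v, ⟨huv, le_rfl⟩, m, ?_, hm⟩
    rintro rfl
    exact h2 hm
  obtain ⟨w, -, hw1, m, hmn, hw2⟩ := hpre _ _ hA hB hcov h4 h5
  exact Set.disjoint_left.1 (hd m n hmn) hw2 hw1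

theorem qb5_val {X : Type*} [MetricSpace X] {ρ : ℝ → X → X} {q : X}
    {a b : ℕ → ℝ} {U : ℕ → Set X} {τ : ℕ → X → ℝ → ℝ}
    (T : ∀ n, STube ρ q (a n) (b n) (U n) (τ n)) (c : X) (r : ℝ) (n : ℕ)
    (hn : ∀ m, m ≠ n → c ∉ U m) : (∑' n, τ n c (max r 0)) = τ n c (max r 0) := by
  refine tsum_eq_single n fun m hm => ?_
  by_contra hne
  exact hn m hm ((T m).supp c _ (le_max_right _ _) hne)

theorem qb5_zero {X : Type*} [MetricSpace X] {ρ : ℝ → X → X} {q : X}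
    {a b : ℕ → ℝ} {U : ℕ → Set X} {τ : ℕ → X → ℝ → ℝ}
    (T : ∀ n, STube ρ q (a n) (b n) (U n) (τ n)) (c : X) (r : ℝ) (hr : 0 ≤ r) (n : ℕ)
    (hn : c ∉ U n) : τ n c r = 0 := by
  by_contra hne
  exact hn ((T n).supp c r hr hne)

theorem qb5_ex {X : Type*} {U : ℕ → Set X} (hd : ∀ n m, n ≠ m → Disjoint (U n) (U m)) (c : X) :
    ∃ n, ∀ m, m ≠ n → c ∉ U m := by
  by_cases h : ∃ n, c ∈ U n
  · obtain ⟨n, hn⟩ := h
    exact ⟨n, fun m hm h3 => Set.disjoint_left.1 (hd m n hm) h3 hn⟩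
  · push Not at h
    exact ⟨0, fun m _ => h m⟩

theorem ltube_of_stubes {X : Type*} [MetricSpace X] {ρ : ℝ → X → X} (h : IsFlow ρ) (q : X)
    (a b : ℕ → ℝ) (hab : ∀ n, a n < b n) (U : ℕ → Set X) (hU : ∀ n, IsOpen (U n))
    (hU' : ∀ n, ∀ t ∈ Icc (a n) (b n), ρ t q ∈ U n)
    (hd : ∀ n m, n ≠ m → Disjoint (U n) (U m)) (τ : ℕ → X → ℝ → ℝ)
    (T : ∀ n, STube ρ q (a n) (b n) (U n) (τ n))
    (hlen : Tendsto (fun n => b n - a n) atTop (𝓝 0)) (L : ℝ) (hL : ∀ n, 2 * (b n - a n) ≤ L) :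
    LTube ρ (fun n => {c | ∃ t ∈ Icc (a n) (b n), c = ρ t q}) L
      (fun c r => ∑' n, τ n c (max r 0)) := by
  have hL0 : 0 ≤ L := by
    have h1 := hL 0
    have h2 := hab 0
    linarith
  have hval : ∀ (c : X) (r : ℝ) (n : ℕ), 0 ≤ r → (∀ m, m ≠ n → c ∉ U m) →
      (∑' n, τ n c (max r 0)) = τ n c r := by
    intro c r n hr hn
    rw [qb5_val T c r n hn, max_eq_left hr]
  refine ⟨?_, ?_, ?_, ?_, ?_, ?_⟩
  · refine disj_sum_continuous (fun n (x : X × ℝ) => τ n x.1 (max x.2 0)) ?_ ?_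
      (fun n => 2 * (b n - a n)) ?_ ?_
    · intro n
      exact (T n).cont.comp (continuous_fst.prodMk (continuous_snd.max continuous_const))
    · intro x k l hk hl
      by_contra hkl
      exact Set.disjoint_left.1 (hd k l hkl) ((T k).supp _ _ (le_max_right _ _) hk)
        ((T l).supp _ _ (le_max_right _ _) hl)
    · have h1 := hlen.const_mul 2
      rw [mul_zero] at h1
      exact h1
    · intro n x
      exact (T n).bound _ _ (le_max_right _ _)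
  · intro c r hr
    have h1 : ∀ n, τ n c (max r 0) = 0 := fun n => (T n).off c _ (hr.trans (le_max_left _ _))
    change (∑' n, τ n c (max r 0)) = 0
    simp [h1]
  · intro c r hr
    obtain ⟨n, hn⟩ := qb5_ex hd c
    rw [hval c r n hr hn]
    exact ((T n).bound c r hr).trans (hL n)
  · intro c r hr u v huv
    change u + (∑' n, τ n (ρ u c) (max r 0)) ≤ v + (∑' n, τ n (ρ v c) (max r 0))
    rcases qb5_dich h U hU hd c u v huv with ⟨n, hn⟩ | ⟨w, hw, hwU⟩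
    · rw [hval _ r n hr (fun m hm => (hn m hm).1), hval _ r n hr (fun m hm => (hn m hm).2)]
      exact (T n).mono c r hr huv
    · obtain ⟨n, hn⟩ := qb5_ex hd (ρ u c)
      obtain ⟨k, hk⟩ := qb5_ex hd (ρ v c)
      rw [hval _ r n hr hn, hval _ r k hr hk]
      have h1 : u + τ n (ρ u c) r ≤ w + τ n (ρ w c) r := (T n).mono c r hr hw.1
      have h2 : w + τ k (ρ w c) r ≤ v + τ k (ρ v c) r := (T k).mono c r hr hw.2
      rw [qb5_zero T (ρ w c) r hr n (hwU n)] at h1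
      rw [qb5_zero T (ρ w c) r hr k (hwU k)] at h2
      linarith
  · intro c r u v hr huv he
    change u + (∑' n, τ n (ρ u c) (max r 0)) = v + (∑' n, τ n (ρ v c) (max r 0)) at he
    rcases qb5_dich h U hU hd c u v huv.le with ⟨n, hn⟩ | ⟨w, hw, hwU⟩
    · rw [hval _ r n hr (fun m hm => (hn m hm).1), hval _ r n hr (fun m hm => (hn m hm).2)] at he
      obtain ⟨h1, h2⟩ := (T n).eq c r u v hr huv he
      exact ⟨h1, n, h2 u ⟨le_rfl, huv.le⟩, h2 v ⟨huv.le, le_rfl⟩⟩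
    · exfalso
      obtain ⟨n, hn⟩ := qb5_ex hd (ρ u c)
      obtain ⟨k, hk⟩ := qb5_ex hd (ρ v c)
      rw [hval _ r n hr hn, hval _ r k hr hk] at he
      have h1 : u + τ n (ρ u c) r ≤ w + τ n (ρ w c) r := (T n).mono c r hr hw.1
      have h2 : w + τ k (ρ w c) r ≤ v + τ k (ρ v c) r := (T k).mono c r hr hw.2
      have h3 := qb5_zero T (ρ w c) r hr n (hwU n)
      have h4 := qb5_zero T (ρ w c) r hr k (hwU k)
      rcases lt_or_ge u w with h5 | h5
      · have h6 : u + τ n (ρ u c) r = w + τ n (ρ w c) r := by linarith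
        obtain ⟨-, h7⟩ := (T n).eq c r u w hr h5 h6
        obtain ⟨t, ht, h8⟩ := h7 w ⟨h5.le, le_rfl⟩
        refine hwU n ?_
        rw [h8]
        exact hU' n t ht
      · have h6 : w + τ k (ρ w c) r = v + τ k (ρ v c) r := by linarith
        obtain ⟨-, h7⟩ := (T k).eq c r w v hr (lt_of_le_of_lt h5 huv) h6
        obtain ⟨t, ht, h8⟩ := h7 w ⟨le_rfl, hw.2⟩
        refine hwU k ?_
        rw [h8]
        exact hU' k t ht
  · rintro n c c' ⟨t, ht, rfl⟩ ⟨t', ht', rfl⟩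
    have h1 : ∀ s, s ∈ Icc (a n) (b n) →
        ρ (∑' n, τ n (ρ s q) (max 0 0)) (ρ s q) = ρ (s + τ n (ρ s q) 0) q := by
      intro s hs
      rw [hval (ρ s q) 0 n le_rfl
        (fun m hm h3 => Set.disjoint_left.1 (hd m n hm) h3 (hU' n s hs)), ← h.add, add_comm]
    change ρ (∑' n, τ n (ρ t q) (max 0 0)) (ρ t q) =
      ρ (∑' n, τ n (ρ t' q) (max 0 0)) (ρ t' q)
    rw [h1 t ht, h1 t' ht', (T n).const t t' ht ht']

end CPE48
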