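import Pool.Agent.LibCPE48.A10
import Pool.Agent.LibCPE48.QD

/-! TASK QC1 (~90 lines).  Continuity of the collapsing map and the active level (adapt files C01
and C02).  Use `disj_sum_continuous` (A10, proved).
-/

namespace CPE48

open Set Function Filter Topology

variable {X Y : Type*} [MetricSpace X] [MetricSpace Y] {ρ : ℝ → X → X} {g : X → X} {D : Y → Y}
  {O : ℕ → Set Y} {ε : ℕ → ℝ} {A : ℕ → ℕ → Set X} {L : ℕ → ℝ} {σ : ℕ → X → ℝ → ℝ}

theorem rrQ_nonneg (S : SetupQ ρ g D O ε A L σ) (l : ℕ) (y : Y) : 0 ≤ rr O ε l y := by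
  exact div_nonneg Metric.infDist_nonneg (S.base.pos l).le

theorem rrQ_eq_zero (S : SetupQ ρ g D O ε A L σ) (l : ℕ) (y : Y) (h : rr O ε l y = 0) :
    y ∈ O l := by
  unfold rr at h
  rw [div_eq_zero_iff] at h
  rcases h with h | h
  · exact ((S.base.closed l).mem_iff_infDist_zero (S.base.nonempty l)).mpr h
  · exact absurd h (S.base.pos l).ne'

theorem qc1_off (S : SetupQ ρ g D O ε A L σ) (l : ℕ) (y : Y)
    (h : ¬ Metric.infDist y (O l) < ε l) : 1 ≤ rr O ε l y := by
  unfold rr
  rw [one_le_div (S.base.pos l)]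
  exact not_lt.mp h

theorem qc1_f_cont (S : SetupQ ρ g D O ε A L σ) (k : ℕ) :
    Continuous (fun q : (ℕ → Bool) × (X × Y) =>
      if q.1 k = true then σ k q.2.1 (rr O ε k q.2.2) else 0) := by
  have h1 : Continuous (fun q : (ℕ → Bool) × (X × Y) =>
      (fun x : Bool => if x = true then (1 : ℝ) else 0) (q.1 k)) := by
    have h0 : Continuous (fun x : Bool => if x = true then (1 : ℝ) else 0) :=
      continuous_of_discreteTopology
    exact h0.comp ((continuous_apply k).comp continuous_fst)
  have h2 : Continuous (fun q : (ℕ → Bool) × (X × Y) =>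
      σ k q.2.1 (rr O ε k q.2.2)) := by
    have h3 : Continuous (fun q : (ℕ → Bool) × (X × Y) => rr O ε k q.2.2) := by
      unfold rr
      exact ((Metric.continuous_infDist_pt _).comp
        (continuous_snd.comp continuous_snd)).div_const _
    exact (S.tube k).cont.comp ((continuous_fst.comp continuous_snd).prodMk h3)
  have h4 := h1.mul h2
  refine h4.congr ?_
  intro q
  by_cases h : q.1 k = true
  · simp [h]
  · simp [h]

theorem sS_continuous (S : SetupQ ρ g D O ε A L σ) :
    Continuous (fun q : (ℕ → Bool) × (X × Y) => sS σ O ε q.1 q.2.1 q.2.2) := by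
  unfold sS
  refine disj_sum_continuous (fun k (q : (ℕ → Bool) × (X × Y)) =>
      if q.1 k = true then σ k q.2.1 (rr O ε k q.2.2) else 0)
    (qc1_f_cont S) ?_ L S.len ?_
  · have key : ∀ (q : (ℕ → Bool) × (X × Y)) (k : ℕ),
        (if q.1 k = true then σ k q.2.1 (rr O ε k q.2.2) else 0) ≠ 0 →
        Metric.infDist q.2.2 (O k) < ε k := by
      intro q k h
      by_contra hc
      apply h
      rw [(S.tube k).off _ _ (qc1_off S k q.2.2 hc)]
      simp
    intro q k k' h h'
    exact S.base.disj q.2.2 k k' (key q k h) (key q k' h')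
  · intro k q
    have h1 := (S.tube k).bound q.2.1 (rr O ε k q.2.2) (rrQ_nonneg S k q.2.2)
    by_cases h : q.1 k = true
    · rw [if_pos h]
      exact h1
    · rw [if_neg h, abs_zero]
      exact (abs_nonneg _).trans h1

theorem PQ_continuous (S : SetupQ ρ g D O ε A L σ) :
    Continuous (fun q : (ℕ → Bool) × (X × Y) => PQ ρ σ O ε q.1 q.2) := by
  have h1 := sS_continuous S
  have h2 : Continuous (fun q : (ℕ → Bool) × (X × Y) =>
      ρ (sS σ O ε q.1 q.2.1 q.2.2) q.2.1) :=
    S.flow.cont.comp (h1.prodMk (continuous_fst.comp continuous_snd))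
  exact h2.prodMk (continuous_snd.comp continuous_snd)

theorem qc1_single (S : SetupQ ρ g D O ε A L σ) (e : ℕ → Bool) (y : Y) (c : X) (k : ℕ)
    (hk : e k = true) (h : Metric.infDist y (O k) < ε k) :
    sS σ O ε e c y = σ k c (rr O ε k y) := by
  unfold sS
  rw [tsum_eq_single k]
  · rw [if_pos hk]
  · intro j hj
    split_ifs with hj'
    · refine (S.tube j).off _ _ (qc1_off S _ y ?_)
      intro h'
      exact hj (S.base.disj y _ _ h' h)
    · rfl

theorem activeQ_cases (S : SetupQ ρ g D O ε A L σ) (e : ℕ → Bool) (y : Y) :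
    (∀ c, sS σ O ε e c y = 0) ∨
    (∃ k, e k = true ∧ ∀ c, sS σ O ε e c y = σ k c (rr O ε k y)) := by
  by_cases h1 : ∃ k, e k = true ∧ Metric.infDist y (O k) < ε k
  · obtain ⟨k, hk, h⟩ := h1
    exact Or.inr ⟨k, hk, fun c => qc1_single S e y c k hk h⟩
  · refine Or.inl fun c => ?_
    unfold sS
    have h2 : ∀ k, (if e k = true then σ k c (rr O ε k y) else 0) = 0 := by
      intro k
      split_ifs with hk
      · exact (S.tube k).off _ _ (qc1_off S _ y fun h => h1 ⟨k, hk, h⟩)
      · rfl
    simp_rw [h2]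
    exact tsum_zero

theorem activeQ (S : SetupQ ρ g D O ε A L σ) (e : ℕ → Bool) (y : Y) (k : ℕ) (hk : e k = true)
    (hy : y ∈ O k) (c : X) : sS σ O ε e c y = σ k c 0 := by
  have h := qc1_single S e y c k hk (by
    rw [Metric.infDist_zero_of_mem hy]
    exact S.base.pos _)
  have h0 : rr O ε k y = 0 := by
    unfold rr
    rw [Metric.infDist_zero_of_mem hy, zero_div]
  rw [h0] at h
  exact h

end CPE48
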