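import Pool.Agent.LibCPE48.QC1

/-! TASK QC2 (~100 lines).  The collapsing map is surjective, with kernel `RelQ` (adapt files B05
and C03).  Use QC1 (stated).

* injectivity on lines: let `T : LTube ρ A L σ`, `r ≥ 0` and `ρ (σ c r) c = ρ (σ c' r) c'`.  Put
  `v = σ c r - σ c' r`: `c' = ρ v c` and `0 + σ (ρ 0 c) r = v + σ (ρ v c) r`.  If `v = 0`, `c = c'`; if
  `v > 0` use `T.eq` with `(0, v)`, if `v < 0` with `(v, 0)`.
* surjectivity on lines: `u ↦ u + σ (ρ u c) r` is continuous and unbounded in both directions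
  (`T.bound`), so it vanishes at some `u`; `c' = ρ u c` satisfies `ρ (σ c' r) c' = c`.
-/

namespace CPE48

open Set Function Filter Topology

variable {X Y : Type*} [MetricSpace X] [MetricSpace Y] {ρ : ℝ → X → X} {g : X → X} {D : Y → Y}
  {O : ℕ → Set Y} {ε : ℕ → ℝ} {A : ℕ → ℕ → Set X} {L : ℕ → ℝ} {σ : ℕ → X → ℝ → ℝ}

theorem qc2_inj (h : IsFlow ρ) {A : ℕ → Set X} {L : ℝ} {σ : X → ℝ → ℝ} (T : LTube ρ A L σ)
    {c c' : X} {r : ℝ} (hr : 0 ≤ r) (he : ρ (σ c r) c = ρ (σ c' r) c') :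
    c = c' ∨ (r = 0 ∧ ∃ n, c ∈ A n ∧ c' ∈ A n) := by
  set u := σ c r with hu
  set u' := σ c' r with hu'
  have hv : c' = ρ (u - u') c := by
    have h1 : ρ (-u') (ρ u' c') = c' := by
      rw [← h.add, neg_add_cancel, h.zero]
    rw [← h1, ← he, ← h.add]
    congr 1
    ring
  have hw0 : ρ 0 c = c := h.zero c
  have e : 0 + σ (ρ 0 c) r = (u - u') + σ (ρ (u - u') c) r := by
    rw [hw0, ← hv, ← hu, ← hu']
    ring
  rcases lt_trichotomy (u - u') 0 with hlt | heq | hgt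
  · right
    obtain ⟨h1, n, h2, h3⟩ := T.eq c r _ _ hr hlt e.symm
    rw [hw0] at h3
    rw [← hv] at h2
    exact ⟨h1, n, h3, h2⟩
  · left
    rw [hv, heq, hw0]
  · right
    obtain ⟨h1, n, h2, h3⟩ := T.eq c r _ _ hr hgt e
    rw [hw0] at h2
    rw [← hv] at h3
    exact ⟨h1, n, h2, h3⟩

theorem qc2_surj (h : IsFlow ρ) {A : ℕ → Set X} {L : ℝ} {σ : X → ℝ → ℝ} (T : LTube ρ A L σ)
    (c : X) {r : ℝ} (hr : 0 ≤ r) : ∃ c', ρ (σ c' r) c' = c := by
  have hc : Continuous (fun u : ℝ => u + σ (ρ u c) r) := by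
    have h1 : Continuous (fun u : ℝ => ρ u c) := by
      have := h.cont.comp (continuous_id.prodMk (continuous_const (y := c)) :
        Continuous (fun u : ℝ => (u, c)))
      exact this
    have h2 : Continuous (fun u : ℝ => (ρ u c, r)) := h1.prodMk continuous_const
    exact continuous_id.add (T.cont.comp h2)
  have hr1 : (0:ℝ) ∈ Set.range (fun u : ℝ => u + σ (ρ u c) r) := by
    apply mem_range_of_exists_le_of_exists_ge hc
    · refine ⟨-L, ?_⟩
      have := T.bound (ρ (-L) c) r hr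
      have := (abs_le.1 this).2
      linarith
    · refine ⟨L, ?_⟩
      have := T.bound (ρ L c) r hr
      have := (abs_le.1 this).1
      linarith
  obtain ⟨u, hu⟩ := hr1
  refine ⟨ρ u c, ?_⟩
  rw [← h.add]
  have : σ (ρ u c) r + u = 0 := by
    simp only at hu
    linarith
  rw [this, h.zero]

theorem PQ_surjective (S : SetupQ ρ g D O ε A L σ) (e : ℕ → Bool) :
    Surjective (PQ ρ σ O ε e) := by
  rintro ⟨c, y⟩
  have h0 : ∀ z, ρ 0 z = z := S.flow.zero
  rcases activeQ_cases S e y with h | ⟨k, hk, h⟩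
  · refine ⟨(c, y), ?_⟩
    simp only [PQ, h c, h0]
  · obtain ⟨c', hc'⟩ := qc2_surj S.flow (S.tube k) c (rrQ_nonneg S k y)
    refine ⟨(c', y), ?_⟩
    simp only [PQ, h c', hc']

theorem PQ_ker (S : SetupQ ρ g D O ε A L σ) (e : ℕ → Bool) (x x' : X × Y)
    (h : PQ ρ σ O ε e x = PQ ρ σ O ε e x') : RelQ A O e x x' := by
  obtain ⟨c, y⟩ := x
  obtain ⟨c', y'⟩ := x'
  have h0 : ∀ z, ρ 0 z = z := S.flow.zero
  simp only [PQ, Prod.mk.injEq] at h
  obtain ⟨h1, rfl⟩ := h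
  rcases activeQ_cases S e y with hc | ⟨k, hk, hc⟩
  · rw [hc c, hc c', h0, h0] at h1
    subst h1
    exact Or.inl rfl
  · rw [hc c, hc c'] at h1
    rcases qc2_inj S.flow (S.tube k) (rrQ_nonneg S k y) h1 with h3 | ⟨h3, n, h4, h5⟩
    · subst h3
      exact Or.inl rfl
    · exact Or.inr ⟨rfl, k, hk, rrQ_eq_zero S _ _ h3, n, h4, h5⟩

theorem PQ_rel (S : SetupQ ρ g D O ε A L σ) (e : ℕ → Bool) (x x' : X × Y)
    (h : RelQ A O e x x') : PQ ρ σ O ε e x = PQ ρ σ O ε e x' := by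
  rcases h with rfl | ⟨h2, k, hk, hy, n, h4, h5⟩
  · rfl
  obtain ⟨c, y⟩ := x
  obtain ⟨c', y'⟩ := x'
  simp only at h2
  subst h2
  simp only at hy h4 h5
  have e1 := activeQ S e y k hk hy c
  have e2 := activeQ S e y k hk hy c'
  simp only [PQ, e1, e2]
  rw [(S.tube k).collapse n c c' h4 h5]

theorem RelQ_map (S : SetupQ ρ g D O ε A L σ) (e : ℕ → Bool) (x x' : X × Y)
    (h : RelQ A O e x x') : RelQ A O e (Prod.map g D x) (Prod.map g D x') := by
  rcases h with rfl | ⟨h2, k, hk, hy, n, h4, h5⟩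
  · exact Or.inl rfl
  refine Or.inr ⟨?_, k, hk, ?_, n + 1, ?_, ?_⟩
  · simp only [Prod.map_snd, h2]
  · rw [Prod.map_snd]
    exact S.base.maps k hy
  · rw [Prod.map_fst]
    exact S.maps k n h4
  · rw [Prod.map_fst]
    exact S.maps k n h5

end CPE48
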