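import Pool.Agent.LibCPE48.QA1
import Pool.Agent.LibCPE48.QD

/-! TASK QE1 (~100 lines).  (Covering ⇒ CPE.)  Adapt files E02 and E03.  Use `indep_of_baseQ`
(QA1, stated).

Let `(Z, k, π)` be a factor of `Fe` with `¬ 0 < coverEntropy k univ`.  Put `π' = π ∘ P`;
`π' (g c, D y) = k (π' (c, y))` (from `hF`, `hπ`).  `indep_of_baseQ` gives
`π' (c, y) = π' (c, y')`.  Fix `y₀` and `κ c = π' (c, y₀)`.  For `e k = true`, `y ∈ O k`
(nonempty), `w, w' ∈ [a k, b k]`: `(R w, y)` and `(R w', y)` are `RelQ`-related (`n = 0`), so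
`κ (R w) = κ (R w')`.  So `κ ∘ R` takes countably many values on `[1, ∞)`: `κ (R (a k))`, and the
values on the countable set `Dx`; `κ ∘ R` is continuous and `[1, ∞)` connected, so `κ ∘ R` is constant
on `[1, ∞)` (see `const_of_cover` in file E02: compose with the distance to a value, a countable
preconnected subset of `ℝ` is a subsingleton).  By `hray.dense 1` the points `R w`, `w ≥ 1`, are dense,
so `κ` is constant, so `π` is constant; contradiction with `Nontrivial Z`.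
-/

namespace CPE48

open Set Function Filter Topology

theorem const_of_coverQ {Z : Type*} [MetricSpace Z] (f : ℝ → Z) (hf : Continuous f)
    (a b : ℕ → ℝ) (e : ℕ → Bool)
    (hc : ∀ k, e k = true → ∀ t ∈ Icc (a k) (b k), ∀ t' ∈ Icc (a k) (b k), f t = f t')
    (Dx : Set ℝ) (hDx : Dx.Countable)
    (hcov : ∀ w : ℝ, 1 ≤ w → w ∉ Dx → ∃ k, e k = true ∧ w ∈ Icc (a k) (b k)) (w : ℝ)
    (hw : 1 ≤ w) : f w = f 1 := by
  by_contra hne
  have hg : Continuous fun s : ℝ => dist (f s) (f 1) := hf.dist continuous_const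
  set S : Set ℝ := (fun s : ℝ => dist (f s) (f 1)) '' Ici 1 with hS
  have hpre : IsPreconnected S := isPreconnected_Ici.image _ hg.continuousOn
  have hcount : S.Countable := by
    have hsub : S ⊆ ((fun s : ℝ => dist (f s) (f 1)) '' Dx) ∪
        range fun k : ℕ => dist (f (a k)) (f 1) := by
      rintro _ ⟨s, hs, rfl⟩
      by_cases hsD : s ∈ Dx
      · exact Or.inl ⟨s, hsD, rfl⟩
      · right
        obtain ⟨k, hk, hsk⟩ := hcov s hs hsD
        refine ⟨k, ?_⟩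
        show dist (f (a k)) (f 1) = dist (f s) (f 1)
        rw [hc k hk (a k) ⟨le_rfl, hsk.1.trans hsk.2⟩ s hsk]
    exact ((hDx.image _).union (countable_range _)).mono hsub
  have h0S : (0 : ℝ) ∈ S := ⟨1, mem_Ici.2 le_rfl, dist_self _⟩
  have htS : dist (f w) (f 1) ∈ S := ⟨w, hw, rfl⟩
  have hpos : 0 < dist (f w) (f 1) := dist_pos.2 hne
  have hIcc : Icc 0 (dist (f w) (f 1)) ⊆ S := hpre.Icc_subset h0S htS
  exact absurd (hcount.mono hIcc)
    (fun hh => absurd (Cardinal.Real.Icc_countable_iff.1 hh) (not_le.2 hpos))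

theorem cpe_of_coverQ {X Y : Type} [MetricSpace X] [MetricSpace Y] [Nonempty X] [Nonempty Y]
    {g : X → X} {R : ℝ → X} {γ : ℝ → ℝ} {D : Y → Y} {O : ℕ → Set Y} {ε : ℕ → ℝ}
    (hvis : Vis g) (hY : GoodBase Y D O ε) (hray : RayQ g R γ) (a b : ℕ → ℝ) (e : ℕ → Bool)
    (P Fe : X × Y → X × Y) (hpc : Continuous P) (hps : Surjective P)
    (hF : ∀ x, Fe (P x) = P (Prod.map g D x))
    (hcol : ∀ x x', RelQ (fun k n => (fun w => R (γ^[n] w)) '' Icc (a k) (b k)) O e x x' →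
      P x = P x')
    (Dx : Set ℝ) (hDx : Dx.Countable)
    (hcov : ∀ w : ℝ, 1 ≤ w → w ∉ Dx → ∃ k, e k = true ∧ w ∈ Icc (a k) (b k)) : CPE Fe := by
  intro Z _ _ k π hk hπ hπs hπF hnt
  by_contra hz
  obtain ⟨y₀, -⟩ := hY.nonempty 0
  have hind : ∀ c y y', π (P (c, y)) = π (P (c, y')) := by
    intro c y y'
    refine indep_of_baseQ (g := g) (D := D) hY.surj hY.exact hvis k (fun x => π (P x))
      (hπ.comp hpc) ?_ hz c y y'
    intro c y
    have h1 : π (Fe (P (c, y))) = k (π (P (c, y))) := hπF _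
    rw [hF] at h1
    exact h1
  have hκc : Continuous fun c => π (P (c, y₀)) :=
    (hπ.comp hpc).comp (continuous_id.prodMk continuous_const)
  have hR : ∀ w : ℝ, 1 ≤ w → π (P (R w, y₀)) = π (P (R 1, y₀)) := by
    intro w hw
    refine const_of_coverQ (fun w => π (P (R w, y₀))) (hκc.comp hray.cont) a b e ?_ Dx hDx
      hcov w hw
    intro m hm t ht t' ht'
    obtain ⟨y, hy⟩ := hY.nonempty m
    show π (P (R t, y₀)) = π (P (R t', y₀))
    rw [hind (R t) y₀ y, hind (R t') y₀ y,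
      hcol (R t, y) (R t', y) (Or.inr ⟨rfl, m, hm, hy, 0, ⟨t, ht, rfl⟩, ⟨t', ht', rfl⟩⟩)]
  have hκ : ∀ c, π (P (c, y₀)) = π (P (R 1, y₀)) := by
    intro c
    by_contra hne
    have hop : IsOpen {c : X | π (P (c, y₀)) ≠ π (P (R 1, y₀))} :=
      isOpen_ne_fun hκc continuous_const
    obtain ⟨w, hw, hwN⟩ := hray.dense 1 _ hop ⟨c, hne⟩
    exact hwN (hR w hw)
  obtain ⟨u, v, huv⟩ := hnt
  apply huv
  obtain ⟨x, rfl⟩ := hπs u
  obtain ⟨x', rfl⟩ := hπs v
  obtain ⟨⟨c, y⟩, rfl⟩ := hps x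
  obtain ⟨⟨c', y'⟩, rfl⟩ := hps x'
  calc π (P (c, y)) = π (P (c, y₀)) := hind _ _ _
    _ = π (P (R 1, y₀)) := hκ _
    _ = π (P (c', y₀)) := (hκ _).symm
    _ = π (P (c', y')) := hind _ _ _

end CPE48
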