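import Pool.Agent.LibCPE48.QD

/-! TASK QE2 (~100 lines).  `RR R H` is a closed equivalence relation, and is invariant.

* `RR_equivalence`: transitivity by `hray.inj`.
* `RR_map`: `g (R w) = R (γ w)` and `hH.comp`.
* `RR_closed` (adapt file E05): let `(c, c')` be in the closure, `c ≠ c'`, `η = dist c c' / 3`; let
  `T` from `fib η`.  The set `K = {(R w, R w') : w, w' ∈ [0, T], H w = H w'}` is compact
  (image of a closed subset of a compact set).  Each pair of `RR` at distance `> η` is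
  `(R w, R w')` with `w, w' ≥ 0`, `H w = H w'`, and `w < T` since otherwise
  `dist (R w) (R w') ≤ |w - w'| < η`; by symmetry `w' < T`; so it is in `K`.  So
  `(c, c') ∈ closure K = K ⊆ RR`.
-/

namespace CPE48

open Set Function Filter Topology

variable {X : Type*} [MetricSpace X] {g : X → X} {R : ℝ → X} {γ : ℝ → ℝ} {a b : ℕ → ℝ}
  {e : ℕ → Bool} {H : ℝ → ℝ}

theorem RR_equivalence (hray : RayQ g R γ) (H : ℝ → ℝ) : Equivalence (RR R H) := by
  refine ⟨fun c => Or.inl rfl, ?_, ?_⟩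
  · rintro c c' (rfl | ⟨w, w', h1, h2, h3, h4, h5⟩)
    · exact Or.inl rfl
    · exact Or.inr ⟨w', w, h2, h1, h4, h3, h5.symm⟩
  · rintro c c' c'' (rfl | ⟨w, w', h1, h2, h3, h4, h5⟩) hb
    · exact hb
    · rcases hb with rfl | ⟨v, v', g1, g2, g3, g4, g5⟩
      · exact Or.inr ⟨w, w', h1, h2, h3, h4, h5⟩
      · have h6 : w' = v := hray.inj _ _ (h4.symm.trans g3)
        rw [h6] at h5
        exact Or.inr ⟨w, v', h1, g2, h3, g4, h5.trans g5⟩

theorem RR_map (hray : RayQ g R γ) (hH : CollQ γ a b e H) {c c' : X} (h : RR R H c c') :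
    RR R H (g c) (g c') := by
  rcases h with rfl | ⟨w, w', h1, h2, h3, h4, h5⟩
  · exact Or.inl rfl
  · refine Or.inr ⟨γ w, γ w', hray.nonneg w h1, hray.nonneg w' h2, ?_, ?_,
      hH.comp w w' h1 h2 h5⟩
    · rw [h3]
      exact hray.map w h1
    · rw [h4]
      exact hray.map w' h2

theorem RR_closed (hray : RayQ g R γ) (hH : CollQ γ a b e H) :
    IsClosed {p : X × X | RR R H p.1 p.2} := by
  refine isClosed_of_closure_subset ?_
  rintro ⟨c, c'⟩ hcl
  by_cases hcc : c = c'
  · exact Or.inl hcc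
  have hη : 0 < dist c c' / 3 := by
    have := dist_pos.2 hcc
    linarith
  obtain ⟨T, hT⟩ := hH.fib _ hη
  have hK : IsCompact ((fun x : ℝ × ℝ => (R x.1, R x.2)) ''
      ((Icc 0 T ×ˢ Icc 0 T) ∩ {x : ℝ × ℝ | H x.1 = H x.2})) := by
    refine IsCompact.image ?_ ?_
    · refine (isCompact_Icc.prod isCompact_Icc).inter_right ?_
      exact isClosed_eq (hH.cont.comp continuous_fst) (hH.cont.comp continuous_snd)
    · exact (hray.cont.comp continuous_fst).prodMk (hray.cont.comp continuous_snd)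
  have hN : IsOpen {x : X × X | dist c c' / 3 < dist x.1 x.2} :=
    isOpen_lt continuous_const (continuous_fst.dist continuous_snd)
  have hmem : (c, c') ∈ {x : X × X | dist c c' / 3 < dist x.1 x.2} := by
    change dist c c' / 3 < dist c c'
    linarith
  have h1 := hN.inter_closure ⟨hmem, hcl⟩
  have h2 : {x : X × X | dist c c' / 3 < dist x.1 x.2} ∩ {p : X × X | RR R H p.1 p.2} ⊆
      (fun x : ℝ × ℝ => (R x.1, R x.2)) ''
      ((Icc 0 T ×ˢ Icc 0 T) ∩ {x : ℝ × ℝ | H x.1 = H x.2}) := by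
    rintro ⟨x, y⟩ ⟨hx1, hx2⟩
    have hx3 : dist c c' / 3 < dist x y := hx1
    rcases hx2 with hx2 | ⟨w, w', g1, g2, g3, g4, g5⟩
    · have hxy : x = y := hx2
      rw [hxy, dist_self] at hx3
      linarith
    · have g3' : x = R w := g3
      have g4' : y = R w' := g4
      rw [g3', g4'] at hx3
      have hw : w ≤ T := by
        by_contra hcon
        have h4 := hT w w' g1 g2 g5 (not_le.1 hcon).le
        have h5 := hray.lip w w'
        linarith
      have hw' : w' ≤ T := by
        by_contra hcon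
        have h4 := hT w' w g2 g1 g5.symm (not_le.1 hcon).le
        have h5 := hray.lip w w'
        rw [abs_sub_comm] at h4
        linarith
      exact ⟨(w, w'), ⟨⟨⟨g1, hw⟩, ⟨g2, hw'⟩⟩, g5⟩, by rw [g3', g4']⟩
  have h3 := closure_mono h2 h1
  rw [hK.isClosed.closure_eq] at h3
  obtain ⟨⟨w, w'⟩, ⟨⟨hw, hw'⟩, hH'⟩, he⟩ := h3
  have he' : (R w, R w') = (c, c') := he
  rw [Prod.mk.injEq] at he'
  exact Or.inr ⟨w, w', hw.1, hw'.1, he'.1.symm, he'.2.symm, hH'⟩

end CPE48
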