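import Pool.Agent.LibCPE48.A03
import Pool.Agent.LibCPE48.A04
import Pool.Agent.LibCPE48.D01
import Pool.Agent.LibCPE48.E01
import Pool.Agent.LibCPE48.QE2

/-! TASK QE3 (~90 lines).  (Collapse ⇒ not CPE.)  Adapt file E06.  Use QE2 (stated) and the proved
files A03, A04, D01, E01.

`(Z, q)` = quotient of `X` by `RR R H`; `g' : Z → Z` with `g' (q c) = q (g c)` (`lift_of_ker`,
`RR_map`); `ZE g'`, so no positive entropy; `Z` nontrivial: `R 0` and `R w` with `H w ≠ H 0`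
(`RR` would give `R 0 = R w`, so `w = 0`, or `H w = H 0`, by `hray.inj`).
`RelQ x x' → RR x.1 x'.1`: `x.1 = R (γ^[n] w)`, `x'.1 = R (γ^[n] w')`, `w, w' ∈ [a k, b k]`;
`H w = H w'` by `const`, then `H (γ^[n] w) = H (γ^[n] w')` by induction with `comp` and
`hray.nonneg` (`w ≥ a k ≥ 0`).
So `lift_of_ker` for `P` gives `π` with `π (P x) = q x.1`; conclude as in E06.
-/

namespace CPE48

open Set Function Filter Topology

theorem qe3_iter {X : Type*} [MetricSpace X] {g : X → X} {R : ℝ → X} {γ : ℝ → ℝ}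
    (hray : RayQ g R γ) {a b : ℕ → ℝ} {e : ℕ → Bool} {H : ℝ → ℝ} (hH : CollQ γ a b e H)
    {w w' : ℝ} (hw : 0 ≤ w) (hw' : 0 ≤ w') (hHw : H w = H w') (n : ℕ) :
    0 ≤ γ^[n] w ∧ 0 ≤ γ^[n] w' ∧ H (γ^[n] w) = H (γ^[n] w') := by
  induction n with
  | zero => exact ⟨hw, hw', hHw⟩
  | succ n ih =>
    obtain ⟨h1, h2, h3⟩ := ih
    rw [Function.iterate_succ_apply', Function.iterate_succ_apply']
    exact ⟨hray.nonneg _ h1, hray.nonneg _ h2, hH.comp _ _ h1 h2 h3⟩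

theorem qe3_rel {X Y : Type*} [MetricSpace X] {g : X → X} {R : ℝ → X} {γ : ℝ → ℝ}
    {O : ℕ → Set Y} (hray : RayQ g R γ) (a b : ℕ → ℝ) (ha : ∀ k, 0 ≤ a k) (e : ℕ → Bool)
    (H : ℝ → ℝ) (hH : CollQ γ a b e H) (x x' : X × Y)
    (hr : RelQ (fun k n => (fun w => R (γ^[n] w)) '' Icc (a k) (b k)) O e x x') :
    RR R H x.1 x'.1 := by
  rcases hr with rfl | ⟨-, k, hk, -, n, ⟨w, hw, h1⟩, ⟨w', hw', h2⟩⟩
  · exact Or.inl rfl
  · simp only at h1 h2
    have h0 := hH.const k hk w hw w' hw'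
    obtain ⟨h3, h4, h5⟩ := qe3_iter hray hH ((ha k).trans hw.1) ((ha k).trans hw'.1) h0 n
    exact Or.inr ⟨_, _, h3, h4, h1.symm, h2.symm, h5⟩

theorem not_cpe_of_collQ {X Y : Type} [MetricSpace X] [CompactSpace X]
    [MetricSpace Y] [CompactSpace Y] [Nonempty Y]
    {g : X → X} {R : ℝ → X} {γ : ℝ → ℝ} {D : Y → Y} {O : ℕ → Set Y}
    (hg : Continuous g) (hze : ZE g) (hray : RayQ g R γ) (a b : ℕ → ℝ) (ha : ∀ k, 0 ≤ a k)
    (e : ℕ → Bool) (P Fe : X × Y → X × Y) (hpc : Continuous P) (hps : Surjective P)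
    (hF : ∀ x, Fe (P x) = P (Prod.map g D x))
    (hker : ∀ x x', P x = P x' →
      RelQ (fun k n => (fun w => R (γ^[n] w)) '' Icc (a k) (b k)) O e x x')
    (H : ℝ → ℝ) (hH : CollQ γ a b e H) : ¬ CPE Fe := by
  intro hcpe
  obtain ⟨Z, mZ, cZ, q, hq, hqs, hqR⟩ := exists_quotient_metric (RR R H)
    (RR_equivalence hray H) (RR_closed hray hH)
  obtain ⟨g', hg', hg'q⟩ := lift_of_ker hq hqs (hq.comp hg)
    (fun x x' hx => (hqR _ _).2 (RR_map hray hH ((hqR _ _).1 hx)))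
  have hze' : ZE g' := ZE.factor hq hqs (fun x => (hg'q x).symm) hze
  have hnt : Nontrivial Z := by
    obtain ⟨w, hw0, hw⟩ := hH.nontriv
    refine ⟨q (R w), q (R 0), ?_⟩
    intro hqe
    rcases (hqR _ _).1 hqe with h1 | ⟨s, s', -, -, e1, e2, e3⟩
    · have := hray.inj _ _ h1
      subst this
      exact hw rfl
    · have f1 := hray.inj _ _ e1
      have f2 := hray.inj _ _ e2
      rw [← f1, ← f2] at e3
      exact hw e3
  obtain ⟨π, hπ, hπp⟩ := lift_of_ker hpc hps (f := fun x : X × Y => q x.1)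
    (hq.comp continuous_fst)
    (fun x x' hx => (hqR _ _).2 (qe3_rel hray a b ha e H hH x x' (hker x x' hx)))
  have hπs : Surjective π := by
    intro w
    obtain ⟨c, rfl⟩ := hqs w
    obtain ⟨y⟩ := (inferInstance : Nonempty Y)
    exact ⟨P (c, y), hπp (c, y)⟩
  refine ZE.not_pos_entropy hze' (hcpe Z g' π hg' hπ hπs ?_ hnt)
  intro w
  obtain ⟨x, rfl⟩ := hps w
  rw [hF, hπp, hπp]
  exact (hg'q x.1).symm

end CPE48
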