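import Pool.Agent.LibCPE48.QD
import Pool.Agent.LibCPE48.HT

/-!
# The dyadic arcs of the second construction: definitions
-/

namespace CPE48

open Set Function Filter Topology

/-- a function collapsing the arcs which are on, in the variable `x` -/
structure CollX (a b : ℕ → ℝ) (e : ℕ → Bool) (H : ℝ → ℝ) : Prop where
  cont : Continuous H
  zero : ∀ x ≤ 0, H x = 0
  comp : ∀ x x', H x = H x' → H (x - 1) = H (x' - 1)
  const : ∀ k, e k = true → ∀ x ∈ Icc (a k) (b k), ∀ x' ∈ Icc (a k) (b k), H x = H x'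
  fib : ∀ δ : ℝ, 0 < δ → ∃ T : ℝ, ∀ x x', H x = H x' → T ≤ x → |x - x'| < δ
  nontriv : ∃ x, H x ≠ 0

/-- indices -/
def ixx (k : ℕ) : ℕ × ℕ × ℕ := Denumerable.ofNat (ℕ × ℕ × ℕ) k

/-- generation of the arc `k` -/
def gj (k : ℕ) : ℕ := (ixx k).1

/-- level of the arc `k` -/
def gN (k : ℕ) : ℕ := (ixx k).2.1 + gj k + 3

/-- number of the arc `k` -/
def gm (k : ℕ) : ℕ := (ixx k).2.2

/-- left end point: `j + m / 2^N` (if `m < 2^N`, else a dummy) -/
noncomputable def aq (k : ℕ) : ℝ :=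
  gj k + if gm k < 2 ^ gN k then (gm k : ℝ) / 2 ^ gN k else 0

/-- right end point: `j + (m + 1) / 2^N` (if `m < 2^N`, else a dummy) -/
noncomputable def bq (k : ℕ) : ℝ :=
  aq k + if gm k < 2 ^ gN k then 1 / 2 ^ gN k else 1 / 2 ^ (gN k + gm k)

open Classical in
/-- the switches: the arc `k` is on if for each `l ≤ j` its image under `x ↦ 2^l x` mod 1 is
contained in an interval `[L s, L s + W s]` with `hf s ∉ T` -/
noncomputable def swq (T : Set (List ℕ)) (k : ℕ) : Bool :=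
  decide (gm k < 2 ^ gN k ∧ ∀ l ≤ gj k, ∃ s : List ℕ, hf s ∉ T ∧ ∃ i : ℕ,
    (i : ℝ) + LL s ≤ 2 ^ l * (aq k - gj k) ∧ 2 ^ l * (bq k - gj k) ≤ i + LL s + WW s)

end CPE48
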