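import Pool.Agent.LibCPE48.H02
import Pool.Agent.LibCPE48.QHD

/-! TASK QH1 (~130 lines).  The dyadic arcs: elementary facts, and the covering if `T` has no branch.
File H02 (proved) contains `h02_unit`: if `T` has no branch then for `x ∈ (0, 1]` there is a list `s`
with `hf s ∉ T`, `LL s ≤ x ≤ LL s + WW s`.

* `aq_nonneg`, `aq_lt_bq`, `bq_sub_le`: clear (`gN k ≥ 3`).
* `bq_sub_tendsto`: for `δ > 0` finitely many `k` have `bq k - aq k ≥ δ`: with `(1/2)^M < δ`, such `k`
  has `gN k < M` so `gj k, (ixx k).2.1 < M` and either `gm k < 2^(gN k) ≤ 2^M` or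
  `gN k + gm k < M`; `ixx` is injective (`Denumerable`), `Nat.cofinite_eq_atTop`.
* `coverq`: exceptional set = `{m / 2^N}`.  `LL s`, `WW s` are of this form (induction).  Let `x > 0`
  not of this form, `j = ⌊x⌋₊`, `y = x - j ∈ (0, 1)`.  For `l ≤ j`, `2^l y = i_l + y_l`, `i_l = ⌊2^l y⌋₊`,
  `y_l ∈ (0, 1)`, and `h02_unit` gives `s_l`, with strict inequalities
  `LL s_l < y_l < LL s_l + WW s_l` since `y_l` is not dyadic (else `y`, `x` would be).  Choose
  `N ≥ j + 3` with `2^l / 2^N` less than the two gaps for all `l ≤ j` (finitely many; e.g. induct on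
  the bound or use `Finset.exists_le`, or the eventual filter: `eventually_all_finite`).  Take
  `m = ⌊2^N y⌋₊ < 2^N` and `k` with `ixx k = (j, N - j - 3, m)`.
-/

namespace CPE48

open Set Function Filter Topology

theorem aq_nonneg (k : ℕ) : 0 ≤ aq k := by
  unfold aq
  split_ifs <;> positivity

theorem aq_lt_bq (k : ℕ) : aq k < bq k := by
  unfold bq
  split_ifs <;> simp

theorem qh1_pow_le {a b : ℕ} (h : a ≤ b) : (1 : ℝ) / 2 ^ b ≤ 1 / 2 ^ a :=
  one_div_le_one_div_of_le (by positivity) (pow_le_pow_right₀ (by norm_num) h)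

theorem qh1_pow_lt {a b : ℕ} (h : (1 : ℝ) / 2 ^ a < 1 / 2 ^ b) : b < a := by
  by_contra hc
  exact absurd (qh1_pow_le (not_lt.1 hc)) (not_le.2 h)

theorem bq_sub_le (k : ℕ) : bq k - aq k ≤ 1 / 8 := by
  have h3 : 3 ≤ gN k := by unfold gN; omega
  have h8 : (1 : ℝ) / 2 ^ 3 = 1 / 8 := by norm_num
  unfold bq
  rw [add_sub_cancel_left, ← h8]
  split_ifs
  · exact qh1_pow_le h3
  · exact qh1_pow_le (by omega)

theorem qh1_inj : Injective ixx := by
  intro a b h
  unfold ixx at h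
  have := congrArg Encodable.encode h
  rwa [Denumerable.encode_ofNat, Denumerable.encode_ofNat] at this

theorem bq_sub_tendsto : Tendsto (fun k => bq k - aq k) atTop (𝓝 0) := by
  rw [← Nat.cofinite_eq_atTop, Metric.tendsto_nhds]
  intro δ hδ
  rw [Filter.eventually_cofinite]
  obtain ⟨M, hM⟩ := exists_pow_lt_of_lt_one hδ (show (1 / 2 : ℝ) < 1 by norm_num)
  rw [one_div_pow] at hM
  have hfin : ((Set.Iio M) ×ˢ ((Set.Iio M) ×ˢ (Set.Iio (2 ^ M))) : Set (ℕ × ℕ × ℕ)).Finite :=
    (Set.finite_Iio M).prod ((Set.finite_Iio M).prod (Set.finite_Iio (2 ^ M)))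
  refine (hfin.preimage (f := ixx) qh1_inj.injOn).subset ?_
  intro k hk
  simp only [mem_ofPred_eq, not_lt] at hk
  have hpos : 0 < bq k - aq k := sub_pos.2 (aq_lt_bq k)
  rw [Real.dist_eq, sub_zero, abs_of_pos hpos] at hk
  have h1 : (1 : ℝ) / 2 ^ M < bq k - aq k := lt_of_lt_of_le hM hk
  unfold bq at h1
  rw [add_sub_cancel_left] at h1
  have hN : gN k = (ixx k).2.1 + (ixx k).1 + 3 := rfl
  have hm : gm k = (ixx k).2.2 := rfl
  have hMM : M < 2 ^ M := Nat.lt_two_pow_self
  simp only [mem_preimage, mem_prod, mem_Iio]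
  split_ifs at h1 with hc
  · have h2 := qh1_pow_lt h1
    have h3 : 2 ^ gN k ≤ 2 ^ M := Nat.pow_le_pow_right (by norm_num) h2.le
    refine ⟨by omega, by omega, by omega⟩
  · have h2 := qh1_pow_lt h1
    refine ⟨by omega, by omega, by omega⟩

/-- dyadic numbers -/
def qh1_D (x : ℝ) : Prop := ∃ m N : ℕ, x = m / 2 ^ N

theorem qh1_D_nat (n : ℕ) : qh1_D n := ⟨n, 0, by simp⟩

theorem qh1_D_add {x y : ℝ} (hx : qh1_D x) (hy : qh1_D y) : qh1_D (x + y) := by
  obtain ⟨m, N, rfl⟩ := hx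
  obtain ⟨m', N', rfl⟩ := hy
  refine ⟨m * 2 ^ N' + m' * 2 ^ N, N + N', ?_⟩
  push_cast
  rw [pow_add]
  field_simp

theorem qh1_D_div {x : ℝ} (hx : qh1_D x) (l : ℕ) : qh1_D (x / 2 ^ l) := by
  obtain ⟨m, N, rfl⟩ := hx
  exact ⟨m, N + l, by rw [pow_add, div_div]⟩

theorem qh1_D_LL (s : List ℕ) : qh1_D (LL s) := by
  induction s with
  | nil => exact ⟨0, 0, by simp [LL]⟩
  | cons n s ih =>
    have h := qh1_D_div (qh1_D_add (qh1_D_nat 1) ih) (n + 1)
    have e : LL (n :: s) = ((1 : ℕ) + LL s) / 2 ^ (n + 1) := by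
      simp only [LL]
      rw [one_div_pow]
      push_cast
      ring
    rwa [e]

theorem qh1_D_WW (s : List ℕ) : qh1_D (WW s) := by
  induction s with
  | nil => exact ⟨1, 0, by simp [WW]⟩
  | cons n s ih =>
    have h := qh1_D_div ih (n + 1)
    have e : WW (n :: s) = WW s / 2 ^ (n + 1) := by
      simp only [WW]
      rw [one_div_pow]
      ring
    rwa [e]

theorem coverq (T : Set (List ℕ)) (hT : ¬ ∃ β : ℕ → ℕ, ∀ m, (List.range m).map β ∈ T) :
    ∃ Dx : Set ℝ, Dx.Countable ∧ ∀ x : ℝ, 0 < x → x ∉ Dx →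
      ∃ k, swq T k = true ∧ x ∈ Icc (aq k) (bq k) := by
  refine ⟨{x | qh1_D x}, ?_, ?_⟩
  · have : {x | qh1_D x} = Set.range (fun p : ℕ × ℕ => (p.1 : ℝ) / 2 ^ p.2) := by
      ext x
      simp only [mem_ofPred_eq, mem_range, Prod.exists, qh1_D]
      constructor
      · rintro ⟨m, N, h⟩
        exact ⟨m, N, h.symm⟩
      · rintro ⟨m, N, h⟩
        exact ⟨m, N, h.symm⟩
    rw [this]
    exact Set.countable_range _
  · intro x hx hxD
    simp only [mem_ofPred_eq] at hxD
    set j := ⌊x⌋₊ with hj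
    have hj1 : (j : ℝ) ≤ x := Nat.floor_le hx.le
    have hj2 : x < j + 1 := Nat.lt_floor_add_one x
    set y := x - j with hy
    have hy0 : 0 ≤ y := by linarith
    have hy1 : y < 1 := by linarith
    -- the points `y_l`
    have hl : ∀ l : ℕ, ∃ (i : ℕ) (s : List ℕ), hf s ∉ T ∧ (i : ℝ) + LL s < 2 ^ l * y ∧
        2 ^ l * y < i + LL s + WW s := by
      intro l
      have h2y : (0 : ℝ) ≤ 2 ^ l * y := by positivity
      set i := ⌊(2 : ℝ) ^ l * y⌋₊ with hi
      have hi1 : (i : ℝ) ≤ 2 ^ l * y := Nat.floor_le h2y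
      have hi2 : (2 : ℝ) ^ l * y < i + 1 := Nat.lt_floor_add_one _
      -- not dyadic
      have hnd : ∀ z : ℝ, qh1_D z → 2 ^ l * y ≠ i + z := by
        intro z hz he
        refine hxD ?_
        have h1 : x = (j : ℝ) + ((i : ℝ) + z) / 2 ^ l := by
          rw [← he]
          have : (2 : ℝ) ^ l * y / 2 ^ l = y := by field_simp
          rw [this]
          linarith
        rw [h1]
        exact qh1_D_add (qh1_D_nat j) (qh1_D_div (qh1_D_add (qh1_D_nat i) hz) l)
      have hpos : 0 < 2 ^ l * y - i := by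
        have h0 : (2 : ℝ) ^ l * y ≠ i + (0 : ℕ) := hnd _ (qh1_D_nat 0)
        rcases hi1.lt_or_eq with h | h
        · linarith
        · exact absurd (by rw [← h]; simp) h0
      obtain ⟨s, hs, hs1, hs2⟩ := h02_unit T hT (2 ^ l * y - i) hpos (by linarith)
      refine ⟨i, s, hs, ?_, ?_⟩
      · have := hnd _ (qh1_D_LL s)
        exact lt_of_le_of_ne (by linarith) (fun h => this h.symm)
      · have := hnd _ (qh1_D_add (qh1_D_LL s) (qh1_D_WW s))
        refine lt_of_le_of_ne (by linarith) (fun h => this ?_)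
        rw [h]
        ring
    choose i s hs hs1 hs2 using hl
    -- choice of N
    have htend : ∀ l : ℕ, Tendsto (fun N : ℕ => (2 : ℝ) ^ l / 2 ^ N) atTop (𝓝 0) := by
      intro l
      have h := (tendsto_pow_atTop_nhds_zero_of_lt_one (by norm_num : (0 : ℝ) ≤ 1 / 2)
        (by norm_num)).const_mul ((2 : ℝ) ^ l)
      rw [mul_zero] at h
      refine h.congr (fun N => ?_)
      rw [one_div_pow]
      ring
    have hev : ∀ᶠ N : ℕ in atTop, ∀ l ∈ Finset.range (j + 1),
        (2 : ℝ) ^ l / 2 ^ N < min (2 ^ l * y - (i l + LL (s l)))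
          (i l + LL (s l) + WW (s l) - 2 ^ l * y) := by
      rw [Filter.eventually_all_finset]
      intro l _
      exact (htend l).eventually_lt_const
        (lt_min (by have := hs1 l; linarith) (by have := hs2 l; linarith))
    obtain ⟨N, hN, hN3⟩ := (hev.and (eventually_ge_atTop (j + 3))).exists
    have hp : (0 : ℝ) < 2 ^ N := by positivity
    set m := ⌊(2 : ℝ) ^ N * y⌋₊ with hm
    have hm1 : (m : ℝ) ≤ 2 ^ N * y := Nat.floor_le (by positivity)
    have hm2 : (2 : ℝ) ^ N * y < m + 1 := Nat.lt_floor_add_one _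
    have hm3 : m < 2 ^ N := by
      have : (m : ℝ) < 2 ^ N := by nlinarith
      exact_mod_cast this
    set k := Encodable.encode ((j, N - j - 3, m) : ℕ × ℕ × ℕ) with hk
    have hix : ixx k = (j, N - j - 3, m) := by
      unfold ixx
      exact Denumerable.ofNat_encode _
    have hgj : gj k = j := by unfold gj; rw [hix]
    have hgN : gN k = N := by
      unfold gN
      rw [hgj, hix]
      simp only
      omega
    have hgm : gm k = m := by unfold gm; rw [hix]
    have haq : aq k = j + m / 2 ^ N := by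
      unfold aq
      rw [hgj, hgN, hgm, if_pos hm3]
    have hbq : bq k = j + m / 2 ^ N + 1 / 2 ^ N := by
      unfold bq
      rw [haq, hgN, hgm, if_pos hm3]
    have hy_lo : (m : ℝ) / 2 ^ N ≤ y := by
      rw [div_le_iff₀ hp]
      linarith
    have hy_hi : y ≤ (m : ℝ) / 2 ^ N + 1 / 2 ^ N := by
      rw [← add_div, le_div_iff₀ hp]
      linarith
    refine ⟨k, ?_, ?_⟩
    · unfold swq
      simp only [decide_eq_true_eq]
      refine ⟨by rw [hgm, hgN]; exact hm3, ?_⟩
      intro l hlj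
      rw [hgj] at hlj
      have hlN := hN l (Finset.mem_range.2 (by omega))
      rw [lt_min_iff] at hlN
      have h2l : (0 : ℝ) < 2 ^ l := by positivity
      refine ⟨s l, hs l, i l, ?_, ?_⟩
      · rw [haq, hgj]
        have h1 : (2 : ℝ) ^ l * y ≤ 2 ^ l * (m / 2 ^ N) + 2 ^ l / 2 ^ N := by
          have := mul_le_mul_of_nonneg_left hy_hi h2l.le
          calc (2 : ℝ) ^ l * y ≤ 2 ^ l * (m / 2 ^ N + 1 / 2 ^ N) := this
            _ = _ := by ring
        have h2 : (2 : ℝ) ^ l * ((j : ℝ) + m / 2 ^ N - j) = 2 ^ l * (m / 2 ^ N) := by ring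
        rw [h2]
        linarith [hlN.1]
      · rw [hbq, hgj]
        have h1 : 2 ^ l * ((m : ℝ) / 2 ^ N) ≤ 2 ^ l * y := mul_le_mul_of_nonneg_left hy_lo h2l.le
        have h2 : (2 : ℝ) ^ l * ((j : ℝ) + m / 2 ^ N + 1 / 2 ^ N - j)
            = 2 ^ l * (m / 2 ^ N) + 2 ^ l / 2 ^ N := by ring
        rw [h2]
        linarith [hlN.2]
    · rw [haq, hbq]
      exact ⟨by linarith, by linarith⟩

end CPE48
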