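import Pool.Agent.LibCPE48.H04
import Pool.Agent.LibCPE48.QHD

/-! TASK QH2 (~180 lines).  The collapsing function of a branch.  File H04 (proved) contains the
staircase function `h04_g F x = ⌊x⌋ + F (fract x)` with its properties (continuous, `h04_g_lower`,
`h04_g_upper`, `h04_g_on`, `h04_g_close`, `h04_g_nonneg`, `h04_g_zero`); `F` is as in H03.

Write `C = h04_g F`: it is monotone (prove it: `⌊x⌋ ≤ C x ≤ ⌊x⌋ + 1` and on `[j, j+1]` it is
`j + F(x - j)`; for negative integers too: state it for `j : ℤ` or use `Int.floor`), `C (x + j) = C x + j`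
for integers `j`, `C j = j`, `C ≤ 0` on `(-∞, 0]`.
`H x = ∑' l, (1/2)^(l+1) * max 0 ((1/2)^l * C (2^l * x) - l)`.
For `x ≤ M` (`M : ℕ`) the terms with `l ≥ M` vanish, as `(1/2)^l C(2^l x) ≤ (1/2)^l C(2^l M) = M ≤ l`; so
`H x = ∑ l ∈ range M, ..` for `x ≤ M`: continuity (locally a finite sum).
* each term is monotone in `x`; so `H x = H x'` implies equality of all terms
  (finite sums of monotone functions, take `M ≥ x, x'`).
* `zero`: all terms vanish for `x ≤ 0`.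
* `comp`: `(1/2)^l C(2^l (x-1)) - l = ((1/2)^l C(2^l x) - l) - 1`, so the term `l` at `x - 1` is
  `(1/2)^(l+1) max 0 (max 0 (..) - 1)`: a function of the term `l` at `x`.
* `fib`: let `H x = H x'`, `x ≥ J + 1`, `J ≥ 0` an integer (`l = J`): `(1/2)^J C (2^J x) ≥ J + 1 > J` so the
  terms `J` are positive and `C (2^J x) = C (2^J x')`, so `|2^J x - 2^J x'| ≤ 2` (`h04_g_close` twice),
  `|x - x'| ≤ 2 (1/2)^J < δ` for `J` large; `T = J + 1`.
* `const`: let `swq T k = true`, `j = gj k`, `x, x' ∈ [aq k, bq k] ⊆ [j, j + 1]`.  For `l ≥ j + 1` the terms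
  vanish (`x ≤ j + 1 ≤ l`).  For `l ≤ j`, from the definition of `swq`:
  `2^l x, 2^l x' ∈ 2^l j + i + [LL s, LL s + WW s]`, with `hf s ∉ T`, so
  `hf s ≠ (List.range s.length).map β` and `F (LL s) = F (LL s + WW s)`, so `F` is constant on
  `[LL s, LL s + WW s] ⊆ [0, 1]`; `C` is constant on the translate by the integer `2^l j + i`.
* `nontriv`: `H 1 ≥ (1/2) * C 1 = 1/2`.
-/

namespace CPE48

open Set Function Filter Topology

section

variable {F : ℝ → ℝ}

theorem qh2_mono (mono : Monotone F) (h0 : ∀ t ≤ 0, F t = 0) (h1 : ∀ t, 1 ≤ t → F t = 1) :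
    Monotone (h04_g F) := by
  intro x y hxy
  have hfl : ⌊x⌋ ≤ ⌊y⌋ := Int.floor_mono hxy
  rcases hfl.lt_or_eq with h | h
  · have a := h04_g_upper mono h1 x
    have b := h04_g_lower mono h0 y
    have c : (⌊x⌋ : ℝ) + 1 ≤ ⌊y⌋ := by exact_mod_cast h
    linarith
  · have e : Int.fract x ≤ Int.fract y := by
      have a := Int.floor_add_fract x
      have b := Int.floor_add_fract y
      have c : (⌊x⌋ : ℝ) = ⌊y⌋ := by exact_mod_cast h
      linarith
    have c : (⌊x⌋ : ℝ) = ⌊y⌋ := by exact_mod_cast h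
    have d := mono e
    simp only [h04_g]
    linarith

theorem qh2_add_nat (x : ℝ) (j : ℕ) : h04_g F (x + j) = h04_g F x + j := by
  simp only [h04_g, Int.floor_add_natCast, Int.fract_add_natCast]
  push_cast
  ring

theorem qh2_sub_nat (x : ℝ) (j : ℕ) : h04_g F (x - j) = h04_g F x - j := by
  have h := qh2_add_nat (F := F) (x - j) j
  rw [sub_add_cancel] at h
  linarith

theorem qh2_nat (h0 : ∀ t ≤ 0, F t = 0) (j : ℕ) : h04_g F j = j := by
  have h := qh2_add_nat (F := F) 0 j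
  rw [zero_add, h04_g_zero h0, zero_add] at h
  exact h

/-- the terms -/
noncomputable def qh2_t (F : ℝ → ℝ) (l : ℕ) (x : ℝ) : ℝ :=
  (1 / 2) ^ (l + 1) * max 0 ((1 / 2) ^ l * h04_g F (2 ^ l * x) - l)

theorem qh2_pow (l : ℕ) : ((1 : ℝ) / 2) ^ l * 2 ^ l = 1 := by
  rw [← mul_pow]
  norm_num

theorem qh2_t_mono (mono : Monotone F) (h0 : ∀ t ≤ 0, F t = 0) (h1 : ∀ t, 1 ≤ t → F t = 1)
    (l : ℕ) : Monotone (qh2_t F l) := by
  intro x y hxy
  have hp : (0 : ℝ) < 2 ^ l := by positivity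
  have h := qh2_mono mono h0 h1 (mul_le_mul_of_nonneg_left hxy hp.le)
  unfold qh2_t
  gcongr

theorem qh2_t_zero (mono : Monotone F) (h0 : ∀ t ≤ 0, F t = 0) (h1 : ∀ t, 1 ≤ t → F t = 1)
    (l : ℕ) (x : ℝ) (hx : x ≤ l) : qh2_t F l x = 0 := by
  have hp : (0 : ℝ) < 2 ^ l := by positivity
  have h := qh2_mono mono h0 h1 (mul_le_mul_of_nonneg_left hx hp.le)
  have e : h04_g F (2 ^ l * (l : ℝ)) = 2 ^ l * (l : ℝ) := by
    have := qh2_nat h0 (2 ^ l * l)
    push_cast at this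
    exact this
  rw [e] at h
  have h2 : (1 / 2 : ℝ) ^ l * h04_g F (2 ^ l * x) ≤ l := by
    calc (1 / 2 : ℝ) ^ l * h04_g F (2 ^ l * x) ≤ (1 / 2 : ℝ) ^ l * (2 ^ l * (l : ℝ)) := by gcongr
      _ = l := by rw [← mul_assoc, qh2_pow, one_mul]
  unfold qh2_t
  rw [max_eq_left (by linarith), mul_zero]

theorem qh2_t_cont (hF : Continuous F) (h0 : ∀ t ≤ 0, F t = 0) (h1 : ∀ t, 1 ≤ t → F t = 1)
    (l : ℕ) : Continuous (qh2_t F l) := by
  have h := h04_g_cont hF h0 h1
  have h2 : Continuous fun x : ℝ => h04_g F (2 ^ l * x) := h.comp (continuous_const.mul continuous_id)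
  unfold qh2_t
  exact continuous_const.mul (continuous_const.max ((continuous_const.mul h2).sub continuous_const))

/-- the function -/
noncomputable def qh2_H (F : ℝ → ℝ) (x : ℝ) : ℝ := ∑' l, qh2_t F l x

theorem qh2_H_eq (mono : Monotone F) (h0 : ∀ t ≤ 0, F t = 0) (h1 : ∀ t, 1 ≤ t → F t = 1)
    (M : ℕ) (x : ℝ) (hx : x ≤ M) : qh2_H F x = ∑ l ∈ Finset.range M, qh2_t F l x := by
  refine tsum_eq_sum fun l hl => ?_
  have h2 : M ≤ l := by simpa using hl
  have h3 : (M : ℝ) ≤ l := by exact_mod_cast h2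
  exact qh2_t_zero mono h0 h1 l x (hx.trans h3)

theorem qh2_term_le (mono : Monotone F) (h0 : ∀ t ≤ 0, F t = 0) (h1 : ∀ t, 1 ≤ t → F t = 1)
    (x y : ℝ) (hxy : x ≤ y) (h : qh2_H F x = qh2_H F y) (l : ℕ) :
    qh2_t F l x = qh2_t F l y := by
  obtain ⟨M, hM⟩ := exists_nat_ge y
  by_cases hl : l < M
  · rw [qh2_H_eq mono h0 h1 M x (hxy.trans hM), qh2_H_eq mono h0 h1 M y hM] at h
    have h2 : ∑ l ∈ Finset.range M, (qh2_t F l y - qh2_t F l x) = 0 := by
      rw [Finset.sum_sub_distrib, h, sub_self]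
    rw [Finset.sum_eq_zero_iff_of_nonneg
      (fun i _ => sub_nonneg.2 (qh2_t_mono mono h0 h1 i hxy))] at h2
    have := h2 l (Finset.mem_range.2 hl)
    linarith
  · have h3 : (M : ℝ) ≤ l := by exact_mod_cast not_lt.1 hl
    rw [qh2_t_zero mono h0 h1 l x (by linarith), qh2_t_zero mono h0 h1 l y (by linarith)]

theorem qh2_term (mono : Monotone F) (h0 : ∀ t ≤ 0, F t = 0) (h1 : ∀ t, 1 ≤ t → F t = 1)
    (x y : ℝ) (h : qh2_H F x = qh2_H F y) (l : ℕ) :
    qh2_t F l x = qh2_t F l y := by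
  rcases le_total x y with hxy | hxy
  · exact qh2_term_le mono h0 h1 x y hxy h l
  · exact (qh2_term_le mono h0 h1 y x hxy h.symm l).symm

theorem qh2_t_shift (l : ℕ) (x : ℝ) :
    qh2_t F l (x - 1) = (1 / 2) ^ (l + 1) * max 0 (2 ^ (l + 1) * qh2_t F l x - 1) := by
  have e : h04_g F (2 ^ l * (x - 1)) = h04_g F (2 ^ l * x) - 2 ^ l := by
    have h := qh2_sub_nat (F := F) (2 ^ l * x) (2 ^ l)
    push_cast at h
    rw [← h]
    congr 1
    ring
  set A : ℝ := (1 / 2) ^ l * h04_g F (2 ^ l * x) - l with hA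
  have e2 : (1 / 2 : ℝ) ^ l * h04_g F (2 ^ l * (x - 1)) - l = A - 1 := by
    rw [e, mul_sub, qh2_pow, hA]
    ring
  have e3 : (2 : ℝ) ^ (l + 1) * qh2_t F l x = max 0 A := by
    have := qh2_pow (l + 1)
    unfold qh2_t
    rw [← hA, ← mul_assoc, mul_comm ((2 : ℝ) ^ (l + 1)), this, one_mul]
  rw [e3]
  unfold qh2_t
  rw [e2]
  congr 1
  rcases le_total A 0 with h | h
  · rw [max_eq_left h, max_eq_left (by linarith), max_eq_left (by linarith)]
  · rw [max_eq_right h]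

theorem qh2_cont (hF : Continuous F) (mono : Monotone F) (h0 : ∀ t ≤ 0, F t = 0)
    (h1 : ∀ t, 1 ≤ t → F t = 1) : Continuous (qh2_H F) := by
  rw [continuous_iff_continuousAt]
  intro x
  obtain ⟨M, hM⟩ := exists_nat_gt x
  have h2 : (fun y => ∑ l ∈ Finset.range M, qh2_t F l y) =ᶠ[𝓝 x] qh2_H F := by
    filter_upwards [Iio_mem_nhds hM] with y hy
    exact (qh2_H_eq mono h0 h1 M y (le_of_lt hy)).symm
  have h3 : ContinuousAt (fun y => ∑ l ∈ Finset.range M, qh2_t F l y) x :=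
    (continuous_finsetSum _ fun l _ => qh2_t_cont hF h0 h1 l).continuousAt
  exact h3.congr h2

theorem qh2_fib (mono : Monotone F) (h0 : ∀ t ≤ 0, F t = 0)
    (h1 : ∀ t, 1 ≤ t → F t = 1) (J : ℕ) (x y : ℝ) (h : qh2_H F x = qh2_H F y)
    (hx : (J : ℝ) + 1 ≤ x) : |x - y| ≤ 2 * (1 / 2) ^ J := by
  have ht := qh2_term mono h0 h1 x y h J
  have hp : (0 : ℝ) < 2 ^ J := by positivity
  have hq : (0 : ℝ) < (1 / 2) ^ J := by positivity
  have hq' : (0 : ℝ) < (1 / 2) ^ (J + 1) := by positivity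
  have hA : (J : ℝ) + 1 ≤ (1 / 2) ^ J * h04_g F (2 ^ J * x) := by
    have h2 := qh2_mono mono h0 h1 (mul_le_mul_of_nonneg_left hx hp.le)
    have e : h04_g F (2 ^ J * ((J : ℝ) + 1)) = 2 ^ J * ((J : ℝ) + 1) := by
      have := qh2_nat h0 (2 ^ J * (J + 1))
      push_cast at this
      exact this
    rw [e] at h2
    calc (J : ℝ) + 1 = (1 / 2) ^ J * (2 ^ J * ((J : ℝ) + 1)) := by
          rw [← mul_assoc, qh2_pow, one_mul]
      _ ≤ _ := by gcongr
  unfold qh2_t at ht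
  have ht2 := mul_left_cancel₀ hq'.ne' ht
  rw [max_eq_right (by linarith)] at ht2
  have hB : (1 / 2 : ℝ) ^ J * h04_g F (2 ^ J * y) - J =
      (1 / 2) ^ J * h04_g F (2 ^ J * x) - J := by
    rcases le_total 0 ((1 / 2 : ℝ) ^ J * h04_g F (2 ^ J * y) - J) with h3 | h3
    · rw [max_eq_right h3] at ht2
      exact ht2.symm
    · rw [max_eq_left h3] at ht2
      linarith
  have hC : h04_g F (2 ^ J * x) = h04_g F (2 ^ J * y) :=
    mul_left_cancel₀ hq.ne' (by linarith)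
  have a := h04_g_close mono h0 h1 _ _ hC
  have b := h04_g_close mono h0 h1 _ _ hC.symm
  have e1 : x - y = (1 / 2) ^ J * (2 ^ J * x - 2 ^ J * y) := by
    rw [← mul_sub, ← mul_assoc, qh2_pow, one_mul]
  rw [abs_le]
  constructor
  · rw [e1]
    nlinarith
  · rw [e1]
    nlinarith

theorem qh2_bq_le (k : ℕ) (hk : gm k < 2 ^ gN k) : bq k ≤ gj k + 1 := by
  unfold bq aq
  rw [if_pos hk, if_pos hk]
  have h2 : (gm k : ℝ) + 1 ≤ 2 ^ gN k := by exact_mod_cast hk
  have hp : (0 : ℝ) < 2 ^ gN k := by positivity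
  have h3 : (gm k : ℝ) / 2 ^ gN k + 1 / 2 ^ gN k ≤ 1 := by
    rw [← add_div, div_le_one hp]
    exact h2
  linarith

end

theorem collX_of_cantor (T : Set (List ℕ)) (β : ℕ → ℕ)
    (hβ : ∀ m, (List.range m).map β ∈ T) (F : ℝ → ℝ) (hF : Continuous F) (mono : Monotone F)
    (h0 : ∀ t ≤ 0, F t = 0) (h1 : ∀ t, 1 ≤ t → F t = 1)
    (hc : ∀ s : List ℕ, hf s ≠ (List.range s.length).map β → F (LL s) = F (LL s + WW s)) :
    ∃ H : ℝ → ℝ, CollX aq bq (swq T) H := by
  refine ⟨qh2_H F, qh2_cont hF mono h0 h1, ?_, ?_, ?_, ?_, ?_⟩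
  · intro x hx
    rw [qh2_H_eq mono h0 h1 0 x (by simpa using hx), Finset.range_zero, Finset.sum_empty]
  · intro x x' h
    unfold qh2_H
    refine tsum_congr fun l => ?_
    rw [qh2_t_shift, qh2_t_shift, qh2_term mono h0 h1 x x' h l]
  · intro k hk x hx x' hx'
    have hsw : gm k < 2 ^ gN k ∧ ∀ l ≤ gj k, ∃ s : List ℕ, hf s ∉ T ∧ ∃ i : ℕ,
        (i : ℝ) + LL s ≤ 2 ^ l * (aq k - gj k) ∧ 2 ^ l * (bq k - gj k) ≤ i + LL s + WW s := by
      classical
      unfold swq at hk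
      exact of_decide_eq_true hk
    obtain ⟨hm, hl⟩ := hsw
    have hb := qh2_bq_le k hm
    unfold qh2_H
    refine tsum_congr fun l => ?_
    rcases Nat.lt_or_ge (gj k) l with h | h
    · have h2 : (gj k : ℝ) + 1 ≤ l := by exact_mod_cast h
      rw [qh2_t_zero mono h0 h1 l x (by linarith [hx.2]),
        qh2_t_zero mono h0 h1 l x' (by linarith [hx'.2])]
    · obtain ⟨s, hs, i, hi1, hi2⟩ := hl l h
      have hne : hf s ≠ (List.range s.length).map β := fun h => hs (h ▸ hβ _)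
      have hFe := hc s hne
      have hL := h04_LL_nonneg s
      have hW := h04_WW_nonneg s
      have hLW := h04_le_one s
      have hp : (0 : ℝ) < 2 ^ l := by positivity
      have key : ∀ y ∈ Icc (aq k) (bq k),
          h04_g F (2 ^ l * y) = ((2 ^ l * gj k + i : ℕ) : ℝ) + F (LL s) := by
        intro y hy
        have a1 : 2 ^ l * (aq k - gj k) ≤ 2 ^ l * (y - gj k) :=
          mul_le_mul_of_nonneg_left (by linarith [hy.1]) hp.le
        have a2 : 2 ^ l * (y - gj k) ≤ 2 ^ l * (bq k - gj k) :=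
          mul_le_mul_of_nonneg_left (by linarith [hy.2]) hp.le
        have e : (2 : ℝ) ^ l * y - ((2 ^ l * gj k + i : ℕ) : ℝ) = 2 ^ l * (y - gj k) - i := by
          push_cast
          ring
        have b1 : LL s ≤ (2 : ℝ) ^ l * y - ((2 ^ l * gj k + i : ℕ) : ℝ) := by
          rw [e]; linarith
        have b2 : (2 : ℝ) ^ l * y - ((2 ^ l * gj k + i : ℕ) : ℝ) ≤ LL s + WW s := by
          rw [e]; linarith
        rw [h04_g_on h0 h1 (2 ^ l * gj k + i) (2 ^ l * y) (by linarith) (by linarith)]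
        have c1 := mono b1
        have c2 := mono b2
        rw [← hFe] at c2
        rw [le_antisymm c2 c1]
      unfold qh2_t
      rw [key x hx, key x' hx']
  · intro δ hδ
    obtain ⟨J, hJ⟩ := exists_pow_lt_of_lt_one (show (0 : ℝ) < δ / 2 by positivity)
      (show (1 / 2 : ℝ) < 1 by norm_num)
    refine ⟨J + 1, fun x x' h hx => ?_⟩
    have h2 := qh2_fib mono h0 h1 J x x' h hx
    linarith
  · refine ⟨1, ?_⟩
    rw [qh2_H_eq mono h0 h1 1 1 (by norm_num), Finset.sum_range_one]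
    unfold qh2_t
    have e : h04_g F (2 ^ 0 * 1) = 1 := by
      rw [pow_zero, one_mul, h04_g_one h0]
    rw [e]
    norm_num

end CPE48
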