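import Pool.Agent.LibCPE48.I02
import Pool.Agent.LibCPE48.QHD

/-! TASK QI1 (~70 lines).  Measurability of the switches, and the torus of dimension `m + 3`.

* `swq_measurable`: from `hT` (with `ix k = (0, s)`, `k = Encodable.encode (0, s)`,
  `Denumerable.ofNat_encode`) the set `{a | hf s ∉ T a}` is measurable for every list `s`.  Then
  `measurable_pi_iff`, `measurable_to_bool`: the set `{a | swq (T a) k = true}` is a finite
  intersection over `l ≤ gj k` of countable unions over `s : List ℕ` of measurable sets (or `∅` if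
  `gm k ≥ 2^gN k`): `MeasurableSet.iInter`, `MeasurableSet.iUnion`.
* `torus_homeoQ`: adapt I02 (`torus_homeo`, proved there for `m + 5`).
-/

namespace CPE48

open Set Function Filter Topology MeasureTheory

theorem qi1_meas {α : Type*} [MeasurableSpace α] (T : α → Set (List ℕ))
    (hT : Measurable (fun a => sw (T a))) (s : List ℕ) : MeasurableSet {a | hf s ∉ T a} := by
  have h := (measurable_pi_iff.1 hT) (Encodable.encode ((0 : ℕ), s))
  have h2 : MeasurableSet ((fun a => sw (T a) (Encodable.encode ((0 : ℕ), s))) ⁻¹' {true}) :=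
    h (measurableSet_singleton _)
  have h3 : {a | hf s ∉ T a} =
      ((fun a => sw (T a) (Encodable.encode ((0 : ℕ), s))) ⁻¹' {true}) := by
    ext a
    simp [sw, ix, Denumerable.ofNat_encode]
  rw [h3]
  exact h2

theorem swq_measurable {α : Type*} [MeasurableSpace α] (T : α → Set (List ℕ))
    (hT : Measurable (fun a => sw (T a))) : Measurable (fun a => swq (T a)) := by
  rw [measurable_pi_iff]
  intro k
  apply measurable_to_bool
  have h3 : ((fun a => swq (T a) k) ⁻¹' {true}) = {_a | gm k < 2 ^ gN k} ∩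
      ⋂ l : ℕ, ⋂ _ : l ≤ gj k, ⋃ s : List ℕ, {a | hf s ∉ T a} ∩ {_a | ∃ i : ℕ,
        (i : ℝ) + LL s ≤ 2 ^ l * (aq k - gj k) ∧ 2 ^ l * (bq k - gj k) ≤ i + LL s + WW s} := by
    ext a
    simp only [swq, mem_preimage, mem_singleton_iff, decide_eq_true_eq, mem_inter_iff,
      mem_ofPred_eq, mem_iInter, mem_iUnion]
  rw [h3]
  refine (MeasurableSet.const _).inter (MeasurableSet.iInter fun l => MeasurableSet.iInter fun _ =>
    MeasurableSet.iUnion fun s => (qi1_meas T hT s).inter (MeasurableSet.const _))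

theorem torus_homeoQ (m : ℕ) :
    Nonempty ((UnitAddCircle × UnitAddCircle) × (Fin (m + 1) → UnitAddCircle) ≃ₜ
      (Fin (m + 3) → UnitAddCircle)) := by
  let e1 : UnitAddCircle × UnitAddCircle ≃ₜ (Fin 2 → UnitAddCircle) :=
    Homeomorph.finTwoArrow.symm
  let e3 : (UnitAddCircle × UnitAddCircle) ×
      (Fin (m + 1) → UnitAddCircle) ≃ₜ (Fin (2 + (m + 1)) → UnitAddCircle) :=
    (e1.prodCongr (Homeomorph.refl _)).trans (Fin.appendHomeomorph 2 (m + 1))
  have h : 2 + (m + 1) = m + 3 := by omega
  exact ⟨e3.trans (Homeomorph.piCongrLeft (Y := fun _ => UnitAddCircle) (finCongr h))⟩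

end CPE48
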