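import Pool.Agent.LibCPE48.A01
import Pool.Agent.LibCPE48.QC2
import Pool.Agent.LibCPE48.QE1
import Pool.Agent.LibCPE48.QE3

/-! TASK QM1 (~50 lines).  Main theorem on the family of maps, second construction.  Adapt file M01:
`exists_lift` (D01) with `p e = PQ ρ σ O ε e`, `q e x = p e (Prod.map g D x)`; mixing by
`Mixing.factor`, `Mixing.prod`, `mixing_of_exact`; the rest is `cpe_of_coverQ`, `not_cpe_of_collQ`.
-/

namespace CPE48

open Set Function Filter Topology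

theorem main_dynQ {X Y : Type} [MetricSpace X] [CompactSpace X] [Nonempty X]
    [MetricSpace Y] [CompactSpace Y] [Nonempty Y]
    {ρ : ℝ → X → X} {g : X → X} {R : ℝ → X} {γ : ℝ → ℝ} {D : Y → Y} {O : ℕ → Set Y}
    {ε : ℕ → ℝ} {a b : ℕ → ℝ} {L : ℕ → ℝ} {σ : ℕ → X → ℝ → ℝ}
    (S : SetupQ ρ g D O ε (fun k n => (fun w => R (γ^[n] w)) '' Icc (a k) (b k)) L σ)
    (hray : RayQ g R γ) (ha : ∀ k, 0 ≤ a k) (hmix : Mixing g) (hze : ZE g) (hvis : Vis g) :
    ∃ F : C(ℕ → Bool, C(X × Y, X × Y)),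
      (∀ e, Mixing (F e)) ∧
      (∀ e, (∃ Dx : Set ℝ, Dx.Countable ∧ ∀ w : ℝ, 1 ≤ w → w ∉ Dx →
        ∃ k, e k = true ∧ w ∈ Icc (a k) (b k)) → CPE (F e)) ∧
      (∀ e, (∃ H : ℝ → ℝ, CollQ γ a b e H) → ¬ CPE (F e)) := by
  have hPQ := PQ_continuous S
  have hGG : Continuous (Prod.map g D) := S.gc.prodMap S.base.cont
  have hpe : ∀ e, Continuous (PQ ρ σ O ε e) := fun e =>
    hPQ.comp (continuous_const.prodMk continuous_id)
  obtain ⟨F, hF⟩ := exists_lift (E := ℕ → Bool) (fun e x => PQ ρ σ O ε e x)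
    (fun e x => PQ ρ σ O ε e (Prod.map g D x)) hPQ
    (hPQ.comp (continuous_fst.prodMk (hGG.comp continuous_snd)))
    (fun e => PQ_surjective S e)
    (fun e x x' hx => PQ_rel S e _ _ (RelQ_map S e x x' (PQ_ker S e x x' hx)))
  have hmixG : Mixing (Prod.map g D) :=
    Mixing.prod hmix (mixing_of_exact S.base.surj S.base.exact)
  refine ⟨F, ?_, ?_, ?_⟩
  · intro e
    exact Mixing.factor (hpe e) (PQ_surjective S e) (fun x => (hF e x).symm) hmixG
  · rintro e ⟨Dx, hDx, hcov⟩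
    exact cpe_of_coverQ hvis S.base hray a b e (PQ ρ σ O ε e) (F e) (hpe e) (PQ_surjective S e)
      (fun x => hF e x) (fun x x' hx => PQ_rel S e x x' hx) Dx hDx hcov
  · rintro e ⟨H, hH⟩
    exact not_cpe_of_collQ S.gc hze hray a b ha e (PQ ρ σ O ε e) (F e) (hpe e)
      (PQ_surjective S e) (fun x => hF e x) (fun x x' hx => PQ_ker S e x x' hx) H hH

end CPE48
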