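import Pool.Agent.LibCPE48.QD

/-! TASK QS1 (~130 lines).  Global solutions of `y' = V (ρ y c)`, jointly continuous in `(c, t)`, by
a contraction in a weighted norm.

Let `E = BoundedContinuousFunction (X × ℝ) ℝ` (complete).  For `w ∈ E` put
`Θ w (c, t) = exp(-2|t|) * ∫ τ in 0..t, V (ρ (exp(2|τ|) * w (c, τ)) c)`.
It is continuous in `(c, t)` (parametric interval integral with variable end point:
`intervalIntegral.continuous_parametric_intervalIntegral_of_continuous`), and bounded by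
`|t| exp(-2|t|) ≤ 1` (`0 ≤ V ≤ 1`).  It is a contraction with constant `1/2`: by `h.lip`,
`|V (ρ (exp(2|τ|) w) c) - V (ρ (exp(2|τ|) w') c)| ≤ exp(2|τ|) ‖w - w'‖` and
`exp(-2|t|) |∫_0^t exp(2|τ|) dτ| ≤ 1/2`.  [To avoid absolute values one may use the weight
`exp(2|t|)` only through the inequality `|∫_0^t exp(2|τ|)| ≤ exp(2|t|)/2`, proved for `t ≥ 0` and
`t ≤ 0` by substitution `τ → -τ` or `intervalIntegral.integral_comp_neg`.]
By `ContractingWith.fixedPoint` get `w` with `Θ w = w`; put `r c t = exp(2|t|) * w (c, t)`.  Then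
`r c t = ∫ τ in 0..t, V (ρ (r c τ) c)`, and `deriv` follows from
`intervalIntegral.integral_hasDerivAt_right` / `Continuous.deriv_integral` (continuous integrand).
-/

namespace CPE48

open Set Function Filter Topology

theorem qs1_exp (t : ℝ) : |∫ τ in (0:ℝ)..t, Real.exp (2 * |τ|)| ≤ Real.exp (2 * |t|) / 2 := by
  rcases le_total 0 t with ht | ht
  · have h1 : ∫ τ in (0:ℝ)..t, Real.exp (2 * |τ|) = ∫ τ in (0:ℝ)..t, Real.exp (2 * τ) := by
      apply intervalIntegral.integral_congr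
      intro τ hτ
      rw [uIcc_of_le ht] at hτ
      simp only [abs_of_nonneg hτ.1]
    have h2 : ∫ τ in (0:ℝ)..t, Real.exp (2 * τ) = Real.exp (2 * t) / 2 - Real.exp (2 * 0) / 2 := by
      apply intervalIntegral.integral_eq_sub_of_hasDerivAt (f := fun τ => Real.exp (2 * τ) / 2)
      · intro τ _
        have h3 : HasDerivAt (fun τ : ℝ => 2 * τ) 2 τ := by
          simpa using (hasDerivAt_id τ).const_mul 2
        have h4 := h3.exp.div_const 2
        have h5 : Real.exp (2 * τ) * 2 / 2 = Real.exp (2 * τ) := by ring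
        rw [h5] at h4
        exact h4
      · exact Continuous.intervalIntegrable (by fun_prop) _ _
    rw [h1, h2, abs_of_nonneg ht, abs_of_nonneg]
    · rw [mul_zero, Real.exp_zero]
      linarith
    · have : Real.exp 0 ≤ Real.exp (2 * t) := Real.exp_le_exp.mpr (by linarith)
      rw [Real.exp_zero] at this
      rw [mul_zero, Real.exp_zero]
      linarith
  · have h1 : ∫ τ in (0:ℝ)..t, Real.exp (2 * |τ|) = ∫ τ in (0:ℝ)..t, Real.exp (-2 * τ) := by
      apply intervalIntegral.integral_congr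
      intro τ hτ
      rw [uIcc_of_ge ht] at hτ
      simp only [abs_of_nonpos hτ.2]
      congr 1
      ring
    have h2 : ∫ τ in (0:ℝ)..t, Real.exp (-2 * τ) =
        -Real.exp (-2 * t) / 2 - -Real.exp (-2 * 0) / 2 := by
      apply intervalIntegral.integral_eq_sub_of_hasDerivAt (f := fun τ => -Real.exp (-2 * τ) / 2)
      · intro τ _
        have h3 : HasDerivAt (fun τ : ℝ => -2 * τ) (-2) τ := by
          simpa using (hasDerivAt_id τ).const_mul (-2)
        have h4 := h3.exp.neg.div_const 2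
        have h5 : -(Real.exp (-2 * τ) * -2) / 2 = Real.exp (-2 * τ) := by ring
        rw [h5] at h4
        exact h4
      · exact Continuous.intervalIntegrable (by fun_prop) _ _
    rw [h1, h2, abs_of_nonpos ht, abs_of_nonpos]
    · have h6 : (-2 : ℝ) * t = 2 * -t := by ring
      rw [h6, mul_zero, Real.exp_zero]
      linarith
    · have : Real.exp 0 ≤ Real.exp (-2 * t) := Real.exp_le_exp.mpr (by linarith)
      rw [Real.exp_zero] at this
      rw [mul_zero, Real.exp_zero]
      linarith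

/-- the integrand -/
noncomputable def qs1_F {X : Type*} (ρ : ℝ → X → X) (V : X → ℝ) (w : X × ℝ → ℝ) (c : X) (τ : ℝ) :
    ℝ := V (ρ (Real.exp (2 * |τ|) * w (c, τ)) c)

theorem qs1_cont {X : Type*} [MetricSpace X] {ρ : ℝ → X → X} {V : X → ℝ} {p : X}
    (h : SData ρ V p) {w : X × ℝ → ℝ} (hw : Continuous w) :
    Continuous (fun q : X × ℝ => qs1_F ρ V w q.1 q.2) := by
  unfold qs1_F
  have h1 : Continuous (fun q : X × ℝ => (Real.exp (2 * |q.2|) * w (q.1, q.2), q.1)) := by
    fun_prop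
  exact h.Vc.comp (h.flow.cont.comp h1)

theorem qs1_contI {X : Type*} [MetricSpace X] {ρ : ℝ → X → X} {V : X → ℝ} {p : X}
    (h : SData ρ V p) {w : X × ℝ → ℝ} (hw : Continuous w) :
    Continuous (fun q : X × ℝ => ∫ τ in (0:ℝ)..q.2, qs1_F ρ V w q.1 τ) := by
  apply intervalIntegral.continuous_parametric_intervalIntegral_of_continuous
    (f := fun (q : X × ℝ) τ => qs1_F ρ V w q.1 τ) (s := fun q : X × ℝ => q.2)
  · have h1 : Continuous (fun z : (X × ℝ) × ℝ => ((z.1.1, z.2) : X × ℝ)) := by fun_prop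
    exact (qs1_cont h hw).comp h1
  · exact continuous_snd

theorem qs1_slice {X : Type*} [MetricSpace X] {ρ : ℝ → X → X} {V : X → ℝ} {p : X}
    (h : SData ρ V p) {w : X × ℝ → ℝ} (hw : Continuous w) (c : X) :
    Continuous (fun τ : ℝ => qs1_F ρ V w c τ) :=
  (qs1_cont h hw).comp (Continuous.prodMk_right c)

theorem qs1_bd {X : Type*} [MetricSpace X] {ρ : ℝ → X → X} {V : X → ℝ} {p : X}
    (h : SData ρ V p) (w : X × ℝ → ℝ) (c : X) (t : ℝ) :
    |∫ τ in (0:ℝ)..t, qs1_F ρ V w c τ| ≤ |t| := by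
  have h1 := intervalIntegral.norm_integral_le_of_norm_le_const (a := 0) (b := t) (C := 1)
    (f := fun τ => qs1_F ρ V w c τ) (by
      intro x _
      unfold qs1_F
      rw [Real.norm_eq_abs, abs_of_nonneg (h.V0 _)]
      exact h.V1 _)
  rw [Real.norm_eq_abs] at h1
  simpa using h1

theorem qs1_norm {X : Type*} [MetricSpace X] {ρ : ℝ → X → X} {V : X → ℝ} {p : X}
    (h : SData ρ V p) (w : X × ℝ → ℝ) (q : X × ℝ) :
    ‖Real.exp (-(2 * |q.2|)) * ∫ τ in (0:ℝ)..q.2, qs1_F ρ V w q.1 τ‖ ≤ 1 := by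
  rw [norm_mul, Real.norm_eq_abs, Real.norm_eq_abs, abs_of_pos (Real.exp_pos _)]
  have h1 := qs1_bd h w q.1 q.2
  have h2 : |q.2| ≤ Real.exp (2 * |q.2|) := by
    have := Real.add_one_le_exp (2 * |q.2|)
    have h3 := abs_nonneg q.2
    linarith
  have h3 : Real.exp (-(2 * |q.2|)) * Real.exp (2 * |q.2|) = 1 := by
    rw [← Real.exp_add]; simp
  calc Real.exp (-(2 * |q.2|)) * |∫ τ in (0:ℝ)..q.2, qs1_F ρ V w q.1 τ|
      ≤ Real.exp (-(2 * |q.2|)) * Real.exp (2 * |q.2|) :=
        mul_le_mul_of_nonneg_left (h1.trans h2) (Real.exp_pos _).le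
    _ = 1 := h3

/-- the operator -/
noncomputable def qs1_Th {X : Type*} [MetricSpace X] {ρ : ℝ → X → X} {V : X → ℝ} {p : X}
    (h : SData ρ V p) (w : BoundedContinuousFunction (X × ℝ) ℝ) :
    BoundedContinuousFunction (X × ℝ) ℝ :=
  BoundedContinuousFunction.ofNormedAddCommGroup
    (fun q : X × ℝ => Real.exp (-(2 * |q.2|)) * ∫ τ in (0:ℝ)..q.2, qs1_F ρ V w q.1 τ)
    ((by fun_prop : Continuous (fun q : X × ℝ => Real.exp (-(2 * |q.2|)))).mul
      (qs1_contI h w.continuous)) 1 (qs1_norm h w)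

theorem qs1_contr {X : Type*} [MetricSpace X] {ρ : ℝ → X → X} {V : X → ℝ} {p : X}
    (h : SData ρ V p) : ContractingWith (1 / 2) (qs1_Th h) := by
  refine ⟨by norm_num, LipschitzWith.of_dist_le_mul ?_⟩
  intro w w'
  rw [BoundedContinuousFunction.dist_le (by positivity)]
  rintro ⟨c, t⟩
  have h0 : dist (qs1_Th h w (c, t)) (qs1_Th h w' (c, t)) =
      Real.exp (-(2 * |t|)) * |∫ τ in (0:ℝ)..t, (qs1_F ρ V w c τ - qs1_F ρ V w' c τ)| := by
    rw [intervalIntegral.integral_sub
      ((qs1_slice h w.continuous c).intervalIntegrable _ _)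
      ((qs1_slice h w'.continuous c).intervalIntegrable _ _), Real.dist_eq]
    change |Real.exp (-(2 * |t|)) * (∫ τ in (0:ℝ)..t, qs1_F ρ V w c τ) -
      Real.exp (-(2 * |t|)) * (∫ τ in (0:ℝ)..t, qs1_F ρ V w' c τ)| = _
    rw [← mul_sub, abs_mul, abs_of_pos (Real.exp_pos _)]
  rw [h0]
  have h1 : |∫ τ in (0:ℝ)..t, (qs1_F ρ V w c τ - qs1_F ρ V w' c τ)| ≤
      |∫ τ in (0:ℝ)..t, Real.exp (2 * |τ|) * dist w w'| := by
    rw [← Real.norm_eq_abs]
    apply intervalIntegral.norm_integral_le_abs_of_norm_le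
    · refine Filter.Eventually.of_forall ?_
      intro τ
      rw [Real.norm_eq_abs]
      unfold qs1_F
      refine (h.lip _ _ _).trans ?_
      rw [← mul_sub, abs_mul, abs_of_pos (Real.exp_pos _), ← Real.dist_eq]
      exact mul_le_mul_of_nonneg_left (BoundedContinuousFunction.dist_coe_le_dist _)
        (Real.exp_pos _).le
    · exact Continuous.intervalIntegrable (by fun_prop) _ _
  rw [intervalIntegral.integral_mul_const, abs_mul, abs_of_nonneg dist_nonneg] at h1
  have h2 := qs1_exp t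
  have h3 : Real.exp (-(2 * |t|)) * Real.exp (2 * |t|) = 1 := by
    rw [← Real.exp_add]; simp
  calc Real.exp (-(2 * |t|)) * |∫ τ in (0:ℝ)..t, (qs1_F ρ V w c τ - qs1_F ρ V w' c τ)|
      ≤ Real.exp (-(2 * |t|)) * (Real.exp (2 * |t|) / 2 * dist w w') :=
        mul_le_mul_of_nonneg_left (h1.trans (mul_le_mul_of_nonneg_right h2 dist_nonneg))
          (Real.exp_pos _).le
    _ = (Real.exp (-(2 * |t|)) * Real.exp (2 * |t|)) * (1 / 2 * dist w w') := by ring
    _ = _ := by
      rw [h3]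
      simp

theorem exists_isR {X : Type*} [MetricSpace X] {ρ : ℝ → X → X} {V : X → ℝ} {p : X}
    (h : SData ρ V p) : ∃ r : X → ℝ → ℝ, IsR ρ V r := by
  set w := ContractingWith.fixedPoint (qs1_Th h) (qs1_contr h) with hwdef
  have hw : qs1_Th h w = w := ContractingWith.fixedPoint_isFixedPt (qs1_contr h)
  have hr : ∀ c t, Real.exp (2 * |t|) * w (c, t) = ∫ τ in (0:ℝ)..t, qs1_F ρ V w c τ := by
    intro c t
    have h1 : w (c, t) = Real.exp (-(2 * |t|)) * ∫ τ in (0:ℝ)..t, qs1_F ρ V w c τ := by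
      conv_lhs => rw [← hw]
      rfl
    rw [h1, ← mul_assoc, ← Real.exp_add]
    simp
  refine ⟨fun c t => Real.exp (2 * |t|) * w (c, t), ?_, ?_, ?_⟩
  · have : Continuous (fun q : X × ℝ => w (q.1, q.2)) := w.continuous
    exact (by fun_prop : Continuous (fun q : X × ℝ => Real.exp (2 * |q.2|))).mul this
  · intro c
    simp only [hr]
    simp
  · intro c t
    have h2 : (fun t => Real.exp (2 * |t|) * w (c, t)) =
        fun t => ∫ τ in (0:ℝ)..t, qs1_F ρ V w c τ := by
      funext t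
      exact hr c t
    change HasDerivAt (fun t => Real.exp (2 * |t|) * w (c, t)) (qs1_F ρ V w c t) t
    rw [h2]
    exact ((qs1_slice h w.continuous c).integral_hasStrictDerivAt 0 t).hasDerivAt

end CPE48
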