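import Pool.Agent.LibCPE48.QS3

/-! TASK QS4 (~70 lines).  The time-one map of the stopped flow is topologically mixing.  Use QS2,
QS3 (stated).

`Mixing (fl 1)`: let `U, V'` be open and nonempty; we need points `x ∈ V'` with
`(fl 1)^[m] x ∈ U` for all large `m`; `(fl 1)^[m] x = fl m x = ρ (r x m) x` (induction with
`fl_flow`).  By `hback` pick `u > 0` with `x₀ = ρ (-u) p ∈ V'`, by `hfwd` pick `u' > 0` with
`ρ u' p ∈ U`; `R = u + u'`, `ρ R x₀ = ρ u' p ∈ U`.  Choose `η > 0` with `ball x₀ η ⊆ V'` and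
`ball (ρ R x₀) η ⊆ U`; let `γ` be the path from `hpath u η`.  By `r_top`, `r (γ 1) m ≥ R` for `m ≥ M`; and
`r (γ 0) m < u < R` by `r_ray_lt`.  By the IVT (`l ↦ r (γ l) m` is continuous on `[0, 1]`) there is
`l ∈ [0, 1]` with `r (γ l) m = R`; `x = γ l ∈ V'`, `fl m x = ρ R (γ l)`, and
`dist (ρ R (γ l)) (ρ R x₀) = dist (γ l) x₀ < η`.
-/

namespace CPE48

open Set Function Filter Topology

theorem qs4_iter {X : Type*} [MetricSpace X] {ρ : ℝ → X → X} {r : X → ℝ → ℝ}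
    (hf : IsFlow (fl ρ r)) (m : ℕ) (c : X) : (fl ρ r 1)^[m] c = fl ρ r m c := by
  induction m with
  | zero => simp [hf.zero]
  | succ m ih =>
    rw [Function.iterate_succ_apply', ih, ← hf.add]
    congr 1
    push_cast
    ring

theorem fl_mixing {X : Type*} [MetricSpace X] {ρ : ℝ → X → X} {V : X → ℝ} {p : X}
    {r : X → ℝ → ℝ} (h : SData ρ V p) (hr : IsR ρ V r)
    (hback : ∀ W : Set X, IsOpen W → W.Nonempty → ∃ u : ℝ, 0 < u ∧ ρ (-u) p ∈ W)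
    (hfwd : ∀ W : Set X, IsOpen W → W.Nonempty → ∃ u : ℝ, 0 < u ∧ ρ u p ∈ W)
    (hpath : ∀ u : ℝ, 0 < u → ∀ η : ℝ, 0 < η → ∃ γ : ℝ → X, Continuous γ ∧
      γ 0 = ρ (-u) p ∧ (∀ l ∈ Icc (0:ℝ) 1, dist (γ l) (ρ (-u) p) < η) ∧
      ∀ v, 0 ≤ v → ρ v (γ 1) ≠ p) : Mixing (fl ρ r 1) := by
  intro U W hU hW hUne hWne
  obtain ⟨u, hu, huW⟩ := hback W hW hWne
  obtain ⟨u', hu', huU⟩ := hfwd U hU hUne
  have hRx : ρ (u + u') (ρ (-u) p) = ρ u' p := by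
    rw [← h.flow.add]; congr 1; ring
  have hRU : ρ (u + u') (ρ (-u) p) ∈ U := by rw [hRx]; exact huU
  obtain ⟨η1, hη1, hb1⟩ := Metric.isOpen_iff.mp hW _ huW
  obtain ⟨η2, hη2, hb2⟩ := Metric.isOpen_iff.mp hU _ hRU
  obtain ⟨γ, hγ, hγ0, hγd, hγ1⟩ := hpath u hu (min η1 η2) (lt_min hη1 hη2)
  have ht : Tendsto (r (γ 1)) atTop atTop := r_top h hr hγ1
  obtain ⟨T, hT⟩ := (tendsto_atTop.mp ht (u + u')).exists_forall_of_atTop
  obtain ⟨M, hM⟩ := exists_nat_ge T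
  refine ⟨M, fun m hm => ?_⟩
  have hmT : T ≤ (m:ℝ) := hM.trans (by exact_mod_cast hm)
  have h1 : u + u' ≤ r (γ 1) m := hT _ hmT
  have h0 : r (γ 0) m < u + u' := by
    rw [hγ0]
    have := r_ray_lt h hr hu (m:ℝ)
    linarith
  have hcont : ContinuousOn (fun l => r (γ l) m) (Icc 0 1) :=
    (hr.cont.comp (hγ.prodMk continuous_const)).continuousOn
  obtain ⟨l, hl, hlR⟩ := intermediate_value_Icc zero_le_one hcont
    (⟨h0.le, h1⟩ : (u + u') ∈ Icc (r (γ 0) m) (r (γ 1) m))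
  have hlR' : r (γ l) m = u + u' := hlR
  have hd := hγd l hl
  refine ⟨γ l, ?_, ?_⟩
  · show (fl ρ r 1)^[m] (γ l) ∈ U
    rw [qs4_iter (fl_flow h hr)]
    apply hb2
    rw [Metric.mem_ball]
    unfold fl
    rw [hlR', h.iso]
    exact lt_of_lt_of_le hd (min_le_right _ _)
  · apply hb1
    rw [Metric.mem_ball]
    exact lt_of_lt_of_le hd (min_le_left _ _)

end CPE48
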