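import Pool.Agent.LibCPE48.QS5

/-! TASK QS6 (~180 lines).  A line preserving, order preserving map has zero entropy.  Use QS5
(stated).  [See also file F04, by helper46, for the same kind of counting.]

`g c = ρ (s c) c`.  Given `ε, η > 0`.  Put `e = ε / 8`.  Choose an integer `L ≥ 1` such that, with
`M₁ = ⌈L / e⌉₊ + 3`, `M₂ = (L + 1) * (⌈L / e⌉₊ + 4)`, we have `M₁ * M₂ ≤ exp(η L)` (polynomial
against exponential).  By `ps_unif` (with `L`, `e`) get `δ`, and put `δ' = min δ e`.  By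
compactness there are `N₀`, `cell : X → Fin N₀` and centres `q : Fin N₀ → X` with
`dist x (q (cell x)) < δ'` (`finite_cover_balls_of_compact`; if `X` is empty everything is trivial,
or treat by `Fin 1`..).
For `x : X` put `a_j = ps ρ s x (j L) 0`, `m_j = ⌊a_j / e⌋`.  Description of `x` for `n`:
`cell x` and, for `j < Q := n / L + 1`, the pair (`inc_j`, `cls_j`) where
`inc_j = m_{j+1} - m_j` (in `[0, L/e + 1]`, since `0 ≤ a_{j+1} - a_j ≤ L`) and
`cls_j = ∑ i ∈ range (L + 1), (⌊ps (q) i a_j / e⌋ - ⌊ps (q) i (m_j e) / e⌋)`, `q = q (cell x)`.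
Each term is `≥ 0` (`m_j e ≤ a_j`, `ps_mono`, `Int.floor_le_floor`) and
`≤ (e + L) / e + 1` (`ps_bounds`: `ps q i a_j ≤ a_j + L < m_j e + e + L`, `ps q i (m_j e) ≥ m_j e`);
so `0 ≤ cls_j ≤ (L+1) (L/e + 3)`.  Use `Fin N₀ × (Fin Q → Fin M₁ × Fin M₂)` (with `Int.toNat`), of
cardinality `N₀ (M₁ M₂)^Q ≤ N₀ exp(η L Q) ≤ N₀ exp(η (n + L))`: take `K = N₀ exp(η L)`.
Suppose `x, x'` have the same description (`a_j, a'_j`).  `m_j = m'_j` for `j ≤ Q` by induction
(`m_0 = 0`).  For each `j < Q`, if `a_j ≤ a'_j` (the other case is symmetric) then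
`⌊ps q i a_j / e⌋ ≤ ⌊ps q i a'_j / e⌋` for each `i ≤ L` and the sums over `i` are equal (the subtracted
terms agree), so they are equal for each `i` (`Finset.sum_eq_sum_iff_of_le`), hence
`|ps q i a_j - ps q i a'_j| < e`.  For an index `k < n` write `k = j L + i`, `i < L`, `j < Q`:
`ps x k 0 = ps x i a_j` (`ps_add`), so
`|ps x k 0 - ps x' k 0| ≤ |ps x i a_j - ps q i a_j| + e + |ps q i a'_j - ps x' i a'_j| < 3 e`, and
`dist (g^[k] x) (g^[k] x') ≤ dist x x' + 3 e < 2 e + 3 e < ε` (`rho_dist`, `ps_iter` with `u = 0`).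
-/

namespace CPE48

open Set Function Filter Topology

theorem qs6_code {X : Type*} (g : X → ℕ → ℤ) (M Q : ℕ) (h0 : ∀ p p', g p 0 = g p' 0)
    (h1 : ∀ p i, g p i ≤ g p (i + 1)) (h2 : ∀ p i, g p (i + 1) < g p i + M) :
    ∃ d : X → (Fin Q → Fin M), ∀ p p', d p = d p' → ∀ i ≤ Q, g p i = g p' i := by
  refine ⟨fun p i => ⟨(g p (i + 1) - g p i).toNat, by
    have := h1 p i; have := h2 p i; omega⟩, fun p p' hd i => ?_⟩
  induction i with
  | zero => intro _; exact h0 p p'
  | succ i ih =>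
    intro hi
    have ih := ih (by omega)
    have e := congrArg Fin.val (congrFun hd ⟨i, by omega⟩)
    simp only at e
    have a1 := h1 p i
    have a2 := h1 p' i
    omega

theorem qs6_cells {X : Type*} [MetricSpace X] [CompactSpace X] (δ : ℝ) (hδ : 0 < δ) :
    ∃ (N : ℕ) (cell : X → Fin N) (q : Fin N → X), ∀ x, dist x (q (cell x)) < δ := by
  obtain ⟨t, -, ht, hcov⟩ :=
    finite_cover_balls_of_compact (isCompact_univ : IsCompact (univ : Set X)) hδ
  have : ∀ p : X, ∃ x : t, dist p x < δ := by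
    intro p
    have := hcov (mem_univ p)
    simp only [mem_iUnion, Metric.mem_ball, exists_prop] at this
    obtain ⟨x, hx, hp⟩ := this
    exact ⟨⟨x, hx⟩, hp⟩
  choose c hc using this
  have : Finite t := ht
  obtain ⟨N, ⟨e⟩⟩ := Finite.exists_equiv_fin t
  refine ⟨N, fun p => e (c p), fun i => (e.symm i : X), fun p => ?_⟩
  simp only [Equiv.symm_apply_apply]
  exact hc p

theorem qs6_choose (e η : ℝ) (he : 0 < e) (hη : 0 < η) :
    ∃ L : ℕ, 1 ≤ L ∧ (((⌈(L : ℝ) / e⌉₊ + 3) * ((L + 1) * (⌈(L : ℝ) / e⌉₊ + 4)) : ℕ) : ℝ) ≤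
      Real.exp (η * L) := by
  set C : ℝ := (1 / e + 4) * (2 * (1 / e + 5)) with hC
  have hCpos : 0 < C := by positivity
  obtain ⟨L, hL⟩ := exists_nat_ge (24 * C / η ^ 4 + 1)
  have hpos : 0 < 24 * C / η ^ 4 := by positivity
  have hL1 : (1 : ℝ) ≤ L := by linarith
  refine ⟨L, by exact_mod_cast hL1, ?_⟩
  have h1 := Real.pow_div_factorial_le_exp (η * L) (by positivity) 4
  have h2 : C * (L : ℝ) ^ 3 ≤ (η * L) ^ 4 / (Nat.factorial 4 : ℕ) := by
    have h3 : 24 * C / η ^ 4 ≤ L := by linarith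
    rw [div_le_iff₀ (by positivity)] at h3
    have h4 : ((Nat.factorial 4 : ℕ) : ℝ) = 24 := by norm_num [Nat.factorial]
    rw [h4, le_div_iff₀ (by norm_num)]
    calc C * (L : ℝ) ^ 3 * 24 = (24 * C) * (L : ℝ) ^ 3 := by ring
      _ ≤ (L * η ^ 4) * (L : ℝ) ^ 3 := by gcongr
      _ = (η * L) ^ 4 := by ring
  have h3 : (⌈(L : ℝ) / e⌉₊ : ℝ) < (L : ℝ) / e + 1 := Nat.ceil_lt_add_one (by positivity)
  have h0 : 0 ≤ (⌈(L : ℝ) / e⌉₊ : ℝ) := by positivity
  have hLe : (L : ℝ) / e = (1 / e) * L := by ring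
  push_cast
  have h5 : (⌈(L : ℝ) / e⌉₊ : ℝ) + 3 ≤ (1 / e + 4) * L := by nlinarith
  have h6 : (⌈(L : ℝ) / e⌉₊ : ℝ) + 4 ≤ (1 / e + 5) * L := by nlinarith
  have h7 : (L : ℝ) + 1 ≤ 2 * L := by linarith
  calc ((⌈(L : ℝ) / e⌉₊ : ℝ) + 3) * (((L : ℝ) + 1) * ((⌈(L : ℝ) / e⌉₊ : ℝ) + 4))
      ≤ ((1 / e + 4) * L) * ((2 * L) * ((1 / e + 5) * L)) := by gcongr
    _ = C * (L : ℝ) ^ 3 := by rw [hC]; ring
    _ ≤ Real.exp (η * L) := h2.trans h1

theorem qs6_sum (f g : ℕ → ℤ) (n : ℕ) (hfg : (∀ i, f i ≤ g i) ∨ ∀ i, g i ≤ f i)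
    (hs : ∑ i ∈ Finset.range n, f i = ∑ i ∈ Finset.range n, g i) (i : ℕ) (hi : i < n) :
    f i = g i := by
  rcases hfg with h | h
  · exact (Finset.sum_eq_sum_iff_of_le (fun i _ => h i)).mp hs i (Finset.mem_range.mpr hi)
  · exact ((Finset.sum_eq_sum_iff_of_le (fun i _ => h i)).mp hs.symm i
      (Finset.mem_range.mpr hi)).symm

theorem qs6_card (N M₁ M₂ L n Q : ℕ) (η : ℝ) (hη : 0 < η)
    (hM : ((M₁ * M₂ : ℕ) : ℝ) ≤ Real.exp (η * L)) (hQ : Q = n / L + 1) :
    (N : ℝ) * ((M₁ : ℝ) ^ Q * (M₂ : ℝ) ^ Q) ≤ N * Real.exp (η * L) * Real.exp (η * n) := by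
  rw [← mul_pow]
  push_cast at hM
  have h1 : ((M₁ : ℝ) * M₂) ^ Q ≤ Real.exp (η * L) ^ Q := by gcongr
  have h2 : Real.exp (η * L) ^ Q ≤ Real.exp (η * L) * Real.exp (η * n) := by
    rw [← Real.exp_nat_mul, ← Real.exp_add]
    apply Real.exp_le_exp.2
    have : (Q : ℝ) * L ≤ n + L := by
      have h3 : n / L * L ≤ n := Nat.div_mul_le_self n L
      have h4 : Q * L ≤ n + L := by rw [hQ]; nlinarith
      exact_mod_cast h4
    calc (Q : ℝ) * (η * L) = η * (Q * L) := by ring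
      _ ≤ η * (n + L) := by gcongr
      _ = η * L + η * n := by ring
  calc (N : ℝ) * ((M₁ : ℝ) * M₂) ^ Q ≤ N * (Real.exp (η * L) * Real.exp (η * n)) := by
        gcongr
        exact h1.trans h2
    _ = N * Real.exp (η * L) * Real.exp (η * n) := by ring

theorem line_ze {X : Type*} [MetricSpace X] [CompactSpace X] {ρ : ℝ → X → X} {s : X → ℝ}
    (h : IsFlow ρ) (iso : ∀ u c c', dist (ρ u c) (ρ u c') = dist c c')
    (speed : ∀ u c, dist (ρ u c) c ≤ |u|) (hs : Continuous s) (h0 : ∀ c, 0 ≤ s c)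
    (h1 : ∀ c, s c ≤ 1) (hm : ∀ c, Monotone (fun u => u + s (ρ u c))) :
    ZE (fun c => ρ (s c) c) := by
  intro ε hε η hη
  set e := ε / 8 with he
  have hepos : 0 < e := by positivity
  obtain ⟨L, hL1, hLM⟩ := qs6_choose e η hepos hη
  set B : ℕ := ⌈(L : ℝ) / e⌉₊ with hB
  have hLB : (L : ℝ) / e ≤ B := Nat.le_ceil _
  obtain ⟨δ, hδ, hunif⟩ := ps_unif h iso speed hs L e hepos
  obtain ⟨N, cell, q, hq⟩ := qs6_cells (X := X) (min δ e) (lt_min hδ hepos)
  let a : X → ℕ → ℝ := fun x j => ps ρ s x (j * L) 0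
  let m : X → ℕ → ℤ := fun x j => ⌊a x j / e⌋
  have astep : ∀ x j, a x j ≤ a x (j + 1) ∧ a x (j + 1) ≤ a x j + L := by
    intro x j
    have h2 : a x (j + 1) = ps ρ s x L (a x j) := by
      change ps ρ s x ((j + 1) * L) 0 = _
      rw [add_mul, one_mul, ps_add]
    rw [h2]
    exact ps_bounds h0 h1 x L (a x j)
  have m0 : ∀ x, m x 0 = 0 := by
    intro x
    have : a x 0 = 0 := by simp [a, ps]
    simp [m, this]
  have m1 : ∀ x j, m x j ≤ m x (j + 1) := by
    intro x j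
    apply Int.floor_le_floor
    have := (astep x j).1
    gcongr
  have m2 : ∀ x j, m x (j + 1) < m x j + (B + 3 : ℕ) := by
    intro x j
    have a1 := Int.floor_le (a x (j + 1) / e)
    have a2 := Int.lt_floor_add_one (a x j / e)
    have a3 : a x (j + 1) / e ≤ a x j / e + L / e := by
      rw [← add_div]
      have := (astep x j).2
      gcongr
    have : ((m x (j + 1) : ℤ) : ℝ) < ((m x j + (B + 3 : ℕ) : ℤ) : ℝ) := by
      simp only [m]
      push_cast
      linarith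
    exact_mod_cast this
  -- the class
  have ma : ∀ x j, (m x j : ℝ) * e ≤ a x j ∧ a x j < (m x j : ℝ) * e + e := by
    intro x j
    have a1 := Int.floor_le (a x j / e)
    have a2 := Int.lt_floor_add_one (a x j / e)
    rw [le_div_iff₀ hepos] at a1
    rw [div_lt_iff₀ hepos, add_mul, one_mul] at a2
    exact ⟨a1, a2⟩
  let term : X → ℕ → ℕ → ℤ := fun x j i =>
    ⌊ps ρ s (q (cell x)) i (a x j) / e⌋ - ⌊ps ρ s (q (cell x)) i ((m x j : ℝ) * e) / e⌋
  have t0 : ∀ x j i, 0 ≤ term x j i := by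
    intro x j i
    have h2 : ps ρ s (q (cell x)) i ((m x j : ℝ) * e) ≤ ps ρ s (q (cell x)) i (a x j) :=
      ps_mono hm _ i (ma x j).1
    have h3 : ⌊ps ρ s (q (cell x)) i ((m x j : ℝ) * e) / e⌋ ≤
        ⌊ps ρ s (q (cell x)) i (a x j) / e⌋ := by
      apply Int.floor_le_floor
      gcongr
    simp only [term]
    linarith
  have t1 : ∀ x j i, i < L + 1 → term x j i ≤ (B + 3 : ℕ) := by
    intro x j i hi
    have b1 := (ps_bounds (ρ := ρ) h0 h1 (q (cell x)) i (a x j)).2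
    have b2 := (ps_bounds (ρ := ρ) h0 h1 (q (cell x)) i ((m x j : ℝ) * e)).1
    have b3 := (ma x j).2
    have hiL : (i : ℝ) ≤ L := by
      have : i ≤ L := by omega
      exact_mod_cast this
    have a1 := Int.floor_le (ps ρ s (q (cell x)) i (a x j) / e)
    have a2 := Int.lt_floor_add_one (ps ρ s (q (cell x)) i ((m x j : ℝ) * e) / e)
    have a3 : ps ρ s (q (cell x)) i (a x j) / e ≤
        ps ρ s (q (cell x)) i ((m x j : ℝ) * e) / e + 1 + L / e := by
      have h4 : ps ρ s (q (cell x)) i (a x j) ≤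
          ps ρ s (q (cell x)) i ((m x j : ℝ) * e) + e + L := by linarith
      calc ps ρ s (q (cell x)) i (a x j) / e
          ≤ (ps ρ s (q (cell x)) i ((m x j : ℝ) * e) + e + L) / e := by gcongr
        _ = _ := by rw [add_div, add_div, div_self hepos.ne']
    have : ((term x j i : ℤ) : ℝ) < (((B + 3 : ℕ) : ℤ) : ℝ) := by
      simp only [term]
      push_cast
      linarith
    have h5 : term x j i < ((B + 3 : ℕ) : ℤ) := by exact_mod_cast this
    exact h5.le
  let cls : X → ℕ → ℤ := fun x j => ∑ i ∈ Finset.range (L + 1), term x j i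
  have c0 : ∀ x j, 0 ≤ cls x j := fun x j => Finset.sum_nonneg (fun i _ => t0 x j i)
  have c1 : ∀ x j, cls x j < (((L + 1) * (B + 4) : ℕ) : ℤ) := by
    intro x j
    have h2 : cls x j ≤ ∑ i ∈ Finset.range (L + 1), ((B + 3 : ℕ) : ℤ) :=
      Finset.sum_le_sum (fun i hi => t1 x j i (Finset.mem_range.mp hi))
    rw [Finset.sum_const, Finset.card_range, nsmul_eq_mul] at h2
    refine lt_of_le_of_lt h2 ?_
    push_cast
    nlinarith
  refine ⟨N * Real.exp (η * L), fun n => ?_⟩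
  set Q := n / L + 1 with hQ
  obtain ⟨d, hd⟩ := qs6_code m (B + 3) Q (fun p p' => by rw [m0, m0]) m1 m2
  refine ⟨Fin N × ((Fin Q → Fin (B + 3)) × (Fin Q → Fin ((L + 1) * (B + 4)))), inferInstance,
    fun x => (cell x, d x, fun j => ⟨(cls x j).toNat, by
      have := c0 x j
      have := c1 x j
      omega⟩), ?_, ?_⟩
  · have hcard : (Fintype.card (Fin N × ((Fin Q → Fin (B + 3)) ×
        (Fin Q → Fin ((L + 1) * (B + 4))))) : ℝ) =
        N * (((B + 3 : ℕ) : ℝ) ^ Q * (((L + 1) * (B + 4) : ℕ) : ℝ) ^ Q) := by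
      rw [Fintype.card_prod, Fintype.card_prod, Fintype.card_fin, Fintype.card_fun,
        Fintype.card_fun, Fintype.card_fin, Fintype.card_fin, Fintype.card_fin]
      push_cast
      ring
    rw [hcard]
    exact qs6_card N (B + 3) ((L + 1) * (B + 4)) L n Q η hη hLM hQ
  · intro x x' hxx k hk
    have hcell : cell x = cell x' := congrArg Prod.fst hxx
    have hd1 : d x = d x' := congrArg (fun z => z.2.1) hxx
    have hd2 := congrArg (fun z => z.2.2) hxx
    simp only at hd2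
    set j := k / L with hj
    have hjQ : j < Q := by
      have : k / L ≤ n / L := Nat.div_le_div_right hk.le
      omega
    have hmj : m x j = m x' j := hd x x' hd1 j hjQ.le
    have hcls : cls x j = cls x' j := by
      have h2 := congrArg Fin.val (congrFun hd2 ⟨j, hjQ⟩)
      simp only at h2
      have h3 := c0 x j
      have h4 := c0 x' j
      omega
    set i := k % L with hi
    have hiL : i < L := Nat.mod_lt _ (by omega)
    have hk2 : k = j * L + i := (Nat.div_add_mod' k L).symm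
    have hsum : ∑ i ∈ Finset.range (L + 1), ⌊ps ρ s (q (cell x)) i (a x j) / e⌋ =
        ∑ i ∈ Finset.range (L + 1), ⌊ps ρ s (q (cell x)) i (a x' j) / e⌋ := by
      have h2 : cls x j = ∑ i ∈ Finset.range (L + 1), ⌊ps ρ s (q (cell x)) i (a x j) / e⌋ -
          ∑ i ∈ Finset.range (L + 1), ⌊ps ρ s (q (cell x)) i ((m x j : ℝ) * e) / e⌋ := by
        rw [← Finset.sum_sub_distrib]
      have h3 : cls x' j = ∑ i ∈ Finset.range (L + 1), ⌊ps ρ s (q (cell x)) i (a x' j) / e⌋ -
          ∑ i ∈ Finset.range (L + 1), ⌊ps ρ s (q (cell x)) i ((m x j : ℝ) * e) / e⌋ := by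
        rw [← Finset.sum_sub_distrib]
        simp only [cls, term, hcell, hmj]
      linarith
    have hmono : (∀ i, ⌊ps ρ s (q (cell x)) i (a x j) / e⌋ ≤
        ⌊ps ρ s (q (cell x)) i (a x' j) / e⌋) ∨
        ∀ i, ⌊ps ρ s (q (cell x)) i (a x' j) / e⌋ ≤ ⌊ps ρ s (q (cell x)) i (a x j) / e⌋ := by
      rcases le_total (a x j) (a x' j) with hle | hle
      · left
        intro i
        apply Int.floor_le_floor
        have := ps_mono hm (q (cell x)) i hle
        gcongr
      · right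
        intro i
        apply Int.floor_le_floor
        have := ps_mono hm (q (cell x)) i hle
        gcongr
    have heq := qs6_sum _ _ (L + 1) hmono hsum i (by omega)
    have hmid : |ps ρ s (q (cell x)) i (a x j) - ps ρ s (q (cell x)) i (a x' j)| < e := by
      have := Int.abs_sub_lt_one_of_floor_eq_floor heq
      rw [← sub_div, abs_div, abs_of_pos hepos, div_lt_one hepos] at this
      exact this
    have hx1 : |ps ρ s x i (a x j) - ps ρ s (q (cell x)) i (a x j)| < e :=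
      hunif x _ (lt_of_lt_of_le (hq x) (min_le_left _ _)) i hiL.le _
    have hx2 : |ps ρ s x' i (a x' j) - ps ρ s (q (cell x)) i (a x' j)| < e := by
      rw [hcell]
      exact hunif x' _ (lt_of_lt_of_le (hq x') (min_le_left _ _)) i hiL.le _
    have hpk : ∀ x, ps ρ s x k 0 = ps ρ s x i (a x j) := by
      intro x
      rw [hk2, ps_add]
    have hdiff : |ps ρ s x k 0 - ps ρ s x' k 0| < 3 * e := by
      rw [hpk x, hpk x']
      rw [abs_lt] at hmid hx1 hx2 ⊢
      constructor <;> linarith [hmid.1, hmid.2, hx1.1, hx1.2, hx2.1, hx2.2]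
    have hit : ∀ x, (fun c => ρ (s c) c)^[k] x = ρ (ps ρ s x k 0) x := by
      intro x
      have := ps_iter (s := s) h x k 0
      rw [h.zero] at this
      exact this.symm
    rw [hit, hit]
    have hxx' : dist x x' < 2 * e := by
      have h2 := lt_of_lt_of_le (hq x) (min_le_right _ _)
      have h3 := lt_of_lt_of_le (hq x') (min_le_right _ _)
      rw [← hcell] at h3
      calc dist x x' ≤ dist x (q (cell x)) + dist x' (q (cell x)) := dist_triangle_right _ _ _
        _ < 2 * e := by linarith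
    calc dist (ρ (ps ρ s x k 0) x) (ρ (ps ρ s x' k 0) x')
        ≤ dist x x' + |ps ρ s x k 0 - ps ρ s x' k 0| := rho_dist h iso speed _ _ _ _
      _ < ε := by
        rw [he] at *
        linarith

end CPE48
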