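import Pool.Agent.LibCPE48.QD

/-! TASK QS8 (~90 lines).  Two lemmas.

* `avg_shift` (pure real analysis): `∫_0^n f = ∑_{i<n} ∫_0^1 f (i + s) ds = ∫_0^1 ∑_{i<n} f (i + s) ds`
  (`intervalIntegral.sum_integral_adjacent_intervals`, `integral_finset_sum`, substitution), and a
  continuous function on `[0, 1]` takes a value `≥` its integral (otherwise
  `intervalIntegral.integral_lt_integral...`, or take the max on the compact `[0,1]`).
* `recur`: let `v ∈ N`, `0 < η ≤ 1` with `ball v (3 η) ⊆ N`, `b c = max 0 (1 - dist c v / (3 η))`;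
  `b` is `1/3`-bounded below on `closedBall v (2 η)`.  Let `M` be given by `hd v η`.  For every `t` and
  `c`, the window `[t, t + M + 1]` contains `u` with `dist (ρ u c) v < η` (apply `hd` to `ρ t c`), and for
  `s ∈ [0, η]`, `dist (ρ (u + s) c) v ≤ η + s ≤ 2 η` (`dist (ρ s x) x ≤ |s|`), so
  `∫_t^{t+M+1} b (ρ u c) du ≥ η / 3`.  For `R ≥ M + 1`, `[0, R]` contains
  `K = ⌊R / (M+1)⌋₊ ≥ R / (2 (M + 1))` consecutive windows, so `∫_0^R ≥ K η / 3 ≥ θ R` with
  `θ = η / (6 (M + 1))`.
-/

namespace CPE48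

open Set Function Filter Topology

theorem avg_shift (f : ℝ → ℝ) (hf : Continuous f) (n : ℕ) :
    ∃ s ∈ Icc (0:ℝ) 1, ∫ t in (0:ℝ)..n, f t ≤ ∑ i ∈ Finset.range n, f (i + s) := by
  have hG : Continuous (fun s : ℝ => ∑ i ∈ Finset.range n, f (i + s)) :=
    continuous_finsetSum _ (fun i _ => hf.comp (continuous_const.add continuous_id))
  obtain ⟨s, hs, hmax⟩ := isCompact_Icc.exists_isMaxOn (nonempty_Icc.mpr (zero_le_one (α := ℝ)))
    hG.continuousOn
  refine ⟨s, hs, ?_⟩
  have h1 : ∫ t in (0:ℝ)..n, f t = ∫ s in (0:ℝ)..1, ∑ i ∈ Finset.range n, f (i + s) := by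
    rw [intervalIntegral.integral_finsetSum]
    · have h2 : ∀ i ∈ Finset.range n,
          ∫ s in (0:ℝ)..1, f (i + s) = ∫ t in ((i : ℕ) : ℝ)..((i + 1 : ℕ) : ℝ), f t := by
        intro i _
        rw [intervalIntegral.integral_comp_add_left (fun t => f t) (i : ℝ)]
        simp
      rw [Finset.sum_congr rfl h2]
      rw [intervalIntegral.sum_integral_adjacent_intervals (a := fun k : ℕ => (k : ℝ))]
      · simp
      · intro k _
        exact hf.intervalIntegrable _ _
    · intro i _
      exact (hf.comp (continuous_const.add continuous_id)).intervalIntegrable _ _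
  rw [h1]
  have h3 : ∫ x in (0:ℝ)..1, ∑ i ∈ Finset.range n, f (i + x) ≤
      ∫ _ in (0:ℝ)..1, ∑ i ∈ Finset.range n, f (i + s) :=
    intervalIntegral.integral_mono_on zero_le_one (hG.intervalIntegrable _ _)
      (intervalIntegrable_const) (fun x hx => hmax hx)
  refine h3.trans (le_of_eq ?_)
  simp

theorem recur {X : Type*} [MetricSpace X] {ρ : ℝ → X → X} (h : IsFlow ρ)
    (speed : ∀ u c, dist (ρ u c) c ≤ |u|)
    (hd : ∀ v : X, ∀ η : ℝ, 0 < η → ∃ M : ℝ, 0 ≤ M ∧ ∀ c, ∃ u ∈ Icc 0 M, dist (ρ u c) v < η)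
    (N : Set X) (hN : IsOpen N) (hne : N.Nonempty) :
    ∃ (b : X → ℝ) (θ R₀ : ℝ), Continuous b ∧ (∀ c, 0 ≤ b c) ∧ (∀ c, b c ≤ 1) ∧
      (∀ c, b c ≠ 0 → c ∈ N) ∧ 0 < θ ∧
      ∀ c, ∀ R, R₀ ≤ R → θ * R ≤ ∫ u in (0:ℝ)..R, b (ρ u c) := by
  obtain ⟨v, hv⟩ := hne
  obtain ⟨δ, hδ, hball⟩ := Metric.isOpen_iff.mp hN v hv
  obtain ⟨η, hη, hη1, hη3⟩ : ∃ η : ℝ, 0 < η ∧ η ≤ 1 ∧ 3 * η ≤ δ := by
    refine ⟨min 1 (δ / 3), lt_min one_pos (by linarith), min_le_left _ _, ?_⟩
    have := min_le_right (1:ℝ) (δ / 3)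
    linarith
  obtain ⟨M, hM, hMd⟩ := hd v η hη
  have hbc : Continuous (fun c : X => max 0 (1 - dist c v / (3 * η))) :=
    continuous_const.max (continuous_const.sub ((continuous_id.dist continuous_const).div_const _))
  have hb0 : ∀ c : X, 0 ≤ max 0 (1 - dist c v / (3 * η)) := fun c => le_max_left _ _
  have hρc : ∀ c : X, Continuous (fun u : ℝ => ρ u c) := fun c =>
    h.cont.comp (continuous_id.prodMk continuous_const)
  have hfc : ∀ c : X, Continuous (fun u : ℝ => max 0 (1 - dist (ρ u c) v / (3 * η))) :=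
    fun c => hbc.comp (hρc c)
  have hwin : ∀ (c : X) (t : ℝ),
      η / 3 ≤ ∫ u in t..(t + (M + 1)), max 0 (1 - dist (ρ u c) v / (3 * η)) := by
    intro c t
    obtain ⟨u, ⟨hu0, huM⟩, hu⟩ := hMd (ρ t c)
    rw [← h.add] at hu
    have h1 : ∫ s in (u + t)..(u + t + η), (1/3 : ℝ) ≤
        ∫ s in (u + t)..(u + t + η), max 0 (1 - dist (ρ s c) v / (3 * η)) := by
      refine intervalIntegral.integral_mono_on (by linarith) intervalIntegrable_const
        ((hfc c).intervalIntegrable _ _) ?_
      intro s hs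
      have h2 : dist (ρ s c) v ≤ 2 * η := by
        have h3 : ρ s c = ρ (s - (u + t)) (ρ (u + t) c) := by
          rw [← h.add]
          congr 1
          ring
        have h4 : dist (ρ s c) (ρ (u + t) c) ≤ |s - (u + t)| := by
          rw [h3]
          exact speed _ _
        rw [abs_of_nonneg (by linarith [hs.1])] at h4
        have h5 := dist_triangle (ρ s c) (ρ (u + t) c) v
        linarith [hs.2]
      refine le_trans ?_ (le_max_right _ _)
      have h6 : dist (ρ s c) v / (3 * η) ≤ 2 / 3 := by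
        rw [div_le_div_iff₀ (by linarith) (by norm_num)]
        linarith
      linarith
    have h7 : ∫ s in (u + t)..(u + t + η), max 0 (1 - dist (ρ s c) v / (3 * η)) ≤
        ∫ s in t..(t + (M + 1)), max 0 (1 - dist (ρ s c) v / (3 * η)) := by
      refine intervalIntegral.integral_mono_interval (by linarith) (by linarith) (by linarith) ?_
        ((hfc c).intervalIntegrable _ _)
      exact Filter.Eventually.of_forall (fun s => hb0 (ρ s c))
    rw [intervalIntegral.integral_const] at h1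
    have h8 : (u + t + η - (u + t)) • (1 / 3 : ℝ) = η / 3 := by
      rw [smul_eq_mul]
      ring
    rw [h8] at h1
    exact h1.trans h7
  have hK : ∀ (c : X) (K : ℕ),
      K * (η / 3) ≤ ∫ u in (0:ℝ)..(K * (M + 1)), max 0 (1 - dist (ρ u c) v / (3 * η)) := by
    intro c K
    induction K with
    | zero => simp
    | succ K ih =>
      have h1 := intervalIntegral.integral_add_adjacent_intervals
        ((hfc c).intervalIntegrable (μ := MeasureTheory.volume) 0 (K * (M + 1)))
        ((hfc c).intervalIntegrable (μ := MeasureTheory.volume) (K * (M + 1))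
          (K * (M + 1) + (M + 1)))
      have h2 := hwin c (K * (M + 1))
      have h3 : ((K + 1 : ℕ) : ℝ) * (M + 1) = K * (M + 1) + (M + 1) := by
        push_cast
        ring
      rw [h3, ← h1]
      push_cast
      linarith
  refine ⟨fun c => max 0 (1 - dist c v / (3 * η)), η / (6 * (M + 1)), M + 1, hbc, hb0, ?_, ?_, ?_, ?_⟩
  · intro c
    refine max_le zero_le_one ?_
    have : 0 ≤ dist c v / (3 * η) := div_nonneg dist_nonneg (by linarith)
    linarith
  · intro c hc
    apply hball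
    rw [Metric.mem_ball]
    by_contra hlt
    push Not at hlt
    apply hc
    have : 1 ≤ dist c v / (3 * η) := by
      rw [le_div_iff₀ (by linarith)]
      linarith
    exact max_eq_left (by linarith)
  · positivity
  · intro c R hR
    have hM1 : 0 < M + 1 := by linarith
    set K := ⌊R / (M + 1)⌋₊ with hKdef
    have hq : 1 ≤ R / (M + 1) := by
      rw [le_div_iff₀ hM1]
      linarith
    have hK1 : 1 ≤ K := by
      rw [hKdef]
      exact (Nat.one_le_floor_iff _).mpr hq
    have hK1' : (1 : ℝ) ≤ K := by exact_mod_cast hK1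
    have hK2 : R / (M + 1) < K + 1 := Nat.lt_floor_add_one _
    have hK3 : (K : ℝ) ≤ R / (M + 1) := Nat.floor_le (by linarith)
    have hK4 : (K : ℝ) * (M + 1) ≤ R := by
      rwa [le_div_iff₀ hM1] at hK3
    have h5 : ∫ u in (0:ℝ)..(K * (M + 1)), max 0 (1 - dist (ρ u c) v / (3 * η)) ≤
        ∫ u in (0:ℝ)..R, max 0 (1 - dist (ρ u c) v / (3 * η)) := by
      refine intervalIntegral.integral_mono_interval le_rfl (by positivity) hK4 ?_
        ((hfc c).intervalIntegrable _ _)
      exact Filter.Eventually.of_forall (fun s => hb0 (ρ s c))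
    refine le_trans ?_ ((hK c K).trans h5)
    have h6 : η / (6 * (M + 1)) * R = (η / 6) * (R / (M + 1)) := by
      field_simp
    rw [h6]
    nlinarith

end CPE48
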