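import Pool.Agent.LibCPE48.QS7
import Pool.Agent.LibCPE48.QS8

/-! TASK QS9 (~100 lines).  `Vis (fl 1)`.  Use QS2, QS7, QS8 (stated).

Given `N`, get `b, θ, R₀` from `recur` and `I` from `hgood`.  For every `R ≥ max R₀ 1`, get `c` from
`hgood`, `T` from `time_change` (`R ≤ T`, `r c T = R`); with `b = 1`: `T = ∫_0^R 1/V ≤ I R`
(so `I ≥ 1`).  Let `n = ⌈T⌉₊` (so `T ≤ n ≤ T + 1 ≤ 2 T`).
`∫_0^n b (fl t c) dt ≥ ∫_0^T b (fl t c) dt = ∫_0^R b (ρ u c)/V (ρ u c) du ≥ ∫_0^R b (ρ u c) du ≥ θ R`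
(`0 < V ≤ 1` on the segment; integrals of continuous functions on `[0, R]`)
`≥ θ T / I ≥ (θ / (2 I)) n`.  By `avg_shift` for `f t = b (fl t c)` there is `s ∈ [0, 1]` with
`∑_{i<n} b (fl (i + s) c) ≥ (θ/(2I)) n`; put `c' = fl s c`: `(fl 1)^[i] c' = fl (i + s) c`
(`fl_flow`), and `∑_{i<n} b (..) ≤ ncard {i | i < n ∧ (fl 1)^[i] c' ∈ N}` as `0 ≤ b ≤ 1` and
`b ≠ 0 → ∈ N`.  Since `n ≥ T ≥ R` and `R` is arbitrary, this happens for arbitrarily large `n`
(`Filter.frequently_atTop`).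
-/

namespace CPE48

open Set Function Filter Topology

theorem qs9_iter {X : Type*} [TopologicalSpace X] {φ : ℝ → X → X} (h : IsFlow φ) (s : ℝ) (c : X)
    (i : ℕ) : (φ 1)^[i] (φ s c) = φ (i + s) c := by
  induction i with
  | zero => simp
  | succ i ih =>
    rw [Function.iterate_succ_apply', ih, ← h.add]
    congr 1
    push_cast
    ring

theorem qs9_count {X : Type*} (b : X → ℝ) (N : Set X) (hb1 : ∀ c, b c ≤ 1)
    (hbN : ∀ c, b c ≠ 0 → c ∈ N) (x : ℕ → X) (n : ℕ) :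
    ∑ i ∈ Finset.range n, b (x i) ≤ (({i | i < n ∧ x i ∈ N} : Set ℕ).ncard : ℝ) := by
  classical
  have e : ({i | i < n ∧ x i ∈ N} : Set ℕ) =
      (((Finset.range n).filter (fun i => x i ∈ N) : Finset ℕ) : Set ℕ) := by
    ext i
    simp
  rw [e, Set.ncard_coe_finset, Finset.card_filter]
  push_cast
  refine Finset.sum_le_sum (fun i _ => ?_)
  by_cases hi : x i ∈ N
  · rw [if_pos hi]
    exact hb1 _
  · rw [if_neg hi]
    by_contra hcon
    exact hi (hbN _ (fun h0 => hcon (h0 ▸ le_rfl)))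

theorem fl_vis {X : Type*} [MetricSpace X] {ρ : ℝ → X → X} {V : X → ℝ} {p : X}
    {r : X → ℝ → ℝ} (h : SData ρ V p) (hr : IsR ρ V r)
    (hd : ∀ v : X, ∀ η : ℝ, 0 < η → ∃ M : ℝ, 0 ≤ M ∧ ∀ c, ∃ u ∈ Icc 0 M, dist (ρ u c) v < η)
    (hgood : ∃ I : ℝ, ∀ R : ℝ, 1 ≤ R → ∃ c : X, (∀ u ∈ Icc 0 R, ρ u c ≠ p) ∧
      ∫ u in (0:ℝ)..R, 1 / V (ρ u c) ≤ I * R) : Vis (fl ρ r 1) := by
  intro N hN hne
  obtain ⟨I, hI⟩ := hgood
  obtain ⟨b, θ, R₀, hbc, hb0, hb1, hbN, hθ, hrec⟩ := recur h.flow h.speed hd N hN hne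
  have hI1 : 1 ≤ I := by
    obtain ⟨c, hc, hi⟩ := hI 1 le_rfl
    obtain ⟨T, hT, _, hch⟩ := time_change h hr c 1 zero_le_one hc
    have h1 := hch (fun _ => 1) continuous_const
    rw [intervalIntegral.integral_const, smul_eq_mul, mul_one, sub_zero] at h1
    linarith
  have hI0 : 0 < I := by linarith
  refine ⟨θ / (2 * I), by positivity, ?_⟩
  rw [Filter.frequently_atTop]
  intro m
  set R : ℝ := max (max R₀ 1) m with hR
  have hR0 : R₀ ≤ R := (le_max_left _ _).trans (le_max_left _ _)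
  have hR1 : 1 ≤ R := (le_max_right R₀ 1).trans (le_max_left _ _)
  have hRm : (m:ℝ) ≤ R := le_max_right _ _
  obtain ⟨c, hc, hi⟩ := hI R hR1
  obtain ⟨T, hT, hrT, hch⟩ := time_change h hr c R (by linarith) hc
  have hTI : T ≤ I * R := by
    have h1 := hch (fun _ => 1) continuous_const
    rw [intervalIntegral.integral_const, smul_eq_mul, mul_one, sub_zero] at h1
    linarith
  have hnT : T ≤ (⌈T⌉₊ : ℝ) := Nat.le_ceil T
  have hn2 : (⌈T⌉₊ : ℝ) ≤ 2 * T := by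
    have := Nat.ceil_lt_add_one (a := T) (by linarith)
    linarith
  set n : ℕ := ⌈T⌉₊ with hn
  have hmn : m ≤ n := by
    have : (m:ℝ) ≤ n := by linarith
    exact_mod_cast this
  have hflc : Continuous (fun t : ℝ => fl ρ r t c) :=
    (fl_flow h hr).cont.comp (continuous_id.prodMk continuous_const)
  have hfc : Continuous (fun t : ℝ => b (fl ρ r t c)) := hbc.comp hflc
  have hρc : Continuous (fun u : ℝ => ρ u c) :=
    h.flow.cont.comp (continuous_id.prodMk continuous_const)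
  -- the integral up to `n`
  have h1 : ∫ t in (0:ℝ)..T, b (fl ρ r t c) ≤ ∫ t in (0:ℝ)..(n:ℝ), b (fl ρ r t c) := by
    rw [← intervalIntegral.integral_add_adjacent_intervals (a := (0:ℝ)) (b := T) (c := (n:ℝ))
      (hfc.intervalIntegrable _ _) (hfc.intervalIntegrable _ _)]
    have : 0 ≤ ∫ t in T..(n:ℝ), b (fl ρ r t c) :=
      intervalIntegral.integral_nonneg hnT (fun t _ => hb0 _)
    linarith
  have h2 : ∫ u in (0:ℝ)..R, b (ρ u c) ≤ ∫ u in (0:ℝ)..R, b (ρ u c) / V (ρ u c) := by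
    refine intervalIntegral.integral_mono_on (by linarith) ?_ ?_ ?_
    · exact (hbc.comp hρc).intervalIntegrable _ _
    · refine ContinuousOn.intervalIntegrable_of_Icc (by linarith) ?_
      exact (hbc.comp hρc).continuousOn.div (h.Vc.comp hρc).continuousOn
        (fun u hu h0 => hc u hu ((h.zero _).1 h0))
    · intro u hu
      have hV : 0 < V (ρ u c) := lt_of_le_of_ne (h.V0 _)
        (fun h0 => hc u hu ((h.zero _).1 h0.symm))
      rw [le_div_iff₀ hV]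
      calc b (ρ u c) * V (ρ u c) ≤ b (ρ u c) * 1 :=
            mul_le_mul_of_nonneg_left (h.V1 _) (hb0 _)
        _ = b (ρ u c) := mul_one _
  have h3 := hrec c R hR0
  have h4 := hch b hbc
  obtain ⟨s, hs, h5⟩ := avg_shift (fun t => b (fl ρ r t c)) hfc n
  refine ⟨n, hmn, fl ρ r s c, ?_⟩
  have h6 := qs9_count b N hb1 hbN (fun i => (fl ρ r 1)^[i] (fl ρ r s c)) n
  have h7 : ∑ i ∈ Finset.range n, b ((fl ρ r 1)^[i] (fl ρ r s c)) =
      ∑ i ∈ Finset.range n, b (fl ρ r (i + s) c) := by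
    refine Finset.sum_congr rfl (fun i _ => ?_)
    rw [qs9_iter (fl_flow h hr)]
  have h8 : θ / (2 * I) * n ≤ θ * R := by
    have : θ / (2 * I) * n ≤ θ / (2 * I) * (2 * (I * R)) := by
      apply mul_le_mul_of_nonneg_left _ (by positivity)
      linarith
    refine this.trans (le_of_eq ?_)
    field_simp
  calc θ / (2 * I) * n ≤ θ * R := h8
    _ ≤ ∫ u in (0:ℝ)..R, b (ρ u c) := h3
    _ ≤ ∫ u in (0:ℝ)..R, b (ρ u c) / V (ρ u c) := h2
    _ = ∫ t in (0:ℝ)..T, b (fl ρ r t c) := h4.symm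
    _ ≤ ∫ t in (0:ℝ)..(n:ℝ), b (fl ρ r t c) := h1
    _ ≤ ∑ i ∈ Finset.range n, b (fl ρ r (i + s) c) := h5
    _ = ∑ i ∈ Finset.range n, b ((fl ρ r 1)^[i] (fl ρ r s c)) := h7.symm
    _ ≤ _ := h6

end CPE48
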