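import Pool.Agent.LibCPE48.Defs

/-! TASK QT2 (~90 lines).  Integrability of `1/dist c 0` on the two-torus.

* `lint_circle`: `∫⁻ x : UnitAddCircle, (ENNReal.ofReal ‖x‖) ^ (-(1/2) : ℝ) < ∞`.  Use
  `UnitAddCircle.lintegral_preimage` (or `AddCircle.lintegral_preimage`, with `t = -1/2`): the
  integral is over `Ioc (-1/2) (1/2)` of `(ofReal |x|)^(-1/2)` (`‖(↑x : UnitAddCircle)‖ = |x|` for
  `|x| ≤ 1/2`: `AddCircle.norm_eq_of_zero`/`UnitAddCircle.norm_eq`, `round`); it is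
  `2 ∫_0^{1/2} x^(-1/2) < ∞` (`intervalIntegral.intervalIntegrable_rpow'`, exponent `> -1`,
  symmetric part by `intervalIntegrable.comp_...`/`abs`).
* `lint_torus`: pointwise
  `ofReal (1 / max a b) ≤ (ofReal a)^(-1/2) * (ofReal b)^(-1/2)` for `0 ≤ a, b ≤ 1/2`
  (if `a = 0` or `b = 0` the right side is `∞` as the other factor is `≥ 1`); then
  `MeasureTheory.lintegral_prod_mul`, `Prod.dist_eq`, `dist_zero_right`.
-/

namespace CPE48

open Set Function Filter Topology MeasureTheory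

theorem qt2_int : IntegrableOn (fun x : ℝ => |x| ^ (-(1 / 2) : ℝ)) (Ioc (-(1 / 2)) (1 / 2)) := by
  have h0 : IntervalIntegrable (fun x : ℝ => x ^ (-(1 / 2) : ℝ)) volume 0 (1 / 2) :=
    intervalIntegral.intervalIntegrable_rpow' (by norm_num)
  have h1 : IntervalIntegrable (fun x : ℝ => |x| ^ (-(1 / 2) : ℝ)) volume 0 (1 / 2) := by
    rw [intervalIntegrable_iff_integrableOn_Ioc_of_le (by norm_num)] at h0 ⊢
    refine h0.congr_fun ?_ measurableSet_Ioc
    intro x hx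
    change x ^ (-(1 / 2) : ℝ) = |x| ^ (-(1 / 2) : ℝ)
    rw [abs_of_pos hx.1]
  have h2 : IntervalIntegrable (fun x : ℝ => |x| ^ (-(1 / 2) : ℝ)) volume 0 (-(1 / 2)) := by
    have h3 := (IntervalIntegrable.iff_comp_neg (f := fun x : ℝ => |x| ^ (-(1 / 2) : ℝ))
      (a := 0) (b := 1 / 2)).1 h1
    rw [neg_zero] at h3
    simpa only [abs_neg] using h3
  have h3 := h2.symm.trans h1
  rwa [intervalIntegrable_iff_integrableOn_Ioc_of_le (by norm_num)] at h3

theorem lint_circle : ∫⁻ x : UnitAddCircle, (ENNReal.ofReal ‖x‖) ^ (-(1 / 2) : ℝ) < ⊤ := by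
  rw [← UnitAddCircle.lintegral_preimage (-(1 / 2))
    (fun x : UnitAddCircle => (ENNReal.ofReal ‖x‖) ^ (-(1 / 2) : ℝ))]
  rw [show (-(1 / 2) + 1 : ℝ) = 1 / 2 by norm_num]
  refine lt_of_le_of_lt ?_ (qt2_int.lintegral_lt_top)
  refine lintegral_mono_ae ?_
  have hne : ∀ᵐ a : ℝ ∂(volume.restrict (Ioc (-(1 / 2)) (1 / 2))), a ≠ 0 := by
    refine ae_restrict_of_ae ?_
    exact Measure.ae_ne volume 0
  filter_upwards [hne, ae_restrict_mem measurableSet_Ioc] with a ha hmem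
  have hn : ‖(a : UnitAddCircle)‖ = |a| := by
    rw [AddCircle.norm_coe_eq_abs_iff 1 one_ne_zero, abs_one, abs_le]
    exact ⟨hmem.1.le, hmem.2⟩
  rw [hn, ENNReal.ofReal_rpow_of_pos (abs_pos.2 ha)]

theorem qt2_pt (a b : ℝ) (ha : 0 ≤ a) (hb : 0 ≤ b) :
    ENNReal.ofReal (1 / max a b) ≤
      (ENNReal.ofReal a) ^ (-(1 / 2) : ℝ) * (ENNReal.ofReal b) ^ (-(1 / 2) : ℝ) := by
  have hne : ∀ c : ℝ, (ENNReal.ofReal c) ^ (-(1 / 2) : ℝ) ≠ 0 := by
    intro c h
    rw [ENNReal.rpow_eq_zero_iff] at h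
    rcases h with h | h
    · linarith [h.2]
    · exact ENNReal.ofReal_ne_top h.1
  rcases ha.eq_or_lt with rfl | ha'
  · rw [ENNReal.ofReal_zero, ENNReal.zero_rpow_of_neg (by norm_num), ENNReal.top_mul (hne b)]
    exact le_top
  rcases hb.eq_or_lt with rfl | hb'
  · rw [ENNReal.ofReal_zero, ENNReal.zero_rpow_of_neg (by norm_num), ENNReal.mul_top (hne a)]
    exact le_top
  rw [ENNReal.ofReal_rpow_of_pos ha', ENNReal.ofReal_rpow_of_pos hb',
    ← ENNReal.ofReal_mul (Real.rpow_nonneg ha _)]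
  apply ENNReal.ofReal_le_ofReal
  rw [← Real.mul_rpow ha hb, Real.rpow_neg (mul_nonneg ha hb), ← Real.sqrt_eq_rpow, one_div]
  refine inv_anti₀ (Real.sqrt_pos.2 (mul_pos ha' hb')) ?_
  rw [Real.sqrt_le_left (le_max_of_le_left ha)]
  rw [sq]
  exact mul_le_mul (le_max_left _ _) (le_max_right _ _) hb (le_max_of_le_left ha)

theorem lint_torus : ∫⁻ c : UnitAddCircle × UnitAddCircle, ENNReal.ofReal (1 / dist c 0) < ⊤ := by
  have hm : Measurable (fun x : UnitAddCircle => (ENNReal.ofReal ‖x‖) ^ (-(1 / 2) : ℝ)) :=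
    (measurable_norm.ennreal_ofReal).pow_const _
  have h1 : ∫⁻ c : UnitAddCircle × UnitAddCircle, (ENNReal.ofReal ‖c.1‖) ^ (-(1 / 2) : ℝ) *
      (ENNReal.ofReal ‖c.2‖) ^ (-(1 / 2) : ℝ) < ⊤ := by
    rw [Measure.volume_eq_prod, lintegral_prod_mul hm.aemeasurable hm.aemeasurable]
    exact ENNReal.mul_lt_top lint_circle lint_circle
  refine lt_of_le_of_lt (lintegral_mono fun c => ?_) h1
  have h2 : dist c 0 = max ‖c.1‖ ‖c.2‖ := by
    rw [Prod.dist_eq]
    change max (dist c.1 0) (dist c.2 0) = _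
    rw [dist_zero_right, dist_zero_right]
  dsimp only
  rw [h2]
  exact qt2_pt _ _ (norm_nonneg _) (norm_nonneg _)

end CPE48
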