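import Pool.Agent.LibCPE48.QT1
import Pool.Agent.LibCPE48.QT2

/-! TASK QT3.  Good points: pieces of lines of length `R` travelled in time `≤ I R`. -/

namespace CPE48

open Set Function Filter Topology MeasureTheory

/-- the density -/
noncomputable def qt3_F (c : UnitAddCircle × UnitAddCircle) : ENNReal :=
  ENNReal.ofReal (1 / dist c 0)

theorem qt3_F_meas : Measurable qt3_F := by
  unfold qt3_F
  exact ENNReal.measurable_ofReal.comp
    (measurable_const.div (continuous_id.dist continuous_const).measurable)

theorem qt3_rot_meas :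
    Measurable (fun q : ℝ × (UnitAddCircle × UnitAddCircle) => rot q.1 q.2) :=
  rot_flow.cont.measurable

theorem qt3_right : (volume : Measure (UnitAddCircle × UnitAddCircle)).IsAddRightInvariant :=
  (inferInstance : ((volume : Measure UnitAddCircle).prod
    (volume : Measure UnitAddCircle)).IsAddRightInvariant)

theorem qt3_prob : IsProbabilityMeasure (volume : Measure (UnitAddCircle × UnitAddCircle)) := by
  haveI : IsProbabilityMeasure (volume : Measure UnitAddCircle) :=
    ⟨UnitAddCircle.measure_univ⟩
  exact (inferInstance : IsProbabilityMeasure ((volume : Measure UnitAddCircle).prod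
    (volume : Measure UnitAddCircle)))

theorem qt3_inv (u : ℝ) : ∫⁻ c, qt3_F (rot u c) = ∫⁻ c, qt3_F c := by
  have h : ∀ c : UnitAddCircle × UnitAddCircle,
      rot u c = c + (((al * u : ℝ) : UnitAddCircle), ((u : ℝ) : UnitAddCircle)) := by
    intro c
    unfold rot
    rfl
  simp only [h]
  haveI := qt3_right
  exact lintegral_add_right_eq_self qt3_F _

theorem qt3_free (c : UnitAddCircle × UnitAddCircle) (u u₀ : ℝ) (h : rot u c = rot u₀ c) :
    u = u₀ := by
  have h2 : rot (u - u₀) (rot u₀ c) = rot u₀ c := by
    rw [← rot_flow.add]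
    have : u - u₀ + u₀ = u := by ring
    rw [this, h]
  have := rot_free _ _ h2
  linarith

theorem rot_good : ∃ I : ℝ, ∀ R : ℝ, 1 ≤ R → ∃ c : UnitAddCircle × UnitAddCircle,
    (∀ u ∈ Icc 0 R, rot u c ≠ 0) ∧ ∫ u in (0:ℝ)..R, 1 / dist (rot u c) 0 ≤ I * R := by
  set J : ENNReal := ∫⁻ c, qt3_F c with hJ
  have hJfin : J < ⊤ := lint_torus
  refine ⟨J.toReal, ?_⟩
  intro R hR
  have hR0 : (0:ℝ) ≤ R := by linarith
  set G : UnitAddCircle × UnitAddCircle → ENNReal :=
    fun c => ∫⁻ u in Ioc 0 R, qt3_F (rot u c) with hG
  have hmeas2 : Measurable (fun q : (UnitAddCircle × UnitAddCircle) × ℝ =>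
      qt3_F (rot q.2 q.1)) :=
    qt3_F_meas.comp (qt3_rot_meas.comp (measurable_snd.prodMk measurable_fst))
  have hGm : Measurable G := Measurable.lintegral_prod_right' hmeas2
  have hGint : ∫⁻ c, G c = J * ENNReal.ofReal R := by
    have h1 : ∫⁻ c, G c = ∫⁻ u in Ioc 0 R, ∫⁻ c, qt3_F (rot u c) := by
      refine lintegral_lintegral_swap ?_
      exact hmeas2.aemeasurable
    rw [h1]
    simp only [qt3_inv]
    rw [setLIntegral_const, Real.volume_Ioc, sub_zero]
  haveI := qt3_prob
  obtain ⟨c, hc⟩ := exists_le_lintegral (μ := (volume : Measure (UnitAddCircle × UnitAddCircle)))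
    hGm.aemeasurable
  rw [hGint] at hc
  have hGc : G c < ⊤ := lt_of_le_of_lt hc (ENNReal.mul_lt_top hJfin ENNReal.ofReal_lt_top)
  refine ⟨c, ?_, ?_⟩
  · intro u₀ hu₀ hz
    have hint : IntervalIntegrable (fun u : ℝ => (u - u₀)⁻¹) volume 0 R := by
      rw [intervalIntegrable_iff_integrableOn_Ioc_of_le hR0]
      refine ⟨?_, ?_⟩
      · exact ((measurable_id.sub_const u₀).inv).aestronglyMeasurable
      · refine lt_of_le_of_lt (lintegral_mono ?_) hGc
        intro u
        by_cases hu : u = u₀
        · subst hu; simp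
        · have h1 : dist (rot u c) 0 ≤ |u - u₀| := by
            rw [← hz]
            have h2 : rot u c = rot (u - u₀) (rot u₀ c) := by
              rw [← rot_flow.add]; congr 1; ring
            rw [h2]
            exact qt1_speed _ _
          have h3 : 0 < dist (rot u c) 0 := by
            rw [dist_pos]
            intro h
            exact hu (qt3_free c u u₀ (h.trans hz.symm))
          show ‖(u - u₀)⁻¹‖ₑ ≤ qt3_F (rot u c)
          unfold qt3_F
          rw [Real.enorm_eq_ofReal_abs, abs_inv, ← one_div]
          exact ENNReal.ofReal_le_ofReal (one_div_le_one_div_of_le h3 h1)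
    rw [intervalIntegrable_sub_inv_iff] at hint
    rcases hint with h | h
    · linarith
    · exact h (by rw [uIcc_of_le hR0]; exact hu₀)
  · rw [intervalIntegral.integral_of_le hR0, integral_eq_lintegral_of_nonneg_ae]
    · have h1 : (∫⁻ u in Ioc 0 R, ENNReal.ofReal (1 / dist (rot u c) 0)) = G c := rfl
      rw [h1]
      have h2 := ENNReal.toReal_mono (ENNReal.mul_lt_top hJfin ENNReal.ofReal_lt_top).ne hc
      rw [ENNReal.toReal_mul, ENNReal.toReal_ofReal hR0] at h2
      exact h2
    · exact Eventually.of_forall fun u => by positivity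
    · have hd : Measurable (fun u : ℝ => dist (rot u c) 0) := by
        have h1 : Continuous (fun u : ℝ => rot u c) :=
          rot_flow.cont.comp (continuous_id.prodMk continuous_const)
        exact (h1.dist continuous_const).measurable
      exact (measurable_const.div hd).aestronglyMeasurable

end CPE48
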