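import Pool.Agent.LibCPE48.QW3
import Pool.Agent.LibCPE48.QHD

/-! TASK QW4 (~90 lines).  From a function on the `x`-line to a function on the ray.  Use the
imported statements.

`Ht w = if w ≤ 1 then 0 else H (xx w)`, where `xx w` is a right inverse of `ww` on `(0, ∞)`
(`ww_surj`; `xx (ww x) = x` by `ww_strict`).  So `Ht (ww x) = H x` for `x ≥ 0` and, since `H = 0` on
`(-∞, 0]` and `ww 0 = 1`, `Ht (ww x) = H x` for all `x`; and `Ht w = 0` for `w ≤ 1`.
* `cont`: `xx` is continuous on `(0, ∞)` (inverse of a strictly increasing continuous function: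
  e.g. `StrictMono.orderIso..`, or `ww` is an open map / `Homeomorph`, or directly: `Ht ∘ ww = H` and
  `ww : ℝ → (0, ∞)` is a homeomorphism); near `w ≤ 1/2`.. `Ht = 0` on `(-∞, 1]`.
* `comp`: let `w, w' ≥ 0`, `Ht w = Ht w'`.  For `w > 0`, `w = ww x`, `gam w = ww (x - 1)`; for `w = 0`,
  `gam 0 = 0` (`r_p`).  If `w = ww x`, `w' = ww x'`: `H x = H x'` so `H (x - 1) = H (x' - 1)`.
  If `w = 0`: `H x' = 0 = H 0`, so `H (x' - 1) = H (-1) = 0`.
* `const`: for `w ∈ [ww a, ww b]`, `w = ww x`, `x ∈ [a, b]`.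
* `fib`: given `δ`, `T₁` from `hH.fib δ`; `T₂ = max T₁ (δ + 1)`, `T = ww T₂`.  Let `w = ww x ≥ T`, so
  `x ≥ T₂`; if `w' = ww x'` then `|x - x'| < δ` and `ww_lip`; if `w' = 0` then `H x = 0 = H 0`, so
  `|x - 0| < δ`, a contradiction.
* `nontriv`: `H x ≠ 0`, so `w = ww x` works: `Ht 0 = 0`.
-/

namespace CPE48

open Set Function Filter Topology

theorem collQ_of {X : Type*} [MetricSpace X] {ρ : ℝ → X → X} {V : X → ℝ} {p : X}
    {r : X → ℝ → ℝ} (h : SData ρ V p) (hr : IsR ρ V r) (a b : ℕ → ℝ) (e : ℕ → Bool)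
    (H : ℝ → ℝ) (hH : CollX a b e H) :
    ∃ Ht : ℝ → ℝ, CollQ (gam ρ r p) (fun k => ww ρ r p (a k)) (fun k => ww ρ r p (b k)) e Ht := by
  have hst := ww_strict h hr
  have hpos := ww_pos h hr
  have h0 : ww ρ r p 0 = 1 := ww_zero hr
  choose! xx hxx using ww_surj h hr
  have hinv : ∀ x, xx (ww ρ r p x) = x := fun x =>
    hst.injective (hxx _ (hpos x))
  have hmono : MonotoneOn xx (Ioi 0) := by
    intro w hw w' hw' hle
    rw [← hst.le_iff_le, hxx w hw, hxx w' hw']
    exact hle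
  have himg : xx '' Ioi 0 = univ := by
    refine eq_univ_of_forall fun x => ⟨ww ρ r p x, hpos x, hinv x⟩
  have hcont : ContinuousOn xx (Ioi 0) := by
    intro w hw
    refine (continuousAt_of_monotoneOn_of_image_mem_nhds hmono (Ioi_mem_nhds hw) ?_).continuousWithinAt
    rw [himg]
    exact univ_mem
  have hH0 : H 0 = 0 := hH.zero 0 le_rfl
  have hx1 : xx 1 = 0 := by
    rw [← h0]
    exact hinv 0
  -- the values
  have hval : ∀ x, H (xx (max (ww ρ r p x) 1)) = H x := by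
    intro x
    rcases le_total 0 x with hx | hx
    · have h1 : 1 ≤ ww ρ r p x := by
        rw [← h0]
        exact hst.monotone hx
      rw [max_eq_left h1, hinv]
    · have h1 : ww ρ r p x ≤ 1 := by
        rw [← h0]
        exact hst.monotone hx
      rw [max_eq_right h1, hx1, hH0, hH.zero x hx]
  have hval0 : H (xx (max 0 1)) = 0 := by
    rw [max_eq_right zero_le_one, hx1, hH0]
  have hgam : ∀ x, gam ρ r p (ww ρ r p x) = ww ρ r p (x - 1) := by
    intro x
    have h1 := gam_iter h hr 1 x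
    rw [Function.iterate_one, Nat.cast_one] at h1
    exact h1
  have hgam0 : gam ρ r p 0 = 0 := by
    unfold gam
    rw [neg_zero, h.flow.zero, r_p h hr, sub_zero]
  have hrep : ∀ w, 0 ≤ w → ∃ x, H (xx (max w 1)) = H x ∧
      H (xx (max (gam ρ r p w) 1)) = H (x - 1) := by
    intro w hw
    rcases hw.eq_or_lt with hw | hw
    · subst hw
      refine ⟨0, ?_, ?_⟩
      · rw [hval0, hH0]
      · rw [hgam0, hval0, hH.zero (0 - 1) (by norm_num)]
    · obtain ⟨x, hx⟩ := ww_surj h hr w hw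
      subst hx
      exact ⟨x, hval x, by rw [hgam, hval]⟩
  refine ⟨fun w => H (xx (max w 1)), ⟨?_, ?_, ?_, ?_, ?_⟩⟩
  · refine hH.cont.comp (hcont.comp_continuous (continuous_id.max continuous_const) fun w => ?_)
    exact lt_of_lt_of_le zero_lt_one (le_max_right w 1)
  · intro w w' hw hw' he
    obtain ⟨x, hx, hx'⟩ := hrep w hw
    obtain ⟨y, hy, hy'⟩ := hrep w' hw'
    change H (xx (max w 1)) = H (xx (max w' 1)) at he
    rw [hx', hy']
    exact hH.comp x y (by rw [← hx, ← hy, he])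
  · intro k hk w hw w' hw'
    obtain ⟨x, hx⟩ := ww_surj h hr w (lt_of_lt_of_le (hpos _) hw.1)
    obtain ⟨y, hy⟩ := ww_surj h hr w' (lt_of_lt_of_le (hpos _) hw'.1)
    subst hx hy
    rw [hval, hval]
    exact hH.const k hk x ⟨hst.le_iff_le.1 hw.1, hst.le_iff_le.1 hw.2⟩ y
      ⟨hst.le_iff_le.1 hw'.1, hst.le_iff_le.1 hw'.2⟩
  · intro δ hδ
    obtain ⟨T₁, hT₁⟩ := hH.fib δ hδ
    refine ⟨ww ρ r p (max T₁ δ), fun w w' hw hw' he hT => ?_⟩
    obtain ⟨x, hx⟩ := ww_surj h hr w (lt_of_lt_of_le (hpos _) hT)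
    subst hx
    have hxT : max T₁ δ ≤ x := hst.le_iff_le.1 hT
    change H (xx (max (ww ρ r p x) 1)) = H (xx (max w' 1)) at he
    rw [hval] at he
    rcases hw'.eq_or_lt with hw0 | hw0
    · subst hw0
      rw [hval0, ← hH0] at he
      have h1 := hT₁ x 0 he ((le_max_left _ _).trans hxT)
      have h2 : δ ≤ x := (le_max_right _ _).trans hxT
      rw [sub_zero] at h1
      have h3 := le_abs_self x
      linarith
    · obtain ⟨y, hy⟩ := ww_surj h hr w' hw0
      subst hy
      rw [hval] at he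
      exact (ww_lip h hr x y).trans_lt (hT₁ x y he ((le_max_left _ _).trans hxT))
  · obtain ⟨x, hx⟩ := hH.nontriv
    refine ⟨ww ρ r p x, (hpos x).le, ?_⟩
    rw [hval, hval0]
    exact hx

end CPE48
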