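import Pool.Agent.LibCPE48.A02
import Pool.Agent.LibCPE48.QM1
import Pool.Agent.LibCPE48.QS1
import Pool.Agent.LibCPE48.QS4
import Pool.Agent.LibCPE48.QS6
import Pool.Agent.LibCPE48.QS9
import Pool.Agent.LibCPE48.QW4
import Pool.Agent.LibCPE48.QT3
import Pool.Agent.LibCPE48.QH1
import Pool.Agent.LibCPE48.QH2
import Pool.Agent.LibCPE48.QI1
import Pool.Agent.LibCPE48.G03
import Pool.Agent.LibCPE48.H03
import Pool.Agent.LibCPE48.I01

/-! TASK QI2 (~110 lines).  Assembly.

`X = UnitAddCircle × UnitAddCircle`, `ρ = rot`, `V = dist · 0`, `p = 0`, `r` from `exists_isR tS`,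
`g = fl rot r 1`, `R w = rot (-w) 0`, `γ = gam rot r 0`, `a k = ww (aq k)`, `b k = ww (bq k)`,
`L k = 2 * (bq k - aq k)`, `σ k` from `exists_ltube` (`aq_lt_bq`, `bq_sub_le`).
`SetupQ`: `gc` from `(fl_flow ..).cont`, `base` = `goodBase_torus m`, `len` from `bq_sub_tendsto`,
`maps` from `rayQ_of` (`map`, `nonneg`; `a k > 0` by `ww_pos`).
`Mixing g`: `fl_mixing` with `rot_back`, `rot_fwd`, `rot_pathQ`.
`ZE g`: `line_ze` with `s c = r c 1` (`0 ≤ r c 1 ≤ 1` by `r_mono`, `r_lip`, `zero`; `r_order`).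
`Vis g`: `fl_vis` with `rot_dense`, `rot_good`.
`main_dynQ` gives `F`; `torus_homeoQ m`, `exists_conj` give `h`, `Φ`; `exists_tree A hA` gives `T`;
`G a = Φ (F (swq (T a)))`, Borel by `swq_measurable` and continuity (as in file I03).
If `a ∉ A`: `coverq` gives `Dx`; in the variable `w`: for `w ≥ 1`, `w = ww x`, `x ≥ 0`
(`ww_surj`, `ww_zero`, `ww_strict`), exceptional set `ww '' (Dx ∪ {0})`.
If `a ∈ A`: `exists_cantor β`, `collX_of_cantor`, `collQ_of`.
-/

namespace CPE48

open Set Function Filter Topology MeasureTheory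

theorem qi2_main (m : ℕ) : ∃ F : C(ℕ → Bool, C((UnitAddCircle × UnitAddCircle) ×
      (Fin (m + 1) → UnitAddCircle), (UnitAddCircle × UnitAddCircle) ×
      (Fin (m + 1) → UnitAddCircle))), (∀ e, Mixing (F e)) ∧
    (∀ e, (∃ Dx : Set ℝ, Dx.Countable ∧ ∀ x : ℝ, 0 < x → x ∉ Dx →
        ∃ k, e k = true ∧ x ∈ Icc (aq k) (bq k)) → CPE (F e)) ∧
    (∀ e, (∃ H : ℝ → ℝ, CollX aq bq e H) → ¬ CPE (F e)) := by
  obtain ⟨r, hr⟩ := exists_isR tS
  have hfl : IsFlow (fl rot r) := fl_flow tS hr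
  have hLT : ∀ k, ∃ σ : UnitAddCircle × UnitAddCircle → ℝ → ℝ,
      LTube rot (fun n => (fun w => rot (-((gam rot r 0)^[n] w)) 0) ''
        Icc (ww rot r 0 (aq k)) (ww rot r 0 (bq k))) (2 * (bq k - aq k)) σ :=
    fun k => exists_ltube tS hr (aq k) (bq k) (aq_lt_bq k) (bq_sub_le k)
  choose σ hσ using hLT
  have hray : RayQ (fl rot r 1) (fun w => rot (-w) 0) (gam rot r 0) := rayQ_of tS hr rot_back
  have hwm : ∀ w, 0 < w → 0 < w := fun w h => h
  have hS : SetupQ rot (fl rot r 1) (dbl m) (OO m) ee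
      (fun k n => (fun w => (fun w => rot (-w) (0 : UnitAddCircle × UnitAddCircle))
        ((gam rot r 0)^[n] w)) '' Icc (ww rot r 0 (aq k)) (ww rot r 0 (bq k)))
      (fun k => 2 * (bq k - aq k)) σ := by
    refine ⟨tS.flow, tS.free, ?_, goodBase_torus m, ?_, hσ, ?_⟩
    · exact (hfl.cont).comp (Continuous.prodMk continuous_const continuous_id)
    · simpa using (bq_sub_tendsto.const_mul 2)
    · rintro k n c ⟨w, hw, rfl⟩
      refine ⟨w, hw, ?_⟩
      have h0 : 0 ≤ w := le_trans (ww_pos tS hr _).le hw.1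
      have h1 : ∀ n, 0 ≤ (gam rot r 0)^[n] w := by
        intro n
        induction n with
        | zero => simpa using h0
        | succ n ih => rw [Function.iterate_succ_apply']; exact hray.nonneg _ ih
      have := hray.map _ (h1 n)
      simp only [Function.iterate_succ_apply'] at this ⊢
      exact this.symm
  have hmix : Mixing (fl rot r 1) := by
    refine fl_mixing tS hr ?_ ?_ ?_
    · intro W hW hne
      obtain ⟨u, hu, h⟩ := rot_back 1 W hW hne
      exact ⟨u, by linarith, h⟩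
    · intro W hW hne
      obtain ⟨u, hu, h⟩ := rot_fwd 1 W hW hne
      exact ⟨u, by linarith, h⟩
    · intro u hu η hη
      obtain ⟨γ, h1, h2, h3, h4⟩ := rot_pathQ u η hη
      exact ⟨γ, h1, h2, h3, fun v _ => h4 v⟩
  have hze : ZE (fl rot r 1) := by
    refine line_ze (s := fun c => r c 1) tS.flow tS.iso tS.speed ?_ ?_ ?_ ?_
    · exact hr.cont.comp (Continuous.prodMk continuous_id continuous_const)
    · intro c
      have := r_mono tS hr c (zero_le_one (α := ℝ))
      rwa [hr.zero] at this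
    · intro c
      have := r_lip tS hr c 1 0
      rw [hr.zero, sub_zero, sub_zero, abs_one] at this
      exact (abs_le.1 this).2
    · intro c
      exact r_order tS hr c 1
  have hvis : Vis (fl rot r 1) := fl_vis tS hr (by exact rot_dense) rot_good
  obtain ⟨F, h1, h2, h3⟩ := main_dynQ hS hray (fun k => (ww_pos tS hr _).le) hmix hze hvis
  refine ⟨F, h1, ?_, ?_⟩
  · rintro e ⟨Dx, hDx, hc⟩
    refine h2 e ⟨ww rot r 0 '' (insert 0 Dx), (hDx.insert 0).image _, ?_⟩
    intro w hw hwD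
    obtain ⟨x, rfl⟩ := ww_surj tS hr w (by linarith)
    have hx0 : 0 ≤ x := by
      by_contra h
      push Not at h
      have := ww_strict tS hr h
      rw [ww_zero hr] at this
      linarith
    have hxne : x ≠ 0 := by
      rintro rfl
      exact hwD ⟨0, mem_insert _ _, rfl⟩
    have hxD : x ∉ Dx := fun h => hwD ⟨x, mem_insert_of_mem _ h, rfl⟩
    obtain ⟨k, hk, h⟩ := hc x (lt_of_le_of_ne hx0 (Ne.symm hxne)) hxD
    exact ⟨k, hk, (ww_strict tS hr).monotone h.1, (ww_strict tS hr).monotone h.2⟩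
  · rintro e ⟨H, hH⟩
    exact h3 e (collQ_of tS hr aq bq e H hH)

theorem reductionQ (m : ℕ) {α : Type*} [TopologicalSpace α] [PolishSpace α] [MeasurableSpace α]
    [BorelSpace α] (A : Set α) (hA : AnalyticSet A) :
    ∃ G : α → C(Fin (m + 3) → UnitAddCircle, Fin (m + 3) → UnitAddCircle),
      Measurable[_, borel _] G ∧ (∀ a, Mixing (G a)) ∧ ∀ a, CPE (G a) ↔ a ∉ A := by
  obtain ⟨F, hFm, hFc, hFn⟩ := qi2_main m
  obtain ⟨h⟩ := torus_homeoQ m
  obtain ⟨Φ, hΦc, hΦ⟩ := exists_conj h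
  obtain ⟨T, hTm, hT⟩ := exists_tree A hA
  have hcoe : ∀ e, ⇑(Φ (F e)) = fun y => h (F e (h.symm y)) := fun e => funext (hΦ (F e))
  refine ⟨fun a => Φ (F (swq (T a))), ?_, ?_, ?_⟩
  · have h2 := (hΦc.comp F.continuous).borel_measurable
    rw [← BorelSpace.measurable_eq (α := ℕ → Bool)] at h2
    exact @Measurable.comp α (ℕ → Bool) _ _ MeasurableSpace.pi (borel _) _ _ h2
      (swq_measurable T hTm)
  · intro a
    rw [hcoe]
    exact (mixing_conj h _).2 (hFm _)
  · intro a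
    rw [hcoe, cpe_conj h]
    constructor
    · intro hC ha
      obtain ⟨β, hβ⟩ := (hT a).2 ha
      obtain ⟨F', h1, h2, h3, h4, h5⟩ := exists_cantor β
      exact hFn _ (collX_of_cantor (T a) β hβ F' h1 h4 h2 h3 h5) hC
    · intro ha
      refine hFc _ ?_
      exact coverq (T a) (fun hb => ha ((hT a).1 hb))

end CPE48
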