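import Pool.Agent.LibCPE48.QD

/-! TASK QS2 (~120 lines).  Uniqueness, flow property, order, bounds.

* `ode_unique`: `ODE_solution_unique_univ` with `v t y = V (ρ y c)`, Lipschitz with constant `1` on
  `univ` (`h.lip`, `LipschitzOnWith`/`LipschitzWith.of_dist_le_mul`).
* `r_add`: for fixed `c, s`, both `t ↦ r c (s + t) - r c s` and `t ↦ r c' t`, `c' = ρ (r c s) c`, solve
  the equation `y' = V (ρ y c')` (note `ρ (y + r c s) c = ρ y c'`) with value `0` at `0`.
* `r_order`: `y₁ t = u + r (ρ u c) t` and `y₂ t = u' + r (ρ u' c) t` solve `y' = V (ρ y c)`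
  (note `ρ (r (ρ u c) t) (ρ u c) = ρ (y₁ t) c`), `y₁ 0 = u ≤ u' = y₂ 0`.  If `y₁ t > y₂ t` for some `t`
  then by the intermediate value theorem `y₁ s = y₂ s` for some `s`, so `y₁ = y₂` by uniqueness,
  contradiction.
* `r_mono`, `r_abs`: the derivative is in `[0, 1]` (`monotone_of_deriv_nonneg`,
  `Convex.norm_image_sub_le_of_norm_hasDerivWithin_le` or `image_sub_le...`; also apply to
  `t - r c t`).
* `r_pos_of_ne`: if `ρ (r c t) c = p` then the constant function `r c t` solves the equation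
  (`V p = 0`), so `r c` is constant, `r c t = r c 0 = 0` and `c = p`.
* `r_p`: the function `0` solves the equation for `c = p`.
* `fl_flow`: `fl (s + t) c = ρ (r c (t + s)) c = ρ (r c t + r (fl t c) s) c`.
-/

namespace CPE48

open Set Function Filter Topology

variable {X : Type*} [MetricSpace X] {ρ : ℝ → X → X} {V : X → ℝ} {p : X} {r : X → ℝ → ℝ}

theorem ode_unique (h : SData ρ V p) (c : X) (y₁ y₂ : ℝ → ℝ)
    (h1 : ∀ t, HasDerivAt y₁ (V (ρ (y₁ t) c)) t) (h2 : ∀ t, HasDerivAt y₂ (V (ρ (y₂ t) c)) t)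
    (t₀ : ℝ) (he : y₁ t₀ = y₂ t₀) : y₁ = y₂ := by
  apply ODE_solution_unique_univ (v := fun _ y => V (ρ y c)) (s := fun _ => univ) (K := 1)
    (t₀ := t₀)
  · intro t
    apply LipschitzOnWith.of_dist_le_mul
    intro a _ b _
    rw [Real.dist_eq, Real.dist_eq]
    simpa using h.lip c a b
  · exact fun t => ⟨h1 t, mem_univ _⟩
  · exact fun t => ⟨h2 t, mem_univ _⟩
  · exact he

theorem qs2_comp (h : SData ρ V p) (c : X) (a b : ℝ) : ρ a (ρ b c) = ρ (a + b) c :=
  (h.flow.add a b c).symm

theorem r_add (h : SData ρ V p) (hr : IsR ρ V r) (c : X) (s t : ℝ) :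
    r c (s + t) = r c s + r (ρ (r c s) c) t := by
  have h1 : ∀ t, HasDerivAt (fun t => r c (s + t) - r c s)
      (V (ρ ((fun t => r c (s + t) - r c s) t) (ρ (r c s) c))) t := by
    intro t
    have h2 : HasDerivAt (fun t => r c (s + t)) (V (ρ (r c (s + t)) c)) t := by
      have h3 := (hr.deriv c (s + t)).comp_const_add s t
      exact h3
    have h4 := h2.sub_const (r c s)
    rw [qs2_comp h]
    have h5 : (r c (s + t) - r c s) + r c s = r c (s + t) := by ring
    simp only [h5]
    exact h4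
  have h2 := ode_unique h (ρ (r c s) c) (fun t => r c (s + t) - r c s) (r (ρ (r c s) c)) h1
    (hr.deriv _) 0 (by simp [hr.zero])
  have h3 := congrFun h2 t
  linarith

theorem r_order (h : SData ρ V p) (hr : IsR ρ V r) (c : X) (t : ℝ) :
    Monotone (fun u => u + r (ρ u c) t) := by
  intro u u' huu
  by_contra hlt
  simp only [not_le] at hlt
  have hd : ∀ u t, HasDerivAt (fun t => u + r (ρ u c) t)
      (V (ρ ((fun t => u + r (ρ u c) t) t) c)) t := by
    intro u t
    have h3 := (hr.deriv (ρ u c) t).const_add u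
    rw [qs2_comp h] at h3
    have h4 : r (ρ u c) t + u = u + r (ρ u c) t := by ring
    rw [h4] at h3
    exact h3
  have hc : ∀ u, Continuous (fun t => u + r (ρ u c) t) := fun u =>
    continuous_iff_continuousAt.mpr (fun t => (hd u t).continuousAt)
  have hcont : Continuous (fun s => (u' + r (ρ u' c) s) - (u + r (ρ u c) s)) :=
    (hc u').sub (hc u)
  have hivt := intermediate_value_uIcc (a := (0:ℝ)) (b := t) hcont.continuousOn
  have h0 : (0:ℝ) ∈ uIcc ((u' + r (ρ u' c) 0) - (u + r (ρ u c) 0))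
      ((u' + r (ρ u' c) t) - (u + r (ρ u c) t)) := by
    rw [hr.zero, hr.zero]
    rw [Set.mem_uIcc]
    right
    constructor
    · linarith
    · linarith
  obtain ⟨s, _, hs⟩ := hivt h0
  simp only at hs
  have h2 := ode_unique h c (fun t => u + r (ρ u c) t) (fun t => u' + r (ρ u' c) t)
    (hd u) (hd u') s (by linarith)
  have h3 := congrFun h2 t
  linarith

theorem qs2_diff (hr : IsR ρ V r) (c : X) : Differentiable ℝ (r c) := fun t =>
  (hr.deriv c t).differentiableAt

theorem r_mono (h : SData ρ V p) (hr : IsR ρ V r) (c : X) : Monotone (r c) := by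
  apply monotone_of_deriv_nonneg (qs2_diff hr c)
  intro t
  rw [(hr.deriv c t).deriv]
  exact h.V0 _

theorem r_lip (h : SData ρ V p) (hr : IsR ρ V r) (c : X) (s t : ℝ) :
    |r c s - r c t| ≤ |s - t| := by
  have h1 := Convex.norm_image_sub_le_of_norm_hasDerivWithin_le (𝕜 := ℝ) (f := r c)
    (f' := fun t => V (ρ (r c t) c)) (s := univ) (x := t) (y := s) (C := 1)
    (fun x _ => (hr.deriv c x).hasDerivWithinAt) (fun x _ => by
      rw [Real.norm_eq_abs, abs_of_nonneg (h.V0 _)]
      exact h.V1 _) convex_univ (mem_univ _) (mem_univ _)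
  simpa [Real.norm_eq_abs] using h1

theorem r_ne (h : SData ρ V p) (hr : IsR ρ V r) {c : X} (hc : c ≠ p) (t : ℝ) :
    ρ (r c t) c ≠ p := by
  intro hp
  have h1 : ∀ s : ℝ, HasDerivAt (fun _ : ℝ => r c t) (V (ρ ((fun _ : ℝ => r c t) s) c)) s := by
    intro s
    simp only [hp, (h.zero p).mpr rfl]
    exact hasDerivAt_const s _
  have h2 := ode_unique h c (r c) (fun _ => r c t) (hr.deriv c) h1 t rfl
  have h3 := congrFun h2 0
  simp only [hr.zero] at h3
  rw [← h3, h.flow.zero] at hp
  exact hc hp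

theorem r_p (h : SData ρ V p) (hr : IsR ρ V r) (t : ℝ) : r p t = 0 := by
  have h1 : ∀ s : ℝ, HasDerivAt (fun _ : ℝ => (0:ℝ)) (V (ρ ((fun _ : ℝ => (0:ℝ)) s) p)) s := by
    intro s
    simp only [h.flow.zero, (h.zero p).mpr rfl]
    exact hasDerivAt_const s _
  have h2 := ode_unique h p (r p) (fun _ => 0) (hr.deriv p) h1 0 (hr.zero p)
  exact congrFun h2 t

theorem r_strict (h : SData ρ V p) (hr : IsR ρ V r) {c : X} (hc : c ≠ p) :
    StrictMono (r c) := by
  apply strictMono_of_deriv_pos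
  intro t
  rw [(hr.deriv c t).deriv]
  refine lt_of_le_of_ne (h.V0 _) ?_
  intro h0
  exact r_ne h hr hc t ((h.zero _).mp h0.symm)

theorem fl_flow (h : SData ρ V p) (hr : IsR ρ V r) : IsFlow (fl ρ r) := by
  refine ⟨?_, ?_, ?_⟩
  · have h1 : Continuous (fun q : ℝ × X => r q.2 q.1) :=
      hr.cont.comp (continuous_snd.prodMk continuous_fst)
    exact h.flow.cont.comp (h1.prodMk continuous_snd)
  · intro z
    unfold fl
    rw [hr.zero, h.flow.zero]
  · intro s t z
    unfold fl
    rw [qs2_comp h, add_comm s t, r_add h hr z t s, add_comm (r z t)]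

end CPE48
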