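import Pool.Agent.LibCPE48.QS2

/-! TASK QS3 (~100 lines).  Limits.  Use QS2 (stated).

* `lim_zero`: if `r c t → L` as `t → ∞` (or `-∞`) then `V (ρ L c) = 0`.  Proof: `V (ρ (r c t) c)` tends
  to `v = V (ρ L c)`; if `v > 0` then for `t ≥ T₀` the derivative of `r c` is `≥ v/2`, so
  `r c t ≥ r c T₀ + (t - T₀) v/2 → ∞`, contradiction with convergence.
* `r_top`: `r c` is monotone; if it does not tend to `∞` it converges to some `L ≥ r c 0 = 0`
  (`tendsto_of_monotone`), then `ρ L c = p`.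
* `r_ray_lt`: for `c = ρ (-u) p`, `u > 0`, and any `t`: `r c t < u`.  Otherwise, as `r c 0 = 0 < u`, the
  IVT gives `s` with `r c s = u`, `ρ (r c s) c = p`, contradiction with `r_ne`
  (`c ≠ p` by freeness).
* `r_ray_top`: then `r c` converges to `L ≤ u`, with `ρ L c = p`, so `ρ (L - u) p = p`, `L = u`.
* `r_ray_bot`: as `t → -∞`, if `r c` does not tend to `-∞` it converges to some `L ≤ 0` with
  `ρ L c = p`, i.e. `L = u > 0`, contradiction.
-/

namespace CPE48

open Set Function Filter Topology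

variable {X : Type*} [MetricSpace X] {ρ : ℝ → X → X} {V : X → ℝ} {p : X} {r : X → ℝ → ℝ}

theorem qs3_lim (h : SData ρ V p) (hr : IsR ρ V r) {c : X} {l : Filter ℝ} [NeBot l]
    (hl : Tendsto (fun t => t + 1) l l) {L : ℝ} (hL : Tendsto (r c) l (𝓝 L)) : ρ L c = p := by
  by_contra hne
  have h1 : Tendsto (fun t => r c (t + 1)) l (𝓝 L) := hL.comp hl
  have h2 : Tendsto (fun t => r c t + r (ρ (r c t) c) 1) l (𝓝 (L + r (ρ L c) 1)) := by
    refine hL.add ?_
    have h3 : Continuous (fun x : ℝ => r (ρ x c) 1) := by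
      have h4 : Continuous (fun x : ℝ => ρ x c) :=
        h.flow.cont.comp (continuous_id.prodMk continuous_const)
      exact hr.cont.comp (h4.prodMk continuous_const)
    exact (h3.tendsto L).comp hL
  have h3 : (fun t => r c (t + 1)) = fun t => r c t + r (ρ (r c t) c) 1 := by
    funext t
    exact r_add h hr c t 1
  rw [h3] at h1
  have h4 := tendsto_nhds_unique h1 h2
  have h5 := r_strict h hr hne (show (0:ℝ) < 1 by norm_num)
  rw [hr.zero] at h5
  linarith

theorem r_top (h : SData ρ V p) (hr : IsR ρ V r) {c : X} (hc : ∀ u, 0 ≤ u → ρ u c ≠ p) :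
    Tendsto (r c) atTop atTop := by
  rcases tendsto_atTop_of_monotone (r_mono h hr c) with h1 | ⟨L, hL⟩
  · exact h1
  · exfalso
    have h2 : r c 0 ≤ L := (r_mono h hr c).ge_of_tendsto hL 0
    rw [hr.zero] at h2
    exact hc L h2 (qs3_lim h hr (tendsto_atTop_add_const_right _ _ tendsto_id) hL)

theorem qs3_ne (h : SData ρ V p) {u : ℝ} (hu : 0 < u) : ρ (-u) p ≠ p := by
  intro h1
  have := h.free _ _ h1
  linarith

theorem r_ray_lt (h : SData ρ V p) (hr : IsR ρ V r) {u : ℝ} (hu : 0 < u) (t : ℝ) :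
    r (ρ (-u) p) t < u := by
  by_contra hge
  push Not at hge
  have hcont : Continuous (r (ρ (-u) p)) := (qs2_diff hr _).continuous
  have hivt := intermediate_value_uIcc (a := (0:ℝ)) (b := t) hcont.continuousOn
  have h0 : u ∈ uIcc (r (ρ (-u) p) 0) (r (ρ (-u) p) t) := by
    rw [hr.zero, Set.mem_uIcc]
    left
    exact ⟨hu.le, hge⟩
  obtain ⟨s, _, hs⟩ := hivt h0
  apply r_ne h hr (qs3_ne h hu) s
  rw [hs, qs2_comp h, add_neg_cancel, h.flow.zero]

theorem qs3_L (h : SData ρ V p) {u L : ℝ} (hL : ρ L (ρ (-u) p) = p) : L = u := by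
  rw [qs2_comp h] at hL
  have := h.free _ _ hL
  linarith

theorem r_ray_top (h : SData ρ V p) (hr : IsR ρ V r) {u : ℝ} (hu : 0 < u) :
    Tendsto (r (ρ (-u) p)) atTop (𝓝 u) := by
  rcases tendsto_atTop_of_monotone (r_mono h hr (ρ (-u) p)) with h1 | ⟨L, hL⟩
  · exfalso
    obtain ⟨t, ht⟩ := (h1.eventually (eventually_ge_atTop u)).exists
    exact absurd (r_ray_lt h hr hu t) (not_lt.mpr ht)
  · have h2 := qs3_lim h hr (tendsto_atTop_add_const_right _ _ tendsto_id) hL
    rw [qs3_L h h2] at hL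
    exact hL

theorem r_ray_bot (h : SData ρ V p) (hr : IsR ρ V r) {u : ℝ} (hu : 0 < u) :
    Tendsto (r (ρ (-u) p)) atBot atBot := by
  rcases tendsto_atBot_of_monotone (r_mono h hr (ρ (-u) p)) with h1 | ⟨L, hL⟩
  · exact h1
  · exfalso
    have h2 := qs3_lim h hr (tendsto_atBot_add_const_right _ _ tendsto_id) hL
    have h3 := qs3_L h h2
    have h4 : L ≤ r (ρ (-u) p) 0 := (r_mono h hr (ρ (-u) p)).le_of_tendsto hL 0
    rw [hr.zero] at h4
    linarith

end CPE48
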