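import Pool.Agent.LibCPE48.QD

/-! TASK QS5 (~90 lines).  Positions of the iterates of a line preserving map.  Here
`g c = ρ (s c) c`.

* `ps_iter`: induction on `i`: `g (ρ v c) = ρ (s (ρ v c)) (ρ v c) = ρ (v + s (ρ v c)) c`
  (commute the sum).
* `ps_add`: induction on `j`.
* `ps_mono`: composition of monotone functions `v ↦ v + s (ρ v c)`.
* `ps_bounds`: `0 ≤ s ≤ 1`.
* `ps_unif`: induction on `L`: with `d_i = |ps c i u - ps c' i u|`,
  `d_{i+1} ≤ d_i + |s (ρ (ps c i u) c) - s (ρ (ps c' i u) c')|` and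
  `dist (ρ v c) (ρ v' c') ≤ dist (ρ v c) (ρ v c') + dist (ρ v c') (ρ v' c') ≤ dist c c' + |v - v'|`
  (isometry; `dist (ρ v c') (ρ v' c') = dist (ρ (v - v') c') c' ≤ |v - v'|`), and `s` is uniformly
  continuous (`CompactSpace.uniformContinuous_of_continuous`).
-/

namespace CPE48

open Set Function Filter Topology

variable {X : Type*} [MetricSpace X] {ρ : ℝ → X → X} {s : X → ℝ}

theorem rho_dist (h : IsFlow ρ) (iso : ∀ u c c', dist (ρ u c) (ρ u c') = dist c c')
    (speed : ∀ u c, dist (ρ u c) c ≤ |u|) (v v' : ℝ) (c c' : X) :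
    dist (ρ v c) (ρ v' c') ≤ dist c c' + |v - v'| := by
  have h1 : dist (ρ v c) (ρ v' c') ≤ dist (ρ v c) (ρ v c') + dist (ρ v c') (ρ v' c') :=
    dist_triangle _ _ _
  have h2 : ρ v c' = ρ v' (ρ (v - v') c') := by
    rw [← h.add]; congr 1; ring
  have h3 : dist (ρ v c') (ρ v' c') = dist (ρ (v - v') c') c' := by
    rw [h2, iso]
  have h4 := speed (v - v') c'
  rw [iso] at h1
  linarith

theorem ps_iter (h : IsFlow ρ) (c : X) (i : ℕ) (u : ℝ) :
    ρ (ps ρ s c i u) c = (fun c => ρ (s c) c)^[i] (ρ u c) := by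
  induction i with
  | zero => rfl
  | succ i ih =>
    rw [Function.iterate_succ_apply', ← ih]
    show ρ (ps ρ s c i u + s (ρ (ps ρ s c i u) c)) c = _
    rw [add_comm, h.add]

theorem ps_add (c : X) (i j : ℕ) (u : ℝ) :
    ps ρ s c (i + j) u = ps ρ s c j (ps ρ s c i u) := by
  induction j with
  | zero => rfl
  | succ j ih =>
    show ps ρ s c (i + j) u + s (ρ (ps ρ s c (i + j) u) c) = _
    rw [ih]
    rfl

theorem ps_mono (hm : ∀ c, Monotone (fun u => u + s (ρ u c))) (c : X) (i : ℕ) :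
    Monotone (ps ρ s c i) := by
  induction i with
  | zero => exact fun a b hab => hab
  | succ i ih => exact fun a b hab => hm c (ih hab)

theorem ps_bounds (h0 : ∀ c, 0 ≤ s c) (h1 : ∀ c, s c ≤ 1) (c : X) (i : ℕ) (u : ℝ) :
    u ≤ ps ρ s c i u ∧ ps ρ s c i u ≤ u + i := by
  induction i with
  | zero => simp [ps]
  | succ i ih =>
    have e : ps ρ s c (i + 1) u = ps ρ s c i u + s (ρ (ps ρ s c i u) c) := rfl
    have a := h0 (ρ (ps ρ s c i u) c)
    have b := h1 (ρ (ps ρ s c i u) c)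
    rw [e]
    push_cast
    constructor <;> linarith [ih.1, ih.2]

theorem ps_unif [CompactSpace X] (h : IsFlow ρ)
    (iso : ∀ u c c', dist (ρ u c) (ρ u c') = dist c c')
    (speed : ∀ u c, dist (ρ u c) c ≤ |u|) (hs : Continuous s) (L : ℕ) (ε : ℝ) (hε : 0 < ε) :
    ∃ δ : ℝ, 0 < δ ∧ ∀ c c', dist c c' < δ → ∀ i ≤ L, ∀ u,
      |ps ρ s c i u - ps ρ s c' i u| < ε := by
  induction L generalizing ε with
  | zero =>
    refine ⟨1, one_pos, fun c c' _ i hi u => ?_⟩
    have : i = 0 := by omega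
    subst this
    simpa [ps] using hε
  | succ L ih =>
    have hu : UniformContinuous s := CompactSpace.uniformContinuous_of_continuous hs
    obtain ⟨δs, hδs, hsu⟩ := Metric.uniformContinuous_iff.mp hu (ε / 2) (by positivity)
    obtain ⟨δ', hδ', hi'⟩ := ih (min (ε / 2) (δs / 2)) (by positivity)
    refine ⟨min δ' (δs / 2), by positivity, fun c c' hc i hi u => ?_⟩
    have hc1 : dist c c' < δ' := lt_of_lt_of_le hc (min_le_left _ _)
    have hc2 : dist c c' < δs / 2 := lt_of_lt_of_le hc (min_le_right _ _)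
    rcases Nat.lt_or_ge i (L + 1) with hlt | hge
    · have := hi' c c' hc1 i (by omega) u
      have h2 := min_le_left (ε / 2) (δs / 2)
      linarith
    · have hiL : i = L + 1 := by omega
      subst hiL
      have a := hi' c c' hc1 L le_rfl u
      have a1 : |ps ρ s c L u - ps ρ s c' L u| < ε / 2 := lt_of_lt_of_le a (min_le_left _ _)
      have a2 : |ps ρ s c L u - ps ρ s c' L u| < δs / 2 := lt_of_lt_of_le a (min_le_right _ _)
      have e : ps ρ s c (L + 1) u = ps ρ s c L u + s (ρ (ps ρ s c L u) c) := rfl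
      have e' : ps ρ s c' (L + 1) u = ps ρ s c' L u + s (ρ (ps ρ s c' L u) c') := rfl
      have hd := rho_dist h iso speed (ps ρ s c L u) (ps ρ s c' L u) c c'
      have hd' : dist (ρ (ps ρ s c L u) c) (ρ (ps ρ s c' L u) c') < δs := by linarith
      have b := hsu hd'
      rw [Real.dist_eq] at b
      rw [e, e']
      rw [abs_lt] at *
      constructor <;> linarith [a1.1, a1.2, b.1, b.2]

end CPE48
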