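import Pool.Agent.LibCPE48.QS3

/-! TASK QS7 (~100 lines).  Change of time along a piece of line which avoids `p`.  Use QS2, QS3
(stated).

Since `ρ u c ≠ p` for `u ∈ [0, R]`, there is `T ≥ 0` with `r c T = R`: otherwise `r c t < R` for all
`t ≥ 0` (IVT, `r c 0 = 0`), `r c` is monotone and converges to some `L ∈ [0, R]` and `V (ρ L c) = 0`
(argument of QS3, `lim_zero`; redo it here or put it in a lemma).  `T ≥ R` by `r_lip`.
For `t ∈ [0, T]`, `r c t ∈ [0, R]` and `V (ρ (r c t) c) > 0`.  Substitution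
`u = r c t` (`intervalIntegral.integral_comp_mul_deriv'` or `integral_comp_mul_deriv''`):
`∫_0^R b (ρ u c) / V (ρ u c) du = ∫_0^T (b (ρ (r c t) c) / V (ρ (r c t) c)) V (ρ (r c t) c) dt`.
-/

namespace CPE48

open Set Function Filter Topology

variable {X : Type*} [MetricSpace X] {ρ : ℝ → X → X} {V : X → ℝ} {p : X} {r : X → ℝ → ℝ}

theorem time_change (h : SData ρ V p) (hr : IsR ρ V r) (c : X) (R : ℝ) (hR : 0 ≤ R)
    (hc : ∀ u ∈ Icc 0 R, ρ u c ≠ p) : ∃ T : ℝ, R ≤ T ∧ r c T = R ∧
      ∀ b : X → ℝ, Continuous b →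
        ∫ t in (0:ℝ)..T, b (fl ρ r t c) = ∫ u in (0:ℝ)..R, b (ρ u c) / V (ρ u c) := by
  have hρc : Continuous (fun u : ℝ => ρ u c) :=
    h.flow.cont.comp (continuous_id.prodMk continuous_const)
  have hVc : Continuous (fun u : ℝ => V (ρ u c)) := h.Vc.comp hρc
  have hVpos : ∀ u ∈ Icc 0 R, 0 < V (ρ u c) := fun u hu =>
    lt_of_le_of_ne (h.V0 _) (fun h0 => hc u hu ((h.zero _).mp h0.symm))
  have hrc : Continuous (r c) :=
    continuous_iff_continuousAt.mpr (fun t => (hr.deriv c t).continuousAt)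
  have hmono := r_mono h hr c
  obtain ⟨T, hT0, hTR⟩ : ∃ T, 0 ≤ T ∧ r c T = R := by
    obtain ⟨u0, hu0, hmin⟩ := isCompact_Icc.exists_isMinOn (nonempty_Icc.mpr hR) hVc.continuousOn
    have hm := hVpos u0 hu0
    have hmin' : ∀ u ∈ Icc 0 R, V (ρ u0 c) ≤ V (ρ u c) := fun u hu => hmin hu
    clear hmin
    generalize V (ρ u0 c) = m at hm hmin'
    by_contra hcon
    push Not at hcon
    have hlt : ∀ t, 0 ≤ t → r c t < R := by
      intro t ht
      by_contra hge
      push Not at hge
      obtain ⟨s, hs, hs2⟩ := intermediate_value_Icc ht hrc.continuousOn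
        ⟨(by rw [hr.zero]; exact hR), hge⟩
      exact hcon s hs.1 hs2
    have hder := (convex_Ici (0:ℝ)).mul_sub_le_image_sub_of_le_deriv (C := m)
      hrc.continuousOn (fun t _ => (hr.deriv c t).differentiableAt.differentiableWithinAt)
      (fun t ht => by
        rw [(hr.deriv c t).deriv]
        rw [interior_Ici] at ht
        have ht0 : (0:ℝ) ≤ t := le_of_lt ht
        refine hmin' _ ⟨?_, (hlt t ht0).le⟩
        have := hmono ht0
        rwa [hr.zero] at this)
    have hRm : 0 ≤ R / m + 1 := by positivity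
    have h1 := hder 0 (mem_Ici.mpr le_rfl) (R / m + 1) (mem_Ici.mpr hRm) hRm
    rw [hr.zero] at h1
    have h2 := hlt _ hRm
    have h3 : m * (R / m + 1 - 0) = R + m := by
      field_simp
      ring
    rw [h3] at h1
    linarith
  have hRT : R ≤ T := by
    have h1 := r_lip h hr c T 0
    rw [hTR, hr.zero, sub_zero, sub_zero, abs_of_nonneg hR, abs_of_nonneg hT0] at h1
    exact h1
  have himg : ∀ t ∈ Icc (0:ℝ) T, r c t ∈ Icc 0 R := by
    intro t ht
    constructor
    · have := hmono ht.1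
      rwa [hr.zero] at this
    · have := hmono ht.2
      rwa [hTR] at this
  refine ⟨T, hRT, hTR, ?_⟩
  intro b hb
  have hsub := intervalIntegral.integral_comp_mul_deriv' (a := 0) (b := T) (f := r c)
    (f' := fun t => V (ρ (r c t) c)) (g := fun u => b (ρ u c) / V (ρ u c))
    (fun t _ => hr.deriv c t) (hVc.comp hrc).continuousOn (by
      rw [uIcc_of_le hT0]
      refine ContinuousOn.div (hb.comp hρc).continuousOn hVc.continuousOn ?_
      rintro u ⟨t, ht, rfl⟩
      exact (hVpos _ (himg t ht)).ne')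
  rw [hr.zero, hTR] at hsub
  rw [← hsub]
  refine intervalIntegral.integral_congr ?_
  intro t ht
  rw [uIcc_of_le hT0] at ht
  have hne := (hVpos _ (himg t ht)).ne'
  show b (ρ (r c t) c) = b (ρ (r c t) c) / V (ρ (r c t) c) * V (ρ (r c t) c)
  field_simp

end CPE48
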