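import Pool.Agent.LibCPE48.N02
import Pool.Agent.LibCPE48.QD

/-! TASK QT1.  The linear flow of the two-torus with speed `dist c 0`. -/

namespace CPE48

open Set Function Filter Topology

theorem al_nonneg : 0 ≤ al := tsum_nonneg fun j => by positivity

theorem qt1_term (j : ℕ) : 1 / (qq j : ℝ) ≤ (1 / 2 : ℝ) ^ (j + 1) := by
  have h1 : (2:ℝ) ^ (j + 1) ≤ (qq j : ℝ) := by exact_mod_cast two_pow_le_qq j
  rw [one_div_pow]
  exact one_div_le_one_div_of_le (by positivity) h1

theorem qt1_sum : HasSum (fun j : ℕ => (1 / 2 : ℝ) ^ (j + 1)) 1 := by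
  have h := (hasSum_geometric_two).mul_left (1 / 2 : ℝ)
  have h2 : (fun j : ℕ => (1 / 2 : ℝ) ^ (j + 1)) = fun j : ℕ => (1 / 2 : ℝ) * (1 / 2) ^ j := by
    funext j; rw [pow_succ]; ring
  rw [h2]
  have h3 : (1 / 2 : ℝ) * 2 = 1 := by norm_num
  rw [h3] at h
  exact h

theorem al_le : al ≤ 1 := by
  have h := Summable.tsum_le_tsum qt1_term al_summable qt1_sum.summable
  rw [qt1_sum.tsum_eq] at h
  exact h

theorem qt1_norm_le (x : ℝ) : ‖(x : UnitAddCircle)‖ ≤ |x| := by
  rw [UnitAddCircle.norm_eq]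
  have h := round_le x 0
  simpa using h

theorem qt1_norm_half (x : UnitAddCircle) : ‖x‖ ≤ 1 / 2 := by
  obtain ⟨y, rfl⟩ : ∃ y : ℝ, (y : UnitAddCircle) = x := QuotientAddGroup.mk_surjective x
  rw [UnitAddCircle.norm_eq]
  exact abs_sub_round y

theorem qt1_speed (u : ℝ) (c : UnitAddCircle × UnitAddCircle) : dist (rot u c) c ≤ |u| := by
  unfold rot
  rw [Prod.dist_eq]
  refine max_le ?_ ?_
  · simp only [dist_eq_norm, add_sub_cancel_left]
    refine (qt1_norm_le _).trans ?_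
    rw [abs_mul, abs_of_nonneg al_nonneg]
    have := al_le
    nlinarith [abs_nonneg u]
  · simp only [dist_eq_norm, add_sub_cancel_left]
    exact qt1_norm_le _

theorem tS : SData rot (fun c : UnitAddCircle × UnitAddCircle => dist c 0) 0 where
  flow := rot_flow
  iso := rot_iso
  free := rot_free
  speed := qt1_speed
  Vc := continuous_id.dist continuous_const
  V0 := fun c => dist_nonneg
  V1 := fun c => by
    rw [Prod.dist_eq]
    refine max_le ?_ ?_
    · rw [dist_eq_norm]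
      simp only [Prod.fst_zero, sub_zero]
      linarith [qt1_norm_half c.1]
    · rw [dist_eq_norm]
      simp only [Prod.snd_zero, sub_zero]
      linarith [qt1_norm_half c.2]
  zero := fun c => dist_eq_zero
  lip := fun c u u' => by
    have h1 : |dist (rot u c) 0 - dist (rot u' c) 0| ≤ dist (rot u c) (rot u' c) :=
      abs_dist_sub_le _ _ _
    refine h1.trans ?_
    have h2 : rot u c = rot u' (rot (u - u') c) := by
      rw [← rot_flow.add]; congr 1; ring
    rw [h2, rot_iso]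
    exact qt1_speed _ _

theorem qt1_neg (w : ℝ) : rot (-w) 0 = - rot w 0 := by
  unfold rot
  refine Prod.ext ?_ ?_
  · simp only [Prod.fst_zero, zero_add, Prod.fst_neg, mul_neg]
    exact AddCircle.coe_neg 1
  · simp only [Prod.snd_zero, zero_add, Prod.snd_neg]
    exact AddCircle.coe_neg 1

theorem rot_fwd (T : ℝ) (W : Set (UnitAddCircle × UnitAddCircle)) (hW : IsOpen W)
    (hne : W.Nonempty) : ∃ u : ℝ, T ≤ u ∧ rot u 0 ∈ W := by
  obtain ⟨v, hv⟩ := hne
  obtain ⟨η, hη, hb⟩ := Metric.isOpen_iff.1 hW v hv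
  obtain ⟨M, _, hM⟩ := rot_dense v η hη
  obtain ⟨r, hr, hd⟩ := hM (rot T 0)
  refine ⟨r + T, by linarith [hr.1], ?_⟩
  apply hb
  rw [rot_flow.add]
  exact hd

theorem rot_back (T : ℝ) (W : Set (UnitAddCircle × UnitAddCircle)) (hW : IsOpen W)
    (hne : W.Nonempty) : ∃ u : ℝ, T ≤ u ∧ rot (-u) 0 ∈ W := by
  have hW' : IsOpen ((fun x => -x) ⁻¹' W) := hW.preimage continuous_neg
  have hne' : ((fun x => -x) ⁻¹' W).Nonempty := by
    obtain ⟨v, hv⟩ := hne
    exact ⟨-v, by simpa using hv⟩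
  obtain ⟨u, hu, h⟩ := rot_fwd T _ hW' hne'
  refine ⟨u, hu, ?_⟩
  rw [qt1_neg]
  exact h

theorem qt1_coe_int (n : ℤ) : ((n : ℝ) : UnitAddCircle) = 0 := by
  rw [AddCircle.coe_eq_zero_iff]
  exact ⟨n, by simp⟩

theorem rot_pathQ (u : ℝ) (η : ℝ) (hη : 0 < η) :
    ∃ γ : ℝ → UnitAddCircle × UnitAddCircle, Continuous γ ∧
      γ 0 = rot (-u) 0 ∧ (∀ l ∈ Icc (0:ℝ) 1, dist (γ l) (rot (-u) 0) < η) ∧
      ∀ v, rot v (γ 1) ≠ 0 := by
  obtain ⟨N0, hN0⟩ := exists_nat_gt (1 / η)
  set N : ℕ := N0 + 1 with hN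
  have hNpos : (0:ℝ) < (N : ℝ) + 1 := by positivity
  have ht0 : (0:ℝ) < 1 / ((N : ℝ) + 1) := by positivity
  have htη : 1 / ((N : ℝ) + 1) < η := by
    rw [div_lt_iff₀ hη] at hN0
    rw [div_lt_iff₀ hNpos]
    have : (N : ℝ) = N0 + 1 := by rw [hN]; push_cast; ring
    rw [this]
    nlinarith
  have ht1 : 1 / ((N : ℝ) + 1) < 1 := by
    rw [div_lt_one hNpos]
    have : (N : ℝ) = N0 + 1 := by rw [hN]; push_cast; ring
    rw [this]
    have : (0:ℝ) ≤ N0 := Nat.cast_nonneg _
    linarith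
  refine ⟨fun l => ((rot (-u) 0).1 + ((l * (1 / ((N : ℝ) + 1)) : ℝ) : UnitAddCircle),
    (rot (-u) 0).2), ?_, ?_, ?_, ?_⟩
  · have h1 : Continuous fun x : ℝ => (x : UnitAddCircle) := AddCircle.continuous_mk' 1
    refine Continuous.prodMk ?_ continuous_const
    exact continuous_const.add (h1.comp (continuous_id.mul continuous_const))
  · simp
  · intro l hl
    rw [Prod.dist_eq]
    refine max_lt ?_ ?_
    · simp only [dist_eq_norm, add_sub_cancel_left]
      refine lt_of_le_of_lt (qt1_norm_le _) ?_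
      rw [abs_mul, abs_of_nonneg hl.1, abs_of_pos ht0]
      calc l * (1 / ((N : ℝ) + 1)) ≤ 1 * (1 / ((N : ℝ) + 1)) :=
            mul_le_mul_of_nonneg_right hl.2 ht0.le
        _ < η := by rw [one_mul]; exact htη
    · simp only [dist_self]; exact hη
  · intro v hv
    have h1 := congrArg Prod.fst hv
    have h2 := congrArg Prod.snd hv
    unfold rot at h1 h2
    simp only [Prod.fst_zero, Prod.snd_zero, zero_add, one_mul] at h1 h2
    rw [← AddCircle.coe_add] at h2
    rw [← AddCircle.coe_add, ← AddCircle.coe_add] at h1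
    rw [AddCircle.coe_eq_zero_iff] at h1 h2
    obtain ⟨m, hm⟩ := h1
    obtain ⟨n, hn⟩ := h2
    simp only [zsmul_eq_mul, mul_one] at hm hn
    -- n = -u + v, m = al * (-u) + t + al * v
    have hm' : al * (n : ℝ) = (m : ℝ) - 1 / ((N : ℝ) + 1) := by
      rw [hm, hn]; ring
    have h3 : al * ((n : ℝ) * ((N : ℝ) + 1)) = ((m * (N + 1) - 1 : ℤ) : ℝ) := by
      have : al * ((n : ℝ) * ((N : ℝ) + 1)) = (al * n) * ((N : ℝ) + 1) := by ring
      rw [this, hm', sub_mul, one_div, inv_mul_cancel₀ hNpos.ne']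
      push_cast
      ring
    have h4 : rot ((n : ℝ) * ((N : ℝ) + 1)) 0 = 0 := by
      unfold rot
      refine Prod.ext ?_ ?_
      · simp only [Prod.fst_zero, zero_add]
        rw [h3]
        exact qt1_coe_int _
      · simp only [Prod.snd_zero, zero_add]
        have : (n : ℝ) * ((N : ℝ) + 1) = ((n * (N + 1) : ℤ) : ℝ) := by push_cast; ring
        rw [this]
        exact qt1_coe_int _
    have h5 := rot_free _ _ h4
    have h6 : (n : ℝ) = 0 := by
      rcases mul_eq_zero.1 h5 with h | h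
      · exact h
      · exact absurd h hNpos.ne'
    rw [h6, mul_zero] at hm'
    have h7 : (m : ℝ) = 1 / ((N : ℝ) + 1) := by linarith
    have h8 : (0:ℝ) < m := by rw [h7]; exact ht0
    have h9 : (m : ℝ) < 1 := by rw [h7]; exact ht1
    have h10 : 0 < m := by exact_mod_cast h8
    have h11 : m < 1 := by exact_mod_cast h9
    omega

end CPE48
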