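import Pool.Agent.LibCPE48.QS3

/-! TASK QW1 (~110 lines).  The parametrization `ww` of the ray.  Use QS2, QS3 (stated).
Notation: `z = ρ (-1) p`, `ww x = 1 - r z (-x)`.

* `ww_lip` from `r_lip`; `ww_strict` from `r_strict` (`z ≠ p` by freeness); `ww_zero`.
* `ww_pos`: `r z (-x) < 1` (`r_ray_lt`).
* `ww_top`, `ww_bot`: `r_ray_bot`, `r_ray_top`.
* `ww_surj`: IVT: every `w > 0` is `ww x` (`ww` is continuous, tends to `0` and to `∞`).
* `ww_shift`: `r (ρ (-(ww x)) p) t = ww x - ww (x - t)`: since `ρ (r z (-x)) z = ρ (-(ww x)) p`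
  (`ρ (r - 1) p`), `r_add` gives `r z (-x + t) = r z (-x) + r (ρ (-(ww x)) p) t`.
-/

namespace CPE48

open Set Function Filter Topology

variable {X : Type*} [MetricSpace X] {ρ : ℝ → X → X} {V : X → ℝ} {p : X} {r : X → ℝ → ℝ}

theorem qw1_ne (h : SData ρ V p) : ρ (-1) p ≠ p := by
  intro he
  have := h.free _ _ he
  norm_num at this

theorem qw1_pt (h : SData ρ V p) (x : ℝ) :
    ρ (r (ρ (-1) p) (-x)) (ρ (-1) p) = ρ (-(ww ρ r p x)) p := by
  rw [← h.flow.add]
  congr 1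
  unfold ww
  ring

theorem ww_lip (h : SData ρ V p) (hr : IsR ρ V r) (x x' : ℝ) :
    |ww ρ r p x - ww ρ r p x'| ≤ |x - x'| := by
  have h1 := r_lip h hr (ρ (-1) p) (-x') (-x)
  have e1 : ww ρ r p x - ww ρ r p x' = r (ρ (-1) p) (-x') - r (ρ (-1) p) (-x) := by
    unfold ww; ring
  have e2 : x - x' = -x' - -x := by ring
  rw [e1, e2]
  exact h1

theorem ww_strict (h : SData ρ V p) (hr : IsR ρ V r) : StrictMono (ww ρ r p) := by
  intro x y hxy
  have h1 := r_strict h hr (qw1_ne h) (neg_lt_neg hxy)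
  unfold ww
  linarith

theorem ww_zero (hr : IsR ρ V r) : ww ρ r p 0 = 1 := by
  unfold ww
  rw [neg_zero, hr.zero, sub_zero]

theorem ww_pos (h : SData ρ V p) (hr : IsR ρ V r) (x : ℝ) : 0 < ww ρ r p x := by
  have h1 := r_ray_lt h hr (u := 1) one_pos (-x)
  unfold ww
  linarith

theorem ww_top (h : SData ρ V p) (hr : IsR ρ V r) : Tendsto (ww ρ r p) atTop atTop := by
  have h1 := (r_ray_bot h hr (u := 1) one_pos).comp tendsto_neg_atTop_atBot
  have h2 : Tendsto (fun x : ℝ => -(r (ρ (-1) p) (-x))) atTop atTop :=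
    tendsto_neg_atBot_atTop.comp h1
  have h3 := tendsto_atTop_add_const_left atTop (1:ℝ) h2
  refine h3.congr (fun x => ?_)
  unfold ww
  ring

theorem ww_bot (h : SData ρ V p) (hr : IsR ρ V r) : Tendsto (ww ρ r p) atBot (𝓝 0) := by
  have h1 := (r_ray_top h hr (u := 1) one_pos).comp tendsto_neg_atBot_atTop
  have h2 : Tendsto (fun x : ℝ => 1 - (r (ρ (-1) p) (-x))) atBot (𝓝 (1 - 1)) :=
    tendsto_const_nhds.sub h1
  rw [sub_self] at h2
  exact h2

theorem ww_surj (h : SData ρ V p) (hr : IsR ρ V r) (w : ℝ) (hw : 0 < w) :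
    ∃ x, ww ρ r p x = w := by
  have hc : Continuous (ww ρ r p) := by
    have h1 : LipschitzWith 1 (ww ρ r p) := LipschitzWith.of_dist_le_mul (fun x y => by
      rw [Real.dist_eq, Real.dist_eq, NNReal.coe_one, one_mul]
      exact ww_lip h hr x y)
    exact h1.continuous
  obtain ⟨a, ha⟩ := ((ww_bot h hr).eventually (gt_mem_nhds hw)).exists
  obtain ⟨b, hb⟩ := ((ww_top h hr).eventually (eventually_ge_atTop w)).exists
  have := intermediate_value_univ a b hc
  exact this ⟨ha.le, hb⟩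

theorem ww_shift (h : SData ρ V p) (hr : IsR ρ V r) (x t : ℝ) :
    r (ρ (-(ww ρ r p x)) p) t = ww ρ r p x - ww ρ r p (x - t) := by
  have h1 := r_add h hr (ρ (-1) p) (-x) t
  rw [qw1_pt h] at h1
  have e : ww ρ r p (x - t) = 1 - r (ρ (-1) p) (-x + t) := by
    have e3 : -(x - t) = -x + t := by ring
    unfold ww
    rw [e3]
  rw [e, h1]
  unfold ww
  ring

theorem ww_deriv (h : SData ρ V p) (hr : IsR ρ V r) (x : ℝ) :
    HasDerivAt (ww ρ r p) (V (ρ (-(ww ρ r p x)) p)) x := by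
  have h1 := hr.deriv (ρ (-1) p) (-x)
  rw [qw1_pt h] at h1
  have h2 : HasDerivAt (fun x : ℝ => r (ρ (-1) p) (-x)) (V (ρ (-(ww ρ r p x)) p) * (-1)) x :=
    h1.comp x (hasDerivAt_neg x)
  have h3 := h2.const_sub 1
  rw [mul_neg, mul_one, neg_neg] at h3
  exact h3

end CPE48
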