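import Pool.Agent.LibCPE48.QW1

/-! TASK QW2 (~90 lines).  The gap lemma.  Use QW1 (stated).

Let `w = ww`, `v x = V (ρ (-(w x)) p) > 0` (positive since `ρ (-(w x)) p ≠ p`), so `w' = v`, and
`|v x - v x'| ≤ |w x - w x'|` (`h.lip` with `c = p`).
* `v_ratio`: `v y ≤ v x * exp |x - y|`.  Proof: Gronwall, or: let `x ≤ y` (other case similar);
  `f t = v t`, `|f t - f x| ≤ ∫_x^t f`; e.g. apply
  `norm_le_gronwallBound_of_norm_deriv_right_le` to the function `w t - w x + v x` =: `G`, for which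
  `G' = v ≤ v x + (w t - w x) = G`, so `G t ≤ G x exp (t - x) = v x exp(t - x)` [monotone:
  `G t exp(-t)` has derivative `≤ 0`], hence `v t ≤ v x + w t - w x = G t ≤ v x exp (t - x)`.
  For `y ≤ x` use `G t = w x - w t + v x`, `G' = -v`, `v t ≤ v x + (w x - w t) = G t`,
  `-G' ≤ G`, so `G y ≤ G x exp (x - y)`.
* `gap`: for `0 < l ≤ 1/8`: `w (x + l) - w x = ∫ v ≤ l v x exp(1/8)`, and
  `w x - w (x + l - 1) = ∫_{x+l-1}^x v ≥ (1 - l) v x exp(-1)` (from `v x ≤ v y exp(|x - y|)`,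
  `|x - y| ≤ 1`).  Conclude: `2 l exp(1/8) < (1 - l) exp(-1)` for `0 < l ≤ 1/8`
  (`exp(1/8) exp 1 = exp(9/8) < 3.5 = (7/8)/(1/4)`; e.g. `exp 1 < 2.7182818286`,
  `exp (1/8) ≤ 1/(1 - 1/8) = 8/7`: `2.7183 * 8/7 < 3.2`).
-/

namespace CPE48

open Set Function Filter Topology

variable {X : Type*} [MetricSpace X] {ρ : ℝ → X → X} {V : X → ℝ} {p : X} {r : X → ℝ → ℝ}

theorem qw2_gron (k : ℝ) (G G' : ℝ → ℝ) (a b : ℝ) (hab : a ≤ b)
    (hG : ∀ t, HasDerivAt G (G' t) t) (hle : ∀ t, a ≤ t → G' t ≤ k * G t) :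
    G b * Real.exp (-(k * b)) ≤ G a * Real.exp (-(k * a)) := by
  have hF : ∀ t, HasDerivAt (fun t => G t * Real.exp (-(k * t)))
      (G' t * Real.exp (-(k * t)) + G t * (Real.exp (-(k * t)) * (-(k * 1)))) t := by
    intro t
    have h1 : HasDerivAt (fun t : ℝ => -(k * t)) (-(k * 1)) t :=
      ((hasDerivAt_id t).const_mul k).neg
    exact (hG t).mul h1.exp
  have hanti : AntitoneOn (fun t => G t * Real.exp (-(k * t))) (Icc a b) := by
    apply antitoneOn_of_deriv_nonpos (convex_Icc a b)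
    · exact fun t _ => (hF t).continuousAt.continuousWithinAt
    · exact fun t _ => (hF t).differentiableAt.differentiableWithinAt
    · intro t ht
      rw [interior_Icc] at ht
      rw [(hF t).deriv]
      have h1 := hle t ht.1.le
      have h2 := Real.exp_pos (-(k * t))
      have h3 : (G' t - k * G t) * Real.exp (-(k * t)) ≤ 0 :=
        mul_nonpos_of_nonpos_of_nonneg (by linarith) h2.le
      linarith
  exact hanti (left_mem_Icc.2 hab) (right_mem_Icc.2 hab) hab

theorem qw2_vpos (h : SData ρ V p) (hr : IsR ρ V r) (x : ℝ) :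
    0 < V (ρ (-(ww ρ r p x)) p) := by
  refine lt_of_le_of_ne (h.V0 _) (fun h0 => ?_)
  have h1 := h.free _ _ ((h.zero _).1 h0.symm)
  have h2 := ww_pos h hr x
  linarith

theorem qw2_vle (h : SData ρ V p) (x y : ℝ) :
    V (ρ (-(ww ρ r p x)) p) ≤ V (ρ (-(ww ρ r p y)) p) + |ww ρ r p x - ww ρ r p y| := by
  have h1 := h.lip p (-(ww ρ r p x)) (-(ww ρ r p y))
  have e : |(-(ww ρ r p x)) - (-(ww ρ r p y))| = |ww ρ r p x - ww ρ r p y| := by
    rw [← abs_neg]
    congr 1
    ring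
  rw [e] at h1
  have := le_abs_self (V (ρ (-(ww ρ r p x)) p) - V (ρ (-(ww ρ r p y)) p))
  linarith

theorem qw2_up (h : SData ρ V p) (hr : IsR ρ V r) (x l : ℝ) (hl : 0 ≤ l) :
    ww ρ r p (x + l) - ww ρ r p x ≤ V (ρ (-(ww ρ r p x)) p) * (Real.exp l - 1) := by
  have hmono := (ww_strict h hr).monotone
  have h1 := qw2_gron 1 (fun t => V (ρ (-(ww ρ r p x)) p) + (ww ρ r p t - ww ρ r p x))
    (fun t => V (ρ (-(ww ρ r p t)) p)) x (x + l) (by linarith)
    (fun t => ((ww_deriv h hr t).sub_const _).const_add _) (fun t ht => by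
      have h2 := qw2_vle h (r := r) t x
      rw [abs_of_nonneg (sub_nonneg.2 (hmono ht))] at h2
      linarith)
  have h2 : (V (ρ (-(ww ρ r p x)) p) + (ww ρ r p (x + l) - ww ρ r p x)) *
      Real.exp (-(1 * (x + l))) ≤ V (ρ (-(ww ρ r p x)) p) * Real.exp (-(1 * x)) := by
    have h3 := h1
    rw [sub_self, add_zero] at h3
    exact h3
  have e1 : Real.exp (-(1 * (x + l))) * Real.exp (x + l) = 1 := by
    rw [← Real.exp_add]; simp
  have e2 : Real.exp (-(1 * x)) * Real.exp (x + l) = Real.exp l := by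
    rw [← Real.exp_add]; congr 1; ring
  have h4 := mul_le_mul_of_nonneg_right h2 (Real.exp_pos (x + l)).le
  rw [mul_assoc, e1, mul_assoc, e2, mul_one] at h4
  linarith

theorem qw2_low (h : SData ρ V p) (hr : IsR ρ V r) (x s : ℝ) (hs : 0 ≤ s) :
    V (ρ (-(ww ρ r p x)) p) * (1 - Real.exp (-s)) ≤ ww ρ r p x - ww ρ r p (x - s) := by
  have hmono := (ww_strict h hr).monotone
  have hd : ∀ t, HasDerivAt (fun t => V (ρ (-(ww ρ r p x)) p) - ww ρ r p x + ww ρ r p (x - t))
      (-(V (ρ (-(ww ρ r p (x - t))) p))) t := by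
    intro t
    have h1 : HasDerivAt (fun t : ℝ => x - t) (-1) t := by
      simpa using (hasDerivAt_id t).const_sub x
    have h2 := (ww_deriv h hr (x - t)).comp t h1
    rw [mul_neg, mul_one] at h2
    exact h2.const_add _
  have h1 := qw2_gron (-1) _ _ 0 s hs hd (fun t ht => by
      have h2 := qw2_vle h (r := r) x (x - t)
      rw [abs_of_nonneg (sub_nonneg.2 (hmono (by linarith)))] at h2
      linarith)
  have h2 : (V (ρ (-(ww ρ r p x)) p) - ww ρ r p x + ww ρ r p (x - s)) *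
      Real.exp (-(-1 * s)) ≤ V (ρ (-(ww ρ r p x)) p) := by
    have h3 := h1
    have e3 : V (ρ (-(ww ρ r p x)) p) - ww ρ r p x + ww ρ r p (x - 0) =
        V (ρ (-(ww ρ r p x)) p) := by rw [sub_zero]; ring
    rw [e3, mul_zero, neg_zero, Real.exp_zero, mul_one] at h3
    exact h3
  have e1 : Real.exp (-(-1 * s)) * Real.exp (-s) = 1 := by
    rw [← Real.exp_add]; simp
  have h4 := mul_le_mul_of_nonneg_right h2 (Real.exp_pos (-s)).le
  rw [mul_assoc, e1, mul_one] at h4
  linarith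

theorem ww_gap (h : SData ρ V p) (hr : IsR ρ V r) (x l : ℝ) (hl : 0 < l) (hl' : l ≤ 1 / 8) :
    2 * (ww ρ r p (x + l) - ww ρ r p x) < ww ρ r p x - ww ρ r p (x + l - 1) := by
  have h1 := qw2_up h hr x l hl.le
  have h2 := qw2_low h hr x (1 - l) (by linarith)
  have hv := qw2_vpos h hr x
  have e : x - (1 - l) = x + l - 1 := by ring
  rw [e] at h2
  have h3 : Real.exp l ≤ 8 / 7 := by
    have h4 := Real.add_one_le_exp (-l)
    have h5 : Real.exp l * Real.exp (-l) = 1 := by rw [← Real.exp_add]; simp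
    have h6 := Real.exp_pos l
    by_contra hcon
    push Not at hcon
    have h7 : (8/7 : ℝ) * (7/8) < Real.exp l * Real.exp (-l) :=
      mul_lt_mul hcon (by linarith) (by norm_num) h6.le
    rw [h5] at h7
    norm_num at h7
  have h3' : Real.exp (-(1 - l)) ≤ 8 / 15 := by
    have h4 := Real.add_one_le_exp (1 - l)
    have h5 : Real.exp (1 - l) * Real.exp (-(1 - l)) = 1 := by rw [← Real.exp_add]; simp
    have h6 := Real.exp_pos (-(1 - l))
    by_contra hcon
    push Not at hcon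
    have h7 : (15/8 : ℝ) * (8/15) < Real.exp (1 - l) * Real.exp (-(1 - l)) := by
      apply mul_lt_mul' (by linarith) hcon (by norm_num) (Real.exp_pos _)
    rw [h5] at h7
    norm_num at h7
  have h8 : V (ρ (-(ww ρ r p x)) p) * (Real.exp l - 1) ≤ V (ρ (-(ww ρ r p x)) p) * (1 / 7) :=
    mul_le_mul_of_nonneg_left (by linarith) hv.le
  have h9 : V (ρ (-(ww ρ r p x)) p) * (7 / 15) ≤
      V (ρ (-(ww ρ r p x)) p) * (1 - Real.exp (-(1 - l))) :=
    mul_le_mul_of_nonneg_left (by linarith) hv.le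
  linarith

end CPE48
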