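import Pool.Agent.LibCPE48.QB3
import Pool.Agent.LibCPE48.QB4
import Pool.Agent.LibCPE48.QB5
import Pool.Agent.LibCPE48.QW2

/-! TASK QW3 (~120 lines).  The ray is a `RayQ` and the arcs of the ray have tubes.  Use the
imported statements.

`R w = ρ (-w) p`, `gam w = w - r (ρ (-w) p) 1`.
* `gam_ww`: `gam (ww x) = ww (x - 1)` (`ww_shift` with `t = 1`); iterate: `gam^[n] (ww x) = ww (x - n)`.
* `rayQ`: `inj` by `line_inj`; `lip`: `dist (ρ (-w) p) (ρ (-w') p) = dist (ρ (w' - w) p) p ≤ |w - w'|`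
  (isometry); `dense` is the hypothesis `hback`; `map`: `fl 1 (R w) = ρ (r (R w) 1) (ρ (-w) p)`;
  `nonneg`: for `w = 0`, `R 0 = p`, `r_p`; for `w > 0`, `r_ray_lt`.
* `exists_ltube`: put `c n = -(ww (β - n))`, `d' n = -(ww (α - n))` (so `c n < d' n`), and
  `d n = d' n + 2 (d' n - c n)`.  By `ww_gap` with `x = α - n`, `l = β - α`:
  `d n = -(ww (α - n)) + 2 (ww (β - n) - ww (α - n)) < -(ww (β - n - 1)) = c (n + 1) < 0`.
  `exists_disjoint_nhds` gives `U n`; `exists_stube` (for `[c n, d' n]`) gives `τ n`;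
  `ltube_of_stubes` with `L = 2 (β - α)` (`ww_lip`), lengths `→ 0` as `ww (β - n) → 0` (`ww_bot`).
  The set `{c | ∃ t ∈ Icc (c n) (d' n), c = ρ t p}` equals
  `(fun w => R (gam^[n] w)) '' Icc (ww α) (ww β)`: for `w = ww x`, `x ∈ [α, β]` (`ww` is a
  continuous increasing bijection from `[α, β]` onto `[ww α, ww β]`), `gam^[n] w = ww (x - n)` and
  `t = -(ww (x - n))` runs through `[c n, d' n]`.
-/

namespace CPE48

open Set Function Filter Topology

variable {X : Type*} [MetricSpace X] {ρ : ℝ → X → X} {V : X → ℝ} {p : X} {r : X → ℝ → ℝ}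

/-- the map of the ray -/
noncomputable def gam (ρ : ℝ → X → X) (r : X → ℝ → ℝ) (p : X) (w : ℝ) : ℝ :=
  w - r (ρ (-w) p) 1

theorem qw3_gam (h : SData ρ V p) (hr : IsR ρ V r) (x : ℝ) :
    gam ρ r p (ww ρ r p x) = ww ρ r p (x - 1) := by
  unfold gam
  rw [ww_shift h hr]
  ring

theorem gam_iter (h : SData ρ V p) (hr : IsR ρ V r) (n : ℕ) (x : ℝ) :
    (gam ρ r p)^[n] (ww ρ r p x) = ww ρ r p (x - n) := by
  induction n with
  | zero => simp
  | succ n ih =>
    rw [Function.iterate_succ_apply', ih, qw3_gam h hr]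
    congr 1
    push_cast
    ring

theorem rayQ_of (h : SData ρ V p) (hr : IsR ρ V r)
    (hback : ∀ T : ℝ, ∀ W : Set X, IsOpen W → W.Nonempty → ∃ u : ℝ, T ≤ u ∧ ρ (-u) p ∈ W) :
    RayQ (fl ρ r 1) (fun w => ρ (-w) p) (gam ρ r p) where
  cont := h.flow.cont.comp (continuous_neg.prodMk continuous_const)
  lip := by
    intro w w'
    have e : ρ (-w) p = ρ (-w') (ρ (w' - w) p) := by
      rw [← h.flow.add]
      congr 1
      ring
    show dist (ρ (-w) p) (ρ (-w') p) ≤ |w - w'|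
    rw [e, h.iso, abs_sub_comm]
    exact h.speed _ _
  inj := by
    intro w w' hww
    have hww' : ρ (-w) p = ρ (-w') p := hww
    have e : ρ (w' - w) p = p := by
      have h1 : ρ (w' - w) p = ρ w' (ρ (-w) p) := by
        rw [← h.flow.add]
        congr 1
      rw [h1, hww', ← h.flow.add, add_neg_cancel, h.flow.zero]
    have := h.free _ _ e
    linarith
  dense := hback
  map := by
    intro w _
    show ρ (r (ρ (-w) p) 1) (ρ (-w) p) = ρ (-(gam ρ r p w)) p
    rw [← h.flow.add]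
    congr 1
    unfold gam
    ring
  nonneg := by
    intro w hw
    rcases hw.eq_or_lt with rfl | hw
    · unfold gam
      rw [neg_zero, h.flow.zero, r_p h hr]
      simp
    · have := r_ray_lt h hr hw 1
      unfold gam
      linarith

theorem qw3_arc (h : SData ρ V p) (hr : IsR ρ V r) (α β : ℝ) (n : ℕ) :
    {c | ∃ t ∈ Icc (-(ww ρ r p (β - n))) (-(ww ρ r p (α - n))), c = ρ t p} =
      (fun w => ρ (-((gam ρ r p)^[n] w)) p) '' Icc (ww ρ r p α) (ww ρ r p β) := by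
  have hmono := ww_strict h hr
  ext c
  constructor
  · rintro ⟨t, ⟨ht1, ht2⟩, rfl⟩
    have hpos : 0 < -t := by
      have := ww_pos h hr (α - n)
      linarith
    obtain ⟨y, hy⟩ := ww_surj h hr (-t) hpos
    refine ⟨ww ρ r p (y + n), ⟨hmono.monotone ?_, hmono.monotone ?_⟩, ?_⟩
    · have : α - n ≤ y := hmono.le_iff_le.1 (by rw [hy]; linarith)
      linarith
    · have : y ≤ β - n := hmono.le_iff_le.1 (by rw [hy]; linarith)
      linarith
    · show ρ (-((gam ρ r p)^[n] (ww ρ r p (y + n)))) p = ρ t p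
      rw [gam_iter h hr, add_sub_cancel_right, hy, neg_neg]
  · rintro ⟨w, ⟨hw1, hw2⟩, rfl⟩
    have hpos : 0 < w := lt_of_lt_of_le (ww_pos h hr α) hw1
    obtain ⟨x, hx⟩ := ww_surj h hr w hpos
    have h1 : α ≤ x := hmono.le_iff_le.1 (by rw [hx]; exact hw1)
    have h2 : x ≤ β := hmono.le_iff_le.1 (by rw [hx]; exact hw2)
    refine ⟨-(ww ρ r p (x - n)), ⟨neg_le_neg (hmono.monotone (by linarith)),
      neg_le_neg (hmono.monotone (by linarith))⟩, ?_⟩
    show ρ (-((gam ρ r p)^[n] w)) p = ρ (-(ww ρ r p (x - n))) p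
    rw [← hx, gam_iter h hr]

theorem qw3_len (h : SData ρ V p) (hr : IsR ρ V r) (α β : ℝ) :
    Tendsto (fun n : ℕ => -(ww ρ r p (α - n)) - -(ww ρ r p (β - n))) atTop (𝓝 0) := by
  have hb : ∀ γ : ℝ, Tendsto (fun n : ℕ => ww ρ r p (γ - n)) atTop (𝓝 0) := by
    intro γ
    refine (ww_bot h hr).comp ?_
    have h1 : Tendsto (fun n : ℕ => -(n:ℝ)) atTop atBot :=
      tendsto_neg_atTop_atBot.comp tendsto_natCast_atTop_atTop
    exact tendsto_atBot_add_const_left _ γ h1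
  have h1 := (hb α).neg.sub (hb β).neg
  rw [neg_zero, sub_zero] at h1
  exact h1

theorem exists_ltube [CompactSpace X] (h : SData ρ V p) (hr : IsR ρ V r) (α β : ℝ)
    (hab : α < β) (hl : β - α ≤ 1 / 8) :
    ∃ σ : X → ℝ → ℝ, LTube ρ (fun n => (fun w => ρ (-((gam ρ r p)^[n] w)) p) ''
      Icc (ww ρ r p α) (ww ρ r p β)) (2 * (β - α)) σ := by
  have hmono := ww_strict h hr
  have hcd : ∀ n : ℕ, -(ww ρ r p (β - n)) < -(ww ρ r p (α - n)) := fun n =>
    neg_lt_neg (hmono (by linarith))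
  have hgap : ∀ n : ℕ, -(ww ρ r p (α - n)) + 2 * (-(ww ρ r p (α - n)) - -(ww ρ r p (β - n))) <
      -(ww ρ r p (β - ((n + 1 : ℕ) : ℝ))) := by
    intro n
    have h1 := ww_gap h hr (α - n) (β - α) (by linarith) hl
    have e1 : α - n + (β - α) = β - n := by ring
    have e2 : β - (n:ℝ) - 1 = β - ((n + 1 : ℕ) : ℝ) := by push_cast; ring
    rw [e1, e2] at h1
    linarith
  obtain ⟨U, hU, hUt, hUd⟩ := exists_disjoint_nhds h.flow h.free p
    (fun n : ℕ => -(ww ρ r p (β - n)))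
    (fun n : ℕ => -(ww ρ r p (α - n)) + 2 * (-(ww ρ r p (α - n)) - -(ww ρ r p (β - n))))
    (fun n => by
      have := hcd n
      show -(ww ρ r p (β - n)) ≤
        -(ww ρ r p (α - n)) + 2 * (-(ww ρ r p (α - n)) - -(ww ρ r p (β - n)))
      linarith)
    hgap
    (fun n => by
      have h1 := hgap n
      have h2 := ww_pos h hr (β - ((n + 1 : ℕ) : ℝ))
      show -(ww ρ r p (α - n)) + 2 * (-(ww ρ r p (α - n)) - -(ww ρ r p (β - n))) < 0
      linarith)
  have hT : ∀ n : ℕ, ∃ σ : X → ℝ → ℝ,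
      STube ρ p (-(ww ρ r p (β - n))) (-(ww ρ r p (α - n))) (U n) σ := fun n =>
    exists_stube h.flow h.free p _ _ (hcd n) (U n) (hU n) (hUt n)
  choose τ hτ using hT
  refine ⟨fun c r => ∑' n, τ n c (max r 0), ?_⟩
  have hfin := ltube_of_stubes h.flow p (fun n : ℕ => -(ww ρ r p (β - n)))
    (fun n : ℕ => -(ww ρ r p (α - n))) hcd U hU
    (fun n t ht => hUt n t ⟨ht.1, by
      have h1 := hcd n
      have h2 : t ≤ -(ww ρ r p (α - n)) := ht.2
      show t ≤ -(ww ρ r p (α - n)) + 2 * (-(ww ρ r p (α - n)) - -(ww ρ r p (β - n)))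
      linarith⟩)
    hUd τ hτ (qw3_len h hr α β) (2 * (β - α)) (fun n => by
      have h1 := ww_lip h hr (β - n) (α - n)
      have e : β - (n:ℝ) - (α - n) = β - α := by ring
      rw [e, abs_of_pos (sub_pos.2 hab)] at h1
      have h2 := le_abs_self (ww ρ r p (β - n) - ww ρ r p (α - n))
      show 2 * (-(ww ρ r p (α - n)) - -(ww ρ r p (β - n))) ≤ 2 * (β - α)
      linarith)
  have hA : (fun n : ℕ => {c | ∃ t ∈ Icc (-(ww ρ r p (β - n))) (-(ww ρ r p (α - n))),
      c = ρ t p}) = (fun n : ℕ => (fun w => ρ (-((gam ρ r p)^[n] w)) p) ''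
      Icc (ww ρ r p α) (ww ρ r p β)) := by
    funext n
    exact qw3_arc h hr α β n
  rw [← hA]
  exact hfin

end CPE48
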