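import Pool.Agent.LibCPE48.Defs

/-!
# Time changes of isometric flows: definitions
-/

namespace CPE48

open Set Function Filter Topology

/-- an isometric flow with a speed function `f` (values in `[1/2, 3/2]`) -/
structure TData {X : Type*} [MetricSpace X] (ρ : ℝ → X → X) (f : X → ℝ) : Prop where
  flow : IsFlow ρ
  iso : ∀ u p p', dist (ρ u p) (ρ u p') = dist p p'
  fc : Continuous f
  lo : ∀ p, 1 / 2 ≤ f p
  hi : ∀ p, f p ≤ 3 / 2

/-- the time needed to travel from `p` to `ρ r p` -/
noncomputable def tm {X : Type*} (ρ : ℝ → X → X) (f : X → ℝ) (p : X) (r : ℝ) : ℝ :=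
  ∫ u in (0:ℝ)..r, f (ρ u p)

open Classical in
/-- the inverse function of `tm` in the variable `r` -/
noncomputable def iv {X : Type*} (ρ : ℝ → X → X) (f : X → ℝ) (p : X) (T : ℝ) : ℝ :=
  if h : ∃ r, tm ρ f p r = T then h.choose else 0

/-- the time-changed flow -/
noncomputable def tc {X : Type*} (ρ : ℝ → X → X) (f : X → ℝ) (T : ℝ) (p : X) : X :=
  ρ (iv ρ f p T) p

end CPE48
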