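import Pool.Agent.LibCPE48.Defs

/-!
# The base: doubling map of a torus, and its marked invariant sets: definitions
-/

namespace CPE48

open Set Function Filter Topology

/-- the real representatives of the periodic orbit number `k` of the doubling map -/
noncomputable def ob (k j : ℕ) : ℝ := (2:ℝ) ^ j / (2 ^ (k + 2) - 1)

/-- the periodic orbit number `k` of the doubling map (period `k + 2`) -/
def orb (k : ℕ) : Set UnitAddCircle := {x | ∃ j < k + 2, x = ((ob k j : ℝ) : UnitAddCircle)}

/-- the marked sets of the torus -/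
def OO (m : ℕ) (k : ℕ) : Set (Fin (m + 1) → UnitAddCircle) :=
  {y | y 0 ∈ orb k ∧ ∀ i, i ≠ 0 → y i = 0}

/-- the radii -/
noncomputable def ee (k : ℕ) : ℝ := 1 / 2 ^ (2 * (k + 2) + 2)

/-- the doubling map of the torus -/
def dbl (m : ℕ) (y : Fin (m + 1) → UnitAddCircle) : Fin (m + 1) → UnitAddCircle := y + y

end CPE48
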